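import Pool.Agent.Lib_MP_1209e6_qx.TacTaylor

/-! The section of a surface without lines by a plane of the family is almost homogeneous. -/

set_option autoImplicit false

open Polynomial Pool.Agent.CampanaFlow

namespace Pool.Agent.QX

/-- a rational function field is almost homogeneous -/
theorem rat_model {L : Type} [Field L] [Algebra ℂ L] (k : IntermediateField ℂ L) (T : L)
    (hT : ¬ IsAlgebraic k T) (hgen : IntermediateField.adjoin ℂ ((k : Set L) ∪ {T}) = ⊤) :
    AlmostHomogeneous k (![1, T, T ^ 2, 1] : Fin (3 + 1) → L) := by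
  have hkC : CharZero k := charZero_of_injective_algebraMap (algebraMap ℂ k).injective
  have hind : AlgebraicIndependent k (fun _ : Unit => T) := by
    rw [algebraicIndependent_unique_type_iff]
    exact hT
  obtain ⟨D, hD⟩ := Pool.Agent.Campana.exists_derivation (k := k) (K := L) _ hind (fun _ => 1)
  refine (Pool.Agent.DP.homogeneous k T 1 (C 1) ?_ ?_ hT ?_ one_ne_zero ?_ (D.restrictScalars ℂ)
    (fun a ha => D.map_algebraMap ⟨a, ha⟩) (hD ())).1
  · intro n
    rw [coeff_C]
    split_ifs
    · exact one_mem _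
    · exact zero_mem _
  · rw [natDegree_C]
    exact Nat.zero_le _
  · rw [eval_C, one_pow]
  · rw [eq_top_iff, ← hgen, IntermediateField.adjoin_le_iff]
    rintro a (ha | ha)
    · exact IntermediateField.subset_adjoin _ _ (Or.inl ha)
    · exact IntermediateField.subset_adjoin _ _ (Or.inr (Or.inl ha))

/-- the polynomial on a line -/
noncomputable def onLine {k L : Type} [Field k] [Field L] [Algebra k L] (G : MvPolynomial (Fin 2) k)
    (p v : Fin 2 → L) : L[X] :=
  MvPolynomial.aeval (fun i => C (p i) + X * C (v i)) G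

theorem onLine_eval {k L : Type} [Field k] [Field L] [Algebra k L] (G : MvPolynomial (Fin 2) k)
    (p v : Fin 2 → L) (x : L) :
    (onLine G p v).eval x = MvPolynomial.aeval (fun i => p i + x * v i) G := by
  unfold onLine
  induction G using MvPolynomial.induction_on with
  | C c =>
    rw [MvPolynomial.aeval_C, MvPolynomial.aeval_C]
    simp [Polynomial.algebraMap_apply]
  | add p q hp hq => rw [map_add, map_add, eval_add, hp, hq]
  | mul_X p n hp =>
    rw [map_mul, map_mul, eval_mul, hp, MvPolynomial.aeval_X, MvPolynomial.aeval_X, eval_add, eval_C,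
      eval_mul, eval_X, eval_C]

/-- the coefficients on a line with coordinates in a subfield lie in the subfield -/
theorem onLine_coeff {k L : Type} [Field k] [Field L] [Algebra k L] (G : MvPolynomial (Fin 2) k)
    (A : IntermediateField k L) (p v : Fin 2 → L) (hp : ∀ i, p i ∈ A) (hv : ∀ i, v i ∈ A) (n : ℕ) :
    (onLine G p v).coeff n ∈ A := by
  have h : onLine G p v = (onLine G (fun i => (⟨p i, hp i⟩ : A)) (fun i => (⟨v i, hv i⟩ : A))).map
      (algebraMap A L) := by
    unfold onLine
    induction G using MvPolynomial.induction_on with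
    | C c =>
      rw [MvPolynomial.aeval_C, MvPolynomial.aeval_C, Polynomial.algebraMap_apply,
        Polynomial.algebraMap_apply, map_C]
      rfl
    | add p q hp hq => rw [map_add, map_add, Polynomial.map_add, hp, hq]
    | mul_X p n hp =>
      rw [map_mul, map_mul, Polynomial.map_mul, hp, MvPolynomial.aeval_X, MvPolynomial.aeval_X]
      simp
  rw [h, coeff_map]
  exact SetLike.coe_mem _

/-- a zero of a nonzero polynomial whose coefficients are algebraic is algebraic -/
theorem alg_of_coeff {k L : Type} [Field k] [Field L] [Algebra k L] (Q : L[X]) (hQ : Q ≠ 0)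
    (hc : ∀ n, IsAlgebraic k (Q.coeff n)) (x : L) (hx : Q.eval x = 0) : IsAlgebraic k x := by
  let A : IntermediateField k L := algebraicClosure k L
  have hA : ∀ n, Q.coeff n ∈ A := fun n => mem_algebraicClosure_iff.2 (hc n)
  have hlift : Q ∈ Polynomial.lifts (algebraMap A L) := by
    rw [Polynomial.lifts_iff_coeff_lifts]
    intro n
    exact ⟨⟨Q.coeff n, hA n⟩, rfl⟩
  obtain ⟨Q', hQ'⟩ := (Polynomial.mem_lifts _).1 hlift
  have h1 : IsAlgebraic A x := by
    refine ⟨Q', ?_, ?_⟩
    · rintro rfl
      rw [Polynomial.map_zero] at hQ'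
      exact hQ hQ'.symm
    · rw [aeval_def, ← eval_map, hQ']
      exact hx
  have h2 : IsIntegral k x := isIntegral_trans (R := k) (A := A) x h1.isIntegral
  exact h2.isAlgebraic

/-- **Every section of the family is almost homogeneous.** -/
theorem tac_section {L : Type} [Field L] [Algebra ℂ L] (k : IntermediateField ℂ L)
    (G : MvPolynomial (Fin 2) k) (hG : G.totalDegree ≤ 4) (a b γ s1 s2 b0 b1 : k)
    (h0 : MvPolynomial.aeval (linePt a b) G = C γ * ((X - C s1) * (X - C s2)) ^ 2)
    (h1 : MvPolynomial.aeval (linePt a b) (MvPolynomial.pderiv 1 G) =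
      (X - C s1) * (X - C s2) * (C b0 + C b1 * X))
    (hline : ∀ p v : Fin 2 → L, v ≠ 0 → onLine G p v ≠ 0)
    (P : Fin 2 → L) (hP : MvPolynomial.aeval P G = 0)
    (hPt : ¬ (IsAlgebraic k (P 0) ∧ IsAlgebraic k (P 1)))
    (hgen : IntermediateField.adjoin ℂ ((k : Set L) ∪ Set.range P) = ⊤) :
    ∃ T w : L, AlmostHomogeneous k (![1, T, T ^ 2, w] : Fin (3 + 1) → L) := by
  have hL : CharZero L := charZero_of_injective_algebraMap (algebraMap ℂ L).injective
  have halgk : ∀ c : k, IsAlgebraic k (c : L) := fun c => isAlgebraic_algebraMap c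
  obtain ⟨a0, a1, a2, c0, c1, ε, htay⟩ := tac_taylor G hG a b γ s1 s2 b0 b1 h0 h1
  set r : L := P 0 - s1 with hrdef
  have hr : r ≠ 0 := by
    intro hr0
    have hP0 : P 0 = s1 := sub_eq_zero.1 hr0
    have h2 : IsAlgebraic k (P 0) := by
      rw [hP0]
      exact halgk s1
    refine hPt ⟨h2, ?_⟩
    have hv : (![0, 1] : Fin 2 → L) ≠ 0 := by
      intro h
      exact one_ne_zero (congrFun h 1)
    refine alg_of_coeff (onLine G (![(s1 : L), 0]) (![0, 1])) (hline _ _ hv) ?_ (P 1) ?_
    · intro n
      have h3 := onLine_coeff G (⊥ : IntermediateField k L) (![(s1 : L), 0]) (![0, 1]) ?_ ?_ n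
      · obtain ⟨c, hc⟩ := IntermediateField.mem_bot.1 h3
        rw [← hc]
        exact isAlgebraic_algebraMap c
      · intro i
        fin_cases i
        · exact IntermediateField.mem_bot.2 ⟨s1, rfl⟩
        · exact zero_mem _
      · intro i
        fin_cases i
        · exact zero_mem _
        · exact one_mem _
    · have hfun : (fun i => (![(s1 : L), 0] : Fin 2 → L) i + P 1 * (![0, 1] : Fin 2 → L) i) = P := by
        funext i
        fin_cases i
        · simp [hP0]
        · simp
      rw [onLine_eval, hfun, hP]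
  set Λ : L := P 1 - a - b * P 0 with hΛ
  set T : L := Λ / r with hTdef
  have hTr : T * r = Λ := div_mul_cancel₀ _ hr
  have hP0 : P 0 = s1 + r := by
    rw [hrdef]
    ring
  have hP1 : P 1 = a + b * (s1 + r) + T * r := by
    rw [hTr, hΛ, hP0]
    ring
  have hv : ∀ c : L, (![1, c] : Fin 2 → L) ≠ 0 := by
    intro c h
    exact one_ne_zero (congrFun h 0)
  have hT : ¬ IsAlgebraic k T := by
    intro hTa
    have h3 : IsAlgebraic k r := by
      refine alg_of_coeff (onLine G (![(s1 : L), a + b * s1]) (![1, b + T])) (hline _ _ (hv _)) ?_ r ?_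
      · intro n
        refine mem_algebraicClosure_iff.1 (onLine_coeff G (algebraicClosure k L)
          (![(s1 : L), a + b * s1]) (![1, b + T]) ?_ ?_ n)
        · intro i
          fin_cases i
          · exact mem_algebraicClosure_iff.2 (halgk s1)
          · exact mem_algebraicClosure_iff.2 ((halgk a).add ((halgk b).mul (halgk s1)))
        · intro i
          fin_cases i
          · exact mem_algebraicClosure_iff.2 isAlgebraic_one
          · exact mem_algebraicClosure_iff.2 ((halgk b).add hTa)
      · have hfun : (fun i => (![(s1 : L), a + b * s1] : Fin 2 → L) i +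
            r * (![1, b + T] : Fin 2 → L) i) = P := by
          funext i
          fin_cases i
          · simp [hP0]
          · simp [hP1]
            ring
        rw [onLine_eval, hfun, hP]
    apply hPt
    constructor
    · rw [hP0]
      exact (halgk s1).add h3
    · rw [hP1]
      exact ((halgk a).add ((halgk b).mul ((halgk s1).add h3))).add (hTa.mul h3)
  have hGt : tacG (γ : L) s1 s2 b0 b1 a0 a1 a2 c0 c1 ε (s1 + r) (T * r) = 0 := by
    have h3 := htay L (s1 + r) (T * r)
    have h4 : (![(s1 : L) + r, algebraMap k L a + algebraMap k L b * (s1 + r) + T * r] : Fin 2 → L) =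
        P := by
      funext i
      fin_cases i
      · exact hP0.symm
      · exact hP1.symm
    rw [h4, hP] at h3
    exact h3.symm
  have hgen2 : IntermediateField.adjoin ℂ ((k : Set L) ∪ {T, r}) = ⊤ := by
    rw [eq_top_iff, ← hgen, IntermediateField.adjoin_le_iff]
    have hk : ∀ c : k, (c : L) ∈ IntermediateField.adjoin ℂ ((k : Set L) ∪ {T, r}) := fun c =>
      IntermediateField.subset_adjoin _ _ (Or.inl c.2)
    have hTF : T ∈ IntermediateField.adjoin ℂ ((k : Set L) ∪ {T, r}) :=
      IntermediateField.subset_adjoin _ _ (Or.inr (Or.inl rfl))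
    have hrF : r ∈ IntermediateField.adjoin ℂ ((k : Set L) ∪ {T, r}) :=
      IntermediateField.subset_adjoin _ _ (Or.inr (Or.inr rfl))
    rintro c (hc | ⟨i, rfl⟩)
    · exact hk ⟨c, hc⟩
    · fin_cases i
      · change P 0 ∈ _
        rw [hP0]
        exact add_mem (hk s1) hrF
      · change P 1 ∈ _
        rw [hP1]
        exact add_mem (add_mem (hk a) (mul_mem (hk b) (add_mem (hk s1) hrF))) (mul_mem hTF hrF)
  by_cases hW : tacW (γ : L) s1 s2 b0 b1 a1 a2 c0 c1 ε T r = 0
  · -- the section is rational
    set g3 : L := -2 * γ * (s2 - s1) + T * ((b0 + b1 * s1) - (s2 - s1) * b1) +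
      T ^ 2 * (a1 + 2 * a2 * s1) + T ^ 3 * (c0 + c1 * s1) with hg3
    set g4 : L := γ + T * b1 + T ^ 2 * a2 + T ^ 3 * c1 + T ^ 4 * ε with hg4
    set g2 : L := γ * (s2 - s1) ^ 2 - T * (s2 - s1) * (b0 + b1 * s1) +
      T ^ 2 * (a0 + a1 * s1 + a2 * s1 ^ 2) with hg2
    have hWe : 2 * g4 * r + g3 = 0 := by
      rw [← hW]
      simp only [tacW, hg3, hg4]
    have hquad : g2 + g3 * r + g4 * r ^ 2 = 0 := by
      have h3 : r ^ 2 * (g2 + g3 * r + g4 * r ^ 2) = 0 := by
        rw [← hGt]
        simp only [tacG, hg2, hg3, hg4]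
        ring
      exact (mul_eq_zero.1 h3).resolve_left (pow_ne_zero 2 hr)
    have hg40 : g4 ≠ 0 := by
      intro h4
      have h3 : g3 = 0 := by
        rw [h4] at hWe
        linear_combination hWe
      have h2 : g2 = 0 := by
        rw [h4, h3] at hquad
        linear_combination hquad
      apply hline (![(s1 : L), a + b * s1]) (![1, b + T]) (hv _)
      have h5 := htay L[X] (C (s1 : L) + X) (C T * X)
      have h6 : onLine G (![(s1 : L), a + b * s1]) (![1, b + T]) =
          MvPolynomial.aeval (![C (s1 : L) + X, algebraMap k L[X] a + algebraMap k L[X] b *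
            (C (s1 : L) + X) + C T * X] : Fin 2 → L[X]) G := by
        have hfun : (fun i => C ((![(s1 : L), a + b * s1] : Fin 2 → L) i) +
            X * C ((![1, b + T] : Fin 2 → L) i)) = (![C (s1 : L) + X, algebraMap k L[X] a +
              algebraMap k L[X] b * (C (s1 : L) + X) + C T * X] : Fin 2 → L[X]) := by
          funext i
          fin_cases i
          · simp
          · change C ((a : L) + b * s1) + X * C ((b : L) + T) = C (a : L) + C (b : L) *
              (C (s1 : L) + X) + C T * X
            simp only [C_add, C_mul]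
            ring
        unfold onLine
        rw [hfun]
      rw [h6, h5]
      have h7 : tacG (algebraMap k L[X] γ) (algebraMap k L[X] s1) (algebraMap k L[X] s2)
          (algebraMap k L[X] b0) (algebraMap k L[X] b1) (algebraMap k L[X] a0)
          (algebraMap k L[X] a1) (algebraMap k L[X] a2) (algebraMap k L[X] c0)
          (algebraMap k L[X] c1) (algebraMap k L[X] ε) (C (s1 : L) + X) (C T * X) =
          X ^ 2 * (C g2 + C g3 * X + C g4 * X ^ 2) := by
        have hc : ∀ c : k, algebraMap k L[X] c = C (c : L) := fun c => rfl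
        simp only [tacG, hc, hg2, hg3, hg4, C_add, C_mul, C_sub, C_pow, C_neg, map_ofNat]
        ring
      rw [h7, h2, h3, h4]
      simp
    refine ⟨T, 1, rat_model k T hT ?_⟩
    rw [eq_top_iff, ← hgen2, IntermediateField.adjoin_le_iff]
    have hk : ∀ c : k, (c : L) ∈ IntermediateField.adjoin ℂ ((k : Set L) ∪ {T}) := fun c =>
      IntermediateField.subset_adjoin _ _ (Or.inl c.2)
    have hTF : T ∈ IntermediateField.adjoin ℂ ((k : Set L) ∪ {T}) :=
      IntermediateField.subset_adjoin _ _ (Or.inr rfl)
    have h2F : (2 : L) ∈ IntermediateField.adjoin ℂ ((k : Set L) ∪ {T}) :=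
      natCast_mem (IntermediateField.adjoin ℂ ((k : Set L) ∪ {T})) 2
    have hTn : ∀ n : ℕ, T ^ n ∈ IntermediateField.adjoin ℂ ((k : Set L) ∪ {T}) := fun n =>
      pow_mem hTF n
    have hg3F : g3 ∈ IntermediateField.adjoin ℂ ((k : Set L) ∪ {T}) :=
      add_mem (add_mem (add_mem (mul_mem (mul_mem (neg_mem h2F) (hk γ)) (sub_mem (hk s2) (hk s1)))
        (mul_mem hTF (sub_mem (add_mem (hk b0) (mul_mem (hk b1) (hk s1)))
          (mul_mem (sub_mem (hk s2) (hk s1)) (hk b1)))))
        (mul_mem (hTn 2) (add_mem (hk a1) (mul_mem (mul_mem h2F (hk a2)) (hk s1)))))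
        (mul_mem (hTn 3) (add_mem (hk c0) (mul_mem (hk c1) (hk s1))))
    have hg4F : g4 ∈ IntermediateField.adjoin ℂ ((k : Set L) ∪ {T}) :=
      add_mem (add_mem (add_mem (add_mem (hk γ) (mul_mem hTF (hk b1))) (mul_mem (hTn 2) (hk a2)))
        (mul_mem (hTn 3) (hk c1))) (mul_mem (hTn 4) (hk ε))
    have hre : r = -g3 / (2 * g4) := by
      rw [eq_div_iff (mul_ne_zero two_ne_zero hg40)]
      linear_combination hWe
    rintro c (hc | hc | hc)
    · exact hk ⟨c, hc⟩
    · rw [hc]
      exact hTF
    · rw [Set.mem_singleton_iff.1 hc, hre]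
      exact div_mem (neg_mem hg3F) (mul_mem h2F hg4F)
  · obtain ⟨w, hw⟩ := tac_model k γ s1 s2 b0 b1 a0 a1 a2 c0 c1 ε r T hr hT hGt hW hgen2
    exact ⟨T, w, hw⟩

end Pool.Agent.QX
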