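import Pool.Agent.Lib_MP_1209e6_qx.Defs
import Pool.Agent.Lib_MP_1209e6_qx.TacAll
import Pool.Agent.Lib_MP_1209e6_dp.DerAlg

/-! PIECE MODEL: the section is a curve `w² = q(m)`, `deg q ≤ 4`. -/

set_option autoImplicit false

open MvPolynomial Pool.Agent.CampanaFlow

noncomputable section

namespace Pool.Agent.QX

/-- the values of a quadratic form in three variables -/
theorem quad_expand {L : Type} [Field L] (A : MvPolynomial (Fin 3) L) (hA : A.IsHomogeneous 2) :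
    ∃ a : Fin 6 → L, (∀ i, ∃ m, a i = A.coeff m) ∧ ∀ p : Fin 3 → L, eval p A =
      a 0 * p 0 ^ 2 + a 1 * (p 0 * p 1) + a 2 * p 1 ^ 2 + a 3 * (p 0 * p 2) + a 4 * (p 1 * p 2) +
        a 5 * p 2 ^ 2 := by
  classical
  let E : ℕ → ℕ → ℕ → (Fin 3 →₀ ℕ) := fun x y z => Finsupp.equivFunOnFinite.symm ![x, y, z]
  have hE : ∀ x y z x' y' z', E x y z = E x' y' z' ↔ x = x' ∧ y = y' ∧ z = z' := by
    intro x y z x' y' z'
    constructor
    · intro h
      have h0 := DFunLike.congr_fun h 0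
      have h1 := DFunLike.congr_fun h 1
      have h2 := DFunLike.congr_fun h 2
      exact ⟨h0, h1, h2⟩
    · rintro ⟨rfl, rfl, rfl⟩
      rfl
  let S : Finset (Fin 3 →₀ ℕ) := {E 2 0 0, E 1 1 0, E 0 2 0, E 1 0 1, E 0 1 1, E 0 0 2}
  have hsub : A.support ⊆ S := by
    intro d hd
    have h1 : d.degree = 2 := by
      by_contra h
      exact mem_support_iff.1 hd (hA.coeff_eq_zero h)
    have h2 : d 0 + d 1 + d 2 = 2 := by
      have h3 := h1
      rw [Finsupp.degree_eq_sum, Fin.sum_univ_three] at h3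
      exact h3
    have h3 : d = E (d 0) (d 1) (d 2) := by
      ext i
      fin_cases i
      · rfl
      · rfl
      · rfl
    have h4 : d 0 ≤ 2 := by omega
    have h5 : d 1 ≤ 2 := by omega
    rw [h3]
    generalize d 0 = x at *
    generalize d 1 = y at *
    generalize d 2 = z at *
    interval_cases x
    · interval_cases y
      · obtain rfl : z = 2 := by omega
        simp [S]
      · obtain rfl : z = 1 := by omega
        simp [S]
      · obtain rfl : z = 0 := by omega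
        simp [S]
    · interval_cases y
      · obtain rfl : z = 1 := by omega
        simp [S]
      · obtain rfl : z = 0 := by omega
        simp [S]
      · omega
    · interval_cases y
      · obtain rfl : z = 0 := by omega
        simp [S]
      · omega
      · omega
  refine ⟨![A.coeff (E 2 0 0), A.coeff (E 1 1 0), A.coeff (E 0 2 0), A.coeff (E 1 0 1),
    A.coeff (E 0 1 1), A.coeff (E 0 0 2)], ?_, ?_⟩
  · intro i
    fin_cases i
    · exact ⟨_, rfl⟩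
    · exact ⟨_, rfl⟩
    · exact ⟨_, rfl⟩
    · exact ⟨_, rfl⟩
    · exact ⟨_, rfl⟩
    · exact ⟨_, rfl⟩
  · intro p
    rw [eval_eq', Finset.sum_subset hsub fun d _ hd => by rw [notMem_support_iff.1 hd, zero_mul]]
    have hv : ∀ x y z, ∏ i, p i ^ (E x y z) i = p 0 ^ x * p 1 ^ y * p 2 ^ z := by
      intro x y z
      rw [Fin.prod_univ_three]
      rfl
    simp only [S]
    rw [Finset.sum_insert (by simp [hE]), Finset.sum_insert (by simp [hE]),
      Finset.sum_insert (by simp [hE]), Finset.sum_insert (by simp [hE]),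
      Finset.sum_insert (by simp [hE]), Finset.sum_singleton]
    simp only [hv, Matrix.cons_val]
    ring

/-- the rational case -/
theorem tac_rat {L : Type} [Field L] [Algebra ℂ L] (k : IntermediateField ℂ L)
    (γ s1 s2 b0 b1 a1 a2 c0 c1 ε : k) (r T : L) (hT : ¬ IsAlgebraic k T)
    (hW : tacW (γ : L) s1 s2 b0 b1 a1 a2 c0 c1 ε T r = 0)
    (h4 : (γ : L) + T * b1 + T ^ 2 * a2 + T ^ 3 * c1 + T ^ 4 * ε ≠ 0)
    (hgen : IntermediateField.adjoin ℂ ((k : Set L) ∪ {T, r}) = ⊤) :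
    AlmostHomogeneous k (![1, T, T ^ 2, 1] : Fin (3 + 1) → L) := by
  have hL : CharZero L := charZero_of_injective_algebraMap (algebraMap ℂ L).injective
  refine rat_model k T hT ?_
  set g3 : L := -2 * γ * (s2 - s1) + T * ((b0 + b1 * s1) - (s2 - s1) * b1) +
    T ^ 2 * (a1 + 2 * a2 * s1) + T ^ 3 * (c0 + c1 * s1) with hg3
  set g4 : L := γ + T * b1 + T ^ 2 * a2 + T ^ 3 * c1 + T ^ 4 * ε with hg4
  have hWe : 2 * g4 * r + g3 = 0 := by
    rw [← hW]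
    simp only [tacW, hg3, hg4]
  rw [eq_top_iff, ← hgen, IntermediateField.adjoin_le_iff]
  have hk : ∀ c : k, (c : L) ∈ IntermediateField.adjoin ℂ ((k : Set L) ∪ {T}) := fun c =>
    IntermediateField.subset_adjoin _ _ (Or.inl c.2)
  have hTF : T ∈ IntermediateField.adjoin ℂ ((k : Set L) ∪ {T}) :=
    IntermediateField.subset_adjoin _ _ (Or.inr rfl)
  have h2F : (2 : L) ∈ IntermediateField.adjoin ℂ ((k : Set L) ∪ {T}) :=
    natCast_mem (IntermediateField.adjoin ℂ ((k : Set L) ∪ {T})) 2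
  have hTn : ∀ n : ℕ, T ^ n ∈ IntermediateField.adjoin ℂ ((k : Set L) ∪ {T}) := fun n =>
    pow_mem hTF n
  have hg3F : g3 ∈ IntermediateField.adjoin ℂ ((k : Set L) ∪ {T}) :=
    add_mem (add_mem (add_mem (mul_mem (mul_mem (neg_mem h2F) (hk γ)) (sub_mem (hk s2) (hk s1)))
      (mul_mem hTF (sub_mem (add_mem (hk b0) (mul_mem (hk b1) (hk s1)))
        (mul_mem (sub_mem (hk s2) (hk s1)) (hk b1)))))
      (mul_mem (hTn 2) (add_mem (hk a1) (mul_mem (mul_mem h2F (hk a2)) (hk s1)))))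
      (mul_mem (hTn 3) (add_mem (hk c0) (mul_mem (hk c1) (hk s1))))
  have hg4F : g4 ∈ IntermediateField.adjoin ℂ ((k : Set L) ∪ {T}) :=
    add_mem (add_mem (add_mem (add_mem (hk γ) (mul_mem hTF (hk b1))) (mul_mem (hTn 2) (hk a2)))
      (mul_mem (hTn 3) (hk c1))) (mul_mem (hTn 4) (hk ε))
  have hre : r = -g3 / (2 * g4) := by
    rw [eq_div_iff (mul_ne_zero two_ne_zero h4)]
    linear_combination hWe
  rintro c (hc | hc | hc)
  · exact hk ⟨c, hc⟩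
  · rw [hc]
    exact hTF
  · rw [Set.mem_singleton_iff.1 hc, hre]
    exact div_mem (neg_mem hg3F) (mul_mem h2F hg4F)

/-- `c (p) = (p₁ - s₁ p₀)(p₁ - s₂ p₀)`. Put `r₁ = p₁ - s₁ p₀ ≠ 0` (else `p₂/p₀` is algebraic by `hp`..), `m = p₂ / r₁`,
`σ = r₁ / p₀`, `δ = s₂ - s₁`. `hp / r₁²` is `a₁₁ σ² + a₀₁ σ + a₀₀ = 0` with
`a₁₁ = g + b₁ m + m² (A₁₁ + m A₁₂ + m² A₂₂)`, `a₀₁ = -2 g δ + m (b₀ + b₁ s₁ - δ b₁) + m² (..)`,
`a₀₀ = g δ² - m δ (b₀ + b₁ s₁) + m² A (1, s₁, 0)`; `w = (2 a₁₁ σ + a₀₁) / m`, `w² = (a₀₁² - 4 a₀₀ a₁₁) / m² = q (m)`,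
`q` a polynomial of degree `≤ 4` with coefficients in `k` (the coefficients of `m⁵`, `m⁶` cancel). `a₁₁ ≠ 0`: `g ≠ 0`
and `m` is transcendental over `k` (`D m ≠ 0`), so `L = k (m, w)`; if `w = 0` take `w = 1`, `q = 1`. -/
theorem model {L : Type} [Field L] [Algebra ℂ L] (k : IntermediateField ℂ L) (s₁ s₂ g b₀ b₁ : L)
    (h1 : s₁ ∈ k) (h2 : s₂ ∈ k) (hgk : g ∈ k) (hb0 : b₀ ∈ k) (hb1 : b₁ ∈ k) (hg : g ≠ 0)
    (A : MvPolynomial (Fin 3) L) (hA : A.IsHomogeneous 2) (hAk : ∀ m, A.coeff m ∈ k) (p : Fin 3 → L)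
    (hp0 : p 0 ≠ 0) (hr : p 1 - s₁ * p 0 ≠ 0)
    (hp : g * ((p 1 - s₁ * p 0) * (p 1 - s₂ * p 0)) ^ 2 +
      p 2 * (b₀ * p 0 + b₁ * p 1) * ((p 1 - s₁ * p 0) * (p 1 - s₂ * p 0)) + p 2 ^ 2 * eval p A = 0)
    (D : Derivation ℂ L L) (hD : ∀ a ∈ k, D a = 0) (hDm : D (p 2 / (p 1 - s₁ * p 0)) ≠ 0)
    (hgen : IntermediateField.adjoin ℂ ((k : Set L) ∪ {p 1 / p 0, p 2 / p 0}) = ⊤) :
    ∃ (N : ℕ) (x : Fin (N + 1) → L), AlmostHomogeneous k x := by
  obtain ⟨a, ha, hev⟩ := quad_expand A hA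
  have hak : ∀ i, a i ∈ k := by
    intro i
    obtain ⟨m, hm⟩ := ha i
    rw [hm]
    exact hAk m
  set T : L := p 2 / (p 1 - s₁ * p 0) with hTd
  have hT : ¬ IsAlgebraic k T := fun h => hDm (Pool.Agent.DP.der_alg k D hD h)
  set r : L := (p 1 - s₁ * p 0) / p 0 with hrd
  have hr0 : r ≠ 0 := div_ne_zero hr hp0
  have e1 : p 1 = (s₁ + r) * p 0 := by
    rw [hrd]
    field_simp
    ring
  have e2 : p 2 = T * r * p 0 := by
    rw [hrd, hTd]
    field_simp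
  have hG : tacG g s₁ s₂ b₀ b₁ (a 0) (a 1) (a 2) (a 3) (a 4) (a 5) (s₁ + r) (T * r) = 0 := by
    have h3 : p 0 ^ 4 * tacG g s₁ s₂ b₀ b₁ (a 0) (a 1) (a 2) (a 3) (a 4) (a 5) (s₁ + r) (T * r) =
        0 := by
      rw [← hp, hev, e1, e2]
      simp only [tacG]
      ring
    exact (mul_eq_zero.1 h3).resolve_left (pow_ne_zero 4 hp0)
  have hgen2 : IntermediateField.adjoin ℂ ((k : Set L) ∪ {T, r}) = ⊤ := by
    rw [eq_top_iff, ← hgen, IntermediateField.adjoin_le_iff]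
    have hk : ∀ c ∈ k, c ∈ IntermediateField.adjoin ℂ ((k : Set L) ∪ {T, r}) := fun c hc =>
      IntermediateField.subset_adjoin _ _ (Or.inl hc)
    have hTF : T ∈ IntermediateField.adjoin ℂ ((k : Set L) ∪ {T, r}) :=
      IntermediateField.subset_adjoin _ _ (Or.inr (Or.inl rfl))
    have hrF : r ∈ IntermediateField.adjoin ℂ ((k : Set L) ∪ {T, r}) :=
      IntermediateField.subset_adjoin _ _ (Or.inr (Or.inr rfl))
    rintro c (hc | hc | hc)
    · exact hk c hc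
    · have h3 : c = s₁ + r := by
        rw [hc, e1, mul_div_cancel_right₀ _ hp0]
      rw [h3]
      exact add_mem (hk _ h1) hrF
    · have h3 : c = T * r := by
        rw [Set.mem_singleton_iff.1 hc, e2, mul_div_cancel_right₀ _ hp0]
      rw [h3]
      exact mul_mem hTF hrF
  by_cases hW : tacW g s₁ s₂ b₀ b₁ (a 1) (a 2) (a 3) (a 4) (a 5) T r = 0
  · have h4 : g + T * b₁ + T ^ 2 * a 2 + T ^ 3 * a 4 + T ^ 4 * a 5 ≠ 0 := by
      intro h4
      apply hT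
      let q : Polynomial k := Polynomial.C ⟨g, hgk⟩ + Polynomial.X * Polynomial.C ⟨b₁, hb1⟩ +
        Polynomial.X ^ 2 * Polynomial.C ⟨a 2, hak 2⟩ + Polynomial.X ^ 3 * Polynomial.C ⟨a 4, hak 4⟩ +
        Polynomial.X ^ 4 * Polynomial.C ⟨a 5, hak 5⟩
      refine ⟨q, ?_, ?_⟩
      · intro hq
        apply hg
        have h5 := congrArg (Polynomial.eval 0) hq
        simp only [q, Polynomial.eval_add, Polynomial.eval_mul, Polynomial.eval_C,
          Polynomial.eval_pow, Polynomial.eval_X, Polynomial.eval_zero] at h5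
        have h6 := congrArg (algebraMap k L) h5
        simpa using h6
      · simp only [q, map_add, map_mul, map_pow, Polynomial.aeval_C, Polynomial.aeval_X]
        exact h4
    exact ⟨_, _, tac_rat k ⟨g, hgk⟩ ⟨s₁, h1⟩ ⟨s₂, h2⟩ ⟨b₀, hb0⟩ ⟨b₁, hb1⟩ ⟨a 1, hak 1⟩ ⟨a 2, hak 2⟩
      ⟨a 3, hak 3⟩ ⟨a 4, hak 4⟩ ⟨a 5, hak 5⟩ r T hT hW h4 hgen2⟩
  · obtain ⟨w, hw⟩ := tac_model k ⟨g, hgk⟩ ⟨s₁, h1⟩ ⟨s₂, h2⟩ ⟨b₀, hb0⟩ ⟨b₁, hb1⟩ ⟨a 0, hak 0⟩
      ⟨a 1, hak 1⟩ ⟨a 2, hak 2⟩ ⟨a 3, hak 3⟩ ⟨a 4, hak 4⟩ ⟨a 5, hak 5⟩ r T hr0 hT hG hW hgen2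
    exact ⟨_, _, hw⟩

end Pool.Agent.QX
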