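import Pool.Agent.Lib_MP_1209e6_qx.Defs
import Pool.Agent.Lib_MP_1209e6_ds.Coef
import Pool.Agent.Lib_MP_1209e6_ds.Krull20
import Pool.Agent.Lib_MP_1209e6_ds.Coprime

/-! Generic points of a smooth quartic surface are not in the plane `X₀ = 0`. -/

set_option autoImplicit false

open MvPolynomial

noncomputable section

namespace Pool.Agent.QX

theorem x86_scale {σ : Type} {F : MvPolynomial σ ℂ} {d : ℕ} (hF : F.IsHomogeneous d) {R : Type}
    [CommRing R] [Algebra ℂ R] (c : R) (x : σ → R) :
    aeval (fun j => c * x j) F = c ^ d * aeval x F := by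
  classical
  rw [MvPolynomial.aeval_def, MvPolynomial.aeval_def, MvPolynomial.eval₂_eq, MvPolynomial.eval₂_eq,
    Finset.mul_sum]
  refine Finset.sum_congr rfl fun m hm => ?_
  have h2 : ∑ i ∈ m.support, m i = d := by
    have h3 := hF (MvPolynomial.mem_support_iff.1 hm)
    rw [← h3]
    simp [Finsupp.weight_apply, Finsupp.sum]
  have h1 : (∏ i ∈ m.support, (c * x i) ^ m i) = c ^ d * ∏ i ∈ m.support, x i ^ m i := by
    simp only [mul_pow]
    rw [Finset.prod_mul_distrib, Finset.prod_pow_eq_pow_sum, h2]
  rw [h1]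
  ring

/-- a form which vanishes at the points `x 0 = 0`, `x i = 1` of a plane has all partial derivatives in the
directions of the plane zero there -/
theorem x86_part {F : MvPolynomial (Fin 4) ℂ} {d : ℕ} (hF : F.IsHomogeneous d) (i : Fin 4) (hi : i ≠ 0)
    (h : ∀ x : Fin 4 → ℂ, x 0 = 0 → x i = 1 → aeval x F = 0) (j : Fin 4) (hj : j ≠ 0) (y : Fin 4 → ℂ)
    (hy : y 0 = 0) : aeval y (pderiv j F) = 0 := by
  classical
  set g : Fin 4 → MvPolynomial (Fin 4) ℂ := fun a => if a = 0 then 0 else X a with hg
  have hev : ∀ (x : Fin 4 → ℂ) (P : MvPolynomial (Fin 4) ℂ), eval x (aeval g P) =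
      aeval (fun a => if a = 0 then 0 else x a) P := by
    intro x P
    have h1 : eval x (aeval g P) = aeval x (aeval g P) := (aeval_eq_eval x).symm ▸ rfl
    rw [h1, ← AlgHom.comp_apply, comp_aeval]
    congr 2
    funext a
    by_cases ha : a = 0
    · simp [hg, ha]
    · simp [hg, ha]
  have h1 : X i * aeval g F = 0 := by
    refine MvPolynomial.funext fun x => ?_
    rw [map_mul, eval_X, map_zero, hev]
    by_cases hx : x i = 0
    · rw [hx, zero_mul]
    · have h2 : (fun a => if a = 0 then 0 else x a) =
          fun a => x i * (if a = 0 then 0 else x a / x i) := by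
        funext a
        by_cases ha : a = 0
        · simp [ha]
        · simp only [ha, if_false]
          field_simp
      rw [h2, x86_scale hF, h _ (by simp) (by simp only [hi, if_false]; exact div_self hx), mul_zero,
        mul_zero]
  have h2 : aeval g F = 0 := by
    rcases mul_eq_zero.1 h1 with h3 | h3
    · exact absurd h3 (X_ne_zero i)
    · exact h3
  have h3 := Pool.Agent.DS.chain (pderiv j) g F
  rw [h2, map_zero, Finset.sum_eq_single j] at h3
  · have h4 : pderiv j (g j) = 1 := by
      simp [hg, hj]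
    rw [h4, one_mul] at h3
    have h5 := congrArg (eval y) h3
    rw [map_zero, hev] at h5
    have h6 : (fun a => if a = 0 then 0 else y a) = y := by
      funext a
      by_cases ha : a = 0
      · rw [if_pos ha, ha, hy]
      · rw [if_neg ha]
    rw [h6] at h5
    exact h5.symm
  · intro b _ hb
    by_cases hb0 : b = 0
    · simp [hg, hb0]
    · have h4 : pderiv j (g b) = 0 := by
        simp only [hg, hb0, if_false]
        exact pderiv_X_of_ne hb
      rw [h4, zero_mul]
  · intro hc
    exact absurd (Finset.mem_univ j) hc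

/-- a smooth form of degree at least two does not vanish on the plane `X₀ = 0` -/
theorem x86_plane {F : MvPolynomial (Fin 4) ℂ} (hF : F.IsHomogeneous 4) (hs : Pool.Agent.DS.Smooth F)
    (i : Fin 4) (hi : i ≠ 0) : ∃ x : Fin 4 → ℂ, x 0 = 0 ∧ x i = 1 ∧ aeval x F ≠ 0 := by
  by_contra hcon
  push Not at hcon
  obtain ⟨y, hy0, hy⟩ := Pool.Agent.DS.exists_common_zero (J := Fin 4) (I := Fin 2)
    (![X 0, pderiv 0 F] : Fin 2 → MvPolynomial (Fin 4) ℂ) (by
      intro a
      have hhom : (pderiv 0 F).IsHomogeneous 3 := hF.pderiv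
      fin_cases a
      · simp
      · show aeval (0 : Fin 4 → ℂ) (pderiv 0 F) = 0
        have h1 := x86_scale hhom (0 : ℂ) (0 : Fin 4 → ℂ)
        have h2 : (fun j => (0 : ℂ) * (0 : Fin 4 → ℂ) j) = 0 := by
          funext j
          simp
        rw [h2] at h1
        rw [h1]
        simp) (by simp)
  have h1 : y 0 = 0 := by simpa using hy 0
  have h2 : aeval y (pderiv 0 F) = 0 := hy 1
  refine hy0 (hs y fun j => ?_)
  by_cases hj : j = 0
  · rw [hj]
    exact h2
  · exact x86_part hF i hi hcon j hj y h1

/-- two algebraically independent elements in the field of the coordinates -/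
theorem x86_pair {M : Type} [Field M] [Algebra ℂ M] (p : Fin 3 → M) (a b : M)
    (ha : a ∈ IntermediateField.adjoin ℂ (Set.range p)) (hb : b ∈ IntermediateField.adjoin ℂ (Set.range p))
    (hab : AlgebraicIndependent ℂ ![a, b]) : ∃ i j, AlgebraicIndependent ℂ ![p i, p j] := by
  have h1 : AlgebraicIndependent ℂ (![⟨a, ha⟩, ⟨b, hb⟩] : Fin 2 → IntermediateField.adjoin ℂ (Set.range p)) := by
    refine AlgebraicIndependent.of_comp (IntermediateField.val _) ?_
    have h2 : (⇑(IntermediateField.adjoin ℂ (Set.range p)).val ∘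
        (![⟨a, ha⟩, ⟨b, hb⟩] : Fin 2 → IntermediateField.adjoin ℂ (Set.range p))) = ![a, b] := by
      funext t
      fin_cases t
      · rfl
      · rfl
    rw [h2]
    exact hab
  have h2 := h1.cardinalMk_le_trdeg
  have h3 : ((2 : ℕ) : Cardinal) ≤ Algebra.trdeg ℂ (IntermediateField.adjoin ℂ (Set.range p)) := by
    rw [Cardinal.mk_fin] at h2
    exact h2
  obtain ⟨l, hl⟩ := Pool.Agent.DS.cop_indep (m := 2) p h3
  have key : ∀ i j : Fin 3, i ≠ l → j ≠ l → i ≠ j → AlgebraicIndependent ℂ ![p i, p j] := by
    intro i j hi hj hij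
    have h4 := hl.comp (![⟨i, hi⟩, ⟨j, hj⟩] : Fin 2 → {j // j ≠ l}) (by
      intro s t hst
      fin_cases s <;> fin_cases t
      · rfl
      · exact absurd (congrArg Subtype.val hst) hij
      · exact absurd (congrArg Subtype.val hst).symm hij
      · rfl)
    have h5 : ((fun j : {j // j ≠ l} => p j) ∘ (![⟨i, hi⟩, ⟨j, hj⟩] : Fin 2 → {j // j ≠ l})) =
        ![p i, p j] := by
      funext t
      fin_cases t
      · rfl
      · rfl
    rw [h5] at h4
    exact h4
  fin_cases l
  · exact ⟨1, 2, key 1 2 (by decide) (by decide) (by decide)⟩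
  · exact ⟨0, 2, key 0 2 (by decide) (by decide) (by decide)⟩
  · exact ⟨0, 1, key 0 1 (by decide) (by decide) (by decide)⟩

/-- PIECE EMB, second theorem -/
theorem x86_norm_gen {F : MvPolynomial (Fin 4) ℂ} (hF : F.IsHomogeneous 4) (hs : Pool.Agent.DS.Smooth F)
    {M : Type} [Field M] [Algebra ℂ M] (z : Fin 4 → M) (hz : aeval z F = 0) (hg : Gen z) :
    z 0 ≠ 0 ∧ ∃ i j : Fin 3, AlgebraicIndependent ℂ ![z i.succ / z 0, z j.succ / z 0] := by
  classical
  obtain ⟨i, j, l, hi, hAI⟩ := hg
  have hz0 : z 0 ≠ 0 := by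
    intro h0
    have hi0 : i ≠ 0 := by
      rintro rfl
      exact hi h0
    have hne : ∀ t : Fin 2, ∀ r : ℂ, (![z j / z i, z l / z i] : Fin 2 → M) t ≠ algebraMap ℂ M r := by
      intro t r h1
      have h2 := hAI.transcendental t
      rw [h1] at h2
      exact h2 (isAlgebraic_algebraMap r)
    have hj0 : j ≠ 0 := by
      rintro rfl
      refine hne 0 0 ?_
      simp [h0]
    have hl0 : l ≠ 0 := by
      rintro rfl
      refine hne 1 0 ?_
      simp [h0]
    have hji : j ≠ i := by
      rintro rfl
      refine hne 0 1 ?_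
      simp [hi]
    have hli : l ≠ i := by
      rintro rfl
      refine hne 1 1 ?_
      simp [hi]
    have hjl : j ≠ l := by
      rintro rfl
      have h1 := hAI.injective (a₁ := 0) (a₂ := 1) (by simp)
      exact absurd h1 (by decide)
    obtain ⟨x, hx0, hxi, hx⟩ := x86_plane hF hs i hi0
    set g : Fin 4 → MvPolynomial (Fin 2) ℂ := fun a =>
      if a = i then 1 else if a = j then X 0 else if a = l then X 1 else 0 with hg
    have hcase : ∀ a : Fin 4, a = 0 ∨ a = i ∨ a = j ∨ a = l := by
      intro a
      omega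
    have h1 : aeval (![z j / z i, z l / z i] : Fin 2 → M) (aeval g F) = 0 := by
      rw [← AlgHom.comp_apply, comp_aeval]
      have h2 : (fun a => aeval (![z j / z i, z l / z i] : Fin 2 → M) (g a)) =
          fun a => (z i)⁻¹ * z a := by
        funext a
        rcases hcase a with h | h | h | h
        · subst h
          simp [hg, hi0.symm, hj0.symm, hl0.symm, h0]
        · subst h
          simp [hg, hi]
        · subst h
          simp [hg, hji, div_eq_mul_inv, mul_comm]
        · subst h
          simp [hg, hli, hjl.symm, div_eq_mul_inv, mul_comm]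
      rw [h2, x86_scale hF, hz, mul_zero]
    have h2 : aeval g F = 0 := (algebraicIndependent_iff.1 hAI) _ h1
    have h3 : aeval x F = eval (![x j, x l] : Fin 2 → ℂ) (aeval g F) := by
      have h4 : eval (![x j, x l] : Fin 2 → ℂ) (aeval g F) = aeval (![x j, x l] : Fin 2 → ℂ) (aeval g F) := by
        rw [aeval_eq_eval]
      rw [h4, ← AlgHom.comp_apply, comp_aeval]
      have h5 : (fun a => aeval (![x j, x l] : Fin 2 → ℂ) (g a)) = x := by
        funext a
        rcases hcase a with h | h | h | h
        · subst h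
          simp [hg, hi0.symm, hj0.symm, hl0.symm, hx0]
        · subst h
          simp [hg, hxi]
        · subst h
          simp [hg, hji]
        · subst h
          simp [hg, hli, hjl.symm]
      rw [h5]
    exact hx (by rw [h3, h2, map_zero])
  refine ⟨hz0, ?_⟩
  have hmem : ∀ a, z a / z 0 ∈ IntermediateField.adjoin ℂ (Set.range fun s : Fin 3 => z s.succ / z 0) := by
    intro a
    refine Fin.cases ?_ (fun s => ?_) a
    · rw [div_self hz0]
      exact one_mem _
    · exact IntermediateField.subset_adjoin ℂ _ ⟨s, rfl⟩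
  have hmem2 : ∀ a, z a / z i ∈ IntermediateField.adjoin ℂ (Set.range fun s : Fin 3 => z s.succ / z 0) := by
    intro a
    have h1 : z a / z i = (z a / z 0) / (z i / z 0) := by
      field_simp
    rw [h1]
    exact div_mem (hmem a) (hmem i)
  exact x86_pair (fun s : Fin 3 => z s.succ / z 0) _ _ (hmem2 j) (hmem2 l) hAI

end Pool.Agent.QX
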