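import Pool.Agent.Lib_MP_1209e6_qx.SingB
import Pool.Agent.Lib_MP_1209e6_ds.Coprime

/-! Singular quartic surfaces, part C: a form which vanishes at the generic point is divisible by `F`. -/

set_option autoImplicit false

open MvPolynomial

noncomputable section

namespace Pool.Agent.QS

theorem scale {B : Type} [Field B] [Algebra ℂ B] {n d : ℕ} {G : MvPolynomial (Fin n) ℂ}
    (hG : G.IsHomogeneous d) (s : B) (p : Fin n → B) :
    aeval (fun i => s * p i) G = s ^ d * aeval p G := by
  rw [aeval_def, eval₂_eq', aeval_def, eval₂_eq', Finset.mul_sum]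
  refine Finset.sum_congr rfl fun t ht => ?_
  have h2 : ∑ i, t i = d := by
    have h3 := hG (mem_support_iff.1 ht)
    rw [Finsupp.weight_apply, Finsupp.sum_fintype _ _ (by simp)] at h3
    simpa using h3
  simp only [mul_pow, Finset.prod_mul_distrib]
  rw [Finset.prod_pow_eq_pow_sum, h2]
  ring

section

variable (K : Type) [Field K] [Algebra ℂ K]

/-- `K (λ)` -/
abbrev LF : Type := FractionRing (Polynomial K)

/-- `K[λ] → K (λ)` -/
def toL : Polynomial K →ₐ[ℂ] LF K := IsScalarTower.toAlgHom ℂ (Polynomial K) (LF K)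

theorem toL_inj : Function.Injective (toL K) := IsFractionRing.injective (Polynomial K) (LF K)

end

variable {K : Type} [Field K] [Algebra ℂ K]

theorem indep_lam {v : Fin 2 → K} (hv : AlgebraicIndependent ℂ v) :
    AlgebraicIndependent ℂ (fun o : Option (Fin 2) =>
      o.elim (toL K Polynomial.X) fun i => toL K (Polynomial.C (v i))) := by
  have h : (aeval (fun o : Option (Fin 2) => o.elim (toL K Polynomial.X) fun i => toL K (Polynomial.C (v i))) :
      MvPolynomial (Option (Fin 2)) ℂ →ₐ[ℂ] LF K) =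
      (toL K).comp ((Polynomial.mapAlgHom (aeval v : MvPolynomial (Fin 2) ℂ →ₐ[ℂ] K)).comp
        (optionEquivLeft ℂ (Fin 2)).toAlgHom) := by
    apply MvPolynomial.algHom_ext
    intro o
    cases o with
    | none => simp [optionEquivLeft_X_none]
    | some i => simp [optionEquivLeft_X_some]
  rw [AlgebraicIndependent, h]
  intro p q hpq
  have h1 : toL K (Polynomial.map ((aeval v : MvPolynomial (Fin 2) ℂ →ₐ[ℂ] K) : MvPolynomial (Fin 2) ℂ →+* K)
      (optionEquivLeft ℂ (Fin 2) p)) = toL K (Polynomial.map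
        ((aeval v : MvPolynomial (Fin 2) ℂ →ₐ[ℂ] K) : MvPolynomial (Fin 2) ℂ →+* K)
          (optionEquivLeft ℂ (Fin 2) q)) := hpq
  have h2 := toL_inj K h1
  have h3 := Polynomial.map_injective
    ((aeval v : MvPolynomial (Fin 2) ℂ →ₐ[ℂ] K) : MvPolynomial (Fin 2) ℂ →+* K) hv h2
  exact (optionEquivLeft ℂ (Fin 2)).injective h3

theorem dvd_of_zero {F : MvPolynomial (Fin 4) ℂ} (hF : F.IsHomogeneous 4) (hi : Irreducible F)
    (z : Fin 3 → K) (hz : aeval (Fin.cons 1 z : Fin 4 → K) F = 0)
    (hij : ∃ i j, AlgebraicIndependent ℂ ![z i, z j]) {B : MvPolynomial (Fin 4) ℂ} {d : ℕ}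
    (hB : B.IsHomogeneous d) (hB0 : aeval (Fin.cons 1 z : Fin 4 → K) B = 0) : F ∣ B := by
  by_contra hdvd
  have hB1 : B ≠ 0 := by
    rintro rfl
    exact hdvd (dvd_zero _)
  let ι : K →ₐ[ℂ] LF K := (toL K).comp Polynomial.CAlgHom
  let l : LF K := toL K Polynomial.X
  have hl : l ≠ 0 := by
    intro h
    have h1 : toL K Polynomial.X = toL K 0 := by rw [map_zero]; exact h
    exact Polynomial.X_ne_zero (toL_inj K h1)
  let P : Fin (3 + 1) → LF K := fun j => l * ι ((Fin.cons 1 z : Fin 4 → K) j)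
  have key : ∀ {H : MvPolynomial (Fin 4) ℂ} {e : ℕ}, H.IsHomogeneous e →
      aeval (Fin.cons 1 z : Fin 4 → K) H = 0 → aeval P H = 0 := by
    intro H e hH h0
    have h1 : aeval P H = l ^ e * aeval (fun j => ι ((Fin.cons 1 z : Fin 4 → K) j)) H := scale hH l _
    have h2 : aeval (fun j => ι ((Fin.cons 1 z : Fin 4 → K) j)) H =
        ι (aeval (Fin.cons 1 z : Fin 4 → K) H) := by
      have h3 := DFunLike.congr_fun (comp_aeval (R := ℂ) (Fin.cons 1 z : Fin 4 → K) ι) H
      exact h3.symm
    rw [h1, h2, h0, map_zero, mul_zero]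
  have hlt := Pool.Agent.DS.trdeg_lt P F B ((hi.isRelPrime_iff_not_dvd).2 hdvd) hB1 (key hF hz) (key hB hB0)
  obtain ⟨i, j, hv⟩ := hij
  let M := IntermediateField.adjoin ℂ (Set.range P)
  have hP : ∀ k, P k ∈ M := fun k => IntermediateField.subset_adjoin _ _ ⟨k, rfl⟩
  have hlM : l ∈ M := by
    have h1 := hP 0
    have h2 : P 0 = l := by
      change l * ι 1 = l
      rw [map_one, mul_one]
    rwa [h2] at h1
  have hzM : ∀ k, ι (z k) ∈ M := by
    intro k
    have h1 := M.div_mem (hP k.succ) hlM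
    have h2 : P k.succ / l = ι (z k) := by
      change l * ι (z k) / l = ι (z k)
      rw [mul_comm, mul_div_cancel_right₀ _ hl]
    rwa [h2] at h1
  let w : Option (Fin 2) → M := fun o => o.elim ⟨l, hlM⟩ fun i' =>
    ⟨ι ((![z i, z j] : Fin 2 → K) i'), by
      fin_cases i'
      · exact hzM i
      · exact hzM j⟩
  have hw : AlgebraicIndependent ℂ w := by
    apply AlgebraicIndependent.of_comp M.val
    have h1 := indep_lam hv
    convert h1 using 1
    funext o
    cases o with
    | none => rfl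
    | some i' => rfl
  have h3 := hw.cardinalMk_le_trdeg
  have h4 : Cardinal.mk (Option (Fin 2)) = ((3 : ℕ) : Cardinal) := by simp
  rw [h4] at h3
  exact absurd (lt_of_le_of_lt h3 hlt) (lt_irrefl _)

end Pool.Agent.QS
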