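import Mathlib
import Pool.Agent.Lib_MP_1209e6_ds.Defs

/-!
# Smooth quartic surfaces without lines: definitions

`MP_1209e6_ag`, QX (board note 2960, with the two-member argument of helper19): every smooth quartic surface in
`ℙ³` which contains no line is special and Brody-special.
-/

set_option autoImplicit false

open MvPolynomial

noncomputable section

namespace Pool.Agent.QX

/-- the surface `F = 0` contains no line -/
def NoLine (F : MvPolynomial (Fin 4) ℂ) : Prop :=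
  ∀ a b : Fin 4 → ℂ, LinearIndependent ℂ ![a, b] → ∃ s t : ℂ, aeval (fun j => s * a j + t * b j) F ≠ 0

/-- `K = ℂ(z₁, z₂, z₃)` is the function field of the surface `F (1, z) = 0` -/
def IsQuartic (K : Type) [Field K] [Algebra ℂ K] (F : MvPolynomial (Fin 4) ℂ) : Prop :=
  ∃ z : Fin 3 → K, aeval (Fin.cons 1 z : Fin 4 → K) F = 0 ∧
    (∃ i j, AlgebraicIndependent ℂ ![z i, z j]) ∧ IntermediateField.adjoin ℂ (Set.range z) = ⊤

variable {k : Type} [Field k] [Algebra ℂ k]

/-- the section of the surface by the plane spanned by `e 0`, `e 1`, `e 2` -/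
def sec (F : MvPolynomial (Fin 4) ℂ) (e : Fin 3 → Fin 4 → k) : MvPolynomial (Fin 3) k :=
  aeval (fun j => ∑ i, C (e i j) * X i) F

/-- the quadratic form `c₀ X₀² + c₁ X₀ X₁ + c₂ X₁²` -/
def quad (c : Fin 3 → k) : MvPolynomial (Fin 3) k :=
  C (c 0) * X 0 ^ 2 + C (c 1) * X 0 * X 1 + C (c 2) * X 1 ^ 2

/-- the linear form `b₀ X₀ + b₁ X₁` -/
def lin (b : Fin 2 → k) : MvPolynomial (Fin 3) k := C (b 0) * X 0 + C (b 1) * X 1

/-- the section has two double points (or a tacnode) at the zeros of `quad c` on the line `X₂ = 0` -/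
structure Sect (F : MvPolynomial (Fin 4) ℂ) (e : Fin 3 → Fin 4 → k) (c : Fin 3 → k) (g : k)
    (b : Fin 2 → k) (A : MvPolynomial (Fin 3) k) : Prop where
  ind : LinearIndependent k e
  c_two : c 2 = 1
  hom : A.IsHomogeneous 2
  eq : sec F e = C g * quad c ^ 2 + X 2 * lin b * quad c + X 2 ^ 2 * A

/-- the plane spanned by `e` is not defined over `ℂ` -/
def Moving (e : Fin 3 → Fin 4 → k) : Prop :=
  ∀ u : Fin 4 → ℂ, (∀ i, ∑ j, algebraMap ℂ k (u j) * e i j = 0) → u = 0

/-- `k` is algebraic over `ℂ(T)`, `T` transcendental -/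
structure Base (T : k) : Prop where
  tr : Transcendental ℂ T
  alg : ∀ a : k, IsAlgebraic (IntermediateField.adjoin ℂ {T}) a

/-- the point `z` of `ℙ³` has transcendence degree (at least) `2` over `ℂ` -/
def Gen (z : Fin 4 → k) : Prop :=
  ∃ i j l, z i ≠ 0 ∧ AlgebraicIndependent ℂ ![z j / z i, z l / z i]

/-- the planes near the plane `E 0, E 1, E 2`: unknowns `u₀, u₁, u₂, a, b, c₀, c₁, g, b₀, b₁` -/
def pl (E : Fin 4 → Fin 4 → ℂ) (y : Fin 10 → k) : Fin 3 → Fin 4 → k :=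
  ![fun j => algebraMap ℂ k (E 0 j) + y 0 * algebraMap ℂ k (E 3 j) +
      y 3 * (algebraMap ℂ k (E 2 j) + y 2 * algebraMap ℂ k (E 3 j)),
    fun j => algebraMap ℂ k (E 1 j) + y 1 * algebraMap ℂ k (E 3 j) +
      y 4 * (algebraMap ℂ k (E 2 j) + y 2 * algebraMap ℂ k (E 3 j)),
    fun j => algebraMap ℂ k (E 2 j) + y 2 * algebraMap ℂ k (E 3 j)]

/-- the equation of `Sect` for the unknowns `y` -/
def Eqn (F : MvPolynomial (Fin 4) ℂ) (E : Fin 4 → Fin 4 → ℂ) (y : Fin 10 → k) : Prop :=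
  ∃ A : MvPolynomial (Fin 3) k, A.IsHomogeneous 2 ∧ sec F (pl E y) =
    C (y 7) * quad ![y 5, y 6, 1] ^ 2 + X 2 * lin ![y 8, y 9] * quad ![y 5, y 6, 1] + X 2 ^ 2 * A

end Pool.Agent.QX
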