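import Pool.Agent.Lib_MP_1209e6_qx.Defs
import Pool.Agent.Lib_MP_1209e6_ds.Coef
import Pool.Agent.Lib_MP_1209e6_ds.SmoothUp
import Pool.Agent.Lib_MP_1209e6_ag.Der

/-! PIECE PENCIL: the planes of the family do not contain a fixed complex line. -/

set_option autoImplicit false

open MvPolynomial

noncomputable section

namespace Pool.Agent.QX

variable {k : Type} [Field k] [Algebra ℂ k]

/-- an element killed by all derivations is constant -/
theorem pn_const (a : k) (h : ∀ δ : Derivation ℂ k k, δ a = 0) : ∃ c : ℂ, a = algebraMap ℂ k c := by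
  have h1 : IsAlgebraic ℂ a := by
    by_contra hu
    have h2 : AlgebraicIndependent ℂ (fun _ : Unit => a) :=
      algebraicIndependent_unique_type_iff.2 hu
    obtain ⟨E, hE⟩ := Pool.Agent.Campana.exists_derivation (fun _ : Unit => a) h2 (fun _ => 1)
    have h3 := hE ()
    rw [h E] at h3
    exact zero_ne_one h3
  have h3 : IsIntegral ℂ a := h1.isIntegral
  have h4 := IsAlgClosed.degree_eq_one_of_irreducible ℂ (minpoly.irreducible h3)
  obtain ⟨c, hc⟩ := minpoly.mem_range_of_degree_eq_one ℂ a h4
  exact ⟨c, hc.symm⟩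

/-- a root of a nonzero complex polynomial is constant -/
theorem pn_root (P : Polynomial ℂ) (hP : P ≠ 0) (a : k) (h : Polynomial.aeval a P = 0) :
    ∃ c : ℂ, a = algebraMap ℂ k c := by
  have h3 : IsIntegral ℂ a := (show IsAlgebraic ℂ a from ⟨P, hP, h⟩).isIntegral
  have h4 := IsAlgClosed.degree_eq_one_of_irreducible ℂ (minpoly.irreducible h3)
  obtain ⟨c, hc⟩ := minpoly.mem_range_of_degree_eq_one ℂ a h4
  exact ⟨c, hc.symm⟩

theorem pn_smul {n d : ℕ} {F : MvPolynomial (Fin n) ℂ} (hF : F.IsHomogeneous d) (t : k)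
    (p : Fin n → k) : aeval (fun i => t * p i) F = t ^ d * aeval p F := by
  rw [MvPolynomial.aeval_def, MvPolynomial.aeval_def, MvPolynomial.eval₂_eq', MvPolynomial.eval₂_eq',
    Finset.mul_sum]
  apply Finset.sum_congr rfl
  intro a ha
  have h1 : ∑ i, a i = d := by
    have := hF (MvPolynomial.mem_support_iff.mp ha)
    rw [← this, Finsupp.weight_apply, Finsupp.sum_fintype]
    · simp
    · intro i; simp
  simp only [mul_pow, Finset.prod_mul_distrib]
  rw [Finset.prod_pow_eq_pow_sum, h1]
  ring

/-- independent complex vectors stay independent -/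
theorem pn_li {n : ℕ} {x y : Fin n → ℂ} (hxy : LinearIndependent ℂ ![x, y]) (b c : k)
    (h : ∀ j, b * algebraMap ℂ k (x j) + c * algebraMap ℂ k (y j) = 0) : b = 0 ∧ c = 0 := by
  rw [LinearIndependent.pair_iff] at hxy
  have hx : ∃ i, x i ≠ 0 := by
    by_contra hx
    push Not at hx
    have := (hxy 1 0 (by funext i; simp [hx i])).1
    exact one_ne_zero this
  obtain ⟨i, hi⟩ := hx
  have hi' : algebraMap ℂ k (x i) ≠ 0 := by
    rw [Ne, map_eq_zero]
    exact hi
  have hb : b = c * algebraMap ℂ k (- y i / x i) := by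
    have h1 := h i
    rw [map_div₀, map_neg, eq_comm, mul_div_assoc', div_eq_iff hi']
    linear_combination -h1
  have hc : c = 0 := by
    by_contra hc
    have h2 : ∀ j, (- y i / x i) * x j + 1 * y j = 0 := by
      intro j
      have h3 := h j
      rw [hb] at h3
      have h4 : c * algebraMap ℂ k ((- y i / x i) * x j + 1 * y j) = 0 := by
        rw [map_add, map_mul, map_mul, map_one]
        linear_combination h3
      rcases mul_eq_zero.1 h4 with h5 | h5
      · exact absurd h5 hc
      · exact (map_eq_zero _).1 h5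
    have h6 := (hxy _ 1 (by funext j; simpa using h2 j)).2
    exact one_ne_zero h6
  exact ⟨by rw [hb, hc, zero_mul], hc⟩

/-- evaluation of the section -/
theorem pn_eval (F : MvPolynomial (Fin 4) ℂ) (e : Fin 3 → Fin 4 → k) (v : Fin 3 → k) :
    eval v (sec F e) = aeval (fun j => ∑ i, e i j * v i) F := by
  have h := MvPolynomial.comp_aeval_apply (R := ℂ) (fun j => ∑ i, C (e i j) * X i)
    ((MvPolynomial.aeval v : MvPolynomial (Fin 3) k →ₐ[k] k).restrictScalars ℂ) F
  have h2 : ∀ p : MvPolynomial (Fin 3) k,
      ((MvPolynomial.aeval v : MvPolynomial (Fin 3) k →ₐ[k] k).restrictScalars ℂ) p = eval v p := by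
    intro p
    rw [AlgHom.restrictScalars_apply, MvPolynomial.aeval_eq_eval]
  rw [h2] at h
  rw [sec, h]
  simp only [h2, map_sum, map_mul, eval_C, eval_X]

/-- the derivatives of the section -/
theorem pn_pderiv (F : MvPolynomial (Fin 4) ℂ) (e : Fin 3 → Fin 4 → k) (v : Fin 3 → k) (i : Fin 3) :
    eval v (pderiv i (sec F e)) =
      ∑ j, e i j * aeval (fun j => ∑ i, e i j * v i) (pderiv j F) := by
  classical
  have h := Pool.Agent.DS.chain ((pderiv i : Derivation k (MvPolynomial (Fin 3) k)
    (MvPolynomial (Fin 3) k)).restrictScalars ℂ) (fun j => ∑ i, C (e i j) * X i) F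
  have h2 : ∀ p : MvPolynomial (Fin 3) k, ((pderiv i : Derivation k (MvPolynomial (Fin 3) k)
    (MvPolynomial (Fin 3) k)).restrictScalars ℂ) p = pderiv i p := fun p => rfl
  rw [h2] at h
  rw [sec, h, map_sum]
  apply Finset.sum_congr rfl
  intro j _
  rw [map_mul, h2]
  have h3 : eval v (aeval (fun j => ∑ i, C (e i j) * X i : Fin 4 → MvPolynomial (Fin 3) k)
      (pderiv j F)) = aeval (fun j => ∑ i, e i j * v i) (pderiv j F) := pn_eval (pderiv j F) e v
  rw [h3]
  congr 1
  rw [map_sum, map_sum, Finset.sum_eq_single i]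
  · simp
  · intro l _ hl
    rw [pderiv_mul, pderiv_C, pderiv_X_of_ne hl]
    simp
  · intro hi
    exact absurd (Finset.mem_univ i) hi

omit [Algebra ℂ k] in
theorem pn_rhs (Δ : Derivation k (MvPolynomial (Fin 3) k) (MvPolynomial (Fin 3) k)) (v : Fin 3 → k)
    (Q L A : MvPolynomial (Fin 3) k) (g : k) (h1 : eval v Q = 0) (h2 : v 2 = 0) :
    eval v (Δ (C g * Q ^ 2 + X 2 * L * Q + X 2 ^ 2 * A)) = 0 := by
  simp only [map_add, Derivation.leibniz, Derivation.leibniz_pow, smul_eq_mul, map_mul,
    nsmul_eq_mul, map_pow, eval_X, h1, h2]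
  simp

omit [Algebra ℂ k] in
/-- the vectors orthogonal to three independent vectors are the multiples of one of them -/
theorem pn_ker (N : Fin 3 → Fin 4 → k) (hN : LinearIndependent k N)
    (v : Fin 4 → k) (hv : v ≠ 0) (hNv : ∀ i, ∑ j, N i j * v j = 0) (y : Fin 4 → k)
    (hy : ∀ i, ∑ j, N i j * y j = 0) : ∃ c : k, y = c • v := by
  have h0 : LinearMap.range (Matrix.of N).mulVecLin = ⊤ := by
    have h : (Matrix.of N).rank = Fintype.card (Fin 3) := LinearIndependent.rank_matrix (by exact hN)
    apply Submodule.eq_top_of_finrank_eq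
    rw [Module.finrank_fintype_fun_eq_card]
    exact h
  have h1 := LinearMap.finrank_range_add_finrank_ker (Matrix.of N).mulVecLin
  rw [h0, finrank_top, Module.finrank_fintype_fun_eq_card,
    Module.finrank_fintype_fun_eq_card, Fintype.card_fin, Fintype.card_fin] at h1
  have h2 : Module.finrank k (LinearMap.ker (Matrix.of N).mulVecLin) = 1 := by omega
  have hv' : v ∈ LinearMap.ker (Matrix.of N).mulVecLin := by
    rw [LinearMap.mem_ker]
    funext i
    exact hNv i
  have hy' : y ∈ LinearMap.ker (Matrix.of N).mulVecLin := by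
    rw [LinearMap.mem_ker]
    funext i
    exact hy i
  have hne : (⟨v, hv'⟩ : LinearMap.ker (Matrix.of N).mulVecLin) ≠ 0 := by
    intro h0
    exact hv (congrArg Subtype.val h0)
  obtain ⟨c, hc⟩ := (finrank_eq_one_iff_of_nonzero' _ hne).1 h2 ⟨y, hy'⟩
  exact ⟨c, (congrArg Subtype.val hc).symm⟩

/-- on a complex line which is not in the surface the points of the surface are complex -/
theorem pn_line {F : MvPolynomial (Fin 4) ℂ} (hF : F.IsHomogeneous 4) (hl : NoLine F) (x y : Fin 4 → ℂ)
    (hxy : LinearIndependent ℂ ![x, y]) (s t : k)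
    (h : aeval (fun j => s * algebraMap ℂ k (x j) + t * algebraMap ℂ k (y j)) F = 0) :
    ∃ (τ : k) (N : Fin 4 → ℂ), ∀ j, s * algebraMap ℂ k (x j) + t * algebraMap ℂ k (y j) =
      τ * algebraMap ℂ k (N j) := by
  by_cases ht : t = 0
  · exact ⟨s, x, fun j => by rw [ht, zero_mul, add_zero]⟩
  let P : Polynomial ℂ := aeval (fun j => Polynomial.C (x j) * Polynomial.X + Polynomial.C (y j)) F
  have hPz : ∀ z : ℂ, P.eval z = aeval (fun j => x j * z + y j) F := by
    intro z
    have h1 := MvPolynomial.comp_aeval_apply (R := ℂ)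
      (fun j => Polynomial.C (x j) * Polynomial.X + Polynomial.C (y j)) (Polynomial.aeval z) F
    simp only [map_add, map_mul, Polynomial.aeval_C, Polynomial.aeval_X, Algebra.algebraMap_self,
      RingHom.id_apply] at h1
    rw [← h1, Polynomial.coe_aeval_eq_eval]
  have hP0 : P ≠ 0 := by
    intro hP
    have h1 : ∀ z : ℂ, aeval (fun j => x j * z + y j) F = 0 := by
      intro z
      rw [← hPz, hP, Polynomial.eval_zero]
    obtain ⟨s0, t0, h2⟩ := hl x y hxy
    apply h2
    by_cases ht0 : t0 = 0
    · let Q : Polynomial ℂ := aeval (fun j => Polynomial.C (x j) + Polynomial.C (y j) * Polynomial.X) F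
      have hQz : ∀ z : ℂ, Q.eval z = aeval (fun j => x j + y j * z) F := by
        intro z
        have h1 := MvPolynomial.comp_aeval_apply (R := ℂ)
          (fun j => Polynomial.C (x j) + Polynomial.C (y j) * Polynomial.X) (Polynomial.aeval z) F
        simp only [map_add, map_mul, Polynomial.aeval_C, Polynomial.aeval_X, Algebra.algebraMap_self,
          RingHom.id_apply] at h1
        rw [← h1, Polynomial.coe_aeval_eq_eval]
      have hQX : Q * Polynomial.X = 0 := by
        apply Polynomial.funext
        intro z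
        rw [Polynomial.eval_mul, Polynomial.eval_X, Polynomial.eval_zero, hQz]
        by_cases hz : z = 0
        · rw [hz, mul_zero]
        · have h3 : (fun j => x j + y j * z) = fun j => z * (x j * z⁻¹ + y j) := by
            funext j
            field_simp
          rw [h3, pn_smul hF, h1, mul_zero, zero_mul]
      have hQ0 : Q = 0 := (mul_eq_zero.1 hQX).resolve_right Polynomial.X_ne_zero
      have h4 : aeval x F = 0 := by
        have h5 := hQz 0
        rw [hQ0, Polynomial.eval_zero] at h5
        rw [h5]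
        simp only [mul_zero, add_zero]
      have h6 : (fun j => s0 * x j + t0 * y j) = fun j => s0 * x j := by
        funext j
        rw [ht0, zero_mul, add_zero]
      rw [h6, pn_smul hF, h4, mul_zero]
    · have h3 : (fun j => s0 * x j + t0 * y j) = fun j => t0 * (x j * (s0 / t0) + y j) := by
        funext j
        field_simp
      rw [h3, pn_smul hF, h1, mul_zero]
  have hPk : Polynomial.aeval (s / t) P =
      aeval (fun j => algebraMap ℂ k (x j) * (s / t) + algebraMap ℂ k (y j)) F := by
    have h1 := MvPolynomial.comp_aeval_apply (R := ℂ)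
      (fun j => Polynomial.C (x j) * Polynomial.X + Polynomial.C (y j)) (Polynomial.aeval (s / t)) F
    simp only [map_add, map_mul, Polynomial.aeval_C, Polynomial.aeval_X] at h1
    exact h1
  have h3 : (fun j => s * algebraMap ℂ k (x j) + t * algebraMap ℂ k (y j)) =
      fun j => t * (algebraMap ℂ k (x j) * (s / t) + algebraMap ℂ k (y j)) := by
    funext j
    field_simp
  rw [h3, pn_smul hF, ← hPk] at h
  have h4 := (mul_eq_zero.1 h).resolve_left (pow_ne_zero 4 ht)
  obtain ⟨r, hr⟩ := pn_root P hP0 _ h4
  refine ⟨t, fun j => r * x j + y j, fun j => ?_⟩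
  have h5 : s = t * algebraMap ℂ k r := by
    rw [← hr]
    field_simp
  rw [map_add, map_mul, h5]
  ring

variable [IsAlgClosed k]

/-- `N = x₀ e 0 + x₁ e 1`, `(x₀, x₁) ≠ 0` a root of `quad c`: `F (N) = 0` and `∇F (N) · e i = 0` for all `i` (derivatives of
`Sect.eq`), so `∇F (N) = μ u`, `μ ≠ 0` by smoothness (`Smooth.up`), `u` the form of the plane. If `N ∈ ⟨x, y⟩`: the
binary quartic form `F (s x + t y)` over `ℂ` is nonzero (`NoLine`), so `N` is proportional to a complex vector, and
`u` too: against `Moving`. Otherwise let `D` be the derivation of `k` with `D T = 1`: `0 = D (F (N)) = μ u · D N`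
(`Pool.Agent.DS.chain`), so `D u · N = 0`, and `D u · x = D u · y = 0`; `N, x, y` span the plane (independent), so
`D u` is proportional to `u`; normalise a coordinate of `u` to `1`: `D u = 0`, `u` complex (`D a = 0` gives
`a` algebraic over `ℂ`: `D P (T, a) = 0` or `Algebra.trdeg`), against `Moving`. -/
theorem no_pencil {F : MvPolynomial (Fin 4) ℂ} (hF : F.IsHomogeneous 4) (hs : Pool.Agent.DS.Smooth F)
    (hl : NoLine F) (T : k) (hT : Base T) (e : Fin 3 → Fin 4 → k) (c : Fin 3 → k) (g : k) (b : Fin 2 → k)
    (A : MvPolynomial (Fin 3) k) (hS : Sect F e c g b A) (hm : Moving e) (x y : Fin 4 → ℂ)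
    (hxy : LinearIndependent ℂ ![x, y]) (p q : Fin 3 → k)
    (hx : ∀ j, algebraMap ℂ k (x j) = ∑ i, p i * e i j)
    (hy : ∀ j, algebraMap ℂ k (y j) = ∑ i, q i * e i j) : False := by
  classical
  haveI : CharZero k := charZero_of_injective_algebraMap (algebraMap ℂ k).injective
  obtain ⟨t, ht⟩ : ∃ t : k, c 0 + c 1 * t + t ^ 2 = 0 := by
    obtain ⟨s, hs⟩ := IsAlgClosed.exists_pow_nat_eq (c 1 ^ 2 - 4 * c 0) (n := 2) (by norm_num)
    refine ⟨(- c 1 + s) / 2, ?_⟩
    have h2 : (2 : k) ≠ 0 := two_ne_zero
    field_simp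
    linear_combination hs
  let v : Fin 3 → k := ![1, t, 0]
  have hv2 : v 2 = 0 := rfl
  let N : Fin 4 → k := fun j => ∑ i, e i j * v i
  have hQ : eval v (quad c) = 0 := by
    have h0 : v 0 = 1 := rfl
    have h1 : v 1 = t := rfl
    simp only [quad, map_add, map_mul, map_pow, eval_C, eval_X, h0, h1, hS.c_two]
    linear_combination ht
  have hFN : aeval N F = 0 := by
    have h1 := pn_eval F e v
    rw [hS.eq] at h1
    rw [← h1]
    simp only [map_add, map_mul, map_pow, eval_X, hQ, hv2]
    ring
  let w : Fin 4 → k := fun j => aeval N (pderiv j F)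
  have hw1 : ∀ i, ∑ j, e i j * w j = 0 := by
    intro i
    have h1 := pn_pderiv F e v i
    rw [hS.eq, pn_rhs _ v _ _ _ _ hQ hv2] at h1
    exact h1.symm
  have hN0 : N ≠ 0 := by
    intro h0
    have h1 : ∑ i, v i • e i = 0 := by
      funext j
      rw [Finset.sum_apply]
      have h2 := congrFun h0 j
      rw [← h2]
      apply Finset.sum_congr rfl
      intro i _
      rw [Pi.smul_apply, smul_eq_mul, mul_comm]
    have h3 := Fintype.linearIndependent_iff.1 hS.ind v h1 0
    exact one_ne_zero h3
  have hw0 : w ≠ 0 := fun h => hN0 (Pool.Agent.DS.Smooth.up hs N fun j => congrFun h j)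
  -- combinations of the `e i` are orthogonal to `w`
  have hcomb : ∀ (r : Fin 3 → k) (z : Fin 4 → k), (∀ j, z j = ∑ i, r i * e i j) →
      ∑ j, z j * w j = 0 := by
    intro r z hz
    simp only [hz, Finset.sum_mul]
    rw [Finset.sum_comm]
    apply Finset.sum_eq_zero
    intro i _
    have h1 : ∀ j, r i * e i j * w j = r i * (e i j * w j) := fun j => by ring
    simp only [h1, ← Finset.mul_sum, hw1 i, mul_zero]
  have hNw : ∑ j, N j * w j = 0 := hcomb v N fun j => Finset.sum_congr rfl fun i _ => mul_comm _ _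
  have hxw : ∑ j, algebraMap ℂ k (x j) * w j = 0 := hcomb p _ hx
  have hyw : ∑ j, algebraMap ℂ k (y j) * w j = 0 := hcomb q _ hy
  have hD : ∀ D : Derivation ℂ k k, ∑ j, D (N j) * w j = 0 := by
    intro D
    have h1 := Pool.Agent.DS.chain D N F
    rw [hFN, map_zero] at h1
    exact h1.symm
  have hDs : ∀ (D : Derivation ℂ k k) (z : Fin 4 → k), ∑ j, z j * w j = 0 → ∑ j, D (z j) * w j = 0 →
      ∑ j, z j * D (w j) = 0 := by
    intro D z h1 h2
    have h3 := congrArg D h1
    rw [map_zero, map_sum] at h3
    simp only [Derivation.leibniz, smul_eq_mul, Finset.sum_add_distrib] at h3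
    have h4 : ∑ j, w j * D (z j) = 0 := by
      rw [← h2]
      exact Finset.sum_congr rfl fun j _ => mul_comm _ _
    rw [h4, add_zero] at h3
    exact h3
  by_cases hli : LinearIndependent k ![N, fun j => algebraMap ℂ k (x j), fun j => algebraMap ℂ k (y j)]
  · have hort : ∀ D : Derivation ℂ k k, ∃ a : k, (fun j => D (w j)) = a • w := by
      intro D
      apply pn_ker _ hli w hw0
      · intro i
        fin_cases i
        · exact hNw
        · exact hxw
        · exact hyw
      · intro i
        fin_cases i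
        · exact hDs D N hNw (hD D)
        · refine hDs D _ hxw ?_
          simp
        · refine hDs D _ hyw ?_
          simp
    obtain ⟨j0, hj0⟩ : ∃ j, w j ≠ 0 := by
      by_contra h
      push Not at h
      exact hw0 (funext h)
    have hc : ∀ j, ∃ a : ℂ, w j / w j0 = algebraMap ℂ k a := by
      intro j
      apply pn_const
      intro D
      obtain ⟨a, ha⟩ := hort D
      have h1 : D (w j) = a * w j := congrFun ha j
      have h2 : D (w j0) = a * w j0 := congrFun ha j0
      rw [Derivation.leibniz_div, h1, h2]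
      simp only [smul_eq_mul]
      ring
    choose u hu using hc
    have hu0 : u = 0 := by
      apply hm u
      intro i
      have h1 : ∀ j, algebraMap ℂ k (u j) * e i j = (w j0)⁻¹ * (e i j * w j) := by
        intro j
        rw [← hu j]
        field_simp
      simp only [h1, ← Finset.mul_sum, hw1 i, mul_zero]
    have h3 := hu j0
    rw [div_self hj0, hu0, Pi.zero_apply, map_zero] at h3
    exact one_ne_zero h3
  · obtain ⟨a, ha, i0, hi0⟩ := Fintype.not_linearIndependent_iff.1 hli
    have hrel : ∀ j, a 0 * N j + a 1 * algebraMap ℂ k (x j) + a 2 * algebraMap ℂ k (y j) = 0 := by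
      intro j
      have h1 := congrFun ha j
      rw [Finset.sum_apply, Fin.sum_univ_three] at h1
      simpa using h1
    have ha0 : a 0 ≠ 0 := by
      intro h0
      have h1 := pn_li hxy (a 1) (a 2) fun j => by
        have h2 := hrel j
        rw [h0, zero_mul, zero_add] at h2
        exact h2
      apply hi0
      fin_cases i0
      · exact h0
      · exact h1.1
      · exact h1.2
    have hNj : ∀ j, N j = (- a 1 / a 0) * algebraMap ℂ k (x j) + (- a 2 / a 0) * algebraMap ℂ k (y j) := by
      intro j
      have h1 := hrel j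
      field_simp
      linear_combination h1
    have hN' : N = fun j => (- a 1 / a 0) * algebraMap ℂ k (x j) + (- a 2 / a 0) * algebraMap ℂ k (y j) :=
      funext hNj
    obtain ⟨τ, N0, hN1⟩ := pn_line hF hl x y hxy (- a 1 / a 0) (- a 2 / a 0) (by rw [← hN']; exact hFN)
    have hNτ : N = fun j => τ * algebraMap ℂ k (N0 j) := by
      funext j
      rw [hNj j, hN1 j]
    have hτ : τ ≠ 0 := by
      intro h0
      apply hN0
      rw [hNτ]
      funext j
      rw [h0, zero_mul, Pi.zero_apply]
    have hwj : ∀ j, w j = τ ^ 3 * algebraMap ℂ k (aeval N0 (pderiv j F)) := by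
      intro j
      have h1 : (pderiv j F).IsHomogeneous 3 := hF.pderiv
      show aeval N (pderiv j F) = _
      rw [hNτ, pn_smul h1, ← MvPolynomial.aeval_algebraMap_apply]
      rfl
    have hu0 : (fun j => aeval N0 (pderiv j F) : Fin 4 → ℂ) = 0 := by
      apply hm
      intro i
      have h1 : ∀ j, algebraMap ℂ k (aeval N0 (pderiv j F)) * e i j = (τ ^ 3)⁻¹ * (e i j * w j) := by
        intro j
        rw [hwj j]
        field_simp
      simp only [h1, ← Finset.mul_sum, hw1 i, mul_zero]
    apply hw0
    funext j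
    rw [hwj j]
    have h2 : (aeval N0 (pderiv j F) : ℂ) = 0 := congrFun hu0 j
    rw [h2, map_zero, mul_zero, Pi.zero_apply]

end Pool.Agent.QX
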