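import Pool.Agent.Lib_MP_1209e6_qx.Irred
import Pool.Agent.Lib_MP_1209e6_qx.X86

/-! PIECE EMB: the function field of the surface is embedded with any generic point. -/

set_option autoImplicit false

open MvPolynomial

noncomputable section

namespace Pool.Agent.QX

/-- `z ↦ w` defines `ℂ[z] ≃ ℂ[w]` by `eval_iff`, extended to the fraction field `K = ℂ(z)`. -/
theorem exists_emb {F : MvPolynomial (Fin 4) ℂ} (hF : F.IsHomogeneous 4) (hs : Pool.Agent.DS.Smooth F)
    {K M : Type} [Field K] [Algebra ℂ K] [Field M] [Algebra ℂ M] (z : Fin 3 → K) (w : Fin 3 → M)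
    (hgen : IntermediateField.adjoin ℂ (Set.range z) = ⊤)
    (hz : aeval (Fin.cons 1 z : Fin 4 → K) F = 0) (hw : aeval (Fin.cons 1 w : Fin 4 → M) F = 0)
    (hz2 : ∃ i j, AlgebraicIndependent ℂ ![z i, z j]) (hw2 : ∃ i j, AlgebraicIndependent ℂ ![w i, w j]) :
    ∃ φ : K →ₐ[ℂ] M, ∀ i, φ (z i) = w i := by
  have key := eval_iff hF hs z w hz hw hz2 hw2
  let I : Ideal (MvPolynomial (Fin 3) ℂ) := RingHom.ker (aeval z : MvPolynomial (Fin 3) ℂ →ₐ[ℂ] K)
  let B := MvPolynomial (Fin 3) ℂ ⧸ I
  let f : B →ₐ[ℂ] K := Ideal.Quotient.liftₐ I (aeval z) (fun a ha => ha)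
  let g : B →ₐ[ℂ] M := Ideal.Quotient.liftₐ I (aeval w) (fun a ha => (key a).mp ha)
  have hf : Function.Injective f := by
    rw [injective_iff_map_eq_zero]
    intro a ha
    obtain ⟨p, rfl⟩ := Ideal.Quotient.mk_surjective a
    exact Ideal.Quotient.eq_zero_iff_mem.mpr ha
  have hg : Function.Injective g := by
    rw [injective_iff_map_eq_zero]
    intro a ha
    obtain ⟨p, rfl⟩ := Ideal.Quotient.mk_surjective a
    exact Ideal.Quotient.eq_zero_iff_mem.mpr ((key p).mpr ha)
  let _ : Algebra B K := (f : B →+* K).toAlgebra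
  have : IsScalarTower ℂ B K := IsScalarTower.of_algebraMap_eq fun r => (f.commutes r).symm
  have : IsDomain B := hf.isDomain (f : B →+* K)
  have hfr : IsFractionRing B K := by
    haveI : FaithfulSMul B K := (faithfulSMul_iff_algebraMap_injective B K).mpr hf
    refine IsFractionRing.of_field B K fun a => ?_
    have ha : a ∈ IntermediateField.adjoin ℂ (Set.range z) := by rw [hgen]; trivial
    obtain ⟨r, s, h⟩ := (IntermediateField.mem_adjoin_range_iff ℂ z a).mp ha
    exact ⟨Ideal.Quotient.mk I r, Ideal.Quotient.mk I s, h⟩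
  refine ⟨IsFractionRing.liftAlgHom (A := B) (K := K) (g := g) hg, fun i => ?_⟩
  have h1 : z i = algebraMap B K (Ideal.Quotient.mk I (X i)) := by
    show z i = aeval z (X i)
    rw [aeval_X]
  rw [h1]
  have h2 : IsFractionRing.liftAlgHom (A := B) (K := K) (g := g) hg
      (algebraMap B K (Ideal.Quotient.mk I (X i))) = g (Ideal.Quotient.mk I (X i)) :=
    IsFractionRing.lift_algebraMap (A := B) (K := K) (g := (g : B →+* M)) hg _
  rw [h2]
  show aeval w (X i) = w i
  rw [aeval_X]

/-- a generic point of the surface has `z 0 ≠ 0` (else it lies on a plane section over `ℂ`), and may be normalised to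
`(1, w)` with two algebraically independent coordinates -/
theorem norm_gen {F : MvPolynomial (Fin 4) ℂ} (hF : F.IsHomogeneous 4) (hs : Pool.Agent.DS.Smooth F)
    {M : Type} [Field M] [Algebra ℂ M] (z : Fin 4 → M) (hz : aeval z F = 0) (hg : Gen z) :
    z 0 ≠ 0 ∧ ∃ i j : Fin 3, AlgebraicIndependent ℂ ![z i.succ / z 0, z j.succ / z 0] :=
  x86_norm_gen hF hs z hz hg

end Pool.Agent.QX
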