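import Pool.Agent.Lib_MP_1209e6_qx.Defs

/-! Lines over extension fields: `NoLine.up`, `g_ne_zero`. -/

set_option autoImplicit false

open MvPolynomial

namespace Pool.Agent.QX

/-- Nullstellensatz: each point with coordinates in an extension field has a complex specialisation -/
theorem exists_specialisation {k : Type} [Field k] [Algebra ℂ k] {σ : Type} [Finite σ] (y : σ → k) :
    ∃ x : σ → ℂ, ∀ G : MvPolynomial σ ℂ, aeval y G = 0 → aeval x G = 0 := by
  by_contra hcon
  push Not at hcon
  set I : Ideal (MvPolynomial σ ℂ) := RingHom.ker (aeval y : MvPolynomial σ ℂ →ₐ[ℂ] k) with hI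
  have h1 : zeroLocus ℂ I = ∅ := by
    ext x
    rw [mem_zeroLocus_iff, Set.mem_empty_iff_false, iff_false]
    intro h
    obtain ⟨G, hG, hG'⟩ := hcon x
    exact hG' (h G (RingHom.mem_ker.2 hG))
  have h2 : I.radical = ⊤ := by
    rw [← vanishingIdeal_zeroLocus_eq_radical (k := ℂ) (K := ℂ), h1, vanishingIdeal_empty]
  rw [Ideal.radical_eq_top] at h2
  exact (RingHom.ker_ne_top _) h2

theorem exists_minor {k : Type} [Field k] (a b : Fin 4 → k) (hab : LinearIndependent k ![a, b]) :
    ∃ i l, a i * b l - a l * b i ≠ 0 := by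
  by_contra hcon
  push Not at hcon
  rw [LinearIndependent.pair_iff] at hab
  have h1 : ∀ i, a i = 0 := by
    intro i
    refine (hab (-b i) (a i) ?_).2
    funext l
    rw [Pi.add_apply, Pi.smul_apply, Pi.smul_apply, Pi.zero_apply, smul_eq_mul, smul_eq_mul,
      ← hcon i l]
    ring
  have h2 := (hab 1 0 (by
    funext l
    rw [Pi.add_apply, Pi.smul_apply, Pi.smul_apply, Pi.zero_apply, h1 l, smul_zero, zero_smul,
      add_zero])).1
  exact one_ne_zero h2

/-- a surface without complex lines has no line over any extension field -/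
theorem NoLine.up {F : MvPolynomial (Fin 4) ℂ} (hl : NoLine F) {k : Type} [Field k] [Algebra ℂ k]
    (a b : Fin 4 → k) (hab : LinearIndependent k ![a, b]) :
    ∃ s t : ℂ, aeval (fun j => algebraMap ℂ k s * a j + algebraMap ℂ k t * b j) F ≠ 0 := by
  by_contra hcon
  push Not at hcon
  obtain ⟨i, l, hil⟩ := exists_minor a b hab
  obtain ⟨x, hx⟩ := exists_specialisation (σ := Option (Fin 2 × Fin 4))
    (fun o => o.elim (a i * b l - a l * b i)⁻¹ fun p => ![a p.2, b p.2] p.1)
  have h1 := hx ((X (some (0, i)) * X (some (1, l)) - X (some (0, l)) * X (some (1, i))) * X none - 1) (by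
    simp only [map_sub, map_mul, aeval_X, map_one, Option.elim_some, Option.elim_none,
      Matrix.cons_val_zero, Matrix.cons_val_one]
    rw [mul_inv_cancel₀ hil, sub_self])
  simp only [map_sub, map_mul, aeval_X, map_one] at h1
  have h2 : LinearIndependent ℂ ![fun j => x (some (0, j)), fun j => x (some (1, j))] := by
    rw [LinearIndependent.pair_iff]
    intro s t hst
    have h3 : ∀ j, s * x (some (0, j)) + t * x (some (1, j)) = 0 := fun j => congrFun hst j
    have hne : x (some (0, i)) * x (some (1, l)) - x (some (0, l)) * x (some (1, i)) ≠ 0 := by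
      intro h
      rw [h, zero_mul, zero_sub, neg_eq_zero] at h1
      exact one_ne_zero h1
    constructor
    · have h4 : s * (x (some (0, i)) * x (some (1, l)) - x (some (0, l)) * x (some (1, i))) = 0 := by
        linear_combination x (some (1, l)) * h3 i - x (some (1, i)) * h3 l
      exact (mul_eq_zero.1 h4).resolve_right hne
    · have h4 : t * (x (some (0, i)) * x (some (1, l)) - x (some (0, l)) * x (some (1, i))) = 0 := by
        linear_combination x (some (0, i)) * h3 l - x (some (0, l)) * h3 i
      exact (mul_eq_zero.1 h4).resolve_right hne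
  obtain ⟨s, t, hst⟩ := hl _ _ h2
  apply hst
  have h5 := hx (aeval (fun j => C s * X (some (0, j)) + C t * X (some (1, j))) F) (by
    rw [comp_aeval_apply]
    simp only [map_add, map_mul, aeval_X, Option.elim_some, Matrix.cons_val_zero,
      Matrix.cons_val_one, aeval_C]
    exact hcon s t)
  rw [comp_aeval_apply] at h5
  simp only [map_add, map_mul, aeval_X, aeval_C, Algebra.algebraMap_self, RingHom.id_apply] at h5
  exact h5

/-- value of the section -/
theorem eval_sec {k : Type} [Field k] [Algebra ℂ k] (F : MvPolynomial (Fin 4) ℂ) (e : Fin 3 → Fin 4 → k)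
    (q : Fin 3 → k) : eval q (sec F e) = aeval (fun j => ∑ i, q i * e i j) F := by
  have h := comp_aeval_apply (f := fun j => ∑ i, C (e i j) * X i)
    ((aeval q).restrictScalars ℂ : MvPolynomial (Fin 3) k →ₐ[ℂ] k) F
  have h1 : eval q (sec F e) = ((aeval q).restrictScalars ℂ : MvPolynomial (Fin 3) k →ₐ[ℂ] k)
      (aeval (fun j => ∑ i, C (e i j) * X i) F) := by
    rw [AlgHom.restrictScalars_apply, ← coe_aeval_eq_eval]
    rfl
  rw [h1, h]
  refine congrArg (fun f => aeval f F) ?_
  funext j
  rw [AlgHom.restrictScalars_apply, map_sum]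
  refine Finset.sum_congr rfl fun i _ => ?_
  rw [map_mul, aeval_X, ← algebraMap_eq, AlgHom.commutes, mul_comm]
  rfl

theorem g_ne_zero {k : Type} [Field k] [Algebra ℂ k] {F : MvPolynomial (Fin 4) ℂ} (hl : NoLine F)
    {e : Fin 3 → Fin 4 → k} {c : Fin 3 → k} {g : k} {b : Fin 2 → k} {A : MvPolynomial (Fin 3) k}
    (hS : Sect F e c g b A) : g ≠ 0 := by
  rintro rfl
  have hind : LinearIndependent k ![e 0, e 1] := by
    have h1 := hS.ind.comp ![0, 1] (by decide)
    have h2 : e ∘ ![0, 1] = ![e 0, e 1] := by
      funext i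
      fin_cases i <;> rfl
    rw [h2] at h1
    exact h1
  obtain ⟨s, t, hst⟩ := hl.up (e 0) (e 1) hind
  apply hst
  have h3 := congrArg (eval ![algebraMap ℂ k s, algebraMap ℂ k t, 0]) hS.eq
  rw [eval_sec] at h3
  simp only [Fin.sum_univ_three, Matrix.cons_val_zero, Matrix.cons_val_one, Matrix.cons_val, map_add,
    map_mul, map_pow, eval_C, eval_X, zero_mul, add_zero, map_zero, ne_eq, OfNat.ofNat_ne_zero,
    not_false_eq_true, zero_pow] at h3
  exact h3

end Pool.Agent.QX
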