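import Pool.Agent.Lib_MP_1209e6_qx.Defs
import Pool.Agent.Lib_MP_1209e6_ag.Der

/-! PIECE COVER, part (helper51): no point of the section on a line over `k`. -/

set_option autoImplicit false

open MvPolynomial

noncomputable section

namespace Pool.Agent.QX

/-- no line over any extension of `ℂ` -/
theorem xh51_line_up {F : MvPolynomial (Fin 4) ℂ} (hl : NoLine F) {Ω : Type} [Field Ω] [Algebra ℂ Ω]
    (f : Fin 2 → Fin 4 → Ω) (hf : LinearIndependent Ω f) :
    ∃ s t : ℂ, aeval (fun j => algebraMap ℂ Ω s * f 0 j + algebraMap ℂ Ω t * f 1 j) F ≠ 0 := by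
  by_contra hcon
  push Not at hcon
  let G : ℂ → ℂ → MvPolynomial (Fin 2 × Fin 4) ℂ := fun s t =>
    aeval (fun j => C s * X (0, j) + C t * X (1, j)) F
  have hG : ∀ (R : Type) [Field R] [Algebra ℂ R] (p : Fin 2 × Fin 4 → R) (s t : ℂ),
      aeval p (G s t) = aeval (fun j => algebraMap ℂ R s * p (0, j) + algebraMap ℂ R t * p (1, j)) F := by
    intro R _ _ p s t
    change aeval p (aeval _ F) = _
    rw [← AlgHom.comp_apply, comp_aeval]
    congr 2
    funext j
    simp
  let I : Ideal (MvPolynomial (Fin 2 × Fin 4) ℂ) := Ideal.span (Set.range fun q : ℂ × ℂ => G q.1 q.2)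
  have hmin : ∀ i j, (X (0, i) * X (1, j) - X (0, j) * X (1, i) : MvPolynomial (Fin 2 × Fin 4) ℂ) ∈
      vanishingIdeal ℂ (zeroLocus ℂ I) := by
    intro i j
    rw [mem_vanishingIdeal_iff]
    intro x hx
    by_contra hne
    have hind : LinearIndependent ℂ ![fun l => x (0, l), fun l => x (1, l)] := by
      rw [LinearIndependent.pair_iff]
      intro s t hst
      have h1 := congrFun hst i
      have h2 := congrFun hst j
      simp only [Pi.add_apply, Pi.smul_apply, smul_eq_mul, Pi.zero_apply] at h1 h2
      simp only [map_sub, map_mul, aeval_X] at hne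
      constructor
      · have : s * (x (0, i) * x (1, j) - x (0, j) * x (1, i)) = 0 := by
          linear_combination x (1, j) * h1 - x (1, i) * h2
        exact (mul_eq_zero.1 this).resolve_right hne
      · have : t * (x (0, i) * x (1, j) - x (0, j) * x (1, i)) = 0 := by
          linear_combination x (0, i) * h2 - x (0, j) * h1
        exact (mul_eq_zero.1 this).resolve_right hne
    obtain ⟨s, t, h⟩ := hl _ _ hind
    apply h
    have h1 : aeval x (G s t) = 0 := (mem_zeroLocus_iff.1 hx) _ (Ideal.subset_span ⟨(s, t), rfl⟩)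
    rw [hG] at h1
    exact h1
  have hz : ∀ i j, f 0 i * f 1 j - f 0 j * f 1 i = 0 := by
    intro i j
    have h1 := hmin i j
    rw [vanishingIdeal_zeroLocus_eq_radical] at h1
    obtain ⟨N, hN⟩ := h1
    let p : Fin 2 × Fin 4 → Ω := fun q => f q.1 q.2
    have h2 : I ≤ RingHom.ker (aeval p : MvPolynomial (Fin 2 × Fin 4) ℂ →ₐ[ℂ] Ω) := by
      refine Ideal.span_le.2 ?_
      rintro _ ⟨q, rfl⟩
      change aeval p (G q.1 q.2) = 0
      rw [hG]
      exact hcon q.1 q.2
    have h3 : aeval p ((X (0, i) * X (1, j) - X (0, j) * X (1, i)) ^ N :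
      MvPolynomial (Fin 2 × Fin 4) ℂ) = 0 := h2 hN
    rw [map_pow] at h3
    have h4 := eq_zero_of_pow_eq_zero h3
    simpa [p] using h4
  have h0 : f 0 ≠ 0 := hf.ne_zero 0
  obtain ⟨i, hi⟩ : ∃ i, f 0 i ≠ 0 := by
    by_contra h
    push Not at h
    exact h0 (funext h)
  have h1 := Fintype.linearIndependent_iff.1 hf ![f 1 i, - f 0 i] (by
    funext j
    simp only [Fin.sum_univ_two, Matrix.cons_val_zero, Matrix.cons_val_one, Pi.add_apply, Pi.smul_apply,
      smul_eq_mul, Pi.zero_apply]
    linear_combination - hz i j) 1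
  simp only [Matrix.cons_val_one] at h1
  exact hi (neg_eq_zero.1 h1)

/-- elements of an extension algebraic over an algebraically closed field -/
theorem xh51_mem_range {k M : Type} [Field k] [IsAlgClosed k] [Field M] (τ : k →+* M) (m : M)
    (Q : Polynomial k) (hQ : Q ≠ 0) (hm : Q.eval₂ τ m = 0) : m ∈ Set.range τ := by
  let _ := τ.toAlgebra
  have h1 : IsAlgebraic k m := ⟨Q, hQ, hm⟩
  have h2 := IsAlgClosed.degree_eq_one_of_irreducible k (minpoly.irreducible h1.isIntegral)
  exact minpoly.mem_range_of_degree_eq_one k m h2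

theorem xh51_scale {M : Type} [Field M] [Algebra ℂ M] {F : MvPolynomial (Fin 4) ℂ}
    (hF : F.IsHomogeneous 4) (s : M) (p : Fin 4 → M) :
    aeval (fun i => s * p i) F = s ^ 4 * aeval p F := by
  rw [aeval_def, aeval_def, eval₂_eq', eval₂_eq', Finset.mul_sum]
  refine Finset.sum_congr rfl fun e he => ?_
  have h1 : ∏ i, (s * p i) ^ e i = s ^ 4 * ∏ i, p i ^ e i := by
    simp only [mul_pow]
    rw [Finset.prod_mul_distrib, Finset.prod_pow_eq_pow_sum]
    congr 2
    have h2 := hF.degree_eq_sum_deg_support he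
    refine Eq.trans (Finset.sum_subset (Finset.subset_univ _) fun i _ hi => ?_).symm h2.symm
    simpa using hi
  rw [h1]
  ring

/-- a point of the surface on a line over `τ k` -/
theorem xh51_on_line {F : MvPolynomial (Fin 4) ℂ} (hF : F.IsHomogeneous 4) (hl : NoLine F)
    {k M : Type} [Field k] [Algebra ℂ k] [IsAlgClosed k] [Field M] [Algebra ℂ M] (τ : k →ₐ[ℂ] M)
    (f : Fin 2 → Fin 4 → k) (hf : LinearIndependent k f) (α β : M)
    (h : aeval (fun j => α * τ (f 0 j) + β * τ (f 1 j)) F = 0) :
    ∃ (γ : M) (w : Fin 4 → k), ∀ j, α * τ (f 0 j) + β * τ (f 1 j) = γ * τ (w j) := by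
  by_cases hβ : β = 0
  · exact ⟨α, f 0, fun j => by rw [hβ, zero_mul, add_zero]⟩
  let H : Polynomial k :=
    aeval (fun j => Polynomial.X * Polynomial.C (f 0 j) + Polynomial.C (f 1 j)) F
  have hH : H.eval₂ (τ : k →+* M) (α / β) = 0 := by
    have h1 : ∀ j, α * τ (f 0 j) + β * τ (f 1 j) = β * (α / β * τ (f 0 j) + τ (f 1 j)) := by
      intro j
      field_simp
    simp only [h1] at h
    rw [xh51_scale hF] at h
    have h2 := (mul_eq_zero.1 h).resolve_left (pow_ne_zero 4 hβ)
    have h3 : H.eval₂ (τ : k →+* M) (α / β) =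
        aeval (fun j => α / β * τ (f 0 j) + τ (f 1 j)) F := by
      let ev : Polynomial k →ₐ[ℂ] M :=
        { Polynomial.eval₂RingHom (τ : k →+* M) (α / β) with
          commutes' := fun r => by
            simp [Polynomial.algebraMap_apply] }
      have h4 : ev H = aeval (fun j => ev (Polynomial.X * Polynomial.C (f 0 j) +
          Polynomial.C (f 1 j))) F := by
        change ev (aeval _ F) = _
        rw [← AlgHom.comp_apply, comp_aeval]
      have h5 : ∀ P, ev P = P.eval₂ (τ : k →+* M) (α / β) := fun P => rfl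
      rw [h5] at h4
      rw [h4]
      congr 2
      funext j
      rw [h5]
      simp only [Polynomial.eval₂_add, Polynomial.eval₂_mul, Polynomial.eval₂_X, Polynomial.eval₂_C]
      rfl
    rw [h3]
    exact h2
  by_cases hH0 : H = 0
  · exfalso
    obtain ⟨s, t, hst⟩ := xh51_line_up hl f hf
    have hev : ∀ x : k, aeval (fun j => x * f 0 j + f 1 j) F = 0 := by
      intro x
      have h1 : Polynomial.aeval x H = aeval (fun j => x * f 0 j + f 1 j) F := by
        have h2 : (Polynomial.aeval x H : k) = ((Polynomial.aeval x).restrictScalars ℂ :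
          Polynomial k →ₐ[ℂ] k) H := rfl
        rw [h2]
        change ((Polynomial.aeval x).restrictScalars ℂ : Polynomial k →ₐ[ℂ] k) (aeval _ F) = _
        rw [← AlgHom.comp_apply, comp_aeval]
        congr 2
        funext j
        simp [mul_comm x]
      rw [← h1, hH0, map_zero]
    have hgen : ∀ x y : k, y ≠ 0 → aeval (fun j => x * f 0 j + y * f 1 j) F = 0 := by
      intro x y hy
      have h1 : ∀ j, x * f 0 j + y * f 1 j = y * (x / y * f 0 j + f 1 j) := by
        intro j
        field_simp
      simp only [h1]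
      rw [xh51_scale hF, hev, mul_zero]
    by_cases ht : algebraMap ℂ k t = 0
    · -- `F (f 0) = 0`
      let G : Polynomial k :=
        aeval (fun j => Polynomial.C (algebraMap ℂ k s * f 0 j) + Polynomial.X * Polynomial.C (f 1 j)) F
      have hG : ∀ y : k, Polynomial.aeval y G =
          aeval (fun j => algebraMap ℂ k s * f 0 j + y * f 1 j) F := by
        intro y
        have h2 : (Polynomial.aeval y G : k) = ((Polynomial.aeval y).restrictScalars ℂ :
          Polynomial k →ₐ[ℂ] k) G := rfl
        rw [h2]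
        change ((Polynomial.aeval y).restrictScalars ℂ : Polynomial k →ₐ[ℂ] k) (aeval _ F) = _
        rw [← AlgHom.comp_apply, comp_aeval]
        congr 2
        funext j
        simp [mul_comm y]
      have hG0 : G = 0 := by
        refine Polynomial.eq_zero_of_infinite_isRoot G ?_
        have hinf : Infinite k := IsAlgClosed.instInfinite
        refine Set.Infinite.mono (s := {y : k | y ≠ 0}) (fun y hy => ?_) ?_
        · change G.eval y = 0
          rw [← Polynomial.coe_aeval_eq_eval, hG]
          exact hgen _ _ hy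
        · have := (Set.finite_singleton (0 : k)).infinite_compl
          exact this
      have h1 := hG 0
      rw [hG0, map_zero] at h1
      apply hst
      rw [ht]
      exact h1.symm
    · exact hst (hgen _ _ ht)
  · obtain ⟨r, hr⟩ := xh51_mem_range (τ : k →+* M) (α / β) H hH0 hH
    refine ⟨β, fun j => r * f 0 j + f 1 j, fun j => ?_⟩
    have hr' : τ r = α / β := hr
    rw [map_add, map_mul, hr']
    field_simp

theorem xh51_kill {k : Type} [Field k] [Algebra ℂ k] {T : k} (hT : Base T) (D : Derivation ℂ k k)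
    (h : D T = 0) (u : k) : D u = 0 := by
  have hchar : CharZero k := charZero_of_injective_algebraMap (algebraMap ℂ k).injective
  refine Pool.Agent.Campana.derivation_eq_zero D (IntermediateField.adjoin ℂ {T}) ?_ u (hT.alg u)
  intro a ha
  induction ha using IntermediateField.adjoin_induction with
  | mem x hx => rw [Set.mem_singleton_iff.1 hx]; exact h
  | algebraMap r => exact D.map_algebraMap r
  | add x y _ _ hx hy => rw [map_add, hx, hy, add_zero]
  | inv x _ hx => rw [Derivation.leibniz_inv, hx, smul_zero]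
  | mul x y _ _ hx hy => rw [Derivation.leibniz, hx, hy, smul_zero, smul_zero, add_zero]

theorem xh51_base {k : Type} [Field k] [Algebra ℂ k] {T : k} (hT : Base T) (u v : k) :
    ¬ AlgebraicIndependent ℂ ![u, v] := by
  intro h
  have hchar : CharZero k := charZero_of_injective_algebraMap (algebraMap ℂ k).injective
  obtain ⟨D0, hD0⟩ := Pool.Agent.Campana.exists_derivation _ h (![1, 0] : Fin 2 → k)
  obtain ⟨D1, hD1⟩ := Pool.Agent.Campana.exists_derivation _ h (![0, 1] : Fin 2 → k)
  have a00 : D0 u = 1 := hD0 0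
  have a10 : D1 u = 0 := hD1 0
  have a11 : D1 v = 1 := hD1 1
  have h1 := xh51_kill hT (D1 T • D0 - D0 T • D1) (by
    simp only [Derivation.sub_apply, Derivation.smul_apply, smul_eq_mul]
    ring) u
  simp only [Derivation.sub_apply, Derivation.smul_apply, smul_eq_mul, a00, a10, mul_one, mul_zero,
    sub_zero] at h1
  have h2 := xh51_kill hT D1 h1 v
  rw [a11] at h2
  exact one_ne_zero h2

/-- the point `q` is not on a line of the plane with coefficients in `τ k` -/
theorem not_on_line {F : MvPolynomial (Fin 4) ℂ} (hF : F.IsHomogeneous 4) (hl : NoLine F)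
    {k M : Type} [Field k] [Algebra ℂ k] [IsAlgClosed k] [Field M] [Algebra ℂ M] (T : k) (hT : Base T)
    (τ : k →ₐ[ℂ] M) (e : Fin 3 → Fin 4 → k) (he : LinearIndependent k e) (q : Fin 4 → M)
    (hq : aeval q F = 0) (hq0 : q 0 = 1) (htr : ∃ i j, AlgebraicIndependent ℂ ![q i, q j])
    (p : Fin 3 → M) (hp : ∀ j, q j = ∑ i, p i * τ (e i j)) (l : Fin 3 → k) (hl0 : l ≠ 0)
    (h : ∑ i, τ (l i) * p i = 0) : False := by
  obtain ⟨i0, hi0⟩ : ∃ i, l i ≠ 0 := by
    by_contra hcon
    push Not at hcon
    exact hl0 (funext hcon)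
  have hi0' : τ (l i0) ≠ 0 := (map_ne_zero τ).2 hi0
  let f : Fin 2 → Fin 4 → k := fun a j => e (i0.succAbove a) j - l (i0.succAbove a) / l i0 * e i0 j
  have hf : LinearIndependent k f := by
    rw [Fintype.linearIndependent_iff] at he ⊢
    intro g hg a
    have h1 := he (i0.insertNth (- ∑ b, g b * (l (i0.succAbove b) / l i0)) g) (by
      rw [Fin.sum_univ_succAbove _ i0]
      simp only [Fin.insertNth_apply_same, Fin.insertNth_apply_succAbove]
      rw [← hg]
      funext j
      simp only [f, Pi.add_apply, Pi.smul_apply, smul_eq_mul, Finset.sum_apply, neg_mul,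
        Finset.sum_mul, mul_sub, Finset.sum_sub_distrib]
      rw [neg_add_eq_sub]
      congr 1
      refine Finset.sum_congr rfl fun b _ => ?_
      ring) (i0.succAbove a)
    rw [Fin.insertNth_apply_succAbove] at h1
    exact h1
  have hpi : p i0 = - ∑ a, τ (l (i0.succAbove a) / l i0) * p (i0.succAbove a) := by
    rw [Fin.sum_univ_succAbove _ i0] at h
    have h1 : τ (l i0) * p i0 = - ∑ a, τ (l (i0.succAbove a)) * p (i0.succAbove a) := by
      linear_combination h
    have h2 : τ (l i0) * (- ∑ a, τ (l (i0.succAbove a) / l i0) * p (i0.succAbove a)) =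
        - ∑ a, τ (l (i0.succAbove a)) * p (i0.succAbove a) := by
      rw [mul_neg, Finset.mul_sum]
      congr 1
      refine Finset.sum_congr rfl fun a _ => ?_
      rw [map_div₀]
      field_simp
    exact mul_left_cancel₀ hi0' (h1.trans h2.symm)
  have hpt : ∀ j, q j =
      p (i0.succAbove 0) * τ (f 0 j) + p (i0.succAbove 1) * τ (f 1 j) := by
    intro j
    rw [hp, Fin.sum_univ_succAbove _ i0, hpi, Fin.sum_univ_two, Fin.sum_univ_two]
    simp only [f, map_sub, map_mul]
    ring
  obtain ⟨γ, w, hw⟩ := xh51_on_line hF hl τ f hf (p (i0.succAbove 0)) (p (i0.succAbove 1)) (by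
    rw [← hq]
    congr 2
    funext j
    exact (hpt j).symm)
  have h0 : 1 = γ * τ (w 0) := by
    rw [← hw, ← hpt, hq0]
  have hw0 : τ (w 0) ≠ 0 := by
    intro h1
    rw [h1, mul_zero] at h0
    exact one_ne_zero h0
  have hw0' : w 0 ≠ 0 := fun h1 => hw0 (by rw [h1, map_zero])
  have hz : ∀ j : Fin 4, q j = τ (w j / w 0) := by
    intro j
    have h1 : q j = γ * τ (w j) := by
      rw [← hw, ← hpt]
    rw [h1, map_div₀, eq_div_iff hw0]
    linear_combination (- τ (w j)) * h0
  obtain ⟨i, j, hij⟩ := htr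
  rw [hz, hz] at hij
  have h2 : (![τ (w i / w 0), τ (w j / w 0)] : Fin 2 → M) =
      τ ∘ ![w i / w 0, w j / w 0] := by
    funext a
    fin_cases a <;> rfl
  rw [h2] at hij
  exact xh51_base hT _ _ (AlgebraicIndependent.of_comp τ hij)

end Pool.Agent.QX
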