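import Pool.Agent.Lib_MP_1209e6_qx.X53
import Pool.Agent.Lib_MP_1209e6_qx.Xh39
import Pool.Agent.Lib_MP_1209e6_qx.Xh51

/-! PIECE COVER: the covering family of one member through the generic point. -/

set_option autoImplicit false

open MvPolynomial Pool.Agent.CampanaFlow

noncomputable section

namespace Pool.Agent.QX

/-- `M` is algebraic over `K = ℂ(z)`, of transcendence degree `2`; `τ k ⊆ M` has transcendence degree `1`. `s₁, s₂` the
roots of `quad c`; `Y ⊆ M` the finite set of all `τ` of the coordinates of `e`, the coefficients of `c, b, A`, `g`, `s₁`,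
`s₂`; `L = K (Y)` (finite over `K`), `k' = ℂ(Y)` in `L`. `g ≠ 0`: otherwise `X₂` divides `sec F e`, a line over `k`
in the surface, so a complex line (`Nullstellensatz`), against `NoLine`. The coordinates `p` of `(1, z)` in the plane:
`p_i ∈ L` (`e` independent), `L = k' (p₁/p₀, p₂/p₀)` because `p ↦ (1, z)` is linear over `k'`. If `p₀ = 0`, or
`p₁ = s₁ p₀`, or `m = p₂ / (p₁ - s₁ p₀)` is algebraic over `k'`, then `(1, z)` lies on a line of the plane with
coefficients algebraic over `k'`, so in `τ k`; `F = 0` has only finitely many points on it (no line over `k`), so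
`(1, z)` is proportional to a `τ k` point: transcendence degree `≤ 1`, against `Base`. `D`: a derivation of `M` (or `L`)
zero on `τ k`, `D m ≠ 0`, `m` transcendental over `k'` (`L` is finite over `k' (m)`). -/
theorem exists_cover {F : MvPolynomial (Fin 4) ℂ} (hF : F.IsHomogeneous 4) (hl : NoLine F)
    {k M K : Type} [Field k] [Algebra ℂ k] [IsAlgClosed k] [Field M] [Algebra ℂ M] [Field K] [Algebra ℂ K]
    [Algebra K M] [IsScalarTower ℂ K M] [Algebra.IsAlgebraic K M] (z : Fin 3 → K)
    (hz : IntermediateField.adjoin ℂ (Set.range z) = ⊤) (hFz : aeval (Fin.cons 1 z : Fin 4 → K) F = 0)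
    (htr : ∃ i j, AlgebraicIndependent ℂ ![z i, z j]) (T : k) (hT : Base T) (τ : k →ₐ[ℂ] M)
    (e : Fin 3 → Fin 4 → k) (c : Fin 3 → k) (g : k) (b : Fin 2 → k) (A : MvPolynomial (Fin 3) k)
    (hS : Sect F e c g b A) (p : Fin 3 → M)
    (hp : ∀ j, (Fin.cons 1 (fun l => algebraMap K M (z l)) : Fin 4 → M) j = ∑ i, p i * τ (e i j)) :
    ∃ (L : IntermediateField K M) (k' : IntermediateField ℂ L) (N : ℕ) (x : Fin (N + 1) → L),
      FiniteDimensional K L ∧ AlmostHomogeneous k' x ∧ ∀ u ∈ k', (u : M) ∈ Set.range τ := by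
  have hFq : aeval (Fin.cons 1 (fun l => algebraMap K M (z l)) : Fin 4 → M) F = 0 := by
    have h1 := congrArg (algebraMap K M) hFz
    rw [map_zero, ← MvPolynomial.aeval_algebraMap_apply] at h1
    rw [← h1]
    congr 2
    funext j
    refine Fin.cases ?_ (fun l => ?_) j
    · simp
    · simp
  have htr' : ∃ i j, AlgebraicIndependent ℂ
      ![(Fin.cons 1 (fun l => algebraMap K M (z l)) : Fin 4 → M) i,
        (Fin.cons 1 (fun l => algebraMap K M (z l)) : Fin 4 → M) j] := by
    obtain ⟨i, j, hij⟩ := htr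
    refine ⟨i.succ, j.succ, ?_⟩
    have h1 := hij.map' (f := IsScalarTower.toAlgHom ℂ K M) (algebraMap K M).injective
    convert h1 using 1
    funext t
    fin_cases t <;> simp
  exact cover_core z hz hFz τ e c g b A hS p hp (g_ne_zero hl hS) fun l hl0 h =>
    not_on_line hF hl T hT τ e hS.ind _ hFq (Fin.cons_zero _ _) htr' p hp l hl0 h

end Pool.Agent.QX
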