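import Pool.Agent.Lib_MP_1209e6_qx.Defs

/-! Lines over a field extension go down to `ℂ`. -/

set_option autoImplicit false

open MvPolynomial

noncomputable section

namespace Pool.Agent.QX

/-- two dependent vectors -/
theorem dep_of_minors {k : Type} [Field k] (a b : Fin 4 → k) (h : ∀ i j, a i * b j = a j * b i) :
    ¬ LinearIndependent k ![a, b] := by
  rw [LinearIndependent.pair_iff]
  intro hind
  by_cases ha : a = 0
  · have := (hind 1 0 (by rw [ha]; simp)).1
    exact one_ne_zero this
  · obtain ⟨i, hi⟩ := Function.ne_iff.1 ha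
    have h1 := (hind (b i) (-(a i)) (by
      funext j
      have := h i j
      simp only [Pi.add_apply, Pi.smul_apply, smul_eq_mul, Pi.zero_apply]
      linear_combination -this)).2
    exact hi (neg_eq_zero.1 h1)

/-- a line over an extension of `ℂ` in the surface gives a line over `ℂ` -/
theorem noLine_up {F : MvPolynomial (Fin 4) ℂ} (hl : NoLine F) {k : Type} [Field k] [Algebra ℂ k]
    (a b : Fin 4 → k) (h : LinearIndependent k ![a, b]) :
    ∃ s t : ℂ, aeval (fun j => algebraMap ℂ k s * a j + algebraMap ℂ k t * b j) F ≠ 0 := by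
  by_contra hcon
  push Not at hcon
  obtain ⟨i, j, hij⟩ : ∃ i j, a i * b j ≠ a j * b i := by
    by_contra h1
    push Not at h1
    exact dep_of_minors a b h1 h
  let y : Fin 4 ⊕ Fin 4 → k := Sum.elim a b
  let I : Ideal (MvPolynomial (Fin 4 ⊕ Fin 4) ℂ) := RingHom.ker (aeval y).toRingHom
  have hI : I.IsPrime := RingHom.ker_isPrime _
  let Q : MvPolynomial (Fin 4 ⊕ Fin 4) ℂ :=
    X (Sum.inl i) * X (Sum.inr j) - X (Sum.inl j) * X (Sum.inr i)
  have hQ : Q ∉ I := by
    intro hQ
    have h1 : aeval y Q = 0 := hQ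
    simp only [Q, map_sub, map_mul, aeval_X, y, Sum.elim_inl, Sum.elim_inr] at h1
    exact hij (sub_eq_zero.1 h1)
  have h2 : ¬ ∀ x ∈ zeroLocus ℂ I, aeval x Q = 0 := by
    intro h3
    apply hQ
    have h4 : Q ∈ vanishingIdeal ℂ (zeroLocus ℂ I) := by
      rw [mem_vanishingIdeal_iff]
      exact h3
    rwa [IsPrime.vanishingIdeal_zeroLocus I] at h4
  push Not at h2
  obtain ⟨x, hx, hxQ⟩ := h2
  have hind : LinearIndependent ℂ ![fun l => x (Sum.inl l), fun l => x (Sum.inr l)] := by
    by_contra hdep
    rw [LinearIndependent.pair_iff] at hdep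
    push Not at hdep
    obtain ⟨s, t, hst, hne⟩ := hdep
    apply hxQ
    have h5 : ∀ l, s * x (Sum.inl l) + t * x (Sum.inr l) = 0 := fun l => congrFun hst l
    simp only [Q, map_sub, map_mul, aeval_X]
    by_cases hs : s = 0
    · have ht : t ≠ 0 := hne hs
      have h6 : ∀ l, x (Sum.inr l) = 0 := by
        intro l
        have := h5 l
        rw [hs, zero_mul, zero_add] at this
        exact (mul_eq_zero.1 this).resolve_left ht
      rw [h6, h6]
      ring
    · have h7 : s * (x (Sum.inl i) * x (Sum.inr j) - x (Sum.inl j) * x (Sum.inr i)) = 0 := by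
        linear_combination x (Sum.inr j) * h5 i - x (Sum.inr i) * h5 j
      exact (mul_eq_zero.1 h7).resolve_left hs
  obtain ⟨s, t, hst⟩ := hl _ _ hind
  apply hst
  let G : MvPolynomial (Fin 4 ⊕ Fin 4) ℂ :=
    aeval (fun l => C s * X (Sum.inl l) + C t * X (Sum.inr l)) F
  have hG : G ∈ I := by
    change aeval y G = 0
    rw [← hcon s t]
    simp only [G]
    rw [MvPolynomial.comp_aeval_apply]
    congr 2
    funext l
    simp [y]
  have h8 := (mem_zeroLocus_iff.1 hx) G hG
  simp only [G] at h8
  rw [MvPolynomial.comp_aeval_apply] at h8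
  rw [← h8]
  congr 2
  funext l
  simp

end Pool.Agent.QX
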