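import Pool.Agent.Lib_MP_1209e6_qx.Model
import Pool.Agent.Lib_MP_1209e6_qx.LineUp

/-! COVER, auxiliary lemmas (helper3). -/

set_option autoImplicit false

open MvPolynomial Pool.Agent.CampanaFlow

noncomputable section

namespace Pool.Agent.QX

/-- transcendence degree one -/
theorem base_dep {k : Type} [Field k] [Algebra ℂ k] (T : k) (hT : Base T) (a b : k) :
    ¬ AlgebraicIndependent ℂ ![a, b] := by
  intro h
  have hk : ∀ D : Derivation ℂ k k, D T = 0 → ∀ u, D u = 0 := by
    intro D hD u
    refine Pool.Agent.DP.der_alg (IntermediateField.adjoin ℂ {T}) D ?_ (hT.alg u)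
    intro v hv
    induction hv using IntermediateField.adjoin_induction with
    | mem x hx =>
      rw [Set.mem_singleton_iff.1 hx]
      exact hD
    | algebraMap r => exact D.map_algebraMap r
    | add x y _ _ h1 h2 => rw [map_add, h1, h2, add_zero]
    | inv x _ h1 => rw [Derivation.leibniz_inv, h1, smul_zero]
    | mul x y _ _ h1 h2 => rw [Derivation.leibniz, h1, h2, smul_zero, smul_zero, add_zero]
  obtain ⟨D, hD⟩ := Pool.Agent.Campana.exists_derivation (k := ℂ) (K := k) _ h ![0, 1]
  obtain ⟨E, hE⟩ := Pool.Agent.Campana.exists_derivation (k := ℂ) (K := k) _ h ![1, 0]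
  have hDa : D a = 0 := hD 0
  have hDb : D b = 1 := hD 1
  have hEa : E a = 1 := hE 0
  have h1 := hk (D T • E - E T • D) (by
    change D T * E T - E T * D T = 0
    ring) a
  change D T * E a - E T * D a = 0 at h1
  rw [hEa, hDa, mul_one, mul_zero, sub_zero] at h1
  have h2 := hk D h1 b
  rw [hDb] at h2
  exact one_ne_zero h2

/-- roots in a bigger field of a polynomial over an algebraically closed field -/
theorem root_mem_range {k M : Type} [Field k] [IsAlgClosed k] [Field M] (τ : k →+* M)
    (q : Polynomial k) (hq : q ≠ 0) (θ : M) (h : q.eval₂ τ θ = 0) : ∃ r, τ r = θ := by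
  let _ : Algebra k M := τ.toAlgebra
  have h1 : IsAlgebraic k θ := ⟨q, hq, h⟩
  have h3 : IsIntegral k θ := h1.isIntegral
  have h4 := IsAlgClosed.degree_eq_one_of_irreducible k (minpoly.irreducible h3)
  obtain ⟨r, hr⟩ := minpoly.mem_range_of_degree_eq_one k θ h4
  exact ⟨r, hr⟩

/-- roots of polynomials with coefficients in the range -/
theorem root_mem_range' {k M : Type} [Field k] [IsAlgClosed k] [Field M] (τ : k →+* M)
    (q : Polynomial M) (hq : q ≠ 0) (hc : ∀ n, ∃ r, τ r = q.coeff n) (θ : M) (h : q.eval θ = 0) :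
    ∃ r, τ r = θ := by
  have hlift : q ∈ Polynomial.lifts τ := by
    rw [Polynomial.lifts_iff_coeff_lifts]
    exact hc
  obtain ⟨q', hq'⟩ := (Polynomial.mem_lifts _).1 hlift
  refine root_mem_range τ q' ?_ θ ?_
  · rintro rfl
    rw [Polynomial.map_zero] at hq'
    exact hq hq'.symm
  · rw [← Polynomial.eval_map, hq']
    exact h

section line

variable {k M : Type} [Field k] [Algebra ℂ k] [IsAlgClosed k] [Field M] [Algebra ℂ M]

/-- homogeneity -/
theorem hom_smul {F : MvPolynomial (Fin 4) ℂ} (hF : F.IsHomogeneous 4) {R : Type} [Field R]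
    [Algebra ℂ R] (c : R) (v : Fin 4 → R) :
    aeval (fun j => c * v j) F = c ^ 4 * aeval v F := by
  rw [aeval_def, aeval_def, eval₂_eq, eval₂_eq, Finset.mul_sum]
  refine Finset.sum_congr rfl fun m hm => ?_
  have hd : m.degree = 4 := by
    by_contra h
    exact mem_support_iff.1 hm (hF.coeff_eq_zero h)
  have h3 : ∏ i ∈ m.support, (c * v i) ^ m i = c ^ 4 * ∏ i ∈ m.support, v i ^ m i := by
    simp only [mul_pow]
    rw [Finset.prod_mul_distrib, Finset.prod_pow_eq_pow_sum]
    congr 2
  rw [h3]
  ring

/-- a zero on a `k`-line is a `k`-point -/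
theorem pt_on_line {F : MvPolynomial (Fin 4) ℂ} (hF : F.IsHomogeneous 4) (hl : NoLine F)
    (τ : k →ₐ[ℂ] M) (a b : Fin 4 → k) (h : LinearIndependent k ![a, b]) (α β : M)
    (hz : aeval (fun j => α * τ (a j) + β * τ (b j)) F = 0) :
    ∃ (c : M) (x : Fin 4 → k), ∀ j, α * τ (a j) + β * τ (b j) = c * τ (x j) := by
  by_cases hβ : β = 0
  · exact ⟨α, a, fun j => by rw [hβ, zero_mul, add_zero]⟩
  have hinf : Infinite k := by
    have : CharZero k := charZero_of_injective_algebraMap (algebraMap ℂ k).injective
    infer_instance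
  let q : Polynomial k := aeval (fun j => Polynomial.X * Polynomial.C (a j) + Polynomial.C (b j)) F
  have hqe : ∀ θ : k, q.eval θ = aeval (fun j => θ * a j + b j) F := by
    intro θ
    have h1 : q.eval θ = ((Polynomial.aeval θ : Polynomial k →ₐ[k] k).restrictScalars ℂ) q := by
      change _ = Polynomial.aeval θ q
      rw [Polynomial.coe_aeval_eq_eval]
    rw [h1, MvPolynomial.comp_aeval_apply]
    congr 2
    funext j
    simp
    exact mul_comm _ _
  have hqM : ∀ θ : M, q.eval₂ (τ : k →+* M) θ = aeval (fun j => θ * τ (a j) + τ (b j)) F := by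
    intro θ
    let φ : Polynomial k →ₐ[ℂ] M :=
      { (Polynomial.eval₂RingHom (τ : k →+* M) θ) with
        commutes' := fun r => by
          change Polynomial.eval₂ (τ : k →+* M) θ (algebraMap ℂ (Polynomial k) r) = _
          rw [Polynomial.algebraMap_apply, Polynomial.eval₂_C]
          exact τ.commutes r }
    have h1 : q.eval₂ (τ : k →+* M) θ = φ q := rfl
    rw [h1, MvPolynomial.comp_aeval_apply]
    congr 2
    funext j
    change Polynomial.eval₂ (τ : k →+* M) θ (Polynomial.X * Polynomial.C (a j) +
      Polynomial.C (b j)) = _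
    simp
    exact mul_comm _ _
  have hq : q ≠ 0 := by
    intro hq0
    obtain ⟨s, t, hst⟩ := noLine_up hl a b h
    apply hst
    by_cases ht : t = 0
    · -- a nonzero value at `t = 0` gives a nonzero value at some `t ≠ 0`
      let g : Polynomial k := aeval (fun j => Polynomial.C (algebraMap ℂ k s * a j) +
        Polynomial.X * Polynomial.C (b j)) F
      have hge : ∀ θ : k, g.eval θ = aeval (fun j => algebraMap ℂ k s * a j + θ * b j) F := by
        intro θ
        have h1 : g.eval θ = ((Polynomial.aeval θ : Polynomial k →ₐ[k] k).restrictScalars ℂ) g := by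
          change _ = Polynomial.aeval θ g
          rw [Polynomial.coe_aeval_eq_eval]
        rw [h1, MvPolynomial.comp_aeval_apply]
        congr 2
        funext j
        simp
        exact mul_comm _ _
      have hg0 : g = 0 := by
        apply Polynomial.eq_zero_of_infinite_isRoot
        refine Set.Infinite.mono (s := {θ : k | θ ≠ 0}) ?_ ?_
        · intro θ hθ
          have hθ' : θ ≠ 0 := hθ
          change g.eval θ = 0
          rw [hge]
          have h5 : (fun j => algebraMap ℂ k s * a j + θ * b j) =
              fun j => θ * ((algebraMap ℂ k s / θ) * a j + b j) := by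
            funext j
            field_simp
          rw [h5, hom_smul hF θ, ← hqe, hq0, Polynomial.eval_zero, mul_zero]
        · have : ({θ : k | θ ≠ 0} : Set k) = {0}ᶜ := by
            ext θ
            simp
          rw [this]
          exact (Set.finite_singleton _).infinite_compl
      have h6 := hge (algebraMap ℂ k t)
      rw [hg0, Polynomial.eval_zero] at h6
      exact h6.symm
    · have ht' : algebraMap ℂ k t ≠ 0 := fun h => ht ((map_eq_zero _).1 h)
      have h5 : (fun j => algebraMap ℂ k s * a j + algebraMap ℂ k t * b j) =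
          fun j => algebraMap ℂ k t * ((algebraMap ℂ k s / algebraMap ℂ k t) * a j + b j) := by
        funext j
        field_simp
      rw [h5, hom_smul hF, ← hqe, hq0, Polynomial.eval_zero, mul_zero]
  have hθ : q.eval₂ (τ : k →+* M) (α / β) = 0 := by
    rw [hqM]
    have h5 : (fun j => α * τ (a j) + β * τ (b j)) =
        fun j => β * ((α / β) * τ (a j) + τ (b j)) := by
      funext j
      field_simp
    rw [h5, hom_smul hF] at hz
    exact (mul_eq_zero.1 hz).resolve_left (pow_ne_zero 4 hβ)
  obtain ⟨r, hr⟩ := root_mem_range (τ : k →+* M) q hq _ hθ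
  have hr' : τ r = α / β := hr
  refine ⟨β, fun j => r * a j + b j, fun j => ?_⟩
  rw [map_add, map_mul, hr']
  field_simp

/-- the three indices -/
theorem three_idx (i : Fin 3) : ∃ l m : Fin 3, i ≠ l ∧ i ≠ m ∧ l ≠ m ∧
    ∀ (R : Type) [AddCommMonoid R] (f : Fin 3 → R), ∑ n, f n = f i + (f l + f m) := by
  fin_cases i
  · refine ⟨1, 2, by decide, by decide, by decide, fun R _ f => ?_⟩
    rw [Fin.sum_univ_three]
    exact add_assoc _ _ _
  · refine ⟨0, 2, by decide, by decide, by decide, fun R _ f => ?_⟩
    rw [Fin.sum_univ_three]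
    change f 0 + f 1 + f 2 = f 1 + (f 0 + f 2)
    rw [add_comm (f 0) (f 1), add_assoc]
  · refine ⟨0, 1, by decide, by decide, by decide, fun R _ f => ?_⟩
    rw [Fin.sum_univ_three]
    change f 0 + f 1 + f 2 = f 2 + (f 0 + f 1)
    rw [add_comm]

/-- a point of the section which satisfies a linear relation over `k` is a `k`-point -/
theorem rel_point {F : MvPolynomial (Fin 4) ℂ} (hF : F.IsHomogeneous 4) (hl : NoLine F)
    (τ : k →ₐ[ℂ] M) (e : Fin 3 → Fin 4 → k) (he : LinearIndependent k e) (p : Fin 3 → M)
    (hz : aeval (fun j => ∑ i, p i * τ (e i j)) F = 0) (w : Fin 3 → k) (hw : w ≠ 0)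
    (hrel : ∑ i, τ (w i) * p i = 0) :
    ∃ (c : M) (x : Fin 4 → k), ∀ j, ∑ i, p i * τ (e i j) = c * τ (x j) := by
  obtain ⟨i, hi⟩ := Function.ne_iff.1 hw
  have hwi : w i ≠ 0 := hi
  obtain ⟨l, m, hil, him, hlm, hsum⟩ := three_idx i
  have hτi : τ (w i) ≠ 0 := fun h => hwi ((map_eq_zero τ).1 h)
  rw [hsum M (fun i => τ (w i) * p i)] at hrel
  have hpi : p i = -(τ (w l) / τ (w i)) * p l - (τ (w m) / τ (w i)) * p m := by
    field_simp
    linear_combination hrel
  let a : Fin 4 → k := fun j => e l j - (w l / w i) * e i j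
  let b : Fin 4 → k := fun j => e m j - (w m / w i) * e i j
  have hab : LinearIndependent k ![a, b] := by
    rw [LinearIndependent.pair_iff]
    intro s t hst
    rw [Fintype.linearIndependent_iff] at he
    have h1 := he (fun n => if n = l then s else if n = m then t else
      -(s * (w l / w i) + t * (w m / w i))) (by
        rw [hsum (Fin 4 → k)]
        funext j
        have h2 := congrFun hst j
        simp only [Pi.add_apply, Pi.smul_apply, smul_eq_mul, Pi.zero_apply, a, b] at h2
        simp only [Pi.add_apply, Pi.smul_apply, smul_eq_mul, Pi.zero_apply, if_neg hil, if_neg him,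
          if_pos, if_neg hlm.symm]
        linear_combination h2)
    constructor
    · have := h1 l
      simpa using this
    · have := h1 m
      simpa [hlm.symm] using this
  have hZ : ∀ j, ∑ i, p i * τ (e i j) = p l * τ (a j) + p m * τ (b j) := by
    intro j
    rw [hsum M (fun i => p i * τ (e i j)), hpi]
    simp only [a, b, map_sub, map_mul, map_div₀]
    ring
  have hz' : aeval (fun j => p l * τ (a j) + p m * τ (b j)) F = 0 := by
    rw [← hz]
    congr 2
    funext j
    exact (hZ j).symm
  obtain ⟨c, x, hx⟩ := pt_on_line hF hl τ a b hab (p l) (p m) hz'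
  exact ⟨c, x, fun j => by rw [hZ, hx]⟩

end line

end Pool.Agent.QX
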