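import Pool.Agent.Lib_MP_1209e6_qx.Defs

/-! PIECE SYS: the system as nine polynomials in ten unknowns. -/

set_option autoImplicit false

open MvPolynomial

noncomputable section

namespace Pool.Agent.QX

namespace SysAux

/-- the universal plane -/
def plR (E : Fin 4 → Fin 4 → ℂ) : Fin 3 → Fin 4 → MvPolynomial (Fin 10) ℂ :=
  ![fun j => C (E 0 j) + X 0 * C (E 3 j) + X 3 * (C (E 2 j) + X 2 * C (E 3 j)),
    fun j => C (E 1 j) + X 1 * C (E 3 j) + X 4 * (C (E 2 j) + X 2 * C (E 3 j)),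
    fun j => C (E 2 j) + X 2 * C (E 3 j)]

/-- the universal equation -/
def univ (F : MvPolynomial (Fin 4) ℂ) (E : Fin 4 → Fin 4 → ℂ) :
    MvPolynomial (Fin 3) (MvPolynomial (Fin 10) ℂ) :=
  aeval (fun j => ∑ i, C (plR E i j) * X i) F -
    (C (X 7) * (C (X 5) * X 0 ^ 2 + C (X 6) * X 0 * X 1 + C 1 * X 1 ^ 2) ^ 2 +
    X 2 * (C (X 8) * X 0 + C (X 9) * X 1) * (C (X 5) * X 0 ^ 2 + C (X 6) * X 0 * X 1 + C 1 * X 1 ^ 2))

variable {k : Type} [Field k] [Algebra ℂ k]

/-- the difference -/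
def dif (F : MvPolynomial (Fin 4) ℂ) (E : Fin 4 → Fin 4 → ℂ) (y : Fin 10 → k) : MvPolynomial (Fin 3) k :=
  sec F (pl E y) -
    (C (y 7) * quad ![y 5, y 6, 1] ^ 2 + X 2 * lin ![y 8, y 9] * quad ![y 5, y 6, 1])

theorem map_plR (E : Fin 4 → Fin 4 → ℂ) (y : Fin 10 → k) (i : Fin 3) (j : Fin 4) :
    aeval y (plR E i j) = pl E y i j := by
  fin_cases i <;> simp [plR, pl]

theorem map_univ (F : MvPolynomial (Fin 4) ℂ) (E : Fin 4 → Fin 4 → ℂ) (y : Fin 10 → k) :
    MvPolynomial.map (aeval y : MvPolynomial (Fin 10) ℂ →ₐ[ℂ] k).toRingHom (univ F E) = dif F E y := by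
  have h1 : MvPolynomial.map (aeval y : MvPolynomial (Fin 10) ℂ →ₐ[ℂ] k).toRingHom
      (aeval (fun j => ∑ i, C (plR E i j) * X i) F) = sec F (pl E y) := by
    rw [sec]
    induction F using MvPolynomial.induction_on with
    | C a =>
      rw [MvPolynomial.algHom_C, MvPolynomial.algHom_C, MvPolynomial.algebraMap_apply,
        MvPolynomial.algebraMap_apply, MvPolynomial.map_C]
      exact congrArg C ((aeval y : MvPolynomial (Fin 10) ℂ →ₐ[ℂ] k).commutes a)
    | add p q hp hq => rw [map_add, map_add, map_add, hp, hq]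
    | mul_X p j hp =>
      rw [map_mul, map_mul, map_mul, hp, aeval_X, aeval_X, map_sum]
      congr 1
      refine Finset.sum_congr rfl fun i _ => ?_
      rw [map_mul, MvPolynomial.map_C, MvPolynomial.map_X]
      congr 2
      exact map_plR E y i j
  rw [univ, map_sub, h1, dif]
  congr 1
  simp [quad, lin]

/-- the nine exponents -/
def mon : Fin 9 → (Fin 3 →₀ ℕ) :=
  fun i => Finsupp.equivFunOnFinite.symm
    (![![0, 4, 0], ![1, 3, 0], ![2, 2, 0], ![3, 1, 0], ![4, 0, 0], ![0, 3, 1], ![1, 2, 1], ![2, 1, 1],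
      ![3, 0, 1]] i)

theorem mon_two (i : Fin 9) : mon i 2 < 2 := by
  fin_cases i <;> simp [mon]

theorem exists_mon (d : Fin 3 →₀ ℕ) (h : d.degree = 4) (h2 : d 2 < 2) : ∃ i, mon i = d := by
  have h' : d 0 + d 1 + d 2 = 4 := by
    rw [← h, Finsupp.degree_eq_sum, Fin.sum_univ_three]
  have key : ∀ a b c : ℕ, d = Finsupp.equivFunOnFinite.symm ![a, b, c] ↔ (d 0 = a ∧ d 1 = b ∧ d 2 = c) := by
    intro a b c
    constructor
    · intro h
      rw [h]
      simp
    · rintro ⟨h0, h1, h2⟩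
      ext i
      fin_cases i <;> simp [h0, h1, h2]
  have h0 : d 0 ≤ 4 := by omega
  rcases Nat.lt_or_ge (d 2) 1 with h3 | h3
  · have h3' : d 2 = 0 := by omega
    interval_cases h4 : d 0
    · exact ⟨0, ((key 0 4 0).2 ⟨by omega, by omega, by omega⟩).symm⟩
    · exact ⟨1, ((key 1 3 0).2 ⟨by omega, by omega, by omega⟩).symm⟩
    · exact ⟨2, ((key 2 2 0).2 ⟨by omega, by omega, by omega⟩).symm⟩
    · exact ⟨3, ((key 3 1 0).2 ⟨by omega, by omega, by omega⟩).symm⟩
    · exact ⟨4, ((key 4 0 0).2 ⟨by omega, by omega, by omega⟩).symm⟩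
  · have h3' : d 2 = 1 := by omega
    interval_cases h4 : d 0
    · exact ⟨5, ((key 0 3 1).2 ⟨by omega, by omega, by omega⟩).symm⟩
    · exact ⟨6, ((key 1 2 1).2 ⟨by omega, by omega, by omega⟩).symm⟩
    · exact ⟨7, ((key 2 1 1).2 ⟨by omega, by omega, by omega⟩).symm⟩
    · exact ⟨8, ((key 3 0 1).2 ⟨by omega, by omega, by omega⟩).symm⟩
    · omega

omit [Algebra ℂ k] in
theorem lin_hom (e : Fin 3 → k) : (∑ i, C (e i) * X i : MvPolynomial (Fin 3) k).IsHomogeneous 1 := by
  refine IsHomogeneous.sum _ _ _ fun i _ => ?_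
  have := (isHomogeneous_C (Fin 3) (e i)).mul (isHomogeneous_X k i)
  simpa using this

theorem dif_hom {F : MvPolynomial (Fin 4) ℂ} (hF : F.IsHomogeneous 4) (E : Fin 4 → Fin 4 → ℂ) (y : Fin 10 → k) :
    (dif F E y).IsHomogeneous 4 := by
  have h1 : (sec F (pl E y)).IsHomogeneous 4 := by
    have := hF.eval₂ (n := 1) (algebraMap ℂ (MvPolynomial (Fin 3) k)) (fun j => ∑ i, C (pl E y i j) * X i)
      (fun r => by
        rw [MvPolynomial.algebraMap_apply]
        exact isHomogeneous_C _ _) (fun j => lin_hom (fun i => pl E y i j))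
    simpa [sec, aeval_def] using this
  have h2 : (quad ![y 5, y 6, 1] : MvPolynomial (Fin 3) k).IsHomogeneous 2 := by
    rw [quad]
    refine IsHomogeneous.add (IsHomogeneous.add ?_ ?_) ?_
    · simpa using (isHomogeneous_C (Fin 3) ((![y 5, y 6, 1] : Fin 3 → k) 0)).mul ((isHomogeneous_X k (0 : Fin 3)).pow 2)
    · simpa using ((isHomogeneous_C (Fin 3) ((![y 5, y 6, 1] : Fin 3 → k) 1)).mul (isHomogeneous_X k (0 : Fin 3))).mul
        (isHomogeneous_X k (1 : Fin 3))
    · simpa using (isHomogeneous_C (Fin 3) ((![y 5, y 6, 1] : Fin 3 → k) 2)).mul ((isHomogeneous_X k (1 : Fin 3)).pow 2)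
  have h3 : (lin ![y 8, y 9] : MvPolynomial (Fin 3) k).IsHomogeneous 1 := by
    rw [lin]
    refine IsHomogeneous.add ?_ ?_
    · simpa using (isHomogeneous_C (Fin 3) ((![y 8, y 9] : Fin 2 → k) 0)).mul (isHomogeneous_X k (0 : Fin 3))
    · simpa using (isHomogeneous_C (Fin 3) ((![y 8, y 9] : Fin 2 → k) 1)).mul (isHomogeneous_X k (1 : Fin 3))
  rw [dif]
  refine h1.sub (IsHomogeneous.add ?_ ?_)
  · simpa using (isHomogeneous_C (Fin 3) (y 7)).mul (h2.pow 2)
  · simpa using ((isHomogeneous_X k (2 : Fin 3)).mul h3).mul h2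

omit [Algebra ℂ k] in
theorem dvd_iff {Q : MvPolynomial (Fin 3) k} (hQ : Q.IsHomogeneous 4) :
    (∀ i, coeff (mon i) Q = 0) ↔ ∃ A : MvPolynomial (Fin 3) k, A.IsHomogeneous 2 ∧ Q = X 2 ^ 2 * A := by
  have hX : (X 2 ^ 2 : MvPolynomial (Fin 3) k) = monomial (Finsupp.single 2 2) 1 := by
    rw [X_pow_eq_monomial]
  constructor
  · intro h
    have h0 : Q.modMonomial (Finsupp.single 2 2) = 0 := by
      ext d
      rw [coeff_zero]
      by_cases hd : Finsupp.single 2 2 ≤ d
      · exact coeff_modMonomial_of_le _ hd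
      · rw [coeff_modMonomial_of_not_le _ hd]
        by_contra hc
        have h4 : d.degree = 4 := by
          have := hQ hc
          rw [Finsupp.degree_eq_weight_one]; exact this
        have h2 : d 2 < 2 := by
          by_contra h2
          apply hd
          rw [Finsupp.single_le_iff]
          omega
        obtain ⟨i, hi⟩ := exists_mon d h4 h2
        exact hc (hi ▸ h i)
    have h1 := Q.divMonomial_add_modMonomial (Finsupp.single 2 2)
    rw [h0, add_zero] at h1
    refine ⟨Q.divMonomial (Finsupp.single 2 2), ?_, by rw [hX]; exact h1.symm⟩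
    intro d hd
    rw [coeff_divMonomial] at hd
    have := hQ hd
    rw [map_add] at this
    simp only [Finsupp.weight_single, Pi.one_apply, smul_eq_mul, mul_one] at this
    omega
  · rintro ⟨A, -, hA⟩ i
    rw [hA, hX, coeff_monomial_mul', if_neg]
    rw [Finsupp.single_le_iff]
    have := mon_two i
    omega

end SysAux

open SysAux in
/-- The nine equations are the coefficients at the monomials of degree `4` with `X₂`-exponent `0` or `1`. -/
theorem exists_sys {F : MvPolynomial (Fin 4) ℂ} (hF : F.IsHomogeneous 4) (E : Fin 4 → Fin 4 → ℂ) :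
    ∃ f : Fin 9 → MvPolynomial (Fin 10) ℂ, ∀ (k : Type) [Field k] [Algebra ℂ k] (y : Fin 10 → k),
      (∀ i, aeval y (f i) = 0) ↔ Eqn F E y := by
  refine ⟨fun i => coeff (mon i) (univ F E), fun k _ _ y => ?_⟩
  have h1 : ∀ i, aeval y (coeff (mon i) (univ F E)) = coeff (mon i) (dif F E y) := by
    intro i
    rw [← map_univ, coeff_map]
    rfl
  simp only [h1]
  rw [dvd_iff (dif_hom hF E y)]
  refine exists_congr fun A => and_congr_right fun _ => ?_
  rw [dif, sub_eq_iff_eq_add, add_comm]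

end Pool.Agent.QX
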