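import Pool.Agent.Lib_MP_1209e6_qx.Defs
import Pool.Agent.Lib_MP_1209e6_mh.Indep
import Pool.Agent.Lib_MP_1209e6_ds.Exist20

/-! PIECE RAT: a point of transcendence degree at most one in a moving plane. -/

set_option autoImplicit false

open MvPolynomial

noncomputable section

namespace Pool.Agent.QX

section der

/-- a derivation with values in a bigger field which kills a subfield kills the algebraic elements -/
theorem rat_der_alg {k M : Type} [Field k] [Algebra ℂ k] [Field M] [Algebra ℂ M] [Algebra k M]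
    [IsScalarTower ℂ k M] (F : IntermediateField ℂ k) (D : Derivation ℂ k M) (hD : ∀ a ∈ F, D a = 0)
    {a : k} (ha : IsAlgebraic F a) : D a = 0 := by
  let D' : Derivation F k M :=
    { toFun := D
      map_add' := fun x y => D.map_add x y
      map_smul' := fun c x => by
        rw [RingHom.id_apply, Algebra.smul_def c x, D.leibniz, show D (algebraMap F k c) = 0 from hD c c.2,
          smul_zero, add_zero]
        rfl
      map_one_eq_zero' := D.map_one_eq_zero
      leibniz' := fun x y => D.leibniz x y }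
  have hint : IsIntegral F a := ha.isIntegral
  have h1 : D' (Polynomial.aeval a (minpoly F a)) = Polynomial.aeval a (minpoly F a).derivative • D' a :=
    D'.map_aeval _ _
  rw [minpoly.aeval, map_zero] at h1
  have h2 : Polynomial.aeval a (minpoly F a).derivative ≠ 0 := by
    have hsep : (minpoly F a).Separable := (minpoly.irreducible hint).separable
    exact hsep.aeval_derivative_ne_zero (minpoly.aeval F a)
  have h3 := smul_eq_zero.1 h1.symm
  exact h3.resolve_left h2

theorem rat_der_zero {k M : Type} [Field k] [Algebra ℂ k] [Field M] [Algebra ℂ M] [Algebra k M]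
    [IsScalarTower ℂ k M] {T : k} (hT : Base T) (D : Derivation ℂ k M) (h : D T = 0) (a : k) :
    D a = 0 := by
  refine rat_der_alg (IntermediateField.adjoin ℂ {T}) D (fun b hb => ?_) (hT.alg a)
  induction hb using IntermediateField.adjoin_induction with
  | mem b hb =>
    rw [Set.mem_singleton_iff] at hb
    rw [hb, h]
  | algebraMap c => exact D.map_algebraMap c
  | add b c _ _ hb hc => rw [map_add, hb, hc, add_zero]
  | inv b _ hb => rw [D.leibniz_inv, hb, smul_zero]
  | mul b c _ _ hb hc => rw [D.leibniz, hb, hc, smul_zero, smul_zero, add_zero]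

theorem rat_der_tr {K L : Type} [Field K] [CharZero K] [Field L] [Algebra K L] {a : L}
    (h : Transcendental K a) : ∃ E : Derivation K L L, E a = 1 := by
  obtain ⟨E, hE⟩ := Pool.Agent.Campana.exists_derivation (fun _ : Unit => a)
    (algebraicIndependent_unique_type_iff.2 h) (fun _ => 1)
  exact ⟨E, hE ()⟩

theorem rat_const {L : Type} [Field L] [Algebra ℂ L] {a : L} (h : IsAlgebraic ℂ a) :
    ∃ c : ℂ, a = algebraMap ℂ L c := by
  obtain ⟨c, hc⟩ := minpoly.mem_range_of_degree_eq_one ℂ a
    (IsAlgClosed.degree_eq_one_of_irreducible ℂ (minpoly.irreducible h.isIntegral))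
  exact ⟨c, hc.symm⟩

/-- a derivation of `k` whose constants are the complex numbers -/
theorem rat_d {k : Type} [Field k] [Algebra ℂ k] {T : k} (hT : Base T) :
    ∃ d : Derivation ℂ k k, d T = 1 ∧ ∀ a, d a = 0 → ∃ c : ℂ, a = algebraMap ℂ k c := by
  obtain ⟨d, hd⟩ := rat_der_tr hT.tr
  refine ⟨d, hd, fun a ha => ?_⟩
  by_contra hcon
  have h1 : Transcendental ℂ a := fun h => hcon (rat_const h)
  obtain ⟨E, hE⟩ := rat_der_tr h1
  have h2 : (E - E T • d) T = 0 := by
    rw [Derivation.sub_apply, Derivation.smul_apply, hd, smul_eq_mul, mul_one, sub_self]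
  have h3 := rat_der_zero hT (E - E T • d) h2 a
  rw [Derivation.sub_apply, Derivation.smul_apply, ha, smul_zero, sub_zero, hE] at h3
  exact one_ne_zero h3

end der

section relations

variable {k M : Type} [Field k] [Algebra ℂ k] [Field M] [Algebra ℂ M]

open Classical in
/-- a relation over `k` between constants of `D` gives a complex relation -/
theorem rat_rel (τ : k →ₐ[ℂ] M) (d : Derivation ℂ k k) (D : Derivation ℂ M M)
    (hdD : ∀ a, D (τ a) = τ (d a)) (hd : ∀ a, d a = 0 → ∃ c : ℂ, a = algebraMap ℂ k c)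
    (y : Fin 4 → M) (hy : ∀ j, D (y j) = 0) :
    ∀ (N : ℕ) (u : Fin 4 → k), (Finset.univ.filter fun j => u j ≠ 0).card ≤ N → u ≠ 0 →
      ∑ j, τ (u j) * y j = 0 → ∃ c : Fin 4 → ℂ, c ≠ 0 ∧ (∀ j, u j = 0 → c j = 0) ∧
        ∑ j, algebraMap ℂ M (c j) * y j = 0 := by
  intro N
  induction N with
  | zero =>
    intro u hu hu0 _
    exfalso
    obtain ⟨i, hi⟩ := Function.ne_iff.1 hu0
    have h1 := Finset.card_eq_zero.1 (Nat.le_zero.1 hu)
    have h2 : i ∈ (Finset.univ.filter fun j => u j ≠ 0) := Finset.mem_filter.2 ⟨Finset.mem_univ _, hi⟩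
    rw [h1] at h2
    exact absurd h2 (Finset.notMem_empty _)
  | succ N ih =>
    intro u hu hu0 hr
    obtain ⟨i, hi⟩ := Function.ne_iff.1 hu0
    rw [Pi.zero_apply] at hi
    set v : Fin 4 → k := fun j => u j / u i with hv
    have hvi : v i = 1 := div_self hi
    have hv0 : ∀ j, u j = 0 → v j = 0 := fun j hj => by rw [hv]; simp [hj]
    have hrv : ∑ j, τ (v j) * y j = 0 := by
      have h1 : ∀ j, τ (v j) * y j = (τ (u i))⁻¹ * (τ (u j) * y j) := by
        intro j
        rw [hv]
        simp only [map_div₀]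
        ring
      rw [Finset.sum_congr rfl fun j _ => h1 j, ← Finset.mul_sum, hr, mul_zero]
    by_cases hdv : ∀ j, d (v j) = 0
    · choose c hc using fun j => hd _ (hdv j)
      refine ⟨c, fun h0 => ?_, fun j hj => ?_, ?_⟩
      · have := hc i
        rw [h0, Pi.zero_apply, map_zero, hvi] at this
        exact one_ne_zero this
      · have := hc j
        rw [hv0 j hj] at this
        exact (FaithfulSMul.algebraMap_eq_zero_iff ℂ k).1 this.symm
      · rw [← hrv]
        refine Finset.sum_congr rfl fun j _ => ?_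
        rw [hc j, AlgHom.commutes]
    · push Not at hdv
      obtain ⟨j0, hj0⟩ := hdv
      have hsupp : ∀ j, u j = 0 → d (v j) = 0 := fun j hj => by rw [hv0 j hj, map_zero]
      have h2 : ∑ j, τ (d (v j)) * y j = 0 := by
        have h3 := congrArg D hrv
        rw [map_sum, map_zero] at h3
        rw [← h3]
        refine Finset.sum_congr rfl fun j _ => ?_
        rw [D.leibniz, hy, smul_zero, zero_add, hdD, smul_eq_mul, mul_comm]
      obtain ⟨c, hc0, hcz, hcr⟩ := ih (fun j => d (v j)) (by
          have hsub : (Finset.univ.filter fun j => d (v j) ≠ 0) ⊂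
              (Finset.univ.filter fun j => u j ≠ 0) := by
            rw [Finset.ssubset_iff_of_subset]
            · refine ⟨i, Finset.mem_filter.2 ⟨Finset.mem_univ _, hi⟩, ?_⟩
              rw [Finset.mem_filter]
              rintro ⟨-, h⟩
              exact h (by rw [hvi]; exact d.map_one_eq_zero)
            · intro j hj
              rw [Finset.mem_filter] at hj ⊢
              exact ⟨hj.1, fun h => hj.2 (hsupp j h)⟩
          have := Finset.card_lt_card hsub
          omega) (fun h => hj0 (congrFun h j0)) h2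
      exact ⟨c, hc0, fun j hj => hcz j (hsupp j hj), hcr⟩

/-- two independent complex relations -/
theorem rat_two (τ : k →ₐ[ℂ] M) (d : Derivation ℂ k k) (D : Derivation ℂ M M)
    (hdD : ∀ a, D (τ a) = τ (d a)) (hd : ∀ a, d a = 0 → ∃ c : ℂ, a = algebraMap ℂ k c)
    (y : Fin 4 → M) (hy : ∀ j, D (y j) = 0) (u : Fin 4 → k) (hu0 : u ≠ 0)
    (hu : ∀ (l : k) (c : Fin 4 → ℂ), ¬ ∀ j, u j = l * algebraMap ℂ k (c j))
    (hr : ∑ j, τ (u j) * y j = 0) :
    ∃ (i j : Fin 4) (c c' : Fin 4 → ℂ), i ≠ j ∧ c i = 1 ∧ c j = 0 ∧ c' i = 0 ∧ c' j = 1 ∧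
      ∑ n, algebraMap ℂ M (c n) * y n = 0 ∧ ∑ n, algebraMap ℂ M (c' n) * y n = 0 := by
  classical
  obtain ⟨c1, hc10, -, hc1⟩ := rat_rel τ d D hdD hd y hy _ u le_rfl hu0 hr
  obtain ⟨i, hi⟩ := Function.ne_iff.1 hc10
  rw [Pi.zero_apply] at hi
  set e : Fin 4 → ℂ := fun n => c1 n / c1 i with he
  have hei : e i = 1 := div_self hi
  have her : ∑ n, algebraMap ℂ M (e n) * y n = 0 := by
    have h1 : ∀ n, algebraMap ℂ M (e n) * y n =
        (algebraMap ℂ M (c1 i))⁻¹ * (algebraMap ℂ M (c1 n) * y n) := by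
      intro n
      rw [he]
      simp only [map_div₀]
      ring
    rw [Finset.sum_congr rfl fun n _ => h1 n, ← Finset.mul_sum, hc1, mul_zero]
  set v : Fin 4 → k := fun n => u n - u i * algebraMap ℂ k (e n) with hv
  have hvi : v i = 0 := by rw [hv]; simp [hei]
  have hv0 : v ≠ 0 := by
    intro h
    exact hu (u i) e fun n => sub_eq_zero.1 (congrFun h n)
  have hvr : ∑ n, τ (v n) * y n = 0 := by
    have h1 : ∀ n, τ (v n) * y n = τ (u n) * y n - τ (u i) * (algebraMap ℂ M (e n) * y n) := by
      intro n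
      rw [hv]
      simp only [map_sub, map_mul, AlgHom.commutes]
      ring
    rw [Finset.sum_congr rfl fun n _ => h1 n, Finset.sum_sub_distrib, ← Finset.mul_sum, hr, her,
      mul_zero, sub_zero]
  obtain ⟨c2, hc20, hc2z, hc2⟩ := rat_rel τ d D hdD hd y hy _ v le_rfl hv0 hvr
  obtain ⟨j, hj⟩ := Function.ne_iff.1 hc20
  rw [Pi.zero_apply] at hj
  have hc2i := hc2z i hvi
  have hij : i ≠ j := by
    rintro rfl
    exact hj hc2i
  set c' : Fin 4 → ℂ := fun n => c2 n / c2 j with hc'
  have hc'r : ∑ n, algebraMap ℂ M (c' n) * y n = 0 := by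
    have h1 : ∀ n, algebraMap ℂ M (c' n) * y n =
        (algebraMap ℂ M (c2 j))⁻¹ * (algebraMap ℂ M (c2 n) * y n) := by
      intro n
      rw [hc']
      simp only [map_div₀]
      ring
    rw [Finset.sum_congr rfl fun n _ => h1 n, ← Finset.mul_sum, hc2, mul_zero]
  have hc'i : c' i = 0 := by rw [hc']; simp [hc2i]
  have hc'j : c' j = 1 := div_self hj
  refine ⟨i, j, fun n => e n - e j * c' n, c', hij, ?_, ?_, hc'i, hc'j, ?_, hc'r⟩
  · simp only [hei, hc'i, mul_zero, sub_zero]
  · simp only [hc'j, mul_one, sub_self]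
  · have h1 : ∀ n, algebraMap ℂ M (e n - e j * c' n) * y n =
        algebraMap ℂ M (e n) * y n - algebraMap ℂ M (e j) * (algebraMap ℂ M (c' n) * y n) := by
      intro n
      simp only [map_sub, map_mul]
      ring
    rw [Finset.sum_congr rfl fun n _ => h1 n, Finset.sum_sub_distrib, ← Finset.mul_sum, her, hc'r,
      mul_zero, sub_zero]

theorem rat_fin4 : ∀ i j : Fin 4, i ≠ j → ∃ l m : Fin 4, l ≠ m ∧ l ≠ i ∧ l ≠ j ∧ m ≠ i ∧ m ≠ j ∧
    (∀ n, n = i ∨ n = j ∨ n = l ∨ n = m) ∧ (Finset.univ : Finset (Fin 4)) = {i, j, l, m} := by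
  decide

/-- parametrisation of a complex line -/
theorem rat_param (y : Fin 4 → M) (i j : Fin 4) (c c' : Fin 4 → ℂ) (hij : i ≠ j) (h1 : c i = 1)
    (h2 : c j = 0) (h3 : c' i = 0) (h4 : c' j = 1) (h5 : ∑ n, algebraMap ℂ M (c n) * y n = 0)
    (h6 : ∑ n, algebraMap ℂ M (c' n) * y n = 0) :
    ∃ (l m : Fin 4) (a b : Fin 4 → ℂ), LinearIndependent ℂ ![a, b] ∧
      ∀ n, y n = y l * algebraMap ℂ M (a n) + y m * algebraMap ℂ M (b n) := by
  classical
  obtain ⟨l, m, hlm, hli, hlj, hmi, hmj, hall, huniv⟩ := rat_fin4 i j hij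
  have hsum : ∀ f : Fin 4 → M, ∑ n, f n = f i + (f j + (f l + f m)) := by
    intro f
    rw [huniv, Finset.sum_insert, Finset.sum_insert, Finset.sum_insert, Finset.sum_singleton]
    · simpa using hlm
    · simp only [Finset.mem_insert, Finset.mem_singleton, not_or]
      exact ⟨Ne.symm hlj, Ne.symm hmj⟩
    · simp only [Finset.mem_insert, Finset.mem_singleton, not_or]
      exact ⟨hij, Ne.symm hli, Ne.symm hmi⟩
  rw [hsum, h1, h2, map_one, map_zero] at h5
  rw [hsum, h3, h4, map_one, map_zero] at h6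
  refine ⟨l, m, fun n => if n = i then - c l else if n = j then - c' l else if n = l then 1 else 0,
    fun n => if n = i then - c m else if n = j then - c' m else if n = l then 0 else 1, ?_, ?_⟩
  · rw [LinearIndependent.pair_iff]
    intro s t hst
    have e1 := congrFun hst l
    have e2 := congrFun hst m
    simp only [Pi.add_apply, Pi.smul_apply, smul_eq_mul, if_neg hli, if_neg hlj, if_neg hmi,
      if_neg hmj, if_neg hlm.symm, if_true, mul_one, mul_zero, add_zero, zero_add, Pi.zero_apply] at e1 e2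
    exact ⟨e1, e2⟩
  · intro n
    rcases hall n with h | h | h | h
    · subst h
      simp only [if_true, map_neg]
      linear_combination h5
    · subst h
      simp only [if_true, if_neg (Ne.symm hij), map_neg]
      linear_combination h6
    · subst h
      simp only [if_true, if_neg hli, if_neg hlj, map_one, map_zero, mul_one, mul_zero, add_zero]
    · subst h
      simp only [if_neg hmi, if_neg hmj, if_neg hlm.symm, map_one, map_zero, mul_one, mul_zero,
        zero_add]

theorem rat_scale {A : Type} [Field A] [Algebra ℂ A] {n d : ℕ} {F : MvPolynomial (Fin n) ℂ}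
    (hF : F.IsHomogeneous d) (s : A) (p : Fin n → A) :
    aeval (fun i => s * p i) F = s ^ d * aeval p F := by
  rw [aeval_def, eval₂_eq', aeval_def, eval₂_eq', Finset.mul_sum]
  refine Finset.sum_congr rfl fun t ht => ?_
  have h2 : ∑ i, t i = d := by
    have h3 := hF (mem_support_iff.1 ht)
    rw [Finsupp.weight_apply, Finsupp.sum_fintype _ _ (by simp)] at h3
    simpa using h3
  rw [← h2, ← Finset.prod_pow_eq_pow_sum]
  simp only [mul_pow, Finset.prod_mul_distrib]
  ring

/-- a point with a nonconstant coordinate on a complex line -/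
theorem rat_noline {F : MvPolynomial (Fin 4) ℂ} (hF : F.IsHomogeneous 4) (hl : NoLine F)
    (a b : Fin 4 → ℂ) (hab : LinearIndependent ℂ ![a, b]) (σ ρ : M)
    (h : aeval (fun n => σ * algebraMap ℂ M (a n) + ρ * algebraMap ℂ M (b n)) F = 0) :
    ρ = 0 ∨ ∃ c : ℂ, σ = algebraMap ℂ M c * ρ := by
  by_cases hρ : ρ = 0
  · exact Or.inl hρ
  right
  by_contra hcon
  have htr : Transcendental ℂ (σ / ρ) := by
    intro halg
    obtain ⟨c, hc⟩ := rat_const halg
    exact hcon ⟨c, by rw [← hc, div_mul_cancel₀ _ hρ]⟩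
  set P : Polynomial ℂ := aeval (fun n => Polynomial.C (b n) + Polynomial.X * Polynomial.C (a n)) F
    with hP
  have hscale : ∀ (A : Type) [Field A] [Algebra ℂ A] (s : A) (p : Fin 4 → A),
      aeval (fun i => s * p i) F = s ^ 4 * aeval p F := fun A _ _ s p => rat_scale hF s p
  have hPe : ∀ (A : Type) [Field A] [Algebra ℂ A] (s : A), Polynomial.aeval s P =
      aeval (fun n => s * algebraMap ℂ A (a n) + algebraMap ℂ A (b n)) F := by
    intro A _ _ s
    rw [hP, ← AlgHom.comp_apply, comp_aeval]
    congr 2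
    funext n
    simp only [map_add, map_mul, Polynomial.aeval_C, Polynomial.aeval_X]
    ring
  have hP0 : P = 0 := by
    by_contra hne
    refine htr ⟨P, hne, ?_⟩
    rw [hPe]
    have h1 : (fun n => σ * algebraMap ℂ M (a n) + ρ * algebraMap ℂ M (b n)) =
        fun n => ρ * (σ / ρ * algebraMap ℂ M (a n) + algebraMap ℂ M (b n)) := by
      funext n
      field_simp
    rw [h1, hscale M] at h
    exact (mul_eq_zero.1 h).resolve_left (pow_ne_zero _ hρ)
  obtain ⟨s, t, hst⟩ := hl a b hab
  by_cases ht : t = 0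
  · have h1 := (Pool.Agent.DS.line_top hF b a).2
    rw [← hP, hP0, Polynomial.coeff_zero] at h1
    apply hst
    rw [ht]
    simp only [zero_mul, add_zero]
    rw [hscale ℂ, ← h1, mul_zero]
  · apply hst
    have h1 : (fun j => s * a j + t * b j) = fun j => t * (s / t * a j + b j) := by
      funext j
      field_simp
    rw [h1, hscale ℂ]
    have h2 := hPe ℂ (s / t)
    rw [hP0, map_zero] at h2
    have h3 : aeval (fun j => s / t * a j + b j) F = 0 := h2.symm
    rw [h3, mul_zero]

end relations

variable {k M : Type} [Field k] [Algebra ℂ k] [IsAlgClosed k] [Field M] [Algebra ℂ M]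

/-- `z` in the moving plane (over `τ k`), `F (z) = 0`, `z` not of transcendence degree `2`. Normalise `z_i = 1`. If some
`z_j` is not in `τ k`, it is transcendental over `τ k` (`k` algebraically closed), and all `z_l` are algebraic over
`ℂ(z_j)` (`¬ Gen`). Let `u ≠ 0` in `k⁴` be orthogonal to the `e i`; `u` is not proportional to a complex vector
(`Moving`). A derivation of `M` which kills `z_j` and restricts to a derivation of `τ k` with constants `ℂ` gives two
independent complex relations for `z`: `z` lies on a complex line and has a transcendental coordinate, `F = 0` on this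
line: `NoLine`. -/
theorem rat {F : MvPolynomial (Fin 4) ℂ} (hF : F.IsHomogeneous 4) (hl : NoLine F) (T : k) (hT : Base T)
    (τ : k →ₐ[ℂ] M) (e : Fin 3 → Fin 4 → k) (_he : LinearIndependent k e) (hm : Moving e) (z : Fin 4 → M)
    (hz0 : z ≠ 0) (p : Fin 3 → M) (hz : ∀ j, z j = ∑ i, p i * τ (e i j)) (hFz : aeval z F = 0)
    (hg : ¬ Gen z) : ∃ (c : M) (x : Fin 4 → k), c ≠ 0 ∧ ∀ j, z j = c * τ (x j) := by
  classical
  obtain ⟨i0, hi0⟩ := Function.ne_iff.1 hz0
  rw [Pi.zero_apply] at hi0
  set y : Fin 4 → M := fun j => z j / z i0 with hy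
  have hyi : y i0 = 1 := div_self hi0
  by_cases hall : ∀ j, ∃ a : k, y j = τ a
  · choose x hx using hall
    refine ⟨z i0, x, hi0, fun j => ?_⟩
    rw [← hx j, hy]
    field_simp
  exfalso
  push Not at hall
  obtain ⟨j0, hj0⟩ := hall
  let _ : Algebra k M := τ.toRingHom.toAlgebra
  have : IsScalarTower ℂ k M := IsScalarTower.of_algebraMap_eq fun c => (τ.commutes c).symm
  have : CharZero k := charZero_of_injective_algebraMap (algebraMap ℂ k).injective
  -- the coordinate `y j0` is transcendental over `k`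
  have htr : Transcendental k (y j0) := by
    intro halg
    obtain ⟨a, ha⟩ := minpoly.mem_range_of_degree_eq_one k (y j0)
      (IsAlgClosed.degree_eq_one_of_irreducible k (minpoly.irreducible halg.isIntegral))
    exact hj0 a ha.symm
  obtain ⟨D1, hD1⟩ := rat_der_tr htr
  let D1' : Derivation ℂ M M := D1.restrictScalars ℂ
  have hD1' : D1' (y j0) = 1 := hD1
  have hD1τ : ∀ a : k, D1' (τ a) = 0 := fun a => D1.map_algebraMap a
  obtain ⟨d, hdT, hd⟩ := rat_d hT
  have hτT : Transcendental ℂ (τ T) := by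
    intro h
    exact hT.tr ((isAlgebraic_algHom_iff τ τ.injective).1 h)
  obtain ⟨D0, hD0⟩ := rat_der_tr hτT
  set D : Derivation ℂ M M := D0 - D0 (y j0) • D1' with hD
  have hDT : D (τ T) = 1 := by
    rw [hD, Derivation.sub_apply, Derivation.smul_apply, hD1τ, smul_zero, sub_zero, hD0]
  have hDj : D (y j0) = 0 := by
    rw [hD, Derivation.sub_apply, Derivation.smul_apply, hD1', smul_eq_mul, mul_one, sub_self]
  -- `D` restricts to `d`
  have hdD : ∀ a, D (τ a) = τ (d a) := by
    intro a
    let δ : Derivation ℂ k M := D.compAlgebraMap k - (Algebra.linearMap k M).compDer d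
    have h1 : ∀ b, δ b = D (τ b) - τ (d b) := fun b => rfl
    have h2 := rat_der_zero hT δ (by rw [h1, hDT, hdT, map_one, sub_self]) a
    rw [h1] at h2
    exact sub_eq_zero.1 h2
  -- `D` kills all coordinates
  have hyD : ∀ l, D (y l) = 0 := by
    intro l
    by_contra hl0
    refine hg ⟨i0, j0, l, hi0, ?_⟩
    have h1 : ![z j0 / z i0, z l / z i0] = ![y j0, y l] := rfl
    rw [h1]
    refine Pool.Agent.Campana.algIndep_of_der ![y j0, y l]
      ![D1' - (D1' (y l) / D (y l)) • D, D] ?_ ?_
    · intro i j hij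
      fin_cases i <;> fin_cases j
      · exact absurd rfl hij
      · change (D1' - (D1' (y l) / D (y l)) • D) (y l) = 0
        rw [Derivation.sub_apply, Derivation.smul_apply, smul_eq_mul, div_mul_cancel₀ _ hl0, sub_self]
      · exact hDj
      · exact absurd rfl hij
    · intro i
      fin_cases i
      · change (D1' - (D1' (y l) / D (y l)) • D) (y j0) ≠ 0
        rw [Derivation.sub_apply, Derivation.smul_apply, hDj, smul_zero, sub_zero, hD1']
        exact one_ne_zero
      · exact hl0
  -- the equation of the plane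
  obtain ⟨u, hu0, hu⟩ : ∃ u : Fin 4 → k, u ≠ 0 ∧ ∀ i, ∑ j, u j * e i j = 0 := by
    let φ : (Fin 4 → k) →ₗ[k] (Fin 3 → k) := Matrix.mulVecLin (Matrix.of e)
    have h1 : LinearMap.ker φ ≠ ⊥ := LinearMap.ker_ne_bot_of_finrank_lt (by simp)
    obtain ⟨u, hu, hu0⟩ := Submodule.exists_mem_ne_zero_of_ne_bot h1
    refine ⟨u, hu0, fun i => ?_⟩
    have h2 := congrFun (LinearMap.mem_ker.1 hu) i
    change ∑ j, e i j * u j = 0 at h2
    rw [← h2]
    exact Finset.sum_congr rfl fun j _ => mul_comm _ _
  have hunot : ∀ (l : k) (c : Fin 4 → ℂ), ¬ ∀ j, u j = l * algebraMap ℂ k (c j) := by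
    intro l c h
    have hl0 : l ≠ 0 := by
      rintro rfl
      exact hu0 (funext fun j => by rw [h j, zero_mul]; rfl)
    have hc : c = 0 := hm c fun i => by
      have h1 := hu i
      have h2 : ∀ j, u j * e i j = l * (algebraMap ℂ k (c j) * e i j) := by
        intro j
        rw [h j]
        ring
      rw [Finset.sum_congr rfl fun j _ => h2 j, ← Finset.mul_sum] at h1
      exact (mul_eq_zero.1 h1).resolve_left hl0
    exact hu0 (funext fun j => by rw [h j, hc]; simp)
  have hr : ∑ j, τ (u j) * y j = 0 := by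
    have h1 : ∀ j, τ (u j) * y j = (z i0)⁻¹ * ∑ i, p i * τ (u j * e i j) := by
      intro j
      rw [hy]
      simp only [map_mul]
      rw [hz j, div_eq_mul_inv, Finset.sum_mul, Finset.mul_sum, Finset.mul_sum]
      refine Finset.sum_congr rfl fun i _ => ?_
      ring
    rw [Finset.sum_congr rfl fun j _ => h1 j, ← Finset.mul_sum, Finset.sum_comm]
    rw [Finset.sum_eq_zero, mul_zero]
    intro i _
    rw [← Finset.mul_sum, ← map_sum, hu i, map_zero, mul_zero]
  obtain ⟨i, j, c, c', hij, h1, h2, h3, h4, h5, h6⟩ := rat_two τ d D hdD hd y hyD u hu0 hunot hr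
  obtain ⟨l, m, a, b, hab, hpar⟩ := rat_param y i j c c' hij h1 h2 h3 h4 h5 h6
  have hFy : aeval y F = 0 := by
    have h7 := Pool.Agent.QX.rat_scale (F := F) hF (z i0)⁻¹ z
    rw [hFz, mul_zero] at h7
    rw [← h7]
    congr 2
    funext n
    rw [hy]
    simp only
    rw [div_eq_mul_inv, mul_comm]
  have hline := rat_noline (M := M) hF hl a b hab (y l) (y m) (by
    rw [← hFy]
    congr 2
    funext n
    exact (hpar n).symm)
  -- all coordinates would be complex
  have hcpx : ∃ (g : M) (w : Fin 4 → ℂ), ∀ n, y n = g * algebraMap ℂ M (w n) := by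
    rcases hline with h | ⟨r, hr⟩
    · exact ⟨y l, a, fun n => by rw [hpar n, h, zero_mul, add_zero]⟩
    · refine ⟨y m, fun n => r * a n + b n, fun n => ?_⟩
      rw [hpar n, hr, map_add, map_mul]
      ring
  obtain ⟨g, w, hgw⟩ := hcpx
  have h7 := hgw i0
  rw [hyi] at h7
  have hw : algebraMap ℂ M (w i0) ≠ 0 := by
    intro h
    rw [h, mul_zero] at h7
    exact one_ne_zero h7
  refine hj0 (algebraMap ℂ k (w j0 / w i0)) ?_
  rw [AlgHom.commutes, hgw j0, map_div₀]
  field_simp
  linear_combination -(algebraMap ℂ M (w j0)) * h7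

end Pool.Agent.QX
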