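import Pool.Agent.Lib_MP_1209e6_qx.Gauss
import Pool.Agent.Lib_MP_1209e6_ds.KrullZero

/-! PIECE RIGID: a fixed plane has only one solution of the system. -/

set_option autoImplicit false

open MvPolynomial

noncomputable section

namespace Pool.Agent.QX

variable {k : Type} [Field k] [Algebra ℂ k]

/-! ### helpers -/

theorem rg_chain (Φ : Fin 3 → MvPolynomial (Fin 3) k) (p : MvPolynomial (Fin 3) ℂ) (i : Fin 3) :
    pderiv i (aeval Φ p) = ∑ j, aeval Φ (pderiv j p) * pderiv i (Φ j) := by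
  classical
  induction p using MvPolynomial.induction_on with
  | C a =>
    have h1 : aeval Φ (C a) = (C (algebraMap ℂ k a) : MvPolynomial (Fin 3) k) := by
      rw [aeval_C]; rfl
    rw [h1, pderiv_C]
    simp
  | add p q hp hq => simp only [map_add, hp, hq, add_mul, Finset.sum_add_distrib]
  | mul_X p n hp =>
    rw [map_mul, Derivation.leibniz, hp, aeval_X]
    simp only [Derivation.leibniz, pderiv_X, map_add, smul_eq_mul, map_mul, aeval_X, add_mul,
      Finset.sum_add_distrib, Pi.single_apply]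
    congr 1
    · rw [Finset.sum_eq_single n]
      · simp
      · intro b _ hb
        simp [Ne.symm hb]
      · simp
    · rw [Finset.mul_sum]
      exact Finset.sum_congr rfl fun j _ => by ring

/-- the change of variable `X₂ ↦ a X₀ + b X₁ + X₂` -/
def rgPhi (a b : k) : Fin 3 → MvPolynomial (Fin 3) k := ![X 0, X 1, C a * X 0 + C b * X 1 + X 2]

theorem rg_comp (a b : k) (w : Fin 3 → k) (p : MvPolynomial (Fin 3) ℂ) :
    eval w (aeval (rgPhi a b) p) = aeval ![w 0, w 1, a * w 0 + b * w 1 + w 2] p := by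
  have h : ((aeval w : MvPolynomial (Fin 3) k →ₐ[k] k).restrictScalars ℂ).comp
      (aeval (rgPhi a b)) = aeval ![w 0, w 1, a * w 0 + b * w 1 + w 2] := by
    ext j
    fin_cases j <;> simp [rgPhi]
  have h1 := congrArg (fun f => f p) h
  simpa [aeval_eq_eval] using h1

theorem rg_rhs (g : k) (Q L A : MvPolynomial (Fin 3) k) (w : Fin 3 → k) (hw : w 2 = 0) (i : Fin 3) :
    eval w (pderiv i (C g * Q ^ 2 + X 2 * L * Q + X 2 ^ 2 * A)) =
      2 * g * eval w Q * eval w (pderiv i Q) + (if i = 2 then eval w L * eval w Q else 0) := by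
  classical
  have hX : eval w (pderiv i (X 2 : MvPolynomial (Fin 3) k)) = if i = 2 then 1 else 0 := by
    rw [pderiv_X, Pi.single_apply]
    split_ifs with h1 h2 h2
    · simp
    · exact absurd h1.symm h2
    · exact absurd h2.symm h1
    · simp
  simp only [pow_two, map_add, Derivation.leibniz, smul_eq_mul, map_mul, pderiv_C, eval_C, eval_X,
    map_zero, hw, hX]
  split_ifs <;> ring

theorem rg_lhs (G0 : MvPolynomial (Fin 3) ℂ) (a b x0 x1 : k) :
    (eval ![x0, x1, 0] (pderiv 0 (aeval (rgPhi a b) G0)) =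
      aeval ![x0, x1, a * x0 + b * x1] (pderiv 0 G0) +
        a * aeval ![x0, x1, a * x0 + b * x1] (pderiv 2 G0)) ∧
    (eval ![x0, x1, 0] (pderiv 1 (aeval (rgPhi a b) G0)) =
      aeval ![x0, x1, a * x0 + b * x1] (pderiv 1 G0) +
        b * aeval ![x0, x1, a * x0 + b * x1] (pderiv 2 G0)) ∧
    (eval ![x0, x1, 0] (pderiv 2 (aeval (rgPhi a b) G0)) =
      aeval ![x0, x1, a * x0 + b * x1] (pderiv 2 G0)) := by
  classical
  refine ⟨?_, ?_, ?_⟩
  · rw [rg_chain, Fin.sum_univ_three]
    simp only [map_add, map_mul, rg_comp]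
    simp [rgPhi, pderiv_X, Derivation.leibniz]
    ring
  · rw [rg_chain, Fin.sum_univ_three]
    simp only [map_add, map_mul, rg_comp]
    simp [rgPhi, pderiv_X, Derivation.leibniz]
    ring
  · rw [rg_chain, Fin.sum_univ_three]
    simp only [map_add, map_mul, rg_comp]
    simp [rgPhi, pderiv_X, Derivation.leibniz]

theorem rg_quad_eval (c : Fin 3 → k) (x0 x1 x2 : k) :
    eval ![x0, x1, x2] (quad c) = c 0 * x0 ^ 2 + c 1 * x0 * x1 + c 2 * x1 ^ 2 := by
  simp [quad]

theorem rg_quad_der (c : Fin 3 → k) : pderiv 2 (quad c) = 0 := by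
  classical
  simp [quad, pderiv_X, Derivation.leibniz, Derivation.leibniz_pow]

/-- the derivative in the direction of `X₂` at a point of the line `X₂ = 0` -/
theorem rg_two (G0 : MvPolynomial (Fin 3) ℂ) (a b g : k) (c : Fin 3 → k) (l : Fin 2 → k)
    (A : MvPolynomial (Fin 3) k)
    (heq : aeval (rgPhi a b) G0 = C g * quad c ^ 2 + X 2 * lin l * quad c + X 2 ^ 2 * A)
    (x0 x1 : k) :
    aeval ![x0, x1, a * x0 + b * x1] (pderiv 2 G0) =
      (l 0 * x0 + l 1 * x1) * (c 0 * x0 ^ 2 + c 1 * x0 * x1 + c 2 * x1 ^ 2) := by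
  rw [← (rg_lhs G0 a b x0 x1).2.2, heq, rg_rhs _ _ _ _ _ (by simp), rg_quad_der, rg_quad_eval]
  simp [lin]

/-- a zero of `quad c` gives a singular point -/
theorem rg_sing (G0 : MvPolynomial (Fin 3) ℂ) (a b g : k) (c : Fin 3 → k) (l : Fin 2 → k)
    (A : MvPolynomial (Fin 3) k)
    (heq : aeval (rgPhi a b) G0 = C g * quad c ^ 2 + X 2 * lin l * quad c + X 2 ^ 2 * A)
    (s : k) (hs : c 0 + c 1 * s + c 2 * s ^ 2 = 0) (i : Fin 3) :
    aeval ![1, s, a + b * s] (pderiv i G0) = 0 := by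
  have hq : eval ![1, s, 0] (quad c) = 0 := by
    rw [rg_quad_eval, ← hs]; ring
  have h := rg_lhs G0 a b 1 s
  have h0 := rg_rhs g (quad c) (lin l) A ![1, s, 0] (by simp) 0
  have h1 := rg_rhs g (quad c) (lin l) A ![1, s, 0] (by simp) 1
  have h2 := rg_rhs g (quad c) (lin l) A ![1, s, 0] (by simp) 2
  rw [← heq, hq] at h0 h1 h2
  simp only [mul_zero, zero_mul, zero_add, ite_self] at h0 h1 h2
  rw [h.1] at h0
  rw [h.2.1] at h1
  rw [h.2.2] at h2
  rw [h2, mul_zero, add_zero] at h0 h1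
  simp only [mul_one] at h0 h1 h2
  fin_cases i
  · exact h0
  · exact h1
  · exact h2

theorem rg_val (G0 : MvPolynomial (Fin 3) ℂ) (a b g : k) (c : Fin 3 → k) (l : Fin 2 → k)
    (A : MvPolynomial (Fin 3) k)
    (heq : aeval (rgPhi a b) G0 = C g * quad c ^ 2 + X 2 * lin l * quad c + X 2 ^ 2 * A)
    (x0 x1 : k) :
    aeval ![x0, x1, a * x0 + b * x1] G0 = g * (c 0 * x0 ^ 2 + c 1 * x0 * x1 + c 2 * x1 ^ 2) ^ 2 := by
  have h := congrArg (eval ![x0, x1, 0]) heq
  rw [rg_comp] at h
  simp only [map_add, map_mul, map_pow, rg_quad_eval, eval_C, eval_X] at h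
  simpa using h

theorem rg_sec_eval (F : MvPolynomial (Fin 4) ℂ) (e : Fin 3 → Fin 4 → ℂ) (w : Fin 3 → ℂ) :
    aeval w (sec F e) = aeval (fun j => ∑ i, w i * e i j) F := by
  have h : (aeval w).comp (aeval (fun j => ∑ i, (C (e i j) : MvPolynomial (Fin 3) ℂ) * X i)) =
      (aeval (fun j => ∑ i, w i * e i j) : MvPolynomial (Fin 4) ℂ →ₐ[ℂ] ℂ) := by
    ext j
    simp [mul_comm]
  exact congrArg (fun f => f F) h

theorem rg_mem {σ : Type} (p : MvPolynomial σ ℂ) (w : σ → k)
    (hw : ∀ i, w i ∈ (algebraMap ℂ k).fieldRange) : aeval w p ∈ (algebraMap ℂ k).fieldRange := by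
  choose u hu using hw
  have h : w = (algebraMap ℂ k) ∘ u := funext fun i => (hu i).symm
  rw [h, aeval_algebraMap_apply]
  exact ⟨_, rfl⟩

theorem rg_alg (b : k) (hb : IsAlgebraic ℂ b) : b ∈ (algebraMap ℂ k).fieldRange := by
  have h := IsIntegral.mem_range_algebraMap_of_minpoly_splits (R := ℂ) (K := ℂ) (L := k)
    hb.isIntegral (IsAlgClosed.splits _)
  exact h

theorem rg_smul {N D : ℕ} {G : MvPolynomial (Fin N) ℂ} (hG : G.IsHomogeneous D)
    (x : Fin N → ℂ) (s : ℂ) : aeval (fun j => s * x j) G = s ^ D * aeval x G := by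
  rw [aeval_def, aeval_def, eval₂_eq, eval₂_eq, Finset.mul_sum]
  refine Finset.sum_congr rfl fun d hd => ?_
  have h1 : d.degree = D := by
    have h2 := hG (mem_support_iff.1 hd)
    rw [← h2, Finsupp.degree_eq_weight_one]
    rfl
  have h3 : ∏ i ∈ d.support, (s * x i) ^ d i = s ^ D * ∏ i ∈ d.support, x i ^ d i := by
    have h4 : ∀ i ∈ d.support, (s * x i) ^ d i = s ^ d i * x i ^ d i := fun i _ => by
      rw [mul_pow]
    rw [Finset.prod_congr rfl h4, Finset.prod_mul_distrib, Finset.prod_pow_eq_pow_sum, ← h1]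
    rfl
  rw [h3]
  ring

/-- the double root case: a moving slope gives a line in the surface -/
theorem rg_slope {F : MvPolynomial (Fin 4) ℂ} (hF : F.IsHomogeneous 4) (hl : NoLine F)
    (e : Fin 3 → Fin 4 → ℂ) (he : LinearIndependent ℂ e) (b g : k) (s n : ℂ)
    (key : ∀ x r : ℂ, aeval ![algebraMap ℂ k x, algebraMap ℂ k (s * x + r),
      algebraMap ℂ k (n * x) + b * algebraMap ℂ k r] (sec F e) = g * (algebraMap ℂ k r) ^ 4) :
    b ∈ (algebraMap ℂ k).fieldRange := by
  classical
  by_contra hb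
  have htr : Transcendental ℂ b := fun h => hb (rg_alg b h)
  set G0 := sec F e with hG0
  -- the identity at points
  have h1 : ∀ x r t : ℂ, aeval ![x, s * x + r, n * x + t * r] G0 = aeval ![0, r, t * r] G0 := by
    intro x r t
    set P : Polynomial ℂ := aeval ![Polynomial.C x, Polynomial.C (s * x + r),
      Polynomial.C (n * x) + Polynomial.X * Polynomial.C r] G0 -
      aeval ![0, Polynomial.C r, Polynomial.X * Polynomial.C r] G0 with hP
    have hP0 : P = 0 := by
      by_contra hne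
      apply htr
      refine ⟨P, hne, ?_⟩
      have e1 : Polynomial.aeval b (aeval ![Polynomial.C x, Polynomial.C (s * x + r),
          Polynomial.C (n * x) + Polynomial.X * Polynomial.C r] G0) =
          aeval ![algebraMap ℂ k x, algebraMap ℂ k (s * x + r),
            algebraMap ℂ k (n * x) + b * algebraMap ℂ k r] G0 := by
        have h : (Polynomial.aeval b : Polynomial ℂ →ₐ[ℂ] k).comp
            (aeval ![Polynomial.C x, Polynomial.C (s * x + r),
              Polynomial.C (n * x) + Polynomial.X * Polynomial.C r]) =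
            aeval ![algebraMap ℂ k x, algebraMap ℂ k (s * x + r),
            algebraMap ℂ k (n * x) + b * algebraMap ℂ k r] := by
          ext j
          fin_cases j <;> simp <;> ring
        exact congrArg (fun f => f G0) h
      have e2 : Polynomial.aeval b (aeval ![(0 : Polynomial ℂ), Polynomial.C r,
          Polynomial.X * Polynomial.C r] G0) =
          aeval ![algebraMap ℂ k 0, algebraMap ℂ k (s * 0 + r),
            algebraMap ℂ k (n * 0) + b * algebraMap ℂ k r] G0 := by
        have h : (Polynomial.aeval b : Polynomial ℂ →ₐ[ℂ] k).comp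
            (aeval ![(0 : Polynomial ℂ), Polynomial.C r, Polynomial.X * Polynomial.C r]) =
            aeval ![algebraMap ℂ k 0, algebraMap ℂ k (s * 0 + r),
            algebraMap ℂ k (n * 0) + b * algebraMap ℂ k r] := by
          ext j
          fin_cases j <;> simp <;> ring
        exact congrArg (fun f => f G0) h
      rw [hP, map_sub, e1, e2, key, key, sub_self]
    have h := congrArg (Polynomial.eval t) hP0
    rw [hP, Polynomial.eval_sub, Polynomial.eval_zero, sub_eq_zero] at h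
    have e1 : Polynomial.eval t (aeval ![Polynomial.C x, Polynomial.C (s * x + r),
          Polynomial.C (n * x) + Polynomial.X * Polynomial.C r] G0) =
          aeval ![x, s * x + r, n * x + t * r] G0 := by
      have h : (Polynomial.aeval t : Polynomial ℂ →ₐ[ℂ] ℂ).comp
            (aeval ![Polynomial.C x, Polynomial.C (s * x + r),
              Polynomial.C (n * x) + Polynomial.X * Polynomial.C r]) =
            aeval ![x, s * x + r, n * x + t * r] := by
        ext j
        fin_cases j <;> simp <;> ring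
      exact congrArg (fun f => f G0) h
    have e2 : Polynomial.eval t (aeval ![(0 : Polynomial ℂ), Polynomial.C r,
          Polynomial.X * Polynomial.C r] G0) = aeval ![0, r, t * r] G0 := by
      have h : (Polynomial.aeval t : Polynomial ℂ →ₐ[ℂ] ℂ).comp
            (aeval ![(0 : Polynomial ℂ), Polynomial.C r, Polynomial.X * Polynomial.C r]) =
            aeval ![0, r, t * r] := by
        ext j
        fin_cases j <;> simp <;> ring
      exact congrArg (fun f => f G0) h
    rw [e1, e2] at h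
    exact h
  -- everywhere
  have h2 : ∀ w0 w1 w2 : ℂ, aeval ![w0, s * w0 + w1, n * w0 + w2] G0 = aeval ![0, w1, w2] G0 := by
    set D : MvPolynomial (Fin 3) ℂ := aeval ![X 0, C s * X 0 + X 1, C n * X 0 + X 2] G0 -
      aeval ![0, X 1, X 2] G0 with hD
    have ev1 : ∀ w : Fin 3 → ℂ, eval w (aeval ![X 0, C s * X 0 + X 1, C n * X 0 + X 2] G0) =
        aeval ![w 0, s * w 0 + w 1, n * w 0 + w 2] G0 := by
      intro w
      have h : (aeval w : MvPolynomial (Fin 3) ℂ →ₐ[ℂ] ℂ).comp
          (aeval ![X 0, C s * X 0 + X 1, C n * X 0 + X 2]) =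
          aeval ![w 0, s * w 0 + w 1, n * w 0 + w 2] := by
        ext j
        fin_cases j <;> simp <;> ring
      exact congrArg (fun f => f G0) h
    have ev2 : ∀ w : Fin 3 → ℂ, eval w (aeval ![(0 : MvPolynomial (Fin 3) ℂ), X 1, X 2] G0) =
        aeval ![0, w 1, w 2] G0 := by
      intro w
      have h : (aeval w : MvPolynomial (Fin 3) ℂ →ₐ[ℂ] ℂ).comp
          (aeval ![(0 : MvPolynomial (Fin 3) ℂ), X 1, X 2]) = aeval ![0, w 1, w 2] := by
        ext j
        fin_cases j <;> simp <;> ring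
      exact congrArg (fun f => f G0) h
    have hD0 : D * X 1 = 0 := by
      apply MvPolynomial.funext
      intro w
      rw [map_mul, map_zero, eval_X, hD, map_sub, ev1, ev2]
      by_cases hw : w 1 = 0
      · rw [hw, mul_zero]
      · have h := h1 (w 0) (w 1) (w 2 / w 1)
        rw [div_mul_cancel₀ _ hw] at h
        rw [h, sub_self, zero_mul]
    have hD1 : D = 0 := by
      rcases mul_eq_zero.mp hD0 with h | h
      · exact h
      · exact absurd h (X_ne_zero 1)
    intro w0 w1 w2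
    have h := congrArg (eval ![w0, w1, w2]) hD1
    rw [hD, map_sub, ev1, ev2, map_zero, sub_eq_zero] at h
    simpa using h
  -- a root of the binary form
  have hz : aeval (0 : Fin 4 → ℂ) F = 0 := by
    have h3 := hF.coeff_eq_zero (d := 0) (by simp)
    rw [MvPolynomial.aeval_eq_eval, eval_zero, constantCoeff_eq]
    exact h3
  obtain ⟨ρ, hρ0, hρ⟩ := MP_1209e6.KrullZero.exists_common_zero (Ω := ℂ) (J := Fin 2) (I := Fin 1)
    (fun _ => (aeval ![(0 : MvPolynomial (Fin 2) ℂ), X 0, X 1] G0)) (by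
      intro i
      have h : (aeval (0 : Fin 2 → ℂ) : MvPolynomial (Fin 2) ℂ →ₐ[ℂ] ℂ).comp
          (aeval ![(0 : MvPolynomial (Fin 2) ℂ), X 0, X 1]) = aeval ![0, 0, 0] := by
        ext j
        fin_cases j <;> simp
      have h' := congrArg (fun f => f G0) h
      have h'' : aeval (0 : Fin 2 → ℂ) (aeval ![(0 : MvPolynomial (Fin 2) ℂ), X 0, X 1] G0) =
        aeval ![0, 0, 0] G0 := h'
      have h3 : (fun j => ∑ i, (![0, 0, 0] : Fin 3 → ℂ) i * e i j) = 0 := by
        funext j
        simp [Fin.sum_univ_three]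
      rw [h'', hG0, rg_sec_eval, h3, hz]) (by simp)
  have hρ1 : aeval ![0, ρ 0, ρ 1] G0 = 0 := by
    have h : (aeval ρ : MvPolynomial (Fin 2) ℂ →ₐ[ℂ] ℂ).comp
          (aeval ![(0 : MvPolynomial (Fin 2) ℂ), X 0, X 1]) = aeval ![0, ρ 0, ρ 1] := by
      ext j
      fin_cases j <;> simp
    have h' := congrArg (fun f => f G0) h
    exact h'.symm.trans (hρ 0)
  have hsmul : ∀ (v : Fin 4 → ℂ) (t : ℂ), aeval (fun j => t * v j) F = t ^ 4 * aeval v F :=
    fun v t => rg_smul hF v t
  -- the line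
  have hLI : LinearIndependent ℂ ![fun j => e 0 j + s * e 1 j + n * e 2 j,
      fun j => ρ 0 * e 1 j + ρ 1 * e 2 j] := by
    rw [LinearIndependent.pair_iff]
    intro α β hαβ
    rw [Fintype.linearIndependent_iff] at he
    have h := he ![α, α * s + β * ρ 0, α * n + β * ρ 1] (by
      funext j
      have := congrFun hαβ j
      simp only [Pi.add_apply, Pi.smul_apply, smul_eq_mul, Pi.zero_apply] at this
      simp only [Fin.sum_univ_three, Matrix.cons_val_zero, Matrix.cons_val_one, Matrix.cons_val,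
        Pi.add_apply, Pi.smul_apply, smul_eq_mul, Pi.zero_apply]
      linear_combination this)
    have hα : α = 0 := by simpa using h 0
    have hb0 : β * ρ 0 = 0 := by simpa [hα] using h 1
    have hb1 : β * ρ 1 = 0 := by simpa [hα] using h 2
    refine ⟨hα, ?_⟩
    by_contra hβ
    apply hρ0
    funext j
    fin_cases j
    · exact (mul_eq_zero.mp hb0).resolve_left hβ
    · exact (mul_eq_zero.mp hb1).resolve_left hβ
  obtain ⟨x, t, hxt⟩ := hl _ _ hLI
  apply hxt
  have h3 := h2 x (t * ρ 0) (t * ρ 1)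
  rw [hG0, rg_sec_eval, rg_sec_eval] at h3
  have h4 : (fun j => ∑ i, (![x, s * x + t * ρ 0, n * x + t * ρ 1] : Fin 3 → ℂ) i * e i j) =
      fun j => x * (e 0 j + s * e 1 j + n * e 2 j) + t * (ρ 0 * e 1 j + ρ 1 * e 2 j) := by
    funext j
    simp only [Fin.sum_univ_three, Matrix.cons_val_zero, Matrix.cons_val_one, Matrix.cons_val]
    ring
  have h5 : (fun j => ∑ i, (![0, t * ρ 0, t * ρ 1] : Fin 3 → ℂ) i * e i j) =
      fun j => t * ∑ i, (![0, ρ 0, ρ 1] : Fin 3 → ℂ) i * e i j := by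
    funext j
    simp only [Fin.sum_univ_three, Matrix.cons_val_zero, Matrix.cons_val_one, Matrix.cons_val]
    ring
  rw [h4, h5, hsmul] at h3
  rw [h3, ← rg_sec_eval, ← hG0, hρ1, mul_zero]

/-- a point with first coordinate `1` which is proportional to a complex point is complex -/
theorem rg_proj (N : Fin 3 → k) (hN0 : N 0 = 1) (c : k) (x : Fin 3 → ℂ)
    (h : ∀ i, N i = c * algebraMap ℂ k (x i)) (i : Fin 3) : N i ∈ (algebraMap ℂ k).fieldRange := by
  have h0 := h 0
  rw [hN0] at h0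
  have hx : algebraMap ℂ k (x 0) ≠ 0 := by
    intro hx
    rw [hx, mul_zero] at h0
    exact one_ne_zero h0
  have hc : c = (algebraMap ℂ k (x 0))⁻¹ := by
    field_simp
    exact h0.symm
  rw [h i, hc]
  exact mul_mem (inv_mem ⟨_, rfl⟩) ⟨_, rfl⟩

theorem rg_closed [IsAlgClosed k] {F : MvPolynomial (Fin 4) ℂ} (hF : F.IsHomogeneous 4)
    (hs : Pool.Agent.DS.Smooth F) (hl : NoLine F) (e : Fin 3 → Fin 4 → ℂ)
    (he : LinearIndependent ℂ e) (a b g : k) (c : Fin 3 → k) (hc2 : c 2 = 1) (l : Fin 2 → k)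
    (A : MvPolynomial (Fin 3) k)
    (heq : aeval (rgPhi a b) (sec F e) = C g * quad c ^ 2 + X 2 * lin l * quad c + X 2 ^ 2 * A) :
    (a ∈ (algebraMap ℂ k).fieldRange ∧ b ∈ (algebraMap ℂ k).fieldRange) ∧
    (c 0 ∈ (algebraMap ℂ k).fieldRange ∧ c 1 ∈ (algebraMap ℂ k).fieldRange) ∧
    g ∈ (algebraMap ℂ k).fieldRange ∧
    (l 0 ∈ (algebraMap ℂ k).fieldRange ∧ l 1 ∈ (algebraMap ℂ k).fieldRange) := by
  classical
  set S := (algebraMap ℂ k).fieldRange with hS
  have hC : ∀ x : ℂ, algebraMap ℂ k x ∈ S := fun x => ⟨x, rfl⟩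
  obtain ⟨s1, hs1⟩ := IsAlgClosed.exists_root (Polynomial.C 1 * Polynomial.X ^ 2 +
    Polynomial.C (c 1) * Polynomial.X + Polynomial.C (c 0)) (by
      rw [Polynomial.degree_quadratic one_ne_zero]; decide)
  have hs1 : c 0 + c 1 * s1 + s1 ^ 2 = 0 := by
    simp [Polynomial.IsRoot] at hs1
    linear_combination hs1
  obtain ⟨s2, hs2⟩ : ∃ s2, s2 = -c 1 - s1 := ⟨_, rfl⟩
  have hc1 : c 1 = -s1 - s2 := by rw [hs2]; ring
  have hc0 : c 0 = s1 * s2 := by rw [hs2]; linear_combination hs1
  have hmem : ∀ s : k, c 0 + c 1 * s + c 2 * s ^ 2 = 0 → s ∈ S ∧ a + b * s ∈ S := by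
    intro s hs'
    obtain ⟨r, x, hr, hx⟩ := sing_const hF hs e he ![1, s, a + b * s]
      (fun h0 => one_ne_zero (congrFun h0 0)) (rg_sing _ a b g c l A heq s hs')
    exact ⟨rg_proj _ (by simp) r x hx 1, rg_proj _ (by simp) r x hx 2⟩
  obtain ⟨h1, h1'⟩ := hmem s1 (by rw [hc2]; linear_combination hs1)
  obtain ⟨h2, h2'⟩ := hmem s2 (by rw [hc2, hc0, hc1]; ring)
  have hbS : b ∈ S := by
    by_cases h12 : s1 = s2
    · obtain ⟨s', hs'⟩ := h1
      obtain ⟨n', hn'⟩ := h1'
      refine rg_slope hF hl e he b g s' n' fun x r => ?_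
      have h := rg_val _ a b g c l A heq (algebraMap ℂ k x) (algebraMap ℂ k (s' * x + r))
      have e1 : a * algebraMap ℂ k x + b * algebraMap ℂ k (s' * x + r) =
          algebraMap ℂ k (n' * x) + b * algebraMap ℂ k r := by
        rw [map_add, map_mul, map_mul, hs', hn']; ring
      have e2 : c 0 * algebraMap ℂ k x ^ 2 + c 1 * algebraMap ℂ k x * algebraMap ℂ k (s' * x + r) +
          c 2 * algebraMap ℂ k (s' * x + r) ^ 2 = algebraMap ℂ k r ^ 2 := by
        rw [map_add, map_mul, hs', hc0, hc1, hc2, ← h12]; ring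
      rw [e1, e2] at h
      rw [h]
      ring
    · have hb : b = ((a + b * s1) - (a + b * s2)) / (s1 - s2) := by
        rw [eq_div_iff (sub_ne_zero.mpr h12)]; ring
      rw [hb]
      exact div_mem (sub_mem h1' h2') (sub_mem h1 h2)
  have haS : a ∈ S := by
    have : a = (a + b * s1) - b * s1 := by ring
    rw [this]
    exact sub_mem h1' (mul_mem hbS h1)
  have hc0S : c 0 ∈ S := by rw [hc0]; exact mul_mem h1 h2
  have hc1S : c 1 ∈ S := by rw [hc1]; exact sub_mem (neg_mem h1) h2
  have hgS : g ∈ S := by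
    have h := rg_val _ a b g c l A heq 0 1
    rw [hc2] at h
    have e1 : g * (c 0 * 0 ^ 2 + c 1 * 0 * 1 + 1 * 1 ^ 2) ^ 2 = g := by ring
    rw [e1] at h
    rw [← h]
    refine rg_mem _ _ fun i => ?_
    fin_cases i
    · exact zero_mem _
    · exact one_mem _
    · exact add_mem (mul_mem haS (zero_mem _)) (mul_mem hbS (one_mem _))
  have hl1 : l 1 ∈ S := by
    have h := rg_two _ a b g c l A heq 0 1
    rw [hc2] at h
    have e1 : (l 0 * 0 + l 1 * 1) * (c 0 * 0 ^ 2 + c 1 * 0 * 1 + 1 * 1 ^ 2) = l 1 := by ring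
    rw [e1] at h
    rw [← h]
    refine rg_mem _ _ fun i => ?_
    fin_cases i
    · exact zero_mem _
    · exact one_mem _
    · exact add_mem (mul_mem haS (zero_mem _)) (mul_mem hbS (one_mem _))
  have hl0 : l 0 ∈ S := by
    obtain ⟨x, hx⟩ : ∃ x : ℂ, c 0 + c 1 * algebraMap ℂ k x + algebraMap ℂ k x ^ 2 ≠ 0 := by
      by_contra hcon
      push Not at hcon
      have e0 := hcon 0
      have e1 := hcon 1
      have e2 := hcon 2
      simp only [map_zero, map_one, map_ofNat] at e0 e1 e2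
      have : (2 : k) = 0 := by linear_combination e2 - 2 * e1 + e0
      have h2 : algebraMap ℂ k 2 = 0 := by rw [map_ofNat]; exact this
      exact two_ne_zero ((map_eq_zero _).mp h2)
    have h := rg_two _ a b g c l A heq 1 (algebraMap ℂ k x)
    rw [hc2] at h
    have hm : aeval ![1, algebraMap ℂ k x, a * 1 + b * algebraMap ℂ k x] (pderiv 2 (sec F e)) ∈ S := by
      refine rg_mem _ _ fun i => ?_
      fin_cases i
      · exact one_mem _
      · exact hC _
      · exact add_mem (mul_mem haS (one_mem _)) (mul_mem hbS (hC _))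
    rw [h] at hm
    have hq : c 0 * 1 ^ 2 + c 1 * 1 * algebraMap ℂ k x + 1 * algebraMap ℂ k x ^ 2 =
      c 0 + c 1 * algebraMap ℂ k x + algebraMap ℂ k x ^ 2 := by ring
    rw [hq] at hm
    have hqS : c 0 + c 1 * algebraMap ℂ k x + algebraMap ℂ k x ^ 2 ∈ S :=
      add_mem (add_mem hc0S (mul_mem hc1S (hC _))) (pow_mem (hC _) 2)
    have : l 0 = ((l 0 * 1 + l 1 * algebraMap ℂ k x) *
        (c 0 + c 1 * algebraMap ℂ k x + algebraMap ℂ k x ^ 2)) /
        (c 0 + c 1 * algebraMap ℂ k x + algebraMap ℂ k x ^ 2) - l 1 * algebraMap ℂ k x := by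
      rw [mul_div_cancel_right₀ _ hx]; ring
    rw [this]
    exact sub_mem (div_mem hm hqS) (mul_mem hl1 (hC _))
  exact ⟨⟨haS, hbS⟩, ⟨hc0S, hc1S⟩, hgS, ⟨hl0, hl1⟩⟩

theorem rg_map {K : Type} [Field K] [Algebra ℂ K] (φ : k →ₐ[ℂ] K) (a b : k)
    (p : MvPolynomial (Fin 3) ℂ) :
    MvPolynomial.map φ.toRingHom (aeval (rgPhi a b) p) = aeval (rgPhi (φ a) (φ b)) p := by
  have h : (MvPolynomial.mapAlgHom φ).comp (aeval (rgPhi a b)) =
      (aeval (rgPhi (φ a) (φ b)) : MvPolynomial (Fin 3) ℂ →ₐ[ℂ] MvPolynomial (Fin 3) K) := by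
    apply MvPolynomial.algHom_ext
    intro j
    fin_cases j <;> simp [rgPhi]
  exact congrArg (fun f => f p) h

/-- The plane `Π₀` (`u₀, u₁, u₂` complex) is fixed; basis `E 0 + u₀ E 3, E 1 + u₁ E 3, E 2 + u₂ E 3` over `ℂ`, coordinates
`(r, s, t)`, `G₀ = sec` over `ℂ`; `t = a r + b s + X₂`, `r = X₀`, `s = X₁`. Go to an algebraic closure of `k`
(elements of `k` algebraic over `ℂ` are in `ℂ`). A root `(1, s₁)` of `X₁² + c₁ X₀ X₁ + c₀ X₀²` gives the singular point
`(1, s₁, a + b s₁)` of `G₀` (`∂_i` of the right side of `Eqn` vanish there), which is complex by `sing_const`.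
Two different roots: `a, b, c₀, c₁` complex, then `g`, `b₀`, `b₁` (coefficients of `X₁⁴`, `X₂ X₁³`, `X₂ X₀ X₁²`).
Double root: `s₁`, `a + b s₁` complex; on the line through `N` with slope `b`: `G₀ (N + (0, r, b r)) = g r⁴` (`Eqn` at
`X₂ = 0`), so if `b` is not complex the homogeneous parts `q₁, q₂, q₃` of `G₀` at `N` vanish (binary forms over `ℂ` with a
transcendental zero), `G₀ = q₄` is a binary form and a root of it gives a line in the surface: `NoLine`. -/
theorem rigid {F : MvPolynomial (Fin 4) ℂ} (hF : F.IsHomogeneous 4) (hs : Pool.Agent.DS.Smooth F)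
    (hl : NoLine F) (E : Fin 4 → Fin 4 → ℂ) (hE : LinearIndependent ℂ E) (y : Fin 10 → k)
    (h : Eqn F E y) (h0 : y 0 ∈ Set.range (algebraMap ℂ k)) (h1 : y 1 ∈ Set.range (algebraMap ℂ k))
    (h2 : y 2 ∈ Set.range (algebraMap ℂ k)) (i : Fin 10) : y i ∈ Set.range (algebraMap ℂ k) := by
  classical
  obtain ⟨u0, hu0⟩ := h0
  obtain ⟨u1, hu1⟩ := h1
  obtain ⟨u2, hu2⟩ := h2
  obtain ⟨A, -, hA⟩ := h
  set e : Fin 3 → Fin 4 → ℂ := ![fun j => E 0 j + u0 * E 3 j, fun j => E 1 j + u1 * E 3 j,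
    fun j => E 2 j + u2 * E 3 j] with he
  have heLI : LinearIndependent ℂ e := by
    rw [Fintype.linearIndependent_iff] at hE ⊢
    intro g hg
    have h := hE ![g 0, g 1, g 2, g 0 * u0 + g 1 * u1 + g 2 * u2] (by
      funext j
      have := congrFun hg j
      simp only [he, Fin.sum_univ_three, Matrix.cons_val_zero, Matrix.cons_val_one, Matrix.cons_val,
        Pi.add_apply, Pi.smul_apply, smul_eq_mul, Pi.zero_apply] at this
      simp only [Fin.sum_univ_four, Matrix.cons_val_zero, Matrix.cons_val_one, Matrix.cons_val,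
        Pi.add_apply, Pi.smul_apply, smul_eq_mul, Pi.zero_apply]
      linear_combination this)
    intro j
    fin_cases j
    · exact h 0
    · exact h 1
    · exact h 2
  have hsec : sec F (pl E y) = aeval (rgPhi (y 3) (y 4)) (sec F e) := by
    have h : (aeval (rgPhi (y 3) (y 4)) :
        MvPolynomial (Fin 3) ℂ →ₐ[ℂ] MvPolynomial (Fin 3) k).comp
        (aeval (fun j => ∑ i, (C (e i j) : MvPolynomial (Fin 3) ℂ) * X i)) =
        aeval (fun j => ∑ i, C (pl E y i j) * X i) := by
      apply MvPolynomial.algHom_ext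
      intro j
      have hC : ∀ z : ℂ, algebraMap ℂ (MvPolynomial (Fin 3) k) z = C (algebraMap ℂ k z) :=
        fun z => rfl
      simp only [AlgHom.comp_apply, aeval_X, map_sum, map_mul, aeval_C, hC, Fin.sum_univ_three, he,
        pl, rgPhi, Matrix.cons_val_zero, Matrix.cons_val_one, Matrix.cons_val, map_add, ← hu0,
        ← hu1, ← hu2]
      ring
    exact (congrArg (fun f => f F) h).symm
  rw [hsec] at hA
  let K := AlgebraicClosure k
  let φ : k →ₐ[ℂ] K := IsScalarTower.toAlgHom ℂ k K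
  have hA' := congrArg (MvPolynomial.map φ.toRingHom) hA
  rw [rg_map] at hA'
  have hq : MvPolynomial.map φ.toRingHom (quad ![y 5, y 6, 1]) = quad ![φ (y 5), φ (y 6), 1] := by
    simp [quad]
  have hlin : MvPolynomial.map φ.toRingHom (lin ![y 8, y 9]) = lin ![φ (y 8), φ (y 9)] := by
    simp [lin]
  have hrhs : MvPolynomial.map φ.toRingHom (C (y 7) * quad ![y 5, y 6, 1] ^ 2 +
      X 2 * lin ![y 8, y 9] * quad ![y 5, y 6, 1] + X 2 ^ 2 * A) =
      C (φ (y 7)) * quad ![φ (y 5), φ (y 6), 1] ^ 2 +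
      X 2 * lin ![φ (y 8), φ (y 9)] * quad ![φ (y 5), φ (y 6), 1] +
        X 2 ^ 2 * MvPolynomial.map φ.toRingHom A := by
    rw [map_add, map_add, map_mul, map_mul, map_mul, map_mul, map_pow, map_pow, hq, hlin, map_X,
      map_C]
    rfl
  rw [hrhs] at hA'
  obtain ⟨⟨g3, g4⟩, ⟨g5, g6⟩, g7, g8, g9⟩ := rg_closed hF hs hl e heLI _ _ _ _ (by simp) _ _ hA'
  have hback : ∀ a : k, φ a ∈ (algebraMap ℂ K).fieldRange → a ∈ Set.range (algebraMap ℂ k) := by
    rintro a ⟨r, hr⟩
    refine ⟨r, (algebraMap k K).injective ?_⟩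
    rw [← IsScalarTower.algebraMap_apply ℂ k K, hr]
    rfl
  fin_cases i
  · exact ⟨u0, hu0⟩
  · exact ⟨u1, hu1⟩
  · exact ⟨u2, hu2⟩
  · exact hback _ g3
  · exact hback _ g4
  · exact hback _ g5
  · exact hback _ g6
  · exact hback _ g7
  · exact hback _ g8
  · exact hback _ g9

end Pool.Agent.QX
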