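import Pool.Agent.Lib_MP_1209e6_qx.Tac
import Pool.Agent.Lib_MP_1209e6_qx.Defs
import Pool.Agent.Lib_MP_1209e6_ds.Coef

/-! PIECE START: the base point of the system. -/

set_option autoImplicit false

open MvPolynomial

noncomputable section

namespace Pool.Agent.QX

/-- the value at `(1, 0, 0)` of a homogeneous polynomial -/
theorem st_ev {a : ℕ} (G : MvPolynomial (Fin 3) ℂ) (hG : G.IsHomogeneous a) :
    eval ![1, 0, 0] G = coeff (Finsupp.single 0 a) G := by
  classical
  rw [eval_eq', Finset.sum_eq_single (Finsupp.single 0 a)]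
  · rw [Fin.prod_univ_three]
    simp
  · intro d hd hda
    rw [Fin.prod_univ_three]
    by_cases h1 : d 1 = 0
    · by_cases h2 : d 2 = 0
      · exfalso
        apply hda
        have h3 := hG (mem_support_iff.1 hd)
        rw [Finsupp.weight_apply, Finsupp.sum_fintype _ _ (by simp), Fin.sum_univ_three] at h3
        simp [h1, h2] at h3
        ext i
        fin_cases i
        · simpa using h3
        · simpa using h1
        · simpa using h2
      · simp [h2]
    · simp [h1]
  · intro h
    rw [notMem_support_iff.1 h, zero_mul]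

/-- chain rule for the section -/
theorem st_chain (H : MvPolynomial (Fin 4) ℂ) (e : Fin 3 → Fin 4 → ℂ) (i : Fin 3) :
    pderiv i (sec H e) = ∑ j, C (e i j) * sec (pderiv j H) e := by
  classical
  have h1 := Pool.Agent.DS.chain (pderiv i : Derivation ℂ (MvPolynomial (Fin 3) ℂ)
    (MvPolynomial (Fin 3) ℂ)) (fun j => ∑ i, C (e i j) * X i) H
  rw [sec, h1]
  refine Finset.sum_congr rfl fun j _ => ?_
  congr 1
  rw [map_sum, Finset.sum_eq_single i]
  · rw [pderiv_C_mul, pderiv_X_self, mul_one]
  · intro l _ hl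
    rw [pderiv_C_mul, pderiv_X_of_ne (fun h => hl h), mul_zero]
  · intro h
    exact absurd (Finset.mem_univ i) h

theorem st_hom {d : ℕ} (H : MvPolynomial (Fin 4) ℂ) (hH : H.IsHomogeneous d) (e : Fin 3 → Fin 4 → ℂ) :
    (sec H e).IsHomogeneous d := by
  have h1 := hH.aeval (fun j => ∑ i, C (e i j) * (X i : MvPolynomial (Fin 3) ℂ)) (n := 1) (fun j =>
    IsHomogeneous.sum _ _ _ fun i _ => by
      simpa using (isHomogeneous_C _ (e i j)).mul (isHomogeneous_X ℂ i))
  simpa [sec] using h1

theorem st_eval (H : MvPolynomial (Fin 4) ℂ) (e : Fin 3 → Fin 4 → ℂ) :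
    eval ![1, 0, 0] (sec H e) = eval (e 0) H := by
  have h1 := comp_aeval_apply (fun j => ∑ i, C (e i j) * (X i : MvPolynomial (Fin 3) ℂ))
    (aeval (R := ℂ) (![1, 0, 0] : Fin 3 → ℂ)) H
  rw [MvPolynomial.aeval_eq_eval] at h1
  have h2 : eval ![1, 0, 0] (sec H e) = (aeval (R := ℂ) (![1, 0, 0] : Fin 3 → ℂ)) (sec H e) := by
    rw [MvPolynomial.aeval_eq_eval]
  rw [h2, sec, comp_aeval_apply, ← MvPolynomial.aeval_eq_eval]
  congr 2
  funext j
  simp [Fin.sum_univ_three]

/-- the section with vanishing coefficients -/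
theorem st_split (G : MvPolynomial (Fin 3) ℂ) (hG : G.IsHomogeneous 4)
    (h400 : coeff (Finsupp.single 0 4) G = 0)
    (h310 : coeff (Finsupp.single 0 3 + Finsupp.single 1 1) G = 0)
    (h301 : coeff (Finsupp.single 0 3 + Finsupp.single 2 1) G = 0)
    (h220 : coeff (Finsupp.single 0 2 + Finsupp.single 1 2) G = 0)
    (h211 : coeff (Finsupp.single 0 2 + Finsupp.single 1 1 + Finsupp.single 2 1) G = 0)
    (h130 : coeff (Finsupp.single 0 1 + Finsupp.single 1 3) G = 0) :
    ∃ (g b₀ b₁ : ℂ) (A : MvPolynomial (Fin 3) ℂ), A.IsHomogeneous 2 ∧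
      G = monomial (Finsupp.single 1 4) g + monomial (Finsupp.single 0 1 + Finsupp.single 1 2 +
        Finsupp.single 2 1) b₀ + monomial (Finsupp.single 1 3 + Finsupp.single 2 1) b₁ +
        monomial (Finsupp.single 2 2) 1 * A := by
  classical
  refine ⟨coeff (Finsupp.single 1 4) G, coeff (Finsupp.single 0 1 + Finsupp.single 1 2 +
    Finsupp.single 2 1) G, coeff (Finsupp.single 1 3 + Finsupp.single 2 1) G,
    G.divMonomial (Finsupp.single 2 2), ?_, ?_⟩
  · intro d hd
    rw [coeff_divMonomial] at hd
    have h1 := hG hd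
    rw [Finsupp.weight_apply, Finsupp.sum_fintype _ _ (by simp), Fin.sum_univ_three] at h1 ⊢
    simp at h1 ⊢
    omega
  · ext d
    rw [coeff_add, coeff_add, coeff_add, coeff_monomial, coeff_monomial, coeff_monomial,
      coeff_monomial_mul', coeff_divMonomial, one_mul]
    by_cases h2 : Finsupp.single 2 2 ≤ d
    · rw [if_pos h2, add_tsub_cancel_of_le h2]
      rw [Finsupp.single_le_iff] at h2
      rw [if_neg, if_neg, if_neg, zero_add, zero_add, zero_add]
      · intro h
        have h3 := DFunLike.congr_fun h 2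
        simp at h3
        omega
      · intro h
        have h3 := DFunLike.congr_fun h 2
        simp at h3
        omega
      · intro h
        have h3 := DFunLike.congr_fun h 2
        simp at h3
        omega
    · rw [if_neg h2, add_zero]
      rw [Finsupp.single_le_iff] at h2
      by_cases hd : coeff d G = 0
      · rw [hd]
        have h3 : ∀ s : Fin 3 →₀ ℕ, (if s = d then coeff s G else 0) = 0 := by
          intro s
          split_ifs with hs
          · rw [hs, hd]
          · rfl
        rw [h3, h3, h3]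
        simp
      · have h1 := hG hd
        rw [Finsupp.weight_apply, Finsupp.sum_fintype _ _ (by simp), Fin.sum_univ_three] at h1
        simp at h1
        have hform : ∀ a b c : ℕ, d 0 = a → d 1 = b → d 2 = c →
            d = Finsupp.single 0 a + Finsupp.single 1 b + Finsupp.single 2 c := by
          intro a b c ha hb hc
          ext i
          fin_cases i
          · simpa using ha
          · simpa using hb
          · simpa using hc
        have hcase : (d 2 = 0 ∧ ((d 0 = 4 ∧ d 1 = 0) ∨ (d 0 = 3 ∧ d 1 = 1) ∨ (d 0 = 2 ∧ d 1 = 2) ∨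
            (d 0 = 1 ∧ d 1 = 3) ∨ (d 0 = 0 ∧ d 1 = 4))) ∨
            (d 2 = 1 ∧ ((d 0 = 3 ∧ d 1 = 0) ∨ (d 0 = 2 ∧ d 1 = 1) ∨ (d 0 = 1 ∧ d 1 = 2) ∨
            (d 0 = 0 ∧ d 1 = 3))) := by omega
        rcases hcase with ⟨hc, hab⟩ | ⟨hc, hab⟩
        · rcases hab with h | h | h | h | h
          · have := hform 4 0 0 h.1 h.2 hc
            simp only [Finsupp.single_zero, add_zero] at this
            exact absurd (by rw [this]; exact h400) hd
          · have := hform 3 1 0 h.1 h.2 hc
            simp only [Finsupp.single_zero, add_zero] at this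
            exact absurd (by rw [this]; exact h310) hd
          · have := hform 2 2 0 h.1 h.2 hc
            simp only [Finsupp.single_zero, add_zero] at this
            exact absurd (by rw [this]; exact h220) hd
          · have := hform 1 3 0 h.1 h.2 hc
            simp only [Finsupp.single_zero, add_zero] at this
            exact absurd (by rw [this]; exact h130) hd
          · have h5 := hform 0 4 0 h.1 h.2 hc
            simp only [Finsupp.single_zero, add_zero, zero_add] at h5
            rw [if_pos h5.symm, if_neg, if_neg, ← h5, add_zero, add_zero]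
            · intro h6
              have h7 := DFunLike.congr_fun h6 2
              simp [hc] at h7
            · intro h6
              have h7 := DFunLike.congr_fun h6 2
              simp [hc] at h7
        · rcases hab with h | h | h | h
          · have := hform 3 0 1 h.1 h.2 hc
            simp only [Finsupp.single_zero, add_zero] at this
            exact absurd (by rw [this]; exact h301) hd
          · have := hform 2 1 1 h.1 h.2 hc
            exact absurd (by rw [this]; exact h211) hd
          · have h5 := hform 1 2 1 h.1 h.2 hc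
            rw [if_neg, if_pos h5.symm, if_neg, ← h5, add_zero, zero_add]
            · intro h6
              have h7 := DFunLike.congr_fun h6 0
              simp [h.1] at h7
            · intro h6
              have h7 := DFunLike.congr_fun h6 2
              simp [hc] at h7
          · have h5 := hform 0 3 1 h.1 h.2 hc
            simp only [Finsupp.single_zero, zero_add] at h5
            rw [if_neg, if_neg, if_pos h5.symm, ← h5, zero_add, zero_add]
            · intro h6
              have h7 := DFunLike.congr_fun h6 0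
              simp [h.1] at h7
            · intro h6
              have h7 := DFunLike.congr_fun h6 2
              simp [hc] at h7

/-- `E 0 = Q`, `E 1 = v` (`exists_tac`), `E 2 = n` a third vector of the tangent space `∇F(Q) · x = 0`, `E 3` any
fourth vector. Euler: `∑_j F_ij(Q) Q_j = 3 F_i(Q)`, so `v` is tangent and not parallel to `Q` (smoothness,
`∇F(Q) ≠ 0`). In `F (X₀ Q + X₁ v + X₂ n)` the coefficients of `X₀⁴, X₀³X₁, X₀³X₂, X₀²X₁², X₀²X₁X₂, X₀X₁³` vanish;
the solution is `y = (0, 0, 0, 0, 0, 0, 0, g, b₀, b₁)` (`quad ![0, 0, 1] = X₁²`). -/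
theorem exists_start {F : MvPolynomial (Fin 4) ℂ} (hF : F.IsHomogeneous 4) (hs : Pool.Agent.DS.Smooth F) :
    ∃ (E : Fin 4 → Fin 4 → ℂ) (y : Fin 10 → ℂ), LinearIndependent ℂ E ∧ Eqn F E y := by
  classical
  obtain ⟨Q, v, hQ0, hv0, hFQ, hMv, hT⟩ := exists_tac F hF
  have hEul : ∀ i, ∑ j, Q j * eval Q (pderiv i (pderiv j F)) = 3 * eval Q (pderiv i F) := by
    intro i
    have h1 := congrArg (eval Q) (hF.pderiv (i := i)).sum_X_mul_pderiv
    rw [map_sum, map_nsmul] at h1
    simp only [map_mul, eval_X, nsmul_eq_mul] at h1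
    rw [show (3 : ℂ) = ((4 - 1 : ℕ) : ℂ) by norm_num, ← h1]
    refine Finset.sum_congr rfl fun j _ => ?_
    rw [pd_comm]
  have hgrad : ∃ i, eval Q (pderiv i F) ≠ 0 := by
    by_contra h
    push Not at h
    apply hQ0
    apply hs
    intro j
    rw [MvPolynomial.aeval_eq_eval]
    exact h j
  have htv : ∑ i, v i * eval Q (pderiv i F) = 0 := by
    have h1 : 3 * ∑ i, v i * eval Q (pderiv i F) = 0 := by
      rw [Finset.mul_sum]
      calc ∑ i, 3 * (v i * eval Q (pderiv i F)) = ∑ i, ∑ j, v i * (Q j *
            eval Q (pderiv i (pderiv j F))) := by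
            refine Finset.sum_congr rfl fun i _ => ?_
            rw [← Finset.mul_sum, hEul]
            ring
        _ = ∑ j, Q j * ∑ i, eval Q (pderiv j (pderiv i F)) * v i := by
            rw [Finset.sum_comm]
            refine Finset.sum_congr rfl fun j _ => ?_
            rw [Finset.mul_sum]
            refine Finset.sum_congr rfl fun i _ => ?_
            rw [pd_comm]
            ring
        _ = 0 := by
            refine Finset.sum_eq_zero fun j _ => ?_
            rw [hMv, mul_zero]
    have h2 : (3 : ℂ) ≠ 0 := by norm_num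
    exact (mul_eq_zero.1 h1).resolve_left h2
  have htQ : ∑ i, Q i * eval Q (pderiv i F) = 0 := by
    have h1 := congrArg (eval Q) hF.sum_X_mul_pderiv
    rw [map_sum, map_nsmul, hFQ, smul_zero] at h1
    simpa only [map_mul, eval_X] using h1
  have hind : LinearIndependent ℂ ![Q, v] := by
    rw [LinearIndependent.pair_iff]
    intro s t hst
    have hst' : ∀ j, s * Q j + t * v j = 0 := fun j => congrFun hst j
    have hs0 : s = 0 := by
      obtain ⟨i, hi⟩ := hgrad
      have h1 : s * (3 * eval Q (pderiv i F)) = 0 := by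
        calc s * (3 * eval Q (pderiv i F)) = s * ∑ j, Q j * eval Q (pderiv i (pderiv j F)) +
              t * ∑ j, eval Q (pderiv i (pderiv j F)) * v j := by rw [hEul, hMv, mul_zero, add_zero]
          _ = ∑ j, (s * Q j + t * v j) * eval Q (pderiv i (pderiv j F)) := by
              rw [Finset.mul_sum, Finset.mul_sum, ← Finset.sum_add_distrib]
              refine Finset.sum_congr rfl fun j _ => ?_
              ring
          _ = 0 := by
              refine Finset.sum_eq_zero fun j _ => ?_
              rw [hst', zero_mul]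
      have h2 : (3 : ℂ) * eval Q (pderiv i F) ≠ 0 := mul_ne_zero (by norm_num) hi
      exact (mul_eq_zero.1 h1).resolve_right h2
    refine ⟨hs0, ?_⟩
    by_contra ht
    apply hv0
    funext j
    have h1 := hst' j
    rw [hs0, zero_mul, zero_add] at h1
    exact (mul_eq_zero.1 h1).resolve_left ht
  -- the third vector
  let φ : (Fin 4 → ℂ) →ₗ[ℂ] ℂ := ∑ i, eval Q (pderiv i F) • LinearMap.proj i
  have hφ : ∀ x, φ x = ∑ i, eval Q (pderiv i F) * x i := by
    intro x
    simp [φ]
  obtain ⟨n, hn, hnot⟩ : ∃ n, φ n = 0 ∧ n ∉ Submodule.span ℂ (Set.range ![Q, v]) := by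
    by_contra hcon
    push Not at hcon
    have h1 : LinearMap.ker φ ≤ Submodule.span ℂ (Set.range ![Q, v]) := fun x hx => hcon x hx
    have h2 := Submodule.finrank_mono h1
    have h3 := finrank_range_le_card (R := ℂ) ![Q, v]
    have h4 := LinearMap.finrank_range_add_finrank_ker φ
    have h5 := Submodule.finrank_le (LinearMap.range φ)
    simp only [Set.finrank, Fintype.card_fin, Module.finrank_fintype_fun_eq_card,
      Module.finrank_self] at h3 h4 h5
    omega
  have hind3 : LinearIndependent ℂ (Fin.cons n ![Q, v] : Fin 3 → Fin 4 → ℂ) :=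
    linearIndependent_finCons.2 ⟨hind, hnot⟩
  obtain ⟨m, hm⟩ := exists_linearIndependent_cons_of_lt_finrank hind3 (by simp)
  have hE : LinearIndependent ℂ (![Q, v, n, m] : Fin 4 → Fin 4 → ℂ) := by
    have h1 := hm.comp (![2, 3, 1, 0] : Fin 4 → Fin 4) (by decide)
    have h2 : (![Q, v, n, m] : Fin 4 → Fin 4 → ℂ) = (Fin.cons m (Fin.cons n ![Q, v]) :
        Fin 4 → Fin 4 → ℂ) ∘ ![2, 3, 1, 0] := by
      funext i
      fin_cases i <;> rfl
    rw [h2]
    exact h1
  set e : Fin 3 → Fin 4 → ℂ := ![Q, v, n] with he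
  have he0 : e 0 = Q := rfl
  have he1 : e 1 = v := rfl
  have he2 : e 2 = n := rfl
  have hev : ∀ H : MvPolynomial (Fin 4) ℂ, eval ![1, 0, 0] (sec H e) = eval Q H := fun H => st_eval H e
  set G := sec F e with hG
  have hGh : G.IsHomogeneous 4 := st_hom F hF e
  have h1G : pderiv 1 G = ∑ j, C (v j) * sec (pderiv j F) e := by
    rw [hG, st_chain, he1]
  have h2G : pderiv 2 G = ∑ j, C (n j) * sec (pderiv j F) e := by
    rw [hG, st_chain, he2]
  have h11G : pderiv 1 (pderiv 1 G) = ∑ j, ∑ l, C (v j) * (C (v l) * sec (pderiv l (pderiv j F)) e) := by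
    rw [h1G, map_sum]
    refine Finset.sum_congr rfl fun j _ => ?_
    rw [pderiv_C_mul, st_chain, he1, Finset.mul_sum]
  have h12G : pderiv 1 (pderiv 2 G) = ∑ j, ∑ l, C (n j) * (C (v l) * sec (pderiv l (pderiv j F)) e) := by
    rw [h2G, map_sum]
    refine Finset.sum_congr rfl fun j _ => ?_
    rw [pderiv_C_mul, st_chain, he1, Finset.mul_sum]
  have h111G : pderiv 1 (pderiv 1 (pderiv 1 G)) = ∑ j, ∑ l, ∑ k, C (v j) * (C (v l) *
      (C (v k) * sec (pderiv k (pderiv l (pderiv j F))) e)) := by
    rw [h11G, map_sum]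
    refine Finset.sum_congr rfl fun j _ => ?_
    rw [map_sum]
    refine Finset.sum_congr rfl fun l _ => ?_
    rw [pderiv_C_mul, pderiv_C_mul, st_chain, he1, Finset.mul_sum, Finset.mul_sum]
  have c400 : coeff (Finsupp.single 0 4) G = 0 := by
    rw [← st_ev G hGh, hG, hev, hFQ]
  have c310 : coeff (Finsupp.single 0 3 + Finsupp.single 1 1) G = 0 := by
    have h1 := st_ev (pderiv 1 G) hGh.pderiv
    rw [coeff_pderiv, h1G, map_sum] at h1
    simp only [map_mul, eval_C, hev] at h1
    rw [htv] at h1
    simpa using h1.symm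
  have c301 : coeff (Finsupp.single 0 3 + Finsupp.single 2 1) G = 0 := by
    have h1 := st_ev (pderiv 2 G) hGh.pderiv
    rw [coeff_pderiv, h2G, map_sum] at h1
    simp only [map_mul, eval_C, hev] at h1
    have h2 : ∑ j, n j * eval Q (pderiv j F) = 0 := by
      rw [← hn, hφ]
      exact Finset.sum_congr rfl fun j _ => mul_comm _ _
    rw [h2] at h1
    simpa using h1.symm
  have c220 : coeff (Finsupp.single 0 2 + Finsupp.single 1 2) G = 0 := by
    have h1 := st_ev (pderiv 1 (pderiv 1 G)) hGh.pderiv.pderiv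
    rw [coeff_pderiv, coeff_pderiv, h11G, map_sum] at h1
    simp only [map_sum, map_mul, eval_C, hev] at h1
    have h2 : ∑ j, ∑ l, v j * (v l * eval Q (pderiv l (pderiv j F))) = 0 := by
      refine Finset.sum_eq_zero fun j _ => ?_
      rw [← Finset.mul_sum]
      have h3 : ∑ l, v l * eval Q (pderiv l (pderiv j F)) = 0 := by
        rw [← hMv j]
        refine Finset.sum_congr rfl fun l _ => ?_
        rw [pd_comm, mul_comm]
      rw [h3, mul_zero]
    rw [h2, add_assoc, ← Finsupp.single_add] at h1
    simpa using h1.symm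
  have c211 : coeff (Finsupp.single 0 2 + Finsupp.single 1 1 + Finsupp.single 2 1) G = 0 := by
    have h1 := st_ev (pderiv 1 (pderiv 2 G)) hGh.pderiv.pderiv
    rw [coeff_pderiv, coeff_pderiv, h12G, map_sum] at h1
    simp only [map_sum, map_mul, eval_C, hev] at h1
    have h2 : ∑ j, ∑ l, n j * (v l * eval Q (pderiv l (pderiv j F))) = 0 := by
      refine Finset.sum_eq_zero fun j _ => ?_
      rw [← Finset.mul_sum]
      have h3 : ∑ l, v l * eval Q (pderiv l (pderiv j F)) = 0 := by
        rw [← hMv j]
        refine Finset.sum_congr rfl fun l _ => ?_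
        rw [pd_comm, mul_comm]
      rw [h3, mul_zero]
    rw [h2] at h1
    simpa using h1.symm
  have c130 : coeff (Finsupp.single 0 1 + Finsupp.single 1 3) G = 0 := by
    have h1 := st_ev (pderiv 1 (pderiv 1 (pderiv 1 G))) hGh.pderiv.pderiv.pderiv
    rw [coeff_pderiv, coeff_pderiv, coeff_pderiv, h111G, map_sum] at h1
    simp only [map_sum, map_mul, eval_C, hev] at h1
    have h2 : ∑ j, ∑ l, ∑ k, v j * (v l * (v k * eval Q (pderiv k (pderiv l (pderiv j F))))) = 0 := by
      rw [← hT]
      calc ∑ j, ∑ l, ∑ k, v j * (v l * (v k * eval Q (pderiv k (pderiv l (pderiv j F)))))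
          = ∑ j, ∑ k, ∑ l, v j * (v l * (v k * eval Q (pderiv k (pderiv l (pderiv j F))))) :=
            Finset.sum_congr rfl fun j _ => Finset.sum_comm
        _ = ∑ k, ∑ j, ∑ l, v j * (v l * (v k * eval Q (pderiv k (pderiv l (pderiv j F))))) :=
            Finset.sum_comm
        _ = ∑ k, ∑ l, ∑ j, v j * (v l * (v k * eval Q (pderiv k (pderiv l (pderiv j F))))) :=
            Finset.sum_congr rfl fun j _ => Finset.sum_comm
        _ = _ := by
            refine Finset.sum_congr rfl fun k _ => Finset.sum_congr rfl fun l _ =>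
              Finset.sum_congr rfl fun j _ => ?_
            ring
    rw [h2, add_assoc, add_assoc, ← Finsupp.single_add, ← Finsupp.single_add] at h1
    have h3 := h1.symm
    simp at h3
    rcases h3 with h3 | h3
    · exact h3
    · exact absurd h3 (by norm_num)
  obtain ⟨g, b₀, b₁, A, hA, hGA⟩ := st_split G hGh c400 c310 c301 c220 c211 c130
  refine ⟨![Q, v, n, m], ![0, 0, 0, 0, 0, 0, 0, g, b₀, b₁], hE, A, hA, ?_⟩
  have hpl : pl ![Q, v, n, m] (![0, 0, 0, 0, 0, 0, 0, g, b₀, b₁] : Fin 10 → ℂ) = e := by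
    funext i j
    fin_cases i <;> simp [pl, he]
  rw [hpl, ← hG, hGA]
  have hX1 : (monomial (Finsupp.single 1 4) g : MvPolynomial (Fin 3) ℂ) = C g * X 1 ^ 4 := by
    rw [X_pow_eq_monomial, C_mul_monomial, mul_one]
  have hX2 : (monomial (Finsupp.single 0 1 + Finsupp.single 1 2 + Finsupp.single 2 1) b₀ :
      MvPolynomial (Fin 3) ℂ) = C b₀ * (X 0 * X 1 ^ 2 * X 2) := by
    rw [X_pow_eq_monomial, X, X, monomial_mul, monomial_mul, C_mul_monomial]
    simp
  have hX3 : (monomial (Finsupp.single 1 3 + Finsupp.single 2 1) b₁ :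
      MvPolynomial (Fin 3) ℂ) = C b₁ * (X 1 ^ 3 * X 2) := by
    rw [X_pow_eq_monomial, X, monomial_mul, C_mul_monomial]
    simp
  have hX4 : (monomial (Finsupp.single 2 2) 1 : MvPolynomial (Fin 3) ℂ) = X 2 ^ 2 := by
    rw [X_pow_eq_monomial]
  rw [hX1, hX2, hX3, hX4]
  have hy7 : (![0, 0, 0, 0, 0, 0, 0, g, b₀, b₁] : Fin 10 → ℂ) 7 = g := rfl
  have hy8 : (![0, 0, 0, 0, 0, 0, 0, g, b₀, b₁] : Fin 10 → ℂ) 8 = b₀ := rfl
  have hy9 : (![0, 0, 0, 0, 0, 0, 0, g, b₀, b₁] : Fin 10 → ℂ) 9 = b₁ := rfl
  have hy5 : (![0, 0, 0, 0, 0, 0, 0, g, b₀, b₁] : Fin 10 → ℂ) 5 = 0 := rfl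
  have hy6 : (![0, 0, 0, 0, 0, 0, 0, g, b₀, b₁] : Fin 10 → ℂ) 6 = 0 := rfl
  rw [hy5, hy6, hy7, hy8, hy9, quad, lin]
  simp only [Matrix.cons_val_zero, Matrix.cons_val_one, Matrix.cons_val, map_zero, map_one]
  ring

end Pool.Agent.QX
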