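import Pool.Agent.Lib_MP_1209e6_qx.Defs
import Pool.Agent.Lib_MP_1209e6_ds.Krull20

/-! PIECE POINT (helper97): Krull and a point with a transcendental coordinate. -/

set_option autoImplicit false

open MvPolynomial

noncomputable section

namespace Pool.Agent.QX

/-- an element algebraic over `ℂ` is complex -/
theorem pt_range {K : Type} [Field K] [Algebra ℂ K] {a : K} (ha : IsAlgebraic ℂ a) :
    a ∈ Set.range (algebraMap ℂ K) := by
  have hi : IsIntegral ℂ a := ha.isIntegral
  have h1 := IsAlgClosed.degree_eq_one_of_irreducible ℂ (minpoly.irreducible hi)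
  exact minpoly.mem_range_of_degree_eq_one ℂ a h1

/-- two simple transcendental extensions have a common overfield -/
theorem exists_amalgam {K k : Type} [Field K] [Algebra ℂ K] [Field k] [Algebra ℂ k] (a : K) (T : k)
    (ha : Transcendental ℂ a) (hT : Transcendental ℂ T) :
    ∃ (Ω : Type) (_ : Field Ω) (φ : K →+* Ω) (ψ : k →+* Ω),
      (∀ c : ℂ, φ (algebraMap ℂ K c) = ψ (algebraMap ℂ k c)) ∧ φ a = ψ T := by
  let F0 := FractionRing (Polynomial ℂ)
  have h1 : Function.Injective (Polynomial.aeval (R := ℂ) a).toRingHom :=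
    transcendental_iff_injective.mp ha
  have h2 : Function.Injective (Polynomial.aeval (R := ℂ) T).toRingHom :=
    transcendental_iff_injective.mp hT
  let l1 : F0 →+* K := IsFractionRing.lift h1
  let l2 : F0 →+* k := IsFractionRing.lift h2
  let := l1.toAlgebra
  let := l2.toAlgebra
  have hn : Nontrivial (TensorProduct F0 K k) := inferInstance
  obtain ⟨M, hM⟩ := Ideal.exists_maximal (TensorProduct F0 K k)
  let := Ideal.Quotient.field M
  let φ : K →+* (TensorProduct F0 K k ⧸ M) := (Ideal.Quotient.mk M).comp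
    (Algebra.TensorProduct.includeLeftRingHom : K →+* TensorProduct F0 K k)
  let ψ : k →+* (TensorProduct F0 K k ⧸ M) := (Ideal.Quotient.mk M).comp
    ((Algebra.TensorProduct.includeRight : k →ₐ[F0] TensorProduct F0 K k) : k →+* TensorProduct F0 K k)
  have key : ∀ p : Polynomial ℂ, φ (Polynomial.aeval a p) = ψ (Polynomial.aeval T p) := by
    intro p
    have e1 : Polynomial.aeval a p = l1 (algebraMap (Polynomial ℂ) F0 p) :=
      (IsFractionRing.lift_algebraMap h1 p).symm
    have e2 : Polynomial.aeval T p = l2 (algebraMap (Polynomial ℂ) F0 p) :=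
      (IsFractionRing.lift_algebraMap h2 p).symm
    rw [e1, e2]
    show Ideal.Quotient.mk M (algebraMap F0 K (algebraMap (Polynomial ℂ) F0 p) ⊗ₜ[F0] (1 : k)) =
      Ideal.Quotient.mk M ((1 : K) ⊗ₜ[F0] algebraMap F0 k (algebraMap (Polynomial ℂ) F0 p))
    rw [Algebra.TensorProduct.tmul_one_eq_one_tmul]
  refine ⟨_, inferInstance, φ, ψ, fun c => ?_, ?_⟩
  · have := key (Polynomial.C c)
    simpa using this
  · have := key Polynomial.X
    simpa using this

theorem point_height (y₀ : Fin 10 → ℂ) : ¬ (vanishingIdeal ℂ ({y₀} : Set (Fin 10 → ℂ)) :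
    Ideal (MvPolynomial (Fin 10) ℂ)).height ≤ 9 := by
  intro hle
  have hdim : ringKrullDim (MvPolynomial (Fin 10) ℂ) ≤ (((9 : ℕ) : ℕ∞) : WithBot ℕ∞) := by
    refine (ringKrullDim_le_iff_isMaximal_height_le _).mpr fun M hM => ?_
    obtain ⟨x, hx⟩ := isMaximal_iff_eq_vanishingIdeal_singleton.mp hM
    rw [hx, Pool.Agent.DS.height_eq, ← Pool.Agent.DS.height_eq y₀]
    exact WithBot.coe_le_coe.mpr hle
  rw [MvPolynomial.ringKrullDim_of_isNoetherianRing, ringKrullDim_eq_zero_of_field, zero_add,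
    Nat.card_eq_fintype_card, Fintype.card_fin] at hdim
  have h' : (((10 : ℕ) : ℕ∞) : WithBot ℕ∞) ≤ (((9 : ℕ) : ℕ∞) : WithBot ℕ∞) := hdim
  have h2 : (10 : ℕ) ≤ 9 := Nat.cast_le.mp (WithBot.coe_le_coe.mp h')
  omega

theorem exists_point (f : Fin 9 → MvPolynomial (Fin 10) ℂ) (y₀ : Fin 10 → ℂ) (h₀ : ∀ i, aeval y₀ (f i) = 0)
    (hrig : ∀ (k : Type) [Field k] [Algebra ℂ k] (y : Fin 10 → k), (∀ i, aeval y (f i) = 0) →
      y 0 ∈ Set.range (algebraMap ℂ k) → y 1 ∈ Set.range (algebraMap ℂ k) →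
      y 2 ∈ Set.range (algebraMap ℂ k) → ∀ i, y i ∈ Set.range (algebraMap ℂ k))
    (k : Type) [Field k] [Algebra ℂ k] [IsAlgClosed k] (T : k) (hT : Transcendental ℂ T) :
    ∃ y : Fin 10 → k, (∀ i, aeval y (f i) = 0) ∧ (y 0 = T ∨ y 1 = T ∨ y 2 = T) := by
  classical
  set m : Ideal (MvPolynomial (Fin 10) ℂ) := vanishingIdeal ℂ ({y₀} : Set (Fin 10 → ℂ)) with hm
  have hmax : m.IsMaximal := isMaximal_iff_eq_vanishingIdeal_singleton.mpr ⟨y₀, rfl⟩
  have hI : Ideal.span (Set.range f) ≤ m := by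
    rw [Ideal.span_le]
    rintro _ ⟨i, rfl⟩
    exact (mem_vanishingIdeal_singleton_iff y₀ (f i)).mpr (h₀ i)
  have := hmax.isPrime
  obtain ⟨q, hq, hqm⟩ := Ideal.exists_minimalPrimes_le hI
  have hqp : q.IsPrime := hq.1.1
  have hne : q ≠ m := by
    intro he
    apply point_height y₀
    rw [← hm, ← he]
    refine (Ideal.height_le_card_of_mem_minimalPrimes_span (Set.finite_range f) hq).trans ?_
    have : (Set.range f).ncard ≤ 9 := by
      rw [← Set.image_univ]
      refine (Set.ncard_image_le Set.finite_univ).trans ?_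
      simp
    exact_mod_cast this
  let A := MvPolynomial (Fin 10) ℂ ⧸ q
  let K := FractionRing A
  let y : Fin 10 → K := fun i => algebraMap A K (Ideal.Quotient.mk q (X i))
  have hy : ∀ p : MvPolynomial (Fin 10) ℂ, aeval y p = algebraMap A K (Ideal.Quotient.mk q p) := by
    intro p
    have : (aeval y : MvPolynomial (Fin 10) ℂ →ₐ[ℂ] K) =
        (IsScalarTower.toAlgHom ℂ A K).comp (Ideal.Quotient.mkₐ ℂ q) := by
      apply MvPolynomial.algHom_ext
      intro i
      simp only [aeval_X]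
      rfl
    rw [this]
    rfl
  have hinj : Function.Injective (algebraMap A K) := IsFractionRing.injective A K
  have hyf : ∀ i, aeval y (f i) = 0 := by
    intro i
    rw [hy, Ideal.Quotient.eq_zero_iff_mem.mpr (hq.1.2 (Ideal.subset_span ⟨i, rfl⟩)), map_zero]
  -- one of the first three coordinates is transcendental
  have hex : ∃ i : Fin 10, (i = 0 ∨ i = 1 ∨ i = 2) ∧ Transcendental ℂ (y i) := by
    by_contra hcon
    push Not at hcon
    have hr : ∀ i : Fin 10, (i = 0 ∨ i = 1 ∨ i = 2) → y i ∈ Set.range (algebraMap ℂ K) := by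
      intro i hi
      have := hcon i hi
      rw [Transcendental, not_not] at this
      exact pt_range this
    have hall := hrig K y hyf (hr 0 (by simp)) (hr 1 (by simp)) (hr 2 (by simp))
    choose c hc using hall
    have hcq : ∀ i, (X i - C (c i) : MvPolynomial (Fin 10) ℂ) ∈ q := by
      intro i
      rw [← Ideal.Quotient.eq_zero_iff_mem]
      apply hinj
      rw [← hy, map_zero, map_sub, aeval_X, aeval_C, hc, sub_self]
    have hcy : c = y₀ := by
      ext i
      have h1 := hqm (hcq i)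
      rw [hm, mem_vanishingIdeal_singleton_iff, map_sub, aeval_X, aeval_C] at h1
      have : y₀ i - c i = 0 := by simpa using h1
      exact (sub_eq_zero.mp this).symm
    apply hne
    refine le_antisymm hqm fun p hp => ?_
    rw [← Ideal.Quotient.eq_zero_iff_mem]
    apply hinj
    rw [← hy, map_zero]
    have h2 : (y : Fin 10 → K) = fun i => algebraMap ℂ K (y₀ i) := by
      ext i
      rw [← hcy]
      exact (hc i).symm
    rw [h2]
    have h3 : aeval (fun i => algebraMap ℂ K (y₀ i)) p = algebraMap ℂ K (aeval y₀ p) :=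
      MvPolynomial.aeval_algebraMap_apply K y₀ p
    rw [h3, (mem_vanishingIdeal_singleton_iff y₀ p).mp hp, map_zero]
  obtain ⟨i, hi, htr⟩ := hex
  obtain ⟨Ω, _, φ, ψ, hc, hTφ⟩ := exists_amalgam (y i) T htr hT
  let Ψ : MvPolynomial (Fin 10) k →+* Ω := eval₂Hom ψ (fun j => φ (y j))
  have hker : RingHom.ker Ψ ≠ ⊤ := RingHom.ker_ne_top Ψ
  obtain ⟨M, hM, hle⟩ := Ideal.exists_le_maximal _ hker
  obtain ⟨x, hx⟩ := isMaximal_iff_eq_vanishingIdeal_singleton.mp hM
  have hz : ∀ p, Ψ p = 0 → aeval x p = 0 := by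
    intro p hp
    have : p ∈ M := hle ((RingHom.mem_ker).mpr hp)
    rw [hx] at this
    exact (mem_vanishingIdeal_singleton_iff x p).mp this
  have hxT : x i = T := by
    have h1 := hz (X i - C T) (by
      show eval₂Hom ψ (fun j => φ (y j)) (X i - C T) = 0
      rw [map_sub, eval₂Hom_X', eval₂Hom_C, hTφ, sub_self])
    rw [map_sub, aeval_X, aeval_C] at h1
    exact sub_eq_zero.mp h1
  refine ⟨x, fun j => ?_, ?_⟩
  · have h1 := hz (map (algebraMap ℂ k) (f j)) (by
      show eval₂Hom ψ (fun j => φ (y j)) (map (algebraMap ℂ k) (f j)) = 0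
      rw [eval₂Hom_map_hom]
      have h2 : eval₂Hom (ψ.comp (algebraMap ℂ k)) (fun j => φ (y j)) (f j) = φ (aeval y (f j)) := by
        have : (eval₂Hom (ψ.comp (algebraMap ℂ k)) (fun j => φ (y j)) : MvPolynomial (Fin 10) ℂ →+* Ω) =
            φ.comp ((aeval y : MvPolynomial (Fin 10) ℂ →ₐ[ℂ] K) : MvPolynomial (Fin 10) ℂ →+* K) := by
          apply MvPolynomial.ringHom_ext
          · intro c
            simp [hc]
          · intro l
            simp
        rw [this]
        rfl
      rw [h2, hyf, map_zero])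
    rwa [aeval_map_algebraMap] at h1
  · rcases hi with rfl | rfl | rfl
    · exact Or.inl hxT
    · exact Or.inr (Or.inl hxT)
    · exact Or.inr (Or.inr hxT)

end Pool.Agent.QX
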