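import Pool.Agent.Lib_MP_1209e6_qx.Start
import Pool.Agent.Lib_MP_1209e6_qx.Sys
import Pool.Agent.Lib_MP_1209e6_qx.Point
import Pool.Agent.Lib_MP_1209e6_qx.Rigid

/-! PIECE FAMILY: the moving plane section (assembly of Start, Sys, Point, Rigid). -/

set_option autoImplicit false

open MvPolynomial

noncomputable section

namespace Pool.Agent.QX

theorem fam_det {E : Fin 4 → Fin 4 → ℂ} (hE : LinearIndependent ℂ E) : (Matrix.of E).det ≠ 0 := by
  have h : LinearIndependent ℂ (Matrix.of E).row := hE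
  rw [Matrix.linearIndependent_rows_iff_isUnit, Matrix.isUnit_iff_isUnit_det] at h
  exact h.ne_zero

theorem fam_ind {k : Type} [Field k] [Algebra ℂ k] {E : Fin 4 → Fin 4 → ℂ} (hE : LinearIndependent ℂ E) :
    LinearIndependent k (fun i j => algebraMap ℂ k (E i j)) := by
  have h : LinearIndependent k ((Matrix.of E).map (algebraMap ℂ k)).row := by
    rw [Matrix.linearIndependent_rows_iff_isUnit, Matrix.isUnit_iff_isUnit_det, isUnit_iff_ne_zero]
    have : ((Matrix.of E).map (algebraMap ℂ k)).det = algebraMap ℂ k (Matrix.of E).det := by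
      rw [RingHom.map_det]; rfl
    rw [this]
    exact (map_ne_zero _).2 (fam_det hE)
  exact h

theorem fam_pl_ind {k : Type} [Field k] [Algebra ℂ k] {E : Fin 4 → Fin 4 → ℂ} (hE : LinearIndependent ℂ E)
    (y : Fin 10 → k) : LinearIndependent k (pl E y) := by
  have h := fam_ind (k := k) hE
  rw [Fintype.linearIndependent_iff] at h ⊢
  intro c hc
  have key := h ![c 0, c 1, c 0 * y 3 + c 1 * y 4 + c 2,
    c 0 * (y 0 + y 3 * y 2) + c 1 * (y 1 + y 4 * y 2) + c 2 * y 2] (by
      rw [← hc]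
      funext j
      simp [Fin.sum_univ_succ, pl, Finset.sum_apply]
      ring)
  have h0 : c 0 = 0 := by simpa using key 0
  have h1 : c 1 = 0 := by simpa using key 1
  have h2 : c 2 = 0 := by simpa [h0, h1] using key 2
  intro i
  fin_cases i <;> assumption

theorem fam_moving {k : Type} [Field k] [Algebra ℂ k] {E : Fin 4 → Fin 4 → ℂ} (hE : LinearIndependent ℂ E)
    (T : k) (hT : Transcendental ℂ T) (y : Fin 10 → k) (hy : y 0 = T ∨ y 1 = T ∨ y 2 = T) :
    Moving (pl E y) := by
  intro u hu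
  set a : Fin 4 → ℂ := fun i => ∑ j, u j * E i j with ha
  have haE : ∀ i, algebraMap ℂ k (a i) = ∑ j, algebraMap ℂ k (u j) * algebraMap ℂ k (E i j) := by
    intro i; simp [ha, map_sum]
  have e2 : algebraMap ℂ k (a 2) + y 2 * algebraMap ℂ k (a 3) = 0 := by
    have := hu 2
    rw [haE, haE, ← this]
    simp [pl, Fin.sum_univ_succ]
    ring
  have e0 : algebraMap ℂ k (a 0) + y 0 * algebraMap ℂ k (a 3) = 0 := by
    have := hu 0
    have h' : algebraMap ℂ k (a 0) + y 0 * algebraMap ℂ k (a 3) +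
      y 3 * (algebraMap ℂ k (a 2) + y 2 * algebraMap ℂ k (a 3)) = 0 := by
      rw [haE, haE, haE, ← this]
      simp [pl, Fin.sum_univ_succ]
      ring
    rwa [e2, mul_zero, add_zero] at h'
  have e1 : algebraMap ℂ k (a 1) + y 1 * algebraMap ℂ k (a 3) = 0 := by
    have := hu 1
    have h' : algebraMap ℂ k (a 1) + y 1 * algebraMap ℂ k (a 3) +
      y 4 * (algebraMap ℂ k (a 2) + y 2 * algebraMap ℂ k (a 3)) = 0 := by
      rw [haE, haE, haE, ← this]
      simp [pl, Fin.sum_univ_succ]
      ring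
    rwa [e2, mul_zero, add_zero] at h'
  have key : ∀ b c : ℂ, algebraMap ℂ k b + T * algebraMap ℂ k c = 0 → c = 0 := by
    intro b c h
    by_contra hc
    have hcz : algebraMap ℂ k c ≠ 0 := (map_ne_zero _).2 hc
    have hTe : T = algebraMap ℂ k (-b / c) := by
      rw [map_div₀, map_neg, eq_div_iff hcz]
      linear_combination h
    exact hT (hTe ▸ isAlgebraic_algebraMap _)
  have h3 : a 3 = 0 := by
    rcases hy with h | h | h
    · exact key (a 0) (a 3) (h ▸ e0)
    · exact key (a 1) (a 3) (h ▸ e1)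
    · exact key (a 2) (a 3) (h ▸ e2)
  have inj := (algebraMap ℂ k).injective
  have h0 : a 0 = 0 := inj (by simpa [h3] using e0)
  have h1 : a 1 = 0 := inj (by simpa [h3] using e1)
  have h2 : a 2 = 0 := inj (by simpa [h3] using e2)
  have hall : ∀ i, a i = 0 := by
    intro i; fin_cases i <;> assumption
  have hmul : (Matrix.of E).mulVec u = 0 := by
    funext i
    have := hall i
    simp only [ha] at this
    simp only [Matrix.mulVec, dotProduct, Matrix.of_apply, Pi.zero_apply]
    rw [← this]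
    exact Finset.sum_congr rfl fun j _ => mul_comm _ _
  exact Matrix.eq_zero_of_mulVec_eq_zero (fam_det hE) hmul

/-- `e = pl E y`; independent because `E` is; `Moving`: `u · E_i + y_i (u · E_3) = 0` for `i = 0, 1, 2`, one `y_i`
transcendental, so `u · E_3 = 0` and all `u · E_i = 0`. -/
theorem exists_family {F : MvPolynomial (Fin 4) ℂ} (hF : F.IsHomogeneous 4)
    (hs : Pool.Agent.DS.Smooth F) (hl : NoLine F) (k : Type) [Field k] [Algebra ℂ k] [IsAlgClosed k] (T : k)
    (hT : Transcendental ℂ T) : ∃ (e : Fin 3 → Fin 4 → k) (c : Fin 3 → k) (g : k) (b : Fin 2 → k)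
      (A : MvPolynomial (Fin 3) k), Sect F e c g b A ∧ Moving e := by
  obtain ⟨E, y₀, hE, hy₀⟩ := exists_start hF hs
  obtain ⟨f, hf⟩ := exists_sys hF E
  obtain ⟨y, hy, hyT⟩ := exists_point f y₀ ((hf ℂ y₀).2 hy₀)
    (fun k _ _ y hy h0 h1 h2 i => rigid hF hs hl E hE y ((hf k y).1 hy) h0 h1 h2 i) k T hT
  obtain ⟨A, hA, heq⟩ := (hf k y).1 hy
  exact ⟨pl E y, ![y 5, y 6, 1], y 7, ![y 8, y 9], A,
    ⟨fam_pl_ind hE y, rfl, hA, heq⟩, fam_moving hE T hT y hyT⟩

end Pool.Agent.QX
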