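import Mathlib

/-!
Krull's height theorem at a point: `n` equations in `n + 1` unknowns which vanish at a complex point `z` have a
solution over an algebraically closed field, with a transcendental coordinate, which specialises to `z`; and
a solution with transcendence degree one (helper43).
-/

set_option autoImplicit false

open MvPolynomial

namespace Pool.Agent.QX

/-- translation of the variables as an algebra automorphism -/
noncomputable def kr_translate {J : Type} (x : J → ℂ) : MvPolynomial J ℂ ≃ₐ[ℂ] MvPolynomial J ℂ :=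
  AlgEquiv.ofAlgHom (aeval (fun j => X j + C (x j))) (aeval (fun j => X j - C (x j)))
    (by ext j; simp) (by ext j; simp)

theorem kr_height_eq {J : Type} (x : J → ℂ) :
    (vanishingIdeal ℂ ({x} : Set (J → ℂ)) : Ideal (MvPolynomial J ℂ)).height =
      (vanishingIdeal ℂ ({0} : Set (J → ℂ)) : Ideal (MvPolynomial J ℂ)).height := by
  have h := (kr_translate x).toRingEquiv.height_comap
    (vanishingIdeal ℂ ({0} : Set (J → ℂ)) : Ideal (MvPolynomial J ℂ))
  rw [← h]
  congr 1
  ext p
  simp only [mem_vanishingIdeal_singleton_iff, Ideal.mem_comap]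
  have : aeval (0 : J → ℂ) ((kr_translate x).toRingEquiv p) = aeval x p := by
    show aeval (0 : J → ℂ) (aeval (fun j => X j + C (x j)) p) = aeval x p
    have h2 : ((aeval (0 : J → ℂ)).comp (aeval (fun j => X j + C (x j))) :
        MvPolynomial J ℂ →ₐ[ℂ] ℂ) = aeval x := by
      ext j; simp
    exact congrArg (fun f => f p) h2
  rw [this]

/-- the height of a point is at least the number of variables -/
theorem kr_height_ge {J : Type} [Fintype J] (z : J → ℂ) (n : ℕ) (hn : n < Fintype.card J)
    (h : (vanishingIdeal ℂ ({z} : Set (J → ℂ)) : Ideal (MvPolynomial J ℂ)).height ≤ n) : False := by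
  have hdim : ringKrullDim (MvPolynomial J ℂ) ≤ ((n : ℕ∞) : WithBot ℕ∞) := by
    refine (ringKrullDim_le_iff_isMaximal_height_le _).mpr fun M hM => ?_
    obtain ⟨x, hx⟩ := isMaximal_iff_eq_vanishingIdeal_singleton.mp hM
    rw [hx, kr_height_eq, ← kr_height_eq z]
    exact WithBot.coe_le_coe.mpr h
  rw [MvPolynomial.ringKrullDim_of_isNoetherianRing, ringKrullDim_eq_zero_of_field, zero_add,
    Nat.card_eq_fintype_card] at hdim
  have : Fintype.card J ≤ n := by exact_mod_cast hdim
  omega

/-- fewer equations than unknowns at a point: a solution which moves and specialises to the point -/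
theorem exists_moving {J I : Type} [Fintype J] [Fintype I] (hcard : Fintype.card I < Fintype.card J)
    (p : I → MvPolynomial J ℂ) (z : J → ℂ) (hz : ∀ i, aeval z (p i) = 0) :
    ∃ (k : Type) (_ : Field k) (_ : Algebra ℂ k) (_ : IsAlgClosed k) (y : J → k),
      (∀ i, aeval y (p i) = 0) ∧ (∃ j, Transcendental ℂ (y j)) ∧
      ∀ g : MvPolynomial J ℂ, aeval y g = 0 → aeval z g = 0 := by
  classical
  set K : Ideal (MvPolynomial J ℂ) := Ideal.span (Set.range p) with hK
  set m : Ideal (MvPolynomial J ℂ) := vanishingIdeal ℂ ({z} : Set (J → ℂ)) with hm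
  have hmax : m.IsMaximal := isMaximal_iff_eq_vanishingIdeal_singleton.mpr ⟨z, rfl⟩
  have hKm : K ≤ m := by
    rw [hK, Ideal.span_le]
    rintro _ ⟨i, rfl⟩
    exact (mem_vanishingIdeal_singleton_iff _ _).2 (hz i)
  have hmp : m.IsPrime := hmax.isPrime
  obtain ⟨P, hP, hPm⟩ := Ideal.exists_minimalPrimes_le hKm
  have hPp : P.IsPrime := hP.1.1
  have hKP : K ≤ P := hP.1.2
  have hht := Ideal.height_le_card_of_mem_minimalPrimes_span (Set.finite_range p) hP
  have hcard' : (Set.range p).ncard ≤ Fintype.card I := by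
    rw [← Set.image_univ]
    refine (Set.ncard_image_le Set.finite_univ).trans ?_
    rw [Set.ncard_univ, Nat.card_eq_fintype_card]
  have hPne : P ≠ m := by
    intro h
    rw [h, hm] at hht
    refine kr_height_ge z (Fintype.card I) hcard (hht.trans ?_)
    exact_mod_cast hcard'
  let A := MvPolynomial J ℂ ⧸ P
  have : IsDomain A := Ideal.Quotient.isDomain P
  let F := FractionRing A
  let k := AlgebraicClosure F
  let y : J → k := fun j => algebraMap A k (Ideal.Quotient.mk P (X j))
  have hinj : Function.Injective (algebraMap A k) := by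
    rw [IsScalarTower.algebraMap_eq A F k]
    exact (algebraMap F k).injective.comp (IsFractionRing.injective A F)
  have hy : ∀ g : MvPolynomial J ℂ, aeval y g = algebraMap A k (Ideal.Quotient.mk P g) := by
    intro g
    have h1 : aeval (fun j => (Ideal.Quotient.mk P (X j) : A)) g = Ideal.Quotient.mk P g := by
      have h2 : (aeval (fun j => (Ideal.Quotient.mk P (X j) : A)) : MvPolynomial J ℂ →ₐ[ℂ] A) =
          Ideal.Quotient.mkₐ ℂ P := by
        ext j
        rw [aeval_X]
        rfl
      exact congrArg (fun f => f g) h2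
    rw [← h1]
    exact MvPolynomial.aeval_algebraMap_apply k _ g
  have hmem : ∀ g : MvPolynomial J ℂ, aeval y g = 0 ↔ g ∈ P := by
    intro g
    rw [hy, ← Ideal.Quotient.eq_zero_iff_mem]
    constructor
    · intro h
      exact hinj (h.trans (map_zero _).symm)
    · intro h
      rw [h, map_zero]
  refine ⟨k, inferInstance, inferInstance, inferInstance, y, ?_, ?_, ?_⟩
  · intro i
    exact (hmem _).2 (hKP (Ideal.subset_span ⟨i, rfl⟩))
  · by_contra hcon
    push Not at hcon
    have hc : ∀ j, ∃ c : ℂ, y j = algebraMap ℂ k c := by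
      intro j
      have h1 : IsAlgebraic ℂ (y j) := by
        by_contra h
        exact hcon j h
      have h2 : (minpoly ℂ (y j)).degree = 1 :=
        IsAlgClosed.degree_eq_one_of_irreducible ℂ (minpoly.irreducible h1.isIntegral)
      obtain ⟨c, hc⟩ := minpoly.mem_range_of_degree_eq_one ℂ (y j) h2
      exact ⟨c, hc.symm⟩
    choose c hc using hc
    have h1 : vanishingIdeal ℂ ({c} : Set (J → ℂ)) ≤ P := by
      intro g hg
      have hg' : aeval c g = 0 := (mem_vanishingIdeal_singleton_iff _ _).1 hg
      refine (hmem g).1 ?_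
      have h2 : y = fun j => algebraMap ℂ k (c j) := funext hc
      rw [h2]
      have h3 := MvPolynomial.aeval_algebraMap_apply k c g
      rw [hg', map_zero] at h3
      exact h3
    have h2 : (vanishingIdeal ℂ ({c} : Set (J → ℂ)) : Ideal (MvPolynomial J ℂ)).IsMaximal :=
      isMaximal_iff_eq_vanishingIdeal_singleton.mpr ⟨c, rfl⟩
    have h3 := h2.eq_of_le hPp.ne_top h1
    have h4 := h2.eq_of_le hmp.ne_top (h3 ▸ hPm)
    exact hPne (h3.symm.trans h4)
  · intro g hg
    exact (mem_vanishingIdeal_singleton_iff _ _).1 (hPm ((hmem g).1 hg))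

/-- the algebraic closure of `ℂ(a)` inside an algebraically closed field -/
theorem kr_closure {k : Type} [Field k] [Algebra ℂ k] [IsAlgClosed k] (a : k) :
    ∃ (k' : Type) (_ : Field k') (_ : Algebra ℂ k') (_ : IsAlgClosed k') (e : k' →ₐ[ℂ] k) (t : k'),
      e t = a ∧ ∀ b : k', IsAlgebraic (IntermediateField.adjoin ℂ ({t} : Set k')) b := by
  let E : IntermediateField ℂ k := IntermediateField.adjoin ℂ ({a} : Set k)
  let k1 : IntermediateField E k := algebraicClosure E k
  have hcl : IsAlgClosed k1 := (inferInstance : IsAlgClosure E k1).isAlgClosed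
  have ha : a ∈ E := IntermediateField.subset_adjoin ℂ _ rfl
  let t : k1 := algebraMap E k1 ⟨a, ha⟩
  let e : k1 →ₐ[ℂ] k := (k1.val.restrictScalars ℂ : k1 →ₐ[ℂ] k)
  have het : e t = a := rfl
  refine ⟨k1, inferInstance, inferInstance, hcl, e, t, het, fun b => ?_⟩
  have hb : IsAlgebraic E (e b) := mem_algebraicClosure_iff.1 b.2
  have hmap : (IntermediateField.adjoin ℂ ({t} : Set k1)).map e = E := by
    rw [IntermediateField.adjoin_map, Set.image_singleton, het]
  have hmem : ∀ c : IntermediateField.adjoin ℂ ({t} : Set k1), e c ∈ E := by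
    intro c
    have h1 : e c ∈ (IntermediateField.adjoin ℂ ({t} : Set k1)).map e := ⟨c, c.2, rfl⟩
    exact hmap.le h1
  let f : IntermediateField.adjoin ℂ ({t} : Set k1) →+* E :=
    { toFun := fun c => ⟨e c, hmem c⟩
      map_one' := Subtype.ext (map_one e)
      map_mul' := fun c d => Subtype.ext (map_mul e _ _)
      map_zero' := Subtype.ext (map_zero e)
      map_add' := fun c d => Subtype.ext (map_add e _ _) }
  refine IsAlgebraic.of_ringHom_of_comp_eq f (e : k1 →+* k) hb ?_ e.toRingHom.injective ?_
  · rintro ⟨c, hc⟩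
    have hc' : c ∈ (IntermediateField.adjoin ℂ ({t} : Set k1)).map e := hmap.ge hc
    obtain ⟨d, hd, hdc⟩ := hc'
    exact ⟨⟨d, hd⟩, Subtype.ext hdc⟩
  · ext c
    rfl

/-- a solution of transcendence degree one -/
theorem exists_trdeg_one {J : Type} [Fintype J] {k : Type} [Field k] [Algebra ℂ k] [IsAlgClosed k]
    (y : J → k) (j : J) (hj : Transcendental ℂ (y j)) (g : MvPolynomial J ℂ) (hg : aeval y g ≠ 0) :
    ∃ (k' : Type) (_ : Field k') (_ : Algebra ℂ k') (_ : IsAlgClosed k') (y' : J → k'),
      Transcendental ℂ (y' j) ∧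
      (∀ b : k', IsAlgebraic (IntermediateField.adjoin ℂ ({y' j} : Set k')) b) ∧
      aeval y' g ≠ 0 ∧ ∀ p : MvPolynomial J ℂ, aeval y p = 0 → aeval y' p = 0 := by
  obtain ⟨k', _, _, _, e, t, het, halg⟩ := kr_closure (y j)
  let _ : Algebra k' k := e.toRingHom.toAlgebra
  have _ : IsScalarTower ℂ k' k := IsScalarTower.of_algebraMap_eq fun c => (e.commutes c).symm
  let K : Ideal (MvPolynomial J k') := RingHom.ker (aeval y : MvPolynomial J k' →ₐ[k'] k)
  have hKp : K.IsPrime := RingHom.ker_isPrime _
  have hmapy : ∀ p : MvPolynomial J ℂ, aeval y (map (algebraMap ℂ k') p) = aeval y p := by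
    intro p
    rw [aeval_map_algebraMap]
  have hmapx : ∀ (x : J → k') (p : MvPolynomial J ℂ), aeval x (map (algebraMap ℂ k') p) = aeval x p := by
    intro x p
    rw [aeval_map_algebraMap]
  have hgK : map (algebraMap ℂ k') g ∉ K := by
    intro h
    apply hg
    rw [← hmapy]
    exact h
  obtain ⟨x, hx, hgx⟩ : ∃ x ∈ zeroLocus k' K, aeval x (map (algebraMap ℂ k') g) ≠ 0 := by
    by_contra hcon
    push Not at hcon
    apply hgK
    have h1 : map (algebraMap ℂ k') g ∈ vanishingIdeal k' (zeroLocus k' K) :=
      fun x hx => hcon x hx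
    rw [vanishingIdeal_zeroLocus_eq_radical, hKp.radical] at h1
    exact h1
  have hxj : x j = t := by
    have h1 : (X j - C t : MvPolynomial J k') ∈ K := by
      change aeval y (X j - C t : MvPolynomial J k') = 0
      rw [map_sub, aeval_X, aeval_C]
      change y j - e t = 0
      rw [het, sub_self]
    have h2 := hx _ h1
    rw [map_sub, aeval_X, aeval_C] at h2
    exact sub_eq_zero.1 h2
  refine ⟨k', inferInstance, inferInstance, inferInstance, x, ?_, ?_, ?_, ?_⟩
  · rw [hxj]
    intro h
    apply hj
    rw [← het]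
    exact IsAlgebraic.algHom e (show IsAlgebraic ℂ t from h)
  · rw [hxj]
    exact halg
  · rw [← hmapx]
    exact hgx
  · intro p hp
    rw [← hmapx]
    refine hx _ ?_
    change aeval y (map (algebraMap ℂ k') p) = 0
    rw [hmapy, hp]

end Pool.Agent.QX
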