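import Pool.Agent.Lib_MP_1209e6_qx.Defs

/-! PIECE COPIES: two independent copies of `k = closure of ℂ(T)` in an algebraically closed field. -/

set_option autoImplicit false

open MvPolynomial

noncomputable section

namespace Pool.Agent.QX

private lemma copies_lift {k M : Type} [Field k] [Field M] [Algebra ℂ k] [Algebra ℂ M] [IsAlgClosed M]
    {T : k} (h : Base T) {t : M} (ht : Transcendental ℂ t) : ∃ τ : k →ₐ[ℂ] M, τ T = t := by
  have hT := h.tr
  obtain ⟨f, hf⟩ : ∃ f : IntermediateField.adjoin ℂ {T} →ₐ[ℂ] M,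
      f (IntermediateField.AdjoinSimple.gen ℂ T) = t := by
    refine ⟨((IntermediateField.adjoin ℂ {t}).val.comp
      (RatFunc.algEquivOfTranscendental t ht).toAlgHom).comp
        (RatFunc.algEquivOfTranscendental T hT).symm.toAlgHom, ?_⟩
    have h1 := RatFunc.algEquivOfTranscendental_symm_gen T hT
    have h2 := RatFunc.algEquivOfTranscendental_X t ht
    show ((RatFunc.algEquivOfTranscendental t ht
      ((RatFunc.algEquivOfTranscendental T hT).symm (IntermediateField.AdjoinSimple.gen ℂ T)) :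
        IntermediateField.adjoin ℂ {t}) : M) = t
    rw [h1, h2]
  letI : Algebra (IntermediateField.adjoin ℂ {T}) M := f.toRingHom.toAlgebra
  haveI : IsScalarTower ℂ (IntermediateField.adjoin ℂ {T}) M :=
    IsScalarTower.of_algebraMap_eq (fun r => (f.commutes r).symm)
  haveI : Algebra.IsAlgebraic (IntermediateField.adjoin ℂ {T}) k := ⟨h.alg⟩
  obtain ⟨σ⟩ : Nonempty (k →ₐ[IntermediateField.adjoin ℂ {T}] M) := ⟨IsAlgClosed.lift⟩
  refine ⟨σ.restrictScalars ℂ, ?_⟩
  have h3 : σ (algebraMap (IntermediateField.adjoin ℂ {T}) k (IntermediateField.AdjoinSimple.gen ℂ T)) =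
      algebraMap (IntermediateField.adjoin ℂ {T}) M (IntermediateField.AdjoinSimple.gen ℂ T) := σ.commutes _
  have h4 : algebraMap (IntermediateField.adjoin ℂ {T}) M (IntermediateField.AdjoinSimple.gen ℂ T) = t := hf
  rw [h4] at h3
  exact h3

private lemma copies_base : ∃ (k : Type) (_ : Field k) (_ : Algebra ℂ k) (T : k), IsAlgClosed k ∧ Base T ∧
    ∀ a : k, IsAlgebraic (Algebra.adjoin ℂ {T}) a := by
  have h0 : IsTranscendenceBasis ℂ (fun _ : Unit => (Polynomial.X : Polynomial ℂ)) :=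
    IsTranscendenceBasis.polynomial Unit ℂ
  haveI : FaithfulSMul (Polynomial ℂ) (AlgebraicClosure (RatFunc ℂ)) := by
    rw [faithfulSMul_iff_algebraMap_injective, IsScalarTower.algebraMap_eq (Polynomial ℂ) (RatFunc ℂ)]
    exact (algebraMap (RatFunc ℂ) (AlgebraicClosure (RatFunc ℂ))).injective.comp
      (RatFunc.algebraMap_injective ℂ)
  haveI : Algebra.IsAlgebraic (Polynomial ℂ) (RatFunc ℂ) := IsLocalization.isAlgebraic _ (nonZeroDivisors (Polynomial ℂ))
  haveI : Algebra.IsAlgebraic (Polynomial ℂ) (AlgebraicClosure (RatFunc ℂ)) :=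
    Algebra.IsAlgebraic.trans _ (RatFunc ℂ) _
  have h1 := IsTranscendenceBasis.algebraMap_comp (A := AlgebraicClosure (RatFunc ℂ)) h0
  have h2 := h1.isAlgebraic_field
  have h4 := h1.isAlgebraic
  have h3 : Set.range (algebraMap (Polynomial ℂ) (AlgebraicClosure (RatFunc ℂ)) ∘
      fun _ : Unit => (Polynomial.X : Polynomial ℂ)) =
      {algebraMap (Polynomial ℂ) (AlgebraicClosure (RatFunc ℂ)) Polynomial.X} := by
    ext z; simp [eq_comm]
  rw [h3] at h2 h4
  exact ⟨AlgebraicClosure (RatFunc ℂ), inferInstance, inferInstance,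
    algebraMap (Polynomial ℂ) (AlgebraicClosure (RatFunc ℂ)) Polynomial.X, inferInstance,
    ⟨h1.1.transcendental (), fun a => h2.isAlgebraic a⟩, fun a => h4.isAlgebraic a⟩

private lemma copies_big : ∃ (M : Type) (_ : Field M) (_ : Algebra ℂ M) (x : Fin 2 → M), IsAlgClosed M ∧
    IsTranscendenceBasis ℂ x := by
  have h0 : IsTranscendenceBasis ℂ (MvPolynomial.X : Fin 2 → MvPolynomial (Fin 2) ℂ) :=
    IsTranscendenceBasis.mvPolynomial (Fin 2) ℂ
  haveI : FaithfulSMul (MvPolynomial (Fin 2) ℂ)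
      (AlgebraicClosure (FractionRing (MvPolynomial (Fin 2) ℂ))) := by
    rw [faithfulSMul_iff_algebraMap_injective,
      IsScalarTower.algebraMap_eq (MvPolynomial (Fin 2) ℂ) (FractionRing (MvPolynomial (Fin 2) ℂ))]
    exact (algebraMap (FractionRing (MvPolynomial (Fin 2) ℂ)) _).injective.comp
      (IsFractionRing.injective _ _)
  haveI : Algebra.IsAlgebraic (MvPolynomial (Fin 2) ℂ) (FractionRing (MvPolynomial (Fin 2) ℂ)) :=
    IsLocalization.isAlgebraic _ (nonZeroDivisors (MvPolynomial (Fin 2) ℂ))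
  haveI : Algebra.IsAlgebraic (MvPolynomial (Fin 2) ℂ)
      (AlgebraicClosure (FractionRing (MvPolynomial (Fin 2) ℂ))) :=
    Algebra.IsAlgebraic.trans _ (FractionRing (MvPolynomial (Fin 2) ℂ)) _
  have h1 := IsTranscendenceBasis.algebraMap_comp
    (A := AlgebraicClosure (FractionRing (MvPolynomial (Fin 2) ℂ))) h0
  exact ⟨_, inferInstance, inferInstance, _, inferInstance, h1⟩

private lemma copies_meet {M : Type} [Field M] [Algebra ℂ M] {x : Fin 2 → M}
    (hx : AlgebraicIndependent ℂ x) {c : M}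
    (h0 : IsAlgebraic (Algebra.adjoin ℂ {x 0}) c) (h1 : IsAlgebraic (Algebra.adjoin ℂ {x 1}) c) :
    IsAlgebraic ℂ c := by
  have hI : (AlgebraicIndependent.matroid ℂ M).Indep ({x 0} ∪ {x 1}) := by
    rw [AlgebraicIndependent.matroid_indep_iff]
    have h2 := AlgebraicIndependent.to_subtype_range hx
    have h3 : Set.range x = {x 0} ∪ {x 1} := by
      ext z
      simp only [Set.mem_range, Fin.exists_fin_two, Set.mem_union, Set.mem_singleton_iff, eq_comm]
    rw [← h3]
    exact h2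
  have h2 := hI.closure_inter_eq_inter_closure
  have h3 : ({x 0} ∩ {x 1} : Set M) = ∅ := by
    ext z
    simp only [Set.mem_inter_iff, Set.mem_singleton_iff, Set.mem_empty_iff_false, iff_false, not_and]
    intro h4 h5
    have h6 := hx.injective (h4 ▸ h5 : x 0 = x 1)
    exact absurd h6 (by decide)
  have h4 : c ∈ (AlgebraicIndependent.matroid ℂ M).closure {x 0} ∩
      (AlgebraicIndependent.matroid ℂ M).closure {x 1} := by
    rw [AlgebraicIndependent.matroid_closure_eq, AlgebraicIndependent.matroid_closure_eq]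
    exact ⟨(Subalgebra.mem_algebraicClosure _ _).2 h0, (Subalgebra.mem_algebraicClosure _ _).2 h1⟩
  rw [← h2, h3, AlgebraicIndependent.matroid_closure_eq] at h4
  have h5 : IsAlgebraic (Algebra.adjoin ℂ (∅ : Set M)) c := (Subalgebra.mem_algebraicClosure _ _).1 h4
  have hb : Algebra.IsAlgebraic ℂ (Algebra.adjoin ℂ (∅ : Set M)) := by
    rw [← Subalgebra.isAlgebraic_iff]
    intro y hy
    rw [Algebra.adjoin_empty, Algebra.mem_bot] at hy
    obtain ⟨r, rfl⟩ := hy
    exact isAlgebraic_algebraMap r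
  exact IsAlgebraic.restrictScalars ℂ h5

/-- `k = AlgebraicClosure (RatFunc ℂ)`, `M` = algebraic closure of the fraction field of `MvPolynomial (Fin 2) ℂ`;
`τ i` extends `T ↦ X i` (`IsAlgClosed.lift`). `τ 0 a = τ 1 b`: algebraic over `ℂ(X 0)` and over `ℂ(X 1)`, so
algebraic over `ℂ` (matroid closure of disjoint parts of an independent set), so complex. -/
theorem exists_copies : ∃ (k M : Type) (_ : Field k) (_ : Field M) (_ : Algebra ℂ k) (_ : Algebra ℂ M)
    (T : k) (τ : Fin 2 → k →ₐ[ℂ] M), IsAlgClosed k ∧ IsAlgClosed M ∧ Base T ∧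
    AlgebraicIndependent ℂ (fun i => τ i T) ∧
    (∀ a : M, IsAlgebraic (IntermediateField.adjoin ℂ (Set.range fun i => τ i T)) a) ∧
    ∀ a b : k, τ 0 a = τ 1 b → ∃ r : ℂ, a = algebraMap ℂ k r := by
  obtain ⟨k, _, _, T, hk, hT, halg⟩ := copies_base
  obtain ⟨M, _, _, x, hM, hx⟩ := copies_big
  obtain ⟨τ, hτ⟩ : ∃ τ : Fin 2 → k →ₐ[ℂ] M, ∀ i, τ i T = x i := by
    choose τ hτ using fun i => copies_lift hT (hx.1.transcendental i)
    exact ⟨τ, hτ⟩
  have hfun : (fun i => τ i T) = x := funext hτ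
  have hmap : ∀ i : Fin 2, ∀ a : k, IsAlgebraic (Algebra.adjoin ℂ {x i}) (τ i a) := by
    intro i a
    have hm : (Algebra.adjoin ℂ {T}).map (τ i) = Algebra.adjoin ℂ {x i} := by
      rw [AlgHom.map_adjoin, Set.image_singleton, hτ i]
    obtain ⟨f, hf⟩ : ∃ f : Algebra.adjoin ℂ {T} →ₐ[ℂ] Algebra.adjoin ℂ {x i},
        ∀ y, ((f y : Algebra.adjoin ℂ {x i}) : M) = τ i (y : k) := by
      refine ⟨((τ i).comp (Algebra.adjoin ℂ {T}).val).codRestrict (Algebra.adjoin ℂ {x i}) ?_, fun y => rfl⟩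
      intro y
      rw [← hm]
      exact ⟨y.1, y.2, rfl⟩
    refine IsAlgebraic.ringHom_of_comp_eq f.toRingHom (τ i).toRingHom (halg a) ?_ ?_
    · intro y z hyz
      have h1 : τ i (y : k) = τ i (z : k) := by
        rw [← hf y, ← hf z]
        exact congrArg Subtype.val hyz
      exact Subtype.ext ((τ i).toRingHom.injective h1)
    · ext y
      exact hf y
  refine ⟨k, M, inferInstance, inferInstance, inferInstance, inferInstance, T, τ, hk, hM, hT, ?_, ?_, ?_⟩
  · rw [hfun]; exact hx.1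
  · rw [hfun]
    have h2 := hx.isAlgebraic_field
    exact fun a => h2.isAlgebraic a
  · intro a b hab
    have h1 : IsAlgebraic ℂ (τ 0 a) := copies_meet hx.1 (hmap 0 a) (hab ▸ hmap 1 b)
    have h2 : IsAlgebraic ℂ a := (isAlgebraic_algHom_iff (τ 0) (τ 0).toRingHom.injective).1 h1
    have h3 : IsIntegral ℂ a := h2.isIntegral
    have h4 := IsAlgClosed.degree_eq_one_of_irreducible ℂ (minpoly.irreducible h3)
    obtain ⟨r, hr⟩ := minpoly.mem_range_of_degree_eq_one ℂ a h4
    exact ⟨r, hr.symm⟩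

end Pool.Agent.QX
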