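import Pool.Agent.Lib_MP_1209e6_qx.Rat
import Pool.Agent.Lib_MP_1209e6_ds.Moves

/-! PIECE LINE: two independent members meet in a generic point, or the planes contain a complex line. -/

set_option autoImplicit false

open MvPolynomial

noncomputable section

namespace Pool.Agent.QX

/-- the linear form of a plane, valid after every extension of the field -/
theorem ln_form {k : Type} [Field k] (e : Fin 3 → Fin 4 → k) (he : LinearIndependent k e) :
    ∃ U : Fin 4 → k, U ≠ 0 ∧ ∀ (M : Type) [Field M] (τ : k →+* M) (v : Fin 4 → M),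
      (∑ j, τ (U j) * v j = 0 ↔ ∃ p : Fin 3 → M, ∀ j, v j = ∑ i, p i * τ (e i j)) := by
  classical
  obtain ⟨U, hU⟩ : ∃ U : Fin 4 → k, ∀ j, U j = (-1) ^ (j : ℕ) *
    (Matrix.of (fun a b : Fin 3 => e a (j.succAbove b))).det := ⟨_, fun j => rfl⟩
  have hdet : ∀ (M : Type) [Field M] (τ : k →+* M) (v : Fin 4 → M),
      ∑ j, τ (U j) * v j = (Matrix.of (Fin.cons v (fun i j => τ (e i j)) : Fin 4 → Fin 4 → M)).det := by
    intro M _ τ v
    rw [Matrix.det_succ_row_zero]
    refine Finset.sum_congr rfl fun j _ => ?_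
    rw [hU, map_mul, map_pow, map_neg, map_one, RingHom.map_det]
    have h1 : (τ.mapMatrix (Matrix.of (fun a b : Fin 3 => e a (j.succAbove b)))) =
        (Matrix.of (Fin.cons v (fun i j => τ (e i j)) : Fin 4 → Fin 4 → M)).submatrix Fin.succ
          j.succAbove := by
      ext a b
      simp
    rw [h1]
    have h2 : (Matrix.of (Fin.cons v (fun i j => τ (e i j)) : Fin 4 → Fin 4 → M)) 0 j = v j := by
      simp
    rw [h2]
    ring
  have hind : ∀ (M : Type) [Field M] (τ : k →+* M) (v : Fin 4 → M),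
      ∑ j, τ (U j) * v j ≠ 0 ↔ LinearIndependent M (Fin.cons v (fun i j => τ (e i j)) :
        Fin 4 → Fin 4 → M) := by
    intro M _ τ v
    rw [hdet]
    have h1 := Matrix.linearIndependent_rows_iff_isUnit
      (A := Matrix.of (Fin.cons v (fun i j => τ (e i j)) : Fin 4 → Fin 4 → M))
    rw [Matrix.isUnit_iff_isUnit_det, isUnit_iff_ne_zero] at h1
    exact h1.symm
  have hU0 : U ≠ 0 := by
    obtain ⟨v, hv⟩ : ∃ v : Fin 4 → k, v ∉ Submodule.span k (Set.range e) := by
      by_contra hall
      push Not at hall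
      have h1 : Submodule.span k (Set.range e) = ⊤ := eq_top_iff.2 fun x _ => hall x
      have h2 := finrank_span_eq_card he
      rw [h1, finrank_top, Module.finrank_fintype_fun_eq_card] at h2
      simp at h2
    have h1 : LinearIndependent k (Fin.cons v e : Fin 4 → Fin 4 → k) :=
      linearIndependent_finCons.2 ⟨he, hv⟩
    have h2 := (hind k (RingHom.id k) v).2 (by simpa using h1)
    intro h3
    apply h2
    rw [h3]
    simp
  refine ⟨U, hU0, fun M _ τ v => ?_⟩
  have hτe : LinearIndependent M (fun i j => τ (e i j)) := by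
    obtain ⟨j, hj⟩ := Function.ne_iff.1 hU0
    have h1 := (hind M τ (Pi.single j 1)).1 (by
      rw [Finset.sum_eq_single j]
      · rw [Pi.single_eq_same, mul_one]
        exact fun h => hj ((map_eq_zero τ).1 h)
      · intro l _ hl
        rw [Pi.single_eq_of_ne hl, mul_zero]
      · intro h
        exact absurd (Finset.mem_univ j) h)
    exact (linearIndependent_finCons.1 h1).1
  have h1 := hind M τ v
  rw [linearIndependent_finCons] at h1
  have h2 : v ∈ Submodule.span M (Set.range fun i j => τ (e i j)) ↔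
      ∃ p : Fin 3 → M, ∀ j, v j = ∑ i, p i * τ (e i j) := by
    rw [Submodule.mem_span_range_iff_exists_fun]
    constructor
    · rintro ⟨p, hp⟩
      refine ⟨p, fun j => ?_⟩
      rw [← hp]
      simp
    · rintro ⟨p, hp⟩
      refine ⟨p, ?_⟩
      funext j
      rw [hp]
      simp
  rw [← h2]
  constructor
  · intro h3
    by_contra h4
    exact (h1.2 ⟨hτe, h4⟩) h3
  · intro h3
    by_contra h4
    exact (h1.1 h4).2 h3

/-- a quartic form without zeros on `x O + w` vanishes at `O` to the fourth order in the direction `w` -/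
theorem ln_four {M : Type} [Field M] [Algebra ℂ M] [IsAlgClosed M] {F : MvPolynomial (Fin 4) ℂ}
    (hF : F.IsHomogeneous 4) (O w : Fin 4 → M) (h : ∀ x : M, aeval (fun j => x * O j + w j) F ≠ 0) :
    aeval O F = 0 ∧ ∑ j, w j * aeval O (pderiv j F) = 0 := by
  classical
  have hinf : Infinite M := IsAlgClosed.instInfinite
  -- the constant
  obtain ⟨Q, hQ⟩ : ∃ Q : Polynomial M, ∀ x, Q.eval x = aeval (fun j => x * O j + w j) F := by
    refine ⟨aeval (fun j => Polynomial.X * Polynomial.C (O j) + Polynomial.C (w j)) F, fun x => ?_⟩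
    have h1 := (MvPolynomial.comp_aeval (R := ℂ)
      (fun j => Polynomial.X * Polynomial.C (O j) + Polynomial.C (w j))
      ((Polynomial.aeval x : Polynomial M →ₐ[M] M).restrictScalars ℂ))
    have h2 := congrArg (fun φ => φ F) h1
    simp only [AlgHom.comp_apply, AlgHom.coe_restrictScalars', Polynomial.coe_aeval_eq_eval] at h2
    rw [h2]
    simp only [Polynomial.eval_add, Polynomial.eval_mul, Polynomial.eval_X, Polynomial.eval_C]
  have hQdeg : Q.degree ≤ 0 := by
    by_contra h1
    obtain ⟨x, hx⟩ := IsAlgClosed.exists_root Q (fun h2 => h1 h2.le)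
    exact h x ((hQ x).symm.trans hx)
  have hconst : ∀ x, aeval (fun j => x * O j + w j) F = Q.coeff 0 := by
    intro x
    rw [← hQ, Polynomial.eq_C_of_degree_le_zero hQdeg]
    simp
  obtain ⟨P, hPdef⟩ : ∃ P : Polynomial M,
    P = aeval (fun j => Polynomial.C (O j) + Polynomial.X * Polynomial.C (w j)) F := ⟨_, rfl⟩
  have hP : ∀ (G : MvPolynomial (Fin 4) ℂ) (t : M),
      (aeval (fun j => Polynomial.C (O j) + Polynomial.X * Polynomial.C (w j)) G).eval t =
        aeval (fun j => O j + t * w j) G := by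
    intro G t
    have h1 := (MvPolynomial.comp_aeval (R := ℂ)
      (fun j => Polynomial.C (O j) + Polynomial.X * Polynomial.C (w j))
      ((Polynomial.aeval t : Polynomial M →ₐ[M] M).restrictScalars ℂ))
    have h2 := congrArg (fun φ => φ G) h1
    simp only [AlgHom.comp_apply, AlgHom.coe_restrictScalars', Polynomial.coe_aeval_eq_eval] at h2
    rw [h2]
    simp only [Polynomial.eval_add, Polynomial.eval_mul, Polynomial.eval_X, Polynomial.eval_C]
  have h1 : Polynomial.X * P = Polynomial.X * (Polynomial.C (Q.coeff 0) * Polynomial.X ^ 4) := by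
    refine Polynomial.funext fun t => ?_
    simp only [Polynomial.eval_mul, Polynomial.eval_X, Polynomial.eval_C, Polynomial.eval_pow]
    by_cases ht : t = 0
    · rw [ht, zero_mul, zero_mul]
    · congr 1
      rw [hPdef, hP, ← hconst t⁻¹]
      have h2 := Pool.Agent.DS.form_scale20 hF t (fun j => t⁻¹ * O j + w j)
      have h3 : (fun j => t * (t⁻¹ * O j + w j)) = fun j => O j + t * w j := by
        funext j
        rw [mul_add, ← mul_assoc, mul_inv_cancel₀ ht, one_mul]
      rw [h3] at h2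
      rw [h2]
      ring
  have h2 : P = Polynomial.C (Q.coeff 0) * Polynomial.X ^ 4 := mul_left_cancel₀ Polynomial.X_ne_zero h1
  constructor
  · have h3 := hP F 0
    rw [← hPdef, h2] at h3
    simp only [Polynomial.eval_mul, Polynomial.eval_C, Polynomial.eval_pow, Polynomial.eval_X] at h3
    simp only [zero_mul, add_zero] at h3
    rw [← h3]
    ring
  · have h3 := Pool.Agent.DS.chain ((Polynomial.derivative' (R := M)).restrictScalars ℂ)
      (fun j => Polynomial.C (O j) + Polynomial.X * Polynomial.C (w j)) F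
    have h4 : ∀ p : Polynomial M, ((Polynomial.derivative' (R := M)).restrictScalars ℂ) p =
      Polynomial.derivative p := fun p => rfl
    simp only [h4] at h3
    rw [← hPdef, h2] at h3
    have h5 := congrArg (Polynomial.eval 0) h3
    rw [Polynomial.eval_finsetSum] at h5
    simp only [Polynomial.eval_mul, hP] at h5
    simp only [zero_mul, add_zero] at h5
    have h6 : ∀ j, Polynomial.eval 0 (Polynomial.derivative (Polynomial.C (O j) + Polynomial.X *
        Polynomial.C (w j))) = w j := by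
      intro j
      simp
    simp only [h6] at h5
    rw [← h5]
    simp

theorem ln_pair {V K : Type} [Field K] [AddCommGroup V] [Module K V] {x y : V} :
    LinearIndependent K ![x, y] ↔ ∀ s t : K, s • x + t • y = 0 → s = 0 ∧ t = 0 :=
  LinearIndependent.pair_iff

/-- two linear forms in four variables have a zero of `F` on their common kernel, and a further vector -/
theorem ln_two {M : Type} [Field M] [Algebra ℂ M] [IsAlgClosed M] {F : MvPolynomial (Fin 4) ℂ}
    (hF : F.IsHomogeneous 4) (V : Fin 2 → Fin 4 → M) :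
    ∃ z w : Fin 4 → M, (∀ l, ∑ j, V l j * z j = 0) ∧ (∀ l, ∑ j, V l j * w j = 0) ∧
      LinearIndependent M ![z, w] ∧ aeval z F = 0 := by
  classical
  let Λ : (Fin 4 → M) →ₗ[M] (Fin 2 → M) := Matrix.mulVecLin (Matrix.of V)
  have hΛ : ∀ z l, Λ z l = ∑ j, V l j * z j := fun z l => rfl
  have hdim : 1 < Module.finrank M (LinearMap.ker Λ) := by
    have h1 := LinearMap.finrank_range_add_finrank_ker Λ
    have h2 : Module.finrank M (LinearMap.range Λ) ≤ 2 := by
      have h3 := Submodule.finrank_le (LinearMap.range Λ)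
      rw [Module.finrank_fintype_fun_eq_card] at h3
      simpa using h3
    rw [Module.finrank_fintype_fun_eq_card] at h1
    simp only [Fintype.card_fin] at h1
    omega
  have hnt : Nontrivial (LinearMap.ker Λ) := Module.nontrivial_of_finrank_pos (R := M) (by omega)
  obtain ⟨z₁, hz₁⟩ := exists_ne (0 : LinearMap.ker Λ)
  obtain ⟨z₂, hz₂⟩ := exists_linearIndependent_pair_of_one_lt_finrank hdim hz₁
  rw [ln_pair] at hz₂
  have hind : ∀ s t : M, (∀ j, s * (z₁ : Fin 4 → M) j + t * (z₂ : Fin 4 → M) j = 0) → s = 0 ∧ t = 0 := by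
    intro s t h
    refine hz₂ s t (Subtype.ext ?_)
    funext j
    exact h j
  have hk : ∀ z : LinearMap.ker Λ, ∀ l, ∑ j, V l j * (z : Fin 4 → M) j = 0 := by
    intro z l
    rw [← hΛ, z.2]
    rfl
  by_cases h : ∀ x : M, aeval (fun j => x * (z₁ : Fin 4 → M) j + (z₂ : Fin 4 → M) j) F ≠ 0
  · refine ⟨z₁, z₂, hk z₁, hk z₂, ?_, (ln_four hF _ _ h).1⟩
    rw [ln_pair]
    intro s t hst
    exact hind s t fun j => congrFun hst j
  · push Not at h
    obtain ⟨x, hx⟩ := h
    refine ⟨fun j => x * (z₁ : Fin 4 → M) j + (z₂ : Fin 4 → M) j, z₁, fun l => ?_, hk z₁, ?_, hx⟩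
    · have h1 : ∑ j, V l j * (x * (z₁ : Fin 4 → M) j + (z₂ : Fin 4 → M) j) =
          x * ∑ j, V l j * (z₁ : Fin 4 → M) j + ∑ j, V l j * (z₂ : Fin 4 → M) j := by
        rw [Finset.mul_sum, ← Finset.sum_add_distrib]
        exact Finset.sum_congr rfl fun j _ => by ring
      rw [h1, hk, hk, mul_zero, add_zero]
    · rw [ln_pair]
      intro s t hst
      have h1 := hind (s * x + t) s fun j => by
        have h2 := congrFun hst j
        simp only [Pi.add_apply, Pi.smul_apply, smul_eq_mul, Pi.zero_apply] at h2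
        linear_combination h2
      obtain ⟨h2, h3⟩ := h1
      rw [h3, zero_mul, zero_add] at h2
      exact ⟨h3, h2⟩

/-- three vectors orthogonal to two independent ones are dependent -/
theorem ln_three {M : Type} [Field M] (z w : Fin 4 → M) (hzw : LinearIndependent M ![z, w])
    (A : Fin 3 → Fin 4 → M) (hz : ∀ i, ∑ j, A i j * z j = 0) (hw : ∀ i, ∑ j, A i j * w j = 0) :
    ∃ a : Fin 3 → M, (∀ j, ∑ i, a i * A i j = 0) ∧ a ≠ 0 := by
  classical
  have hnot : ¬ LinearIndependent M A := by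
    intro hA
    let Λ : (Fin 4 → M) →ₗ[M] (Fin 3 → M) := Matrix.mulVecLin (Matrix.of A)
    have hΛ : ∀ z l, Λ z l = ∑ j, A l j * z j := fun z l => rfl
    have h1 := LinearMap.finrank_range_add_finrank_ker Λ
    have h2 : Module.finrank M (LinearMap.range Λ) = 3 := by
      have h3 : (Matrix.of A).rank = Fintype.card (Fin 3) := LinearIndependent.rank_matrix hA
      rw [Fintype.card_fin] at h3
      exact h3
    rw [Module.finrank_fintype_fun_eq_card, h2] at h1
    simp only [Fintype.card_fin] at h1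
    have h4 : Module.finrank M (LinearMap.ker Λ) = 1 := by omega
    have hzk : z ∈ LinearMap.ker Λ := by
      rw [LinearMap.mem_ker]
      funext l
      rw [hΛ, hz]
      rfl
    have hwk : w ∈ LinearMap.ker Λ := by
      rw [LinearMap.mem_ker]
      funext l
      rw [hΛ, hw]
      rfl
    have h5 : LinearIndependent M ![(⟨z, hzk⟩ : LinearMap.ker Λ), ⟨w, hwk⟩] := by
      rw [ln_pair]
      intro s t hst
      rw [ln_pair] at hzw
      exact hzw s t (congrArg Subtype.val hst)
    have h6 := h5.fintype_card_le_finrank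
    rw [h4, Fintype.card_fin] at h6
    omega
  obtain ⟨a, ha, i, hi⟩ := Fintype.not_linearIndependent_iff.1 hnot
  refine ⟨a, fun j => ?_, fun h => hi (congrFun h i)⟩
  have h1 := congrFun ha j
  rw [Finset.sum_apply] at h1
  simpa using h1

/-- two independent complex vectors in the kernel of a complex form `t` and of a form `u` with proportional values
on the kernel of `t` -/
theorem ln_kernel {k : Type} [Field k] [Algebra ℂ k] (t : Fin 4 → ℂ) (ht : t ≠ 0) (U : Fin 4 → k)
    (h : ∀ x x' : Fin 4 → ℂ, ∑ j, t j * x j = 0 → ∑ j, t j * x' j = 0 →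
      ∑ j, U j * algebraMap ℂ k (x' j) ≠ 0 → ∃ r : ℂ, ∑ j, U j * algebraMap ℂ k (x j) =
        algebraMap ℂ k r * ∑ j, U j * algebraMap ℂ k (x' j)) :
    ∃ x y : Fin 4 → ℂ, LinearIndependent ℂ ![x, y] ∧ ∑ j, U j * algebraMap ℂ k (x j) = 0 ∧
      ∑ j, U j * algebraMap ℂ k (y j) = 0 := by
  classical
  obtain ⟨i₀, hi₀⟩ := Function.ne_iff.1 ht
  rw [Pi.zero_apply] at hi₀
  obtain ⟨X, hX⟩ : ∃ X : Fin 3 → Fin 4 → ℂ, ∀ a j, X a j = (if j = i₀.succAbove a then t i₀ else 0) -
    (if j = i₀ then t (i₀.succAbove a) else 0) := ⟨_, fun _ _ => rfl⟩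
  have hX1 : ∀ a b, X a (i₀.succAbove b) = if b = a then t i₀ else 0 := by
    intro a b
    rw [hX, if_neg (Fin.succAbove_ne i₀ b), sub_zero]
    by_cases hab : b = a
    · rw [if_pos hab, hab, if_pos rfl]
    · rw [if_neg hab, if_neg fun h1 => hab (Fin.succAbove_right_injective h1)]
  have hX0 : ∀ a, ∑ j, t j * X a j = 0 := by
    intro a
    simp only [hX, mul_sub, mul_ite, mul_zero, Finset.sum_sub_distrib, Finset.sum_ite_eq',
      Finset.mem_univ, if_true]
    ring
  obtain ⟨a₀, ha₀⟩ : ∃ a₀, ∀ a, ∃ r : ℂ, ∑ j, U j * algebraMap ℂ k (X a j) =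
      algebraMap ℂ k r * ∑ j, U j * algebraMap ℂ k (X a₀ j) := by
    by_cases hall : ∀ a, ∑ j, U j * algebraMap ℂ k (X a j) = 0
    · exact ⟨0, fun a => ⟨0, by rw [hall, hall, mul_zero]⟩⟩
    · push Not at hall
      obtain ⟨a₀, ha₀⟩ := hall
      exact ⟨a₀, fun a => h _ _ (hX0 a) (hX0 a₀) ha₀⟩
  choose r hr using ha₀
  obtain ⟨Y, hY⟩ : ∃ Y : Fin 2 → Fin 4 → ℂ, ∀ c j, Y c j = X (a₀.succAbove c) j -
    r (a₀.succAbove c) * X a₀ j := ⟨_, fun _ _ => rfl⟩
  have hY0 : ∀ c, ∑ j, U j * algebraMap ℂ k (Y c j) = 0 := by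
    intro c
    have h1 : ∑ j, U j * algebraMap ℂ k (Y c j) = ∑ j, U j * algebraMap ℂ k (X (a₀.succAbove c) j) -
        algebraMap ℂ k (r (a₀.succAbove c)) * ∑ j, U j * algebraMap ℂ k (X a₀ j) := by
      rw [Finset.mul_sum, ← Finset.sum_sub_distrib]
      refine Finset.sum_congr rfl fun j _ => ?_
      rw [hY, map_sub, map_mul]
      ring
    rw [h1, hr, sub_self]
  have hY1 : ∀ c b, Y c (i₀.succAbove (a₀.succAbove b)) = if b = c then t i₀ else 0 := by
    intro c b
    rw [hY, hX1, hX1, if_neg (Fin.succAbove_ne a₀ b), mul_zero, sub_zero]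
    by_cases hbc : b = c
    · rw [if_pos hbc, hbc, if_pos rfl]
    · rw [if_neg hbc, if_neg fun h1 => hbc (Fin.succAbove_right_injective h1)]
  refine ⟨Y 0, Y 1, ?_, hY0 0, hY0 1⟩
  rw [ln_pair]
  intro s u hsu
  have h1 := congrFun hsu (i₀.succAbove (a₀.succAbove 0))
  have h2 := congrFun hsu (i₀.succAbove (a₀.succAbove 1))
  rw [Pi.add_apply, Pi.smul_apply, Pi.smul_apply, smul_eq_mul, smul_eq_mul, Pi.zero_apply, hY1, hY1,
    if_pos rfl, if_neg (by decide), mul_zero, add_zero] at h1
  rw [Pi.add_apply, Pi.smul_apply, Pi.smul_apply, smul_eq_mul, smul_eq_mul, Pi.zero_apply, hY1, hY1,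
    if_neg (by decide), if_pos rfl, mul_zero, zero_add] at h2
  exact ⟨(mul_eq_zero.1 h1).resolve_right hi₀, (mul_eq_zero.1 h2).resolve_right hi₀⟩

variable {k M : Type} [Field k] [Algebra ℂ k] [IsAlgClosed k] [Field M] [Algebra ℂ M] [IsAlgClosed M]

/-- By `rat` for `τ 0` and `τ 1` every zero of `F` on `m = τ₀ Π ∩ τ₁ Π` (at least two-dimensional) is proportional to a
complex point (`hτ`; normalise a coordinate to `1`). `F` has a zero `O` on `m`. If it has two independent zeros on `m`,
these are the two complex vectors. Otherwise `m = ⟨O, w⟩`, `F (s O + t w) = t⁴ F (w)`, `F (w) ≠ 0` (else `w` is another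
zero), so `∇F (O) · w = 0`, `∇F(O) · O = 0`, `t := ∇F (O) ≠ 0` complex; `u` the form of `Π`: `τ₀ u`, `τ₁ u`, `t` are
dependent (all vanish on `m`), `τ₁ u = α τ₀ u + β t`; for complex `x, x'` with `t · x = 0`, `t · x' = 0` the ratio of
`u · x` and `u · x'` is in `ℂ` by `hτ`, so `u` vanishes on a two-dimensional subspace of the complex vectors with
`t · x = 0`. (If `dim m = 3` then `τ₀ Π = τ₁ Π` is complex, against `Moving`.) -/
theorem exists_line {F : MvPolynomial (Fin 4) ℂ} (hF : F.IsHomogeneous 4) (hs : Pool.Agent.DS.Smooth F)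
    (hl : NoLine F) (T : k) (hT : Base T) (τ : Fin 2 → k →ₐ[ℂ] M)
    (hτ : ∀ a b : k, τ 0 a = τ 1 b → ∃ r : ℂ, a = algebraMap ℂ k r)
    (e : Fin 3 → Fin 4 → k) (he : LinearIndependent k e) (hm : Moving e)
    (hno : ∀ (z : Fin 4 → M) (p : Fin 2 → Fin 3 → M), z ≠ 0 → (∀ l j, z j = ∑ i, p l i * τ l (e i j)) →
      aeval z F = 0 → ¬ Gen z) :
    ∃ x y : Fin 4 → ℂ, LinearIndependent ℂ ![x, y] ∧
      (∃ p : Fin 3 → k, ∀ j, algebraMap ℂ k (x j) = ∑ i, p i * e i j) ∧
      ∃ p : Fin 3 → k, ∀ j, algebraMap ℂ k (y j) = ∑ i, p i * e i j := by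
  classical
  obtain ⟨U, hU0, hU⟩ := ln_form e he
  have hUk : ∀ v : Fin 4 → k, ∑ j, U j * v j = 0 → ∃ p : Fin 3 → k, ∀ j, v j = ∑ i, p i * e i j :=
    fun v hv => (hU k (RingHom.id k) v).1 hv
  have hUM : ∀ (l : Fin 2) (v : Fin 4 → M), ∑ j, τ l (U j) * v j = 0 →
      ∃ p : Fin 3 → M, ∀ j, v j = ∑ i, p i * τ l (e i j) := fun l v hv =>
    (hU M (τ l : k →+* M) v).1 hv
  have hτC : ∀ (l : Fin 2) (r : ℂ), τ l (algebraMap ℂ k r) = algebraMap ℂ M r := fun l r => (τ l).commutes r
  -- it is enough to find two complex vectors with `U · x = 0`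
  suffices hsuff : ∃ x y : Fin 4 → ℂ, LinearIndependent ℂ ![x, y] ∧
      ∑ j, U j * algebraMap ℂ k (x j) = 0 ∧ ∑ j, U j * algebraMap ℂ k (y j) = 0 by
    obtain ⟨x, y, hxy, hx, hy⟩ := hsuff
    exact ⟨x, y, hxy, hUk _ hx, hUk _ hy⟩
  -- `U` is not proportional to a complex vector
  have hUm : ∀ (κ : k) (r : Fin 4 → ℂ), (∀ j, U j = κ * algebraMap ℂ k (r j)) → False := by
    intro κ r hr
    have hκ : κ ≠ 0 := by
      intro h
      apply hU0
      funext j
      rw [hr, h, zero_mul]
      rfl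
    have h1 : r = 0 := by
      refine hm r fun i => ?_
      have h2 : ∑ j, U j * e i j = 0 := (hU k (RingHom.id k) (e i)).2 ⟨Pi.single i 1, fun j => by
        rw [Finset.sum_eq_single i]
        · rw [Pi.single_eq_same, one_mul]
          rfl
        · intro a _ ha
          rw [Pi.single_eq_of_ne ha, zero_mul]
        · intro h
          exact absurd (Finset.mem_univ i) h⟩
      have h3 : ∑ j, U j * e i j = κ * ∑ j, algebraMap ℂ k (r j) * e i j := by
        rw [Finset.mul_sum]
        exact Finset.sum_congr rfl fun j _ => by rw [hr]; ring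
      rw [h3] at h2
      exact (mul_eq_zero.1 h2).resolve_left hκ
    apply hU0
    funext j
    rw [hr, h1]
    simp
  -- the zeros of `F` on the line are complex
  have hcx : ∀ z : Fin 4 → M, z ≠ 0 → (∀ l, ∑ j, τ l (U j) * z j = 0) → aeval z F = 0 →
      ∃ (c : M) (r : Fin 4 → ℂ), c ≠ 0 ∧ (∀ j, z j = c * algebraMap ℂ M (r j)) ∧
        ∑ j, U j * algebraMap ℂ k (r j) = 0 := by
    intro z hz0 hz hFz
    have h1 := fun l => hUM l z (hz l)
    choose p hp using h1
    have hg : ¬ Gen z := hno z p hz0 (fun l j => hp l j) hFz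
    obtain ⟨c0, x0, hc0, hx0⟩ := rat hF hl T hT (τ 0) e he hm z hz0 (p 0) (hp 0) hFz hg
    obtain ⟨c1, x1, hc1, hx1⟩ := rat hF hl T hT (τ 1) e he hm z hz0 (p 1) (hp 1) hFz hg
    obtain ⟨i, hi⟩ := Function.ne_iff.1 hz0
    rw [Pi.zero_apply] at hi
    have hx0i : τ 0 (x0 i) ≠ 0 := fun h => hi (by rw [hx0, h, mul_zero])
    have hx1i : τ 1 (x1 i) ≠ 0 := fun h => hi (by rw [hx1, h, mul_zero])
    have h2 : ∀ j, ∃ r : ℂ, x0 j / x0 i = algebraMap ℂ k r := by
      intro j
      refine hτ (x0 j / x0 i) (x1 j / x1 i) ?_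
      rw [map_div₀, map_div₀, div_eq_div_iff hx0i hx1i]
      have h3 : z j * z i = z i * z j := mul_comm _ _
      have h4 : c0 * c1 * (τ 0 (x0 j) * τ 1 (x1 i)) = c0 * c1 * (τ 1 (x1 j) * τ 0 (x0 i)) := by
        have h5 : (c0 * τ 0 (x0 j)) * (c1 * τ 1 (x1 i)) = (c1 * τ 1 (x1 j)) * (c0 * τ 0 (x0 i)) := by
          rw [← hx0, ← hx1, ← hx1, ← hx0]
        linear_combination h5
      exact mul_left_cancel₀ (mul_ne_zero hc0 hc1) h4
    choose r hr using h2
    have hzr : ∀ j, z j = z i * algebraMap ℂ M (r j) := by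
      intro j
      rw [← hτC 0, ← hr, map_div₀, hx0 j, hx0 i]
      field_simp
    refine ⟨z i, r, hi, hzr, ?_⟩
    have h3 := hz 0
    have h4 : ∑ j, τ 0 (U j) * z j = z i * τ 0 (∑ j, U j * algebraMap ℂ k (r j)) := by
      rw [map_sum, Finset.mul_sum]
      refine Finset.sum_congr rfl fun j _ => ?_
      rw [hzr, map_mul, hτC]
      ring
    rw [h4] at h3
    exact (map_eq_zero _).1 ((mul_eq_zero.1 h3).resolve_left hi)
  obtain ⟨z, w, hz, hw, hzw, hFz⟩ := ln_two hF fun l j => τ l (U j)
  rw [ln_pair] at hzw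
  have hz0 : z ≠ 0 := by
    intro h
    have h1 := hzw 1 0 (by rw [h]; simp)
    exact one_ne_zero h1.1
  obtain ⟨c, O, hc, hzO, hUO⟩ := hcx z hz0 hz hFz
  by_cases hsec : ∃ x : M, aeval (fun j => x * z j + w j) F = 0
  · -- two independent zeros
    obtain ⟨x, hx⟩ := hsec
    have hz'0 : (fun j => x * z j + w j) ≠ 0 := by
      intro h
      have h1 := hzw x 1 (by
        rw [one_smul]
        funext j
        exact congrFun h j)
      exact one_ne_zero h1.2
    obtain ⟨c', O', hc', hzO', hUO'⟩ := hcx _ hz'0 (fun l => by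
      have h1 : ∑ j, τ l (U j) * (x * z j + w j) = x * ∑ j, τ l (U j) * z j + ∑ j, τ l (U j) * w j := by
        rw [Finset.mul_sum, ← Finset.sum_add_distrib]
        exact Finset.sum_congr rfl fun j _ => by ring
      rw [h1, hz, hw, mul_zero, add_zero]) hx
    refine ⟨O, O', ?_, hUO, hUO'⟩
    rw [ln_pair]
    intro s t hst
    have h1 : ∀ j, algebraMap ℂ M s * algebraMap ℂ M (O j) + algebraMap ℂ M t * algebraMap ℂ M (O' j) = 0 := by
      intro j
      rw [← map_mul, ← map_mul, ← map_add]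
      have h2 := congrFun hst j
      simp only [Pi.add_apply, Pi.smul_apply, smul_eq_mul, Pi.zero_apply] at h2
      rw [h2, map_zero]
    have h2 := hzw (c' * algebraMap ℂ M s + c * algebraMap ℂ M t * x) (c * algebraMap ℂ M t) (by
      funext j
      simp only [Pi.add_apply, Pi.smul_apply, smul_eq_mul, Pi.zero_apply]
      have h3 := hzO j
      have h4 := hzO' j
      have h5 := h1 j
      linear_combination (c' * algebraMap ℂ M s) * h3 + (c * algebraMap ℂ M t) * h4 + c * c' * h5)
    have h3 : algebraMap ℂ M t = 0 := (mul_eq_zero.1 h2.2).resolve_left hc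
    have h4 : algebraMap ℂ M s = 0 := by
      have h5 := h2.1
      rw [h3, mul_zero, zero_mul, add_zero] at h5
      exact (mul_eq_zero.1 h5).resolve_left hc'
    exact ⟨(map_eq_zero _).1 h4, (map_eq_zero _).1 h3⟩
  · -- a fourfold zero
    push Not at hsec
    obtain ⟨-, hgw⟩ := ln_four hF z w hsec
    obtain ⟨t, ht⟩ : ∃ t : Fin 4 → ℂ, ∀ j, t j = aeval O (pderiv j F) := ⟨_, fun j => rfl⟩
    have hzO' : z = fun j => c * (algebraMap ℂ M (O j)) := funext hzO
    have halg : ∀ G : MvPolynomial (Fin 4) ℂ, aeval (fun j => algebraMap ℂ M (O j)) G =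
        algebraMap ℂ M (aeval O G) := by
      intro G
      exact MvPolynomial.aeval_algebraMap_apply M O G
    have hgrad : ∀ j, aeval z (pderiv j F) = c ^ 3 * algebraMap ℂ M (t j) := by
      intro j
      rw [hzO', Pool.Agent.DS.form_scale20 (hF.pderiv) c (fun j => algebraMap ℂ M (O j)), halg, ht]
    have hO0 : O ≠ 0 := by
      intro h
      apply hz0
      rw [hzO', h]
      funext j
      simp
    have ht0 : t ≠ 0 := by
      intro h
      apply hO0
      refine hs O fun j => ?_
      rw [← ht, h]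
      rfl
    have htw : ∑ j, algebraMap ℂ M (t j) * w j = 0 := by
      have h1 : ∑ j, w j * aeval z (pderiv j F) = c ^ 3 * ∑ j, algebraMap ℂ M (t j) * w j := by
        rw [Finset.mul_sum]
        refine Finset.sum_congr rfl fun j _ => ?_
        rw [hgrad]
        ring
      rw [h1] at hgw
      exact (mul_eq_zero.1 hgw).resolve_left (pow_ne_zero 3 hc)
    have hFO : aeval O F = 0 := by
      have h1 := Pool.Agent.DS.form_scale20 hF c (fun j => algebraMap ℂ M (O j))
      rw [← hzO', hFz, halg] at h1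
      exact (map_eq_zero (algebraMap ℂ M)).1 ((mul_eq_zero.1 h1.symm).resolve_left (pow_ne_zero 4 hc))
    have htO : ∑ j, t j * O j = 0 := by
      have h1 := congrArg (aeval O) hF.sum_X_mul_pderiv
      rw [map_sum, map_nsmul, hFO, smul_zero] at h1
      rw [← h1]
      refine Finset.sum_congr rfl fun j _ => ?_
      rw [map_mul, aeval_X, ht, mul_comm]
    have htz : ∑ j, algebraMap ℂ M (t j) * z j = 0 := by
      have h1 : ∑ j, algebraMap ℂ M (t j) * z j = c * algebraMap ℂ M (∑ j, t j * O j) := by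
        rw [map_sum, Finset.mul_sum]
        refine Finset.sum_congr rfl fun j _ => ?_
        rw [hzO, map_mul]
        ring
      rw [h1, htO, map_zero, mul_zero]
    -- the relation
    obtain ⟨a, ha, ha0⟩ := ln_three z w (ln_pair.2 hzw)
      (![fun j => τ 0 (U j), fun j => τ 1 (U j), fun j => algebraMap ℂ M (t j)]) (by
        intro i
        fin_cases i
        · exact hz 0
        · exact hz 1
        · exact htz) (by
        intro i
        fin_cases i
        · exact hw 0
        · exact hw 1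
        · exact htw)
    have hrel : ∀ j, a 0 * τ 0 (U j) + a 1 * τ 1 (U j) + a 2 * algebraMap ℂ M (t j) = 0 := by
      intro j
      have h1 := ha j
      rw [Fin.sum_univ_three] at h1
      exact h1
    obtain ⟨j₁, hj₁⟩ := Function.ne_iff.1 ht0
    rw [Pi.zero_apply] at hj₁
    have hj₁M : algebraMap ℂ M (t j₁) ≠ 0 := fun h => hj₁ ((map_eq_zero _).1 h)
    have hj₁k : algebraMap ℂ k (t j₁) ≠ 0 := fun h => hj₁ ((map_eq_zero _).1 h)
    -- one form alone
    have hone : ∀ (l : Fin 2) (b g : M), b ≠ 0 → (∀ j, b * τ l (U j) + g * algebraMap ℂ M (t j) = 0) →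
        False := by
      intro l b g hb h
      refine hUm (U j₁ / algebraMap ℂ k (t j₁)) t fun j => ?_
      have h1 : U j * algebraMap ℂ k (t j₁) = U j₁ * algebraMap ℂ k (t j) := by
        apply (τ l : k →+* M).injective
        show τ l (U j * algebraMap ℂ k (t j₁)) = τ l (U j₁ * algebraMap ℂ k (t j))
        rw [map_mul, map_mul, hτC, hτC]
        have h2 := h j
        have h3 := h j₁
        have h4 : b * (τ l (U j) * algebraMap ℂ M (t j₁)) = b * (τ l (U j₁) * algebraMap ℂ M (t j)) := by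
          linear_combination algebraMap ℂ M (t j₁) * h2 - algebraMap ℂ M (t j) * h3
        exact mul_left_cancel₀ hb h4
      field_simp
      linear_combination h1
    have hb : a 1 ≠ 0 := by
      intro h
      by_cases ha0' : a 0 = 0
      · have h1 := hrel j₁
        rw [h, ha0', zero_mul, zero_mul, zero_add, zero_add] at h1
        have h2 := (mul_eq_zero.1 h1).resolve_right hj₁M
        apply ha0
        funext i
        fin_cases i
        · exact ha0'
        · exact h
        · exact h2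
      · refine hone 0 (a 0) (a 2) ha0' fun j => ?_
        have h1 := hrel j
        rw [h, zero_mul, add_zero] at h1
        exact h1
    have hb0 : a 0 ≠ 0 := by
      intro h
      refine hone 1 (a 1) (a 2) hb fun j => ?_
      have h1 := hrel j
      rw [h, zero_mul, zero_add] at h1
      exact h1
    refine ln_kernel t ht0 U fun x x' hx hx' hux' => ?_
    have hval : ∀ x : Fin 4 → ℂ, ∑ j, t j * x j = 0 →
        a 0 * τ 0 (∑ j, U j * algebraMap ℂ k (x j)) + a 1 * τ 1 (∑ j, U j * algebraMap ℂ k (x j)) = 0 := by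
      intro x hx
      have h1 : ∑ j, (a 0 * τ 0 (U j) + a 1 * τ 1 (U j) + a 2 * algebraMap ℂ M (t j)) *
          algebraMap ℂ M (x j) = 0 := Finset.sum_eq_zero fun j _ => by rw [hrel, zero_mul]
      have h2 : ∑ j, (a 0 * τ 0 (U j) + a 1 * τ 1 (U j) + a 2 * algebraMap ℂ M (t j)) *
          algebraMap ℂ M (x j) = a 0 * τ 0 (∑ j, U j * algebraMap ℂ k (x j)) +
            a 1 * τ 1 (∑ j, U j * algebraMap ℂ k (x j)) + a 2 * algebraMap ℂ M (∑ j, t j * x j) := by
        rw [map_sum, map_sum, map_sum, Finset.mul_sum, Finset.mul_sum, Finset.mul_sum,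
          ← Finset.sum_add_distrib, ← Finset.sum_add_distrib]
        refine Finset.sum_congr rfl fun j _ => ?_
        rw [map_mul, map_mul, map_mul, hτC, hτC]
        ring
      rw [h2, hx, map_zero, mul_zero, add_zero] at h1
      exact h1
    obtain ⟨A, hA⟩ : ∃ A : k, A = ∑ j, U j * algebraMap ℂ k (x j) := ⟨_, rfl⟩
    obtain ⟨B, hB⟩ : ∃ B : k, B = ∑ j, U j * algebraMap ℂ k (x' j) := ⟨_, rfl⟩
    have hvA := hval x hx
    have hvB := hval x' hx'
    rw [← hA] at hvA
    rw [← hB] at hvB hux'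
    rw [← hA, ← hB]
    have h0 : τ 0 B ≠ 0 := fun h => hux' ((map_eq_zero _).1 h)
    have h1 : τ 1 B ≠ 0 := fun h => hux' ((map_eq_zero _).1 h)
    obtain ⟨r, hr⟩ := hτ (A / B) (A / B) (by
      rw [map_div₀, map_div₀, div_eq_div_iff h0 h1]
      have h2 : a 0 * (τ 0 A * τ 1 B) = a 0 * (τ 1 A * τ 0 B) := by
        linear_combination τ 1 B * hvA - τ 1 A * hvB
      exact mul_left_cancel₀ hb0 h2)
    exact ⟨r, by rw [← hr, div_mul_cancel₀ _ hux']⟩

end Pool.Agent.QX
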