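import Pool.Agent.Lib_MP_1209e6_qx.Defs

/-! Auxiliary facts for the assembly. -/

set_option autoImplicit false

open MvPolynomial

noncomputable section

namespace Pool.Agent.QX

/-- `M` of transcendence degree `2` is algebraic over any field with two independent elements -/
theorem alg_of_two {K M : Type} [Field K] [Algebra ℂ K] [Field M] [Algebra ℂ M] [Algebra K M]
    [IsScalarTower ℂ K M] (x : Fin 2 → M) (hx : AlgebraicIndependent ℂ x)
    (halg : ∀ a : M, IsAlgebraic (IntermediateField.adjoin ℂ (Set.range x)) a) (y : Fin 2 → K)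
    (hy : AlgebraicIndependent ℂ fun i => algebraMap K M (y i)) : Algebra.IsAlgebraic K M := by
  have h1 : IsTranscendenceBasis ℂ x := hx.isTranscendenceBasis_iff_isAlgebraic.2
    ⟨fun a => IntermediateField.isAlgebraic_adjoin_iff.1 (halg a)⟩
  have h2 : IsTranscendenceBasis ℂ fun i => algebraMap K M (y i) :=
    hy.isTranscendenceBasis_of_trdeg_le_of_finite h1.cardinalMk_eq_trdeg.ge
  have h3 := h2.isAlgebraic_field
  constructor
  intro a
  obtain ⟨p, hp0, hp⟩ := h3.isAlgebraic a
  have hle : IntermediateField.adjoin ℂ (Set.range fun i => algebraMap K M (y i)) ≤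
      (IsScalarTower.toAlgHom ℂ K M).fieldRange := by
    rw [IntermediateField.adjoin_le_iff]
    rintro _ ⟨i, rfl⟩
    exact ⟨y i, rfl⟩
  let j : IntermediateField.adjoin ℂ (Set.range fun i => algebraMap K M (y i)) →ₐ[ℂ] K :=
    (AlgEquiv.ofInjectiveField (IsScalarTower.toAlgHom ℂ K M)).symm.toAlgHom.comp
      (IntermediateField.inclusion hle)
  have hj : ∀ u, algebraMap K M (j u) = (u : M) := by
    intro u
    have := (AlgEquiv.ofInjectiveField (IsScalarTower.toAlgHom ℂ K M)).apply_symm_apply
      (IntermediateField.inclusion hle u)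
    exact congrArg Subtype.val this
  refine ⟨p.map (j : _ →+* K), (Polynomial.map_ne_zero_iff j.toRingHom.injective).2 hp0, ?_⟩
  rw [Polynomial.aeval_def, Polynomial.eval₂_map]
  rw [Polynomial.aeval_def] at hp
  rw [← hp]
  congr 1
  ext u
  exact hj u

/-- elements algebraic over a subfield of `τ k` are in `τ k` -/
theorem mem_range_of_algebraic {k M : Type} [Field k] [Algebra ℂ k] [IsAlgClosed k] [Field M]
    [Algebra ℂ M] (τ : k →ₐ[ℂ] M) (a : M) {k' : Type} [Field k'] [Algebra k' M]
    (hk : ∀ u : k', algebraMap k' M u ∈ Set.range τ) (ha : IsAlgebraic k' a) : a ∈ Set.range τ := by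
  obtain ⟨p, hp0, hp⟩ := ha
  let _ : Algebra k M := τ.toRingHom.toAlgebra
  have h1 : IsAlgebraic k a := by
    have hle : ∀ u : k', ∃ v : k, algebraMap k M v = algebraMap k' M u := hk
    choose j hj using hle
    let jj : k' →+* k :=
      { toFun := j
        map_one' := τ.toRingHom.injective (by
          have := hj 1
          rw [map_one] at this
          exact this.trans (map_one τ).symm)
        map_mul' := fun u v => τ.toRingHom.injective (by
          have h2 : τ (j u * j v) = algebraMap k' M (u * v) := by
            rw [map_mul, map_mul]; exact congrArg₂ _ (hj u) (hj v)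
          exact (hj (u * v)).trans h2.symm)
        map_zero' := τ.toRingHom.injective (by
          have := hj 0
          rw [map_zero] at this
          exact this.trans (map_zero τ).symm)
        map_add' := fun u v => τ.toRingHom.injective (by
          have h2 : τ (j u + j v) = algebraMap k' M (u + v) := by
            rw [map_add, map_add]; exact congrArg₂ _ (hj u) (hj v)
          exact (hj (u + v)).trans h2.symm) }
    refine ⟨p.map jj, (Polynomial.map_ne_zero_iff jj.injective).2 hp0, ?_⟩
    rw [Polynomial.aeval_def, Polynomial.eval₂_map]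
    rw [Polynomial.aeval_def] at hp
    rw [← hp]
    congr 1
    ext u
    exact hj u
  have h2 : Algebra.IsAlgebraic k (IntermediateField.adjoin k {a}) :=
    (IntermediateField.isAlgebraic_adjoin_iff_isAlgebraic k M).2 fun x hx => by
      rw [Set.mem_singleton_iff] at hx
      rw [hx]
      exact h1
  have h3 := IntermediateField.eq_bot_of_isAlgClosed_of_isAlgebraic (IntermediateField.adjoin k {a})
  have h4 : a ∈ IntermediateField.adjoin k {a} := IntermediateField.subset_adjoin k _ rfl
  rw [h3] at h4
  obtain ⟨y, hy⟩ := h4
  exact ⟨y, hy⟩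

end Pool.Agent.QX
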