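import Pool.Agent.Lib_MP_1209e6_qx.Family
import Pool.Agent.Lib_MP_1209e6_qx.Copies
import Pool.Agent.Lib_MP_1209e6_qx.Line
import Pool.Agent.Lib_MP_1209e6_qx.Pencil
import Pool.Agent.Lib_MP_1209e6_qx.Cover
import Pool.Agent.Lib_MP_1209e6_qx.Emb
import Pool.Agent.Lib_MP_1209e6_qx.MainAux
import Pool.Agent.Lib_MP_1209e6_nt.End
import Pool.Agent.Lib_MP_1209e6_k3.Special

/-! PIECE MAIN: every smooth quartic surface without lines. -/

set_option autoImplicit false

open MvPolynomial Pool.Agent.Campana Pool.Agent.CampanaFlow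

noncomputable section

namespace Pool.Agent.QX

/-- an element algebraic over a field of elements of the algebraically closed field `τ k` is in `τ k` -/
theorem main_mem {k L M : Type} [Field k] [IsAlgClosed k] [Field L] [Field M] [Algebra ℂ L]
    [Algebra L M] (τ : k →+* M) (k' : IntermediateField ℂ L)
    (hk : ∀ u ∈ k', algebraMap L M u ∈ Set.range τ) (a : L) (ha : IsAlgebraic k' a) :
    algebraMap L M a ∈ Set.range τ := by
  obtain ⟨P, hP, hPa⟩ := ha
  let _ : Algebra k M := τ.toAlgebra
  choose s hs using fun u : k' => hk u u.2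
  have hinj : Function.Injective τ := τ.injective
  let σ : k' →+* k :=
    { toFun := s
      map_one' := hinj (by rw [hs, map_one]; simp)
      map_mul' := fun u v => hinj (by rw [hs, map_mul, hs, hs]; simp)
      map_zero' := hinj (by rw [hs, map_zero]; simp)
      map_add' := fun u v => hinj (by rw [hs, map_add, hs, hs]; simp) }
  have hint : IsAlgebraic k (algebraMap L M a) := by
    refine ⟨P.map σ, ?_, ?_⟩
    · rw [Ne, Polynomial.map_eq_zero_iff]
      · exact hP
      · exact σ.injective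
    · rw [Polynomial.aeval_def, Polynomial.eval₂_map]
      rw [Polynomial.aeval_def] at hPa
      have h1 := congrArg (algebraMap L M) hPa
      rw [Polynomial.hom_eval₂, map_zero] at h1
      rw [← h1]
      congr 1
      exact RingHom.ext fun c => hs c
  have h1 := IsAlgClosed.degree_eq_one_of_irreducible k (minpoly.irreducible hint.isIntegral)
  exact minpoly.mem_range_of_degree_eq_one k _ h1

/-- a form at a multiple of a point -/
theorem main_smul {M : Type} [Field M] [Algebra ℂ M] {n d : ℕ} {F : MvPolynomial (Fin n) ℂ}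
    (hF : F.IsHomogeneous d) (c : M) (z : Fin n → M) :
    aeval (fun j => c * z j) F = c ^ d * aeval z F := by
  rw [aeval_def, aeval_def, eval₂_eq', eval₂_eq', Finset.mul_sum]
  refine Finset.sum_congr rfl fun m hm => ?_
  have h1 : ∑ i, m i = d := by
    have h2 := hF (mem_support_iff.1 hm)
    rw [← h2, Finsupp.weight_apply, Finsupp.sum_fintype _ _ (by simp)]
    simp
  simp only [mul_pow, Finset.prod_mul_distrib, Finset.prod_pow_eq_pow_sum]
  rw [h1]
  ring

/-- the two members of the family meet in a generic point -/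
theorem main_point {F : MvPolynomial (Fin 4) ℂ} (hF : F.IsHomogeneous 4)
    (hs : Pool.Agent.DS.Smooth F) (hl : NoLine F) {k M : Type} [Field k] [Algebra ℂ k] [IsAlgClosed k]
    [Field M] [Algebra ℂ M] [IsAlgClosed M] (T : k) (hT : Base T) (τ : Fin 2 → k →ₐ[ℂ] M)
    (hτ : ∀ a b : k, τ 0 a = τ 1 b → ∃ r : ℂ, a = algebraMap ℂ k r)
    (e : Fin 3 → Fin 4 → k) (c : Fin 3 → k) (g : k) (b : Fin 2 → k)
    (A : MvPolynomial (Fin 3) k) (hS : Sect F e c g b A) (hm : Moving e) :
    ∃ (w : Fin 3 → M) (p : Fin 2 → Fin 3 → M),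
      (∀ l j, (Fin.cons 1 w : Fin 4 → M) j = ∑ i, p l i * τ l (e i j)) ∧
      aeval (Fin.cons 1 w : Fin 4 → M) F = 0 ∧ ∃ i j, AlgebraicIndependent ℂ ![w i, w j] := by
  by_contra hcon
  obtain ⟨x, y, hxy, ⟨p, hp⟩, ⟨q, hq⟩⟩ := exists_line hF hs hl T hT τ hτ e hS.ind hm (by
    intro z p hz0 hz hFz hg
    apply hcon
    obtain ⟨hz0', i, j, hij⟩ := norm_gen hF hs z hFz hg
    have hcons : (Fin.cons 1 (fun i => z i.succ / z 0) : Fin 4 → M) = fun j => (z 0)⁻¹ * z j := by
      funext j
      refine Fin.cases ?_ (fun i => ?_) j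
      · rw [Fin.cons_zero, inv_mul_cancel₀ hz0']
      · rw [Fin.cons_succ, div_eq_inv_mul]
    refine ⟨fun i => z i.succ / z 0, fun l i => (z 0)⁻¹ * p l i, ?_, ?_, i, j, hij⟩
    · intro l j
      rw [hcons]
      show (z 0)⁻¹ * z j = _
      rw [hz l j, Finset.mul_sum]
      refine Finset.sum_congr rfl fun i _ => ?_
      ring
    · rw [hcons, main_smul hF, hFz, mul_zero])
  exact no_pencil hF hs hl T hT e c g b A hS hm x y hxy p q hp hq

theorem quartic {F : MvPolynomial (Fin 4) ℂ} (hF : F.IsHomogeneous 4) (hs : Pool.Agent.DS.Smooth F)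
    (hl : NoLine F) {n : ℕ} (P : Ideal (MvPolynomial (Fin (n + 1)) ℂ)) [P.IsPrime] (hP : IsVariety P)
    (hK : IsQuartic (FunField P) F) : SpecialField (FunField P) ∧ BrodySpecial P := by
  obtain ⟨z, hFz, htr, hgen⟩ := hK
  obtain ⟨k, M, _, _, _, _, T, τ, hk, hM, hT, hai, halg, hτ⟩ := exists_copies
  obtain ⟨e, c, g, b, A, hS, hm⟩ := exists_family hF hs hl k T hT.tr
  obtain ⟨w, p, hp, hFw, hij⟩ := main_point hF hs hl T hT τ hτ e c g b A hS hm
  obtain ⟨φ, hφ⟩ := exists_emb hF hs z w hgen hFz hFw htr hij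
  let _ : Algebra (FunField P) M := φ.toRingHom.toAlgebra
  have hmap : ∀ u, algebraMap (FunField P) M u = φ u := fun _ => rfl
  have htow : IsScalarTower ℂ (FunField P) M :=
    IsScalarTower.of_algebraMap_eq fun r => (φ.commutes r).symm
  obtain ⟨i₀, j₀, hij⟩ := hij
  have hKM : Algebra.IsAlgebraic (FunField P) M := by
    refine alg_of_two (fun i => τ i T) hai halg ![z i₀, z j₀] ?_
    have : (fun i => algebraMap (FunField P) M (![z i₀, z j₀] i)) = ![w i₀, w j₀] := by
      funext i
      fin_cases i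
      · exact hφ i₀
      · exact hφ j₀
    rw [this]
    exact hij
  have hcover : ∀ l : Fin 2, ∃ (L : IntermediateField (FunField P) M) (k' : IntermediateField ℂ L)
      (N : ℕ) (x : Fin (N + 1) → L), FiniteDimensional (FunField P) L ∧ AlmostHomogeneous k' x ∧
        ∀ u ∈ k', (u : M) ∈ Set.range (τ l) := by
    intro l
    refine exists_cover hF hl z hgen hFz htr T hT (τ l) e c g b A hS (p l) ?_
    intro j
    rw [← hp l j]
    congr 1
    funext i
    exact hφ i
  choose L k' N x hfin hx hk' using hcover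
  have hc : ∀ u : FunField P, (∀ l, IsAlgebraic (k' l) (algebraMap (FunField P) (L l) u)) →
      ∃ c : ℂ, u = algebraMap ℂ (FunField P) c := by
    intro u hu
    have h1 : ∀ l, φ u ∈ Set.range (τ l) := by
      intro l
      have h2 := main_mem (τ l : k →+* M) (k' l) (hk' l) (algebraMap (FunField P) (L l) u) (hu l)
      have h3 : algebraMap (L l) M (algebraMap (FunField P) (L l) u) = φ u := rfl
      rw [h3] at h2
      exact h2
    obtain ⟨a, ha⟩ := h1 0
    obtain ⟨b, hb⟩ := h1 1
    obtain ⟨r, hr⟩ := hτ a b (ha.trans hb.symm)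
    refine ⟨r, φ.injective ?_⟩
    show φ u = φ (algebraMap ℂ (FunField P) r)
    rw [← ha, hr, AlgHom.commutes, AlgHom.commutes]
  exact ⟨Pool.Agent.K3.special_covers (funField_fg P) (fun l => L l) k' N x hx hc,
    Pool.Agent.CampanaNT.brody_covers P hP (fun l => L l) k' N x hx hc⟩

end Pool.Agent.QX
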