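import Pool.Agent.Lib_MP_1209e6_ds.Krull20

/-! Two homogeneous equations in four variables have a component of dimension two. -/

set_option autoImplicit false

open MvPolynomial

namespace Pool.Agent.QX

theorem exists_lin (S : Finset (Fin 4 → ℂ)) :
    ∃ l : Fin 4 → ℂ, ∀ c ∈ S, c ≠ 0 → ∑ i, l i * c i ≠ 0 := by
  classical
  by_contra hcon
  push Not at hcon
  have h1 : ∏ c ∈ S.filter (fun c => c ≠ 0), ∑ i, C (c i) * (X i : MvPolynomial (Fin 4) ℂ) = 0 := by
    apply MvPolynomial.funext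
    intro l
    obtain ⟨c, hc, hc0, hl⟩ := hcon l
    rw [map_prod, map_zero]
    refine Finset.prod_eq_zero (Finset.mem_filter.2 ⟨hc, hc0⟩) ?_
    rw [map_sum, ← hl]
    refine Finset.sum_congr rfl fun i _ => ?_
    rw [map_mul, eval_C, eval_X, mul_comm]
  rw [Finset.prod_eq_zero_iff] at h1
  obtain ⟨c, hc, hc0⟩ := h1
  refine (Finset.mem_filter.1 hc).2 ?_
  funext i
  have h2 := congrArg (eval (Pi.single i (1 : ℂ) : Fin 4 → ℂ)) hc0
  rw [map_sum, map_zero] at h2
  simp only [map_mul, eval_C, eval_X, Pi.single_apply, mul_ite, mul_one, mul_zero] at h2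
  rw [Finset.sum_ite_eq' Finset.univ i] at h2
  simpa using h2

/-- a component of dimension two -/
theorem exists_comp (f₁ f₂ : MvPolynomial (Fin 4) ℂ) {d₁ d₂ : ℕ} (h₁ : f₁.IsHomogeneous d₁)
    (h₂ : f₂.IsHomogeneous d₂) (hd₁ : d₁ ≠ 0) (hd₂ : d₂ ≠ 0) :
    ∃ p : Ideal (MvPolynomial (Fin 4) ℂ), p.IsPrime ∧ (∀ f ∈ p, ∀ i, homogeneousComponent i f ∈ p) ∧
      f₁ ∈ p ∧ f₂ ∈ p ∧ ∀ (k : Fin 4) (c : Fin 4 → ℂ), ∃ i, X i - C (c i) * X k ∉ p := by
  classical
  by_contra hcon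
  push Not at hcon
  let _ := MvPolynomial.gradedAlgebra (σ := Fin 4) (R := ℂ)
  let 𝒜 := MvPolynomial.homogeneousSubmodule (Fin 4) ℂ
  set I : Ideal (MvPolynomial (Fin 4) ℂ) := Ideal.span {f₁, f₂} with hI
  have hmem : ∀ P ∈ I.minimalPrimes, ∃ (k : Fin 4) (c : Fin 4 → ℂ), ∀ i, X i - C (c i) * X k ∈ P := by
    intro P hP
    have hPp : P.IsPrime := hP.1.1
    have hIP : I ≤ P := hP.1.2
    have hle := Ideal.toIdeal_homogeneousCore_le 𝒜 P
    obtain ⟨k, c, hc⟩ := hcon (P.homogeneousCore 𝒜).toIdeal hPp.homogeneousCore (fun q hq D => by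
        have h1 := (P.homogeneousCore 𝒜).isHomogeneous D hq
        have h2 : ((DirectSum.decompose 𝒜 q) D : MvPolynomial (Fin 4) ℂ) =
            homogeneousComponent D q := MvPolynomial.decomposition.decompose'_apply q D
        rwa [h2] at h1)
      (Ideal.mem_homogeneousCore_of_homogeneous_of_mem ⟨d₁, h₁⟩
        (hIP (Ideal.subset_span (by simp))))
      (Ideal.mem_homogeneousCore_of_homogeneous_of_mem ⟨d₂, h₂⟩
        (hIP (Ideal.subset_span (by simp))))
    exact ⟨k, c, fun i => hle (hc i)⟩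
  have hfin : I.minimalPrimes.Finite := Ideal.finite_minimalPrimes_of_isNoetherianRing _ I
  choose! k c hkc using hmem
  obtain ⟨l, hl⟩ := exists_lin (hfin.toFinset.image c)
  have hz : ∀ (f : MvPolynomial (Fin 4) ℂ) {d : ℕ}, f.IsHomogeneous d → d ≠ 0 →
      aeval (0 : Fin 4 → ℂ) f = 0 := by
    intro f d hf hd
    have h3 := hf.coeff_eq_zero (d := 0) (by simpa using hd.symm)
    rw [MvPolynomial.aeval_eq_eval, eval_zero, constantCoeff_eq]
    exact h3
  obtain ⟨y, hy0, hy⟩ := Pool.Agent.DS.exists_common_zero (J := Fin 4) (Ω := ℂ) (I := Fin 3)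
    ![f₁, f₂, ∑ i, C (l i) * X i] (by
      intro i
      fin_cases i
      · exact hz f₁ h₁ hd₁
      · exact hz f₂ h₂ hd₂
      · show aeval (0 : Fin 4 → ℂ) (∑ i, C (l i) * X i) = 0
        rw [map_sum]
        refine Finset.sum_eq_zero fun i _ => ?_
        rw [map_mul, aeval_X, Pi.zero_apply, mul_zero]) (by simp)
  have hy1 : aeval y f₁ = 0 := hy 0
  have hy2 : aeval y f₂ = 0 := hy 1
  have hy3 : aeval y (∑ i, C (l i) * X i) = 0 := hy 2
  have hmax : (vanishingIdeal ℂ ({y} : Set (Fin 4 → ℂ)) : Ideal (MvPolynomial (Fin 4) ℂ)).IsMaximal :=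
    isMaximal_iff_eq_vanishingIdeal_singleton.mpr ⟨y, rfl⟩
  have hle : I ≤ vanishingIdeal ℂ ({y} : Set (Fin 4 → ℂ)) := by
    rw [hI, Ideal.span_le]
    rintro f (rfl | rfl)
    · exact (mem_vanishingIdeal_singleton_iff _ _).2 hy1
    · exact (mem_vanishingIdeal_singleton_iff _ _).2 hy2
  have hmp : (vanishingIdeal ℂ ({y} : Set (Fin 4 → ℂ)) : Ideal (MvPolynomial (Fin 4) ℂ)).IsPrime :=
    hmax.isPrime
  obtain ⟨P, hP, hPle⟩ := Ideal.exists_minimalPrimes_le hle
  have hyc : ∀ i, y i = y (k P) * c P i := by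
    intro i
    have h1 := (mem_vanishingIdeal_singleton_iff _ _).1 (hPle (hkc P hP i))
    rw [map_sub, map_mul, aeval_X, aeval_X, sub_eq_zero] at h1
    rw [h1, mul_comm]
    simp
  have hc0 : c P ≠ 0 := by
    intro h0
    apply hy0
    funext i
    rw [hyc i, h0, Pi.zero_apply, mul_zero]
  have hyk : y (k P) ≠ 0 := by
    intro h0
    apply hy0
    funext i
    rw [hyc i, h0, zero_mul, Pi.zero_apply]
  have h1 := hl (c P) (Finset.mem_image.2 ⟨P, hfin.mem_toFinset.2 hP, rfl⟩) hc0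
  apply h1
  have h2 : y (k P) * ∑ i, l i * c P i = 0 := by
    rw [← hy3, map_sum, Finset.mul_sum]
    refine Finset.sum_congr rfl fun i _ => ?_
    rw [map_mul, aeval_X, hyc i]
    simp
    ring
  exact (mul_eq_zero.1 h2).resolve_left hyk

end Pool.Agent.QX
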