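import Pool.Agent.Lib_MP_1209e6_qx.Eig
import Pool.Agent.Lib_MP_1209e6_qx.Comp

/-! PIECE (1): existence of a tacnodal plane section. -/

set_option autoImplicit false

open MvPolynomial

namespace Pool.Agent.QX

theorem pd_comm {σ : Type} (i j : σ) (F : MvPolynomial σ ℂ) :
    pderiv i (pderiv j F) = pderiv j (pderiv i F) := by
  classical
  have h : ⁅(pderiv i : Derivation ℂ (MvPolynomial σ ℂ) (MvPolynomial σ ℂ)),
      (pderiv j : Derivation ℂ (MvPolynomial σ ℂ) (MvPolynomial σ ℂ))⁆ = 0 := by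
    apply MvPolynomial.derivation_ext
    intro k
    rw [Derivation.commutator_apply, pderiv_X, pderiv_X, Pi.single_apply, Pi.single_apply]
    split_ifs <;> simp
  have h2 := congrArg (fun D : Derivation ℂ (MvPolynomial σ ℂ) (MvPolynomial σ ℂ) => D F) h
  simp only [Derivation.commutator_apply] at h2
  exact sub_eq_zero.1 h2

theorem det_hom {n d : ℕ} (A : Matrix (Fin d) (Fin d) (MvPolynomial (Fin n) ℂ)) (w : Fin d → ℕ)
    (h : ∀ i j, (A i j).IsHomogeneous (w i)) : A.det.IsHomogeneous (∑ i, w i) := by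
  rw [Matrix.det_apply]
  refine IsHomogeneous.sum _ _ _ fun σ _ => ?_
  have h1 : (∏ i, A (σ i) i).IsHomogeneous (∑ i, w i) := by
    have h2 := IsHomogeneous.prod Finset.univ (fun i => A (σ i) i) (fun i => w (σ i)) fun i _ => h _ _
    rwa [Equiv.sum_comp σ w] at h2
  rcases Int.units_eq_one_or (Equiv.Perm.sign σ) with hs | hs
  · rw [hs, one_smul]
    exact h1
  · rw [hs]
    have h3 : ((-1 : ℤˣ) • ∏ i, A (σ i) i) = -∏ i, A (σ i) i := by
      rw [Units.smul_def]
      simp
    rw [h3]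
    exact h1.neg

theorem adj_ne (M : Matrix (Fin 4) (Fin 4) ℂ) (hs : ∀ i j, M i j = M j i) (w : Fin 4 → ℂ)
    (hw : ∀ i, ∑ j, M i j * w j = 0)
    (huniq : ∀ v : Fin 4 → ℂ, (∀ i, ∑ j, M i j * v j = 0) → ∃ c : ℂ, ∀ j, v j = c * w j)
    (j : Fin 4) (hj : w j ≠ 0) : M.adjugate j j ≠ 0 := by
  classical
  rw [Matrix.adjugate_apply]
  intro h0
  obtain ⟨z, hz0, hz⟩ := Matrix.exists_vecMul_eq_zero_iff.2 h0
  have h1 : ∀ b, ∑ a, z a * (M.updateRow j (Pi.single j 1)) a b = 0 := fun b => congrFun hz b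
  have h2 : z j * w j = 0 := by
    have h3 : ∑ b, (∑ a, z a * (M.updateRow j (Pi.single j 1)) a b) * w b = z j * w j := by
      simp only [Finset.sum_mul]
      rw [Finset.sum_comm, Finset.sum_eq_single j]
      · simp only [Matrix.updateRow_self, Pi.single_apply, mul_ite, mul_one, mul_zero, ite_mul,
          zero_mul, Finset.sum_ite_eq', Finset.mem_univ, if_true]
      · intro a _ haj
        simp only [Matrix.updateRow_ne haj, mul_assoc, ← Finset.mul_sum]
        rw [hw a, mul_zero]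
      · intro h
        exact absurd (Finset.mem_univ j) h
    rw [← h3]
    refine Finset.sum_eq_zero fun b _ => ?_
    rw [h1 b, zero_mul]
  have h3 : z j = 0 := (mul_eq_zero.1 h2).resolve_right hj
  have h4 : ∀ b, ∑ a, M b a * z a = 0 := by
    intro b
    rw [← h1 b]
    refine Finset.sum_congr rfl fun a _ => ?_
    by_cases haj : a = j
    · rw [haj, h3, mul_zero, zero_mul]
    · rw [Matrix.updateRow_ne haj, hs a b, mul_comm]
  obtain ⟨c, hc⟩ := huniq z h4
  apply hz0
  have h5 : c = 0 := by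
    have h6 := hc j
    rw [h3] at h6
    exact (mul_eq_zero.1 h6.symm).resolve_right hj
  funext a
  rw [hc a, h5, zero_mul, Pi.zero_apply]

/-- the cubic form at `Q` -/
noncomputable def cub (t : Fin 4 → Fin 4 → Fin 4 → ℂ) (v : Fin 4 → ℂ) : ℂ :=
  ∑ i, ∑ j, ∑ k, t i j k * v i * v j * v k

theorem cub_smul (t : Fin 4 → Fin 4 → Fin 4 → ℂ) (c : ℂ) (v : Fin 4 → ℂ) :
    cub t (fun j => c * v j) = c ^ 3 * cub t v := by
  simp only [cub, Finset.mul_sum]
  refine Finset.sum_congr rfl fun i _ => Finset.sum_congr rfl fun j _ => Finset.sum_congr rfl fun k _ => ?_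
  ring

theorem cub_line (t : Fin 4 → Fin 4 → Fin 4 → ℂ) (v w : Fin 4 → ℂ) :
    ∃ a b : ℂ, (a ≠ 0 ∨ b ≠ 0) ∧ cub t (fun j => a * v j + b * w j) = 0 := by
  classical
  let L : Fin 4 → MvPolynomial (Fin 2) ℂ := fun j => C (v j) * X 0 + C (w j) * X 1
  let P : MvPolynomial (Fin 2) ℂ := ∑ i, ∑ j, ∑ k, C (t i j k) * L i * L j * L k
  have hP : ∀ y : Fin 2 → ℂ, aeval y P = cub t (fun j => y 0 * v j + y 1 * w j) := by
    intro y
    simp only [P, L, cub, map_sum, map_mul, map_add, aeval_X, aeval_C, Algebra.algebraMap_self,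
      RingHom.id_apply]
    refine Finset.sum_congr rfl fun i _ => Finset.sum_congr rfl fun j _ =>
      Finset.sum_congr rfl fun k _ => ?_
    ring
  obtain ⟨y, hy0, hy⟩ := Pool.Agent.DS.exists_common_zero (J := Fin 2) (Ω := ℂ) (I := Fin 1)
    (fun _ => P) (by
      intro i
      rw [hP]
      simp [cub]) (by simp)
  refine ⟨y 0, y 1, ?_, ?_⟩
  · by_contra hcon
    push Not at hcon
    apply hy0
    funext i
    fin_cases i
    · exact hcon.1
    · exact hcon.2
  · rw [← hP]
    exact hy 0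

/-- Every quartic surface has a plane section with a tacnode (or worse): `Q` and `v` such that `F` vanishes
at `Q`, the Hessian at `Q` kills `v`, and the cubic form at `Q` vanishes at `v`. -/
theorem exists_tac (F : MvPolynomial (Fin 4) ℂ) (hF : F.IsHomogeneous 4) :
    ∃ Q v : Fin 4 → ℂ, Q ≠ 0 ∧ v ≠ 0 ∧ eval Q F = 0 ∧
      (∀ i, ∑ j, eval Q (pderiv i (pderiv j F)) * v j = 0) ∧
      ∑ i, ∑ j, ∑ k, eval Q (pderiv i (pderiv j (pderiv k F))) * v i * v j * v k = 0 := by
  classical
  by_contra hcon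
  have hno : ∀ Q v : Fin 4 → ℂ, Q ≠ 0 → eval Q F = 0 →
      (∀ i, ∑ j, eval Q (pderiv i (pderiv j F)) * v j = 0) →
      cub (fun i j k => eval Q (pderiv i (pderiv j (pderiv k F)))) v = 0 → v = 0 := by
    intro Q v h1 h2 h3 h4
    by_contra h5
    exact hcon ⟨Q, v, h1, h5, h2, h3, h4⟩
  set M : Matrix (Fin 4) (Fin 4) (MvPolynomial (Fin 4) ℂ) :=
    Matrix.of fun i j => pderiv i (pderiv j F) with hM
  have hMh : ∀ i j, (M i j).IsHomogeneous 2 := fun i j => (hF.pderiv).pderiv
  have hdet : M.det.IsHomogeneous 8 := by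
    have h1 := det_hom M (fun _ => 2) hMh
    simpa using h1
  have hadj : ∀ i j, (M.adjugate i j).IsHomogeneous 6 := by
    intro i j
    rw [Matrix.adjugate_apply]
    have h1 := det_hom (M.updateRow j (Pi.single i 1)) (Function.update (fun _ => 2) j 0) (by
      intro a b
      by_cases ha : a = j
      · rw [ha, Function.update_self, Matrix.updateRow_self, Pi.single_apply]
        split_ifs
        · exact isHomogeneous_one _ _
        · exact isHomogeneous_zero _ _ _
      · rw [Function.update_of_ne ha, Matrix.updateRow_ne ha]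
        exact hMh a b)
    have h2 : ∑ a, Function.update (fun _ : Fin 4 => 2) j 0 a = 6 := by
      fin_cases j <;> rfl
    rwa [h2] at h1
  set g : Fin 4 → MvPolynomial (Fin 4) ℂ := fun j => ∑ a, ∑ b, ∑ c,
    pderiv a (pderiv b (pderiv c F)) * M.adjugate a j * M.adjugate b j * M.adjugate c j with hg
  have hgh : ∀ j, (g j).IsHomogeneous 19 := by
    intro j
    refine IsHomogeneous.sum _ _ _ fun a _ => IsHomogeneous.sum _ _ _ fun b _ =>
      IsHomogeneous.sum _ _ _ fun c _ => ?_
    exact (((((hF.pderiv).pderiv).pderiv).mul (hadj a j)).mul (hadj b j)).mul (hadj c j)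
  obtain ⟨p, hpp, hph, hpF, hpM, hpc⟩ := exists_comp F M.det hF hdet (by norm_num) (by norm_num)
  -- the situation at a point
  have hpt : ∀ Q : Fin 4 → ℂ, Q ≠ 0 → (∀ f ∈ p, eval Q f = 0) → ∃ (w κ : Fin 4 → ℂ) (j : Fin 4),
      (∀ i j, eval Q (M.adjugate i j) = κ j * w i) ∧ (∀ i j, κ j * w i = κ i * w j) ∧
      eval Q (M.adjugate j j) ≠ 0 := by
    intro Q hQ0 hQ
    set MQ : Matrix (Fin 4) (Fin 4) ℂ := (eval Q).mapMatrix M with hMQ
    have hMQa : ∀ i j, MQ i j = eval Q (pderiv i (pderiv j F)) := fun i j => rfl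
    have hsym : ∀ i j, MQ i j = MQ j i := by
      intro i j
      rw [hMQa, hMQa, pd_comm]
    have hdQ : MQ.det = 0 := by
      rw [hMQ, ← RingHom.map_det]
      exact hQ _ hpM
    have hadQ : ∀ i j, eval Q (M.adjugate i j) = MQ.adjugate i j := by
      intro i j
      rw [hMQ, ← RingHom.map_adjugate]
      rfl
    obtain ⟨w, hw0, hw⟩ := Matrix.exists_mulVec_eq_zero_iff.2 hdQ
    have hw' : ∀ i, ∑ j, MQ i j * w j = 0 := fun i => congrFun hw i
    have huniq : ∀ v : Fin 4 → ℂ, (∀ i, ∑ j, MQ i j * v j = 0) → ∃ c : ℂ, ∀ j, v j = c * w j := by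
      intro v hv
      obtain ⟨a, b, hab, hc⟩ := cub_line (fun i j k => eval Q (pderiv i (pderiv j (pderiv k F)))) v w
      have h1 := hno Q (fun j => a * v j + b * w j) hQ0 (hQ F hpF) (by
        intro i
        have h2 : ∑ j, eval Q (pderiv i (pderiv j F)) * (a * v j + b * w j) =
            a * ∑ j, MQ i j * v j + b * ∑ j, MQ i j * w j := by
          rw [Finset.mul_sum, Finset.mul_sum, ← Finset.sum_add_distrib]
          refine Finset.sum_congr rfl fun j _ => ?_
          rw [hMQa]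
          ring
        rw [h2, hv, hw', mul_zero, mul_zero, add_zero]) hc
      have h2 : ∀ j, a * v j + b * w j = 0 := fun j => congrFun h1 j
      have ha : a ≠ 0 := by
        intro ha
        have hb : b ≠ 0 := by
          rcases hab with h | h
          · exact absurd ha h
          · exact h
        apply hw0
        funext j
        have h3 := h2 j
        rw [ha, zero_mul, zero_add] at h3
        exact (mul_eq_zero.1 h3).resolve_left hb
      refine ⟨-b / a, fun j => ?_⟩
      have h3 := h2 j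
      field_simp
      linear_combination h3
    have hcol : ∀ j, ∃ c : ℂ, ∀ i, MQ.adjugate i j = c * w i := by
      intro j
      refine huniq (fun i => MQ.adjugate i j) fun i => ?_
      have h1 := congrFun (congrFun (Matrix.mul_adjugate MQ) i) j
      rw [Matrix.mul_apply, hdQ, zero_smul] at h1
      exact h1
    choose κ hκ using hcol
    have hadsym : ∀ i j, MQ.adjugate i j = MQ.adjugate j i := by
      intro i j
      have h1 : MQ.transpose = MQ := by
        ext i j
        exact hsym j i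
      have h2 := congrFun (congrFun (Matrix.adjugate_transpose MQ) j) i
      rw [h1, Matrix.transpose_apply] at h2
      exact h2
    obtain ⟨j, hj⟩ : ∃ j, w j ≠ 0 := by
      by_contra h
      push Not at h
      exact hw0 (funext h)
    refine ⟨w, κ, j, fun i j => by rw [hadQ, hκ], fun i j => by rw [← hκ, ← hκ, hadsym], ?_⟩
    rw [hadQ]
    exact adj_ne MQ hsym w hw' huniq j hj
  have hgQ : ∀ (Q : Fin 4 → ℂ) j, eval Q (g j) = cub
      (fun i j k => eval Q (pderiv i (pderiv j (pderiv k F)))) (fun i => eval Q (M.adjugate i j)) := by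
    intro Q j
    simp only [hg, map_sum, map_mul, cub]
  have hnull : ∀ f, (∀ Q : Fin 4 → ℂ, (∀ f ∈ p, eval Q f = 0) → eval Q f = 0) → f ∈ p := by
    intro f hf
    have h1 := IsPrime.vanishingIdeal_zeroLocus (K := ℂ) p
    rw [← h1, mem_vanishingIdeal_iff]
    intro Q hQ
    rw [mem_zeroLocus_iff] at hQ
    have h2 := hf Q fun f hf => by
      have := hQ f hf
      rwa [MvPolynomial.aeval_eq_eval] at this
    rwa [MvPolynomial.aeval_eq_eval]
  have hzero : ∀ y : Fin 4 → ℂ, (∀ f ∈ p, eval y f = 0) → (∀ i, eval y (g i) = 0) → y = 0 := by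
    intro y hy hgy
    by_contra hy0
    obtain ⟨w, κ, j, h1, h2, h3⟩ := hpt y hy0 hy
    apply h3
    have h4 := hno y (fun i => eval y (M.adjugate i j)) hy0 (hy F hpF) (by
      intro i
      have h5 := congrArg (eval y) (congrFun (congrFun (Matrix.mul_adjugate M) i) j)
      rw [Matrix.mul_apply, map_sum, Matrix.smul_apply, smul_eq_mul, map_mul, hy _ hpM, zero_mul] at h5
      rw [← h5]
      refine Finset.sum_congr rfl fun k _ => ?_
      rw [map_mul]
      rfl) (by
      rw [← hgQ]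
      exact hgy j)
    exact congrFun h4 j
  have hrel : ∀ m j i k, (X m * M.adjugate i j ^ 3) * g k - (X m * M.adjugate k j ^ 3) * g i ∈ p := by
    intro m j i k
    apply hnull
    intro Q hQ
    by_cases hQ0 : Q = 0
    · rw [hQ0]
      simp
    obtain ⟨w, κ, -, h1, h2, -⟩ := hpt Q hQ0 hQ
    simp only [map_sub, map_mul, map_pow, eval_X, hgQ, h1]
    rw [cub_smul, cub_smul]
    have h3 : (κ j * w i) ^ 3 * κ k ^ 3 = (κ j * w k) ^ 3 * κ i ^ 3 := by
      have h4 := h2 i k
      calc (κ j * w i) ^ 3 * κ k ^ 3 = κ j ^ 3 * (κ k * w i) ^ 3 := by ring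
        _ = κ j ^ 3 * (κ i * w k) ^ 3 := by rw [h4]
        _ = (κ j * w k) ^ 3 * κ i ^ 3 := by ring
    linear_combination (Q m * cub (fun i j k => eval Q (pderiv i (pderiv j (pderiv k F)))) w) * h3
  -- a variable outside of `p`
  obtain ⟨k, hk⟩ : ∃ k, (X k : MvPolynomial (Fin 4) ℂ) ∉ p := by
    obtain ⟨i, hi⟩ := hpc 0 0
    refine ⟨i, fun h => hi ?_⟩
    rw [Pi.zero_apply, map_zero, zero_mul, sub_zero]
    exact h
  obtain ⟨j, hj⟩ : ∃ j, M.adjugate j j ∉ p := by
    by_contra h
    push Not at h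
    apply hk
    apply hnull
    intro Q hQ
    by_cases hQ0 : Q = 0
    · rw [hQ0]
      simp
    obtain ⟨w, κ, j, h1, h2, h3⟩ := hpt Q hQ0 hQ
    exact absurd (hQ _ (h j)) h3
  have heig : ∀ m, ∃ μ : ℂ, ∀ i, X m * M.adjugate i j ^ 3 - C μ * g i ∈ p := fun m =>
    eig p hph (fun i => X m * M.adjugate i j ^ 3) g
      (fun i => by
        have h1 := (isHomogeneous_X ℂ m).mul ((hadj i j).pow 3)
        simpa using h1) hgh (fun i k => hrel m j i k) hzero k hk
  choose μ hμ using heig
  have hμk : μ k ≠ 0 := by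
    intro h0
    have h1 := hμ k j
    rw [h0, map_zero, zero_mul, sub_zero] at h1
    rcases hpp.mem_or_mem h1 with h2 | h2
    · exact hk h2
    · exact hj (hpp.mem_of_pow_mem _ h2)
  obtain ⟨i, hi⟩ := hpc k fun m => μ m / μ k
  apply hi
  have h1 : (C (μ k) * X i - C (μ i) * X k) * M.adjugate j j ^ 3 ∈ p := by
    have h2 : (C (μ k) * X i - C (μ i) * X k) * M.adjugate j j ^ 3 =
        C (μ k) * (X i * M.adjugate j j ^ 3 - C (μ i) * g j) -
          C (μ i) * (X k * M.adjugate j j ^ 3 - C (μ k) * g j) := by ring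
    rw [h2]
    exact p.sub_mem (p.mul_mem_left _ (hμ i j)) (p.mul_mem_left _ (hμ k j))
  have h2 := (hpp.mem_or_mem h1).resolve_right fun h => hj (hpp.mem_of_pow_mem _ h)
  have h3 : (X i - C (μ i / μ k) * X k : MvPolynomial (Fin 4) ℂ) =
      C (μ k)⁻¹ * (C (μ k) * X i - C (μ i) * X k) := by
    have h4 : (C (μ k)⁻¹ * C (μ k) : MvPolynomial (Fin 4) ℂ) = 1 := by
      rw [← map_mul, inv_mul_cancel₀ hμk, map_one]
    rw [div_eq_mul_inv, map_mul]
    linear_combination -(X i : MvPolynomial (Fin 4) ℂ) * h4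
  rw [h3]
  exact p.mul_mem_left _ h2

end Pool.Agent.QX
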