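import Mathlib

/-! A function of degree zero without poles on a projective variety is constant. -/

set_option autoImplicit false

open MvPolynomial

namespace Pool.Agent.QX

variable {n : ℕ}

theorem comp_mul {D : ℕ} (c h : MvPolynomial (Fin n) ℂ) (hh : h.IsHomogeneous D) (N : ℕ) :
    homogeneousComponent (N + D) (c * h) = homogeneousComponent N c * h := by
  let := MvPolynomial.gradedAlgebra (σ := Fin n) (R := ℂ)
  have h1 := DirectSum.coe_decompose_mul_add_of_right_mem
    (𝒜 := MvPolynomial.homogeneousSubmodule (Fin n) ℂ) (i := N) (j := D) (a := c) (b := h) hh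
  have h2 : ∀ q D, ((DirectSum.decompose (MvPolynomial.homogeneousSubmodule (Fin n) ℂ) q) D :
      MvPolynomial (Fin n) ℂ) = homogeneousComponent D q := fun q D =>
    MvPolynomial.decomposition.decompose'_apply q D
  rw [h2, h2] at h1
  exact h1

theorem big_mem (J : Ideal (MvPolynomial (Fin n) ℂ))
    (hz : ∀ y : Fin n → ℂ, (∀ f ∈ J, eval y f = 0) → y = 0) :
    ∃ N₀, ∀ N, N₀ ≤ N → ∀ f : MvPolynomial (Fin n) ℂ, f.IsHomogeneous N → f ∈ J := by
  classical
  have h1 : ∀ k : Fin n, ∃ e : ℕ, (X k : MvPolynomial (Fin n) ℂ) ^ e ∈ J := by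
    intro k
    have h2 : (X k : MvPolynomial (Fin n) ℂ) ∈ J.radical := by
      rw [← vanishingIdeal_zeroLocus_eq_radical (K := ℂ), mem_vanishingIdeal_iff]
      intro y hy
      rw [mem_zeroLocus_iff] at hy
      have h3 := hz y fun f hf => by
        have := hy f hf
        rwa [MvPolynomial.aeval_eq_eval] at this
      rw [aeval_X, h3]
      rfl
    exact h2
  choose e he using h1
  refine ⟨(∑ k, e k) + 1, fun N hN f hf => ?_⟩
  rw [f.as_sum]
  refine Ideal.sum_mem _ fun d hd => ?_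
  have h2 : ∑ k, d k = N := by
    have h3 := hf (mem_support_iff.1 hd)
    rw [← h3, Finsupp.weight_apply, Finsupp.sum_fintype _ _ (by simp)]
    simp
  obtain ⟨k, hk⟩ : ∃ k, e k ≤ d k := by
    by_contra hcon
    push Not at hcon
    have h3 : ∑ k, d k ≤ ∑ k, e k := Finset.sum_le_sum fun k _ => (hcon k).le
    omega
  have h3 : monomial d (coeff d f) = monomial (d - Finsupp.single k (e k)) (coeff d f) *
      (X k : MvPolynomial (Fin n) ℂ) ^ e k := by
    rw [X_pow_eq_monomial, monomial_mul, mul_one, tsub_add_cancel_of_le]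
    rw [Finsupp.single_le_iff]
    exact hk
  rw [h3]
  exact Ideal.mul_mem_left _ _ (he k)

theorem exists_coeffs {ι : Type} [Fintype ι] (p : Ideal (MvPolynomial (Fin n) ℂ))
    (hp : ∀ f ∈ p, ∀ i, homogeneousComponent i f ∈ p) {D : ℕ} (h : ι → MvPolynomial (Fin n) ℂ)
    (hh : ∀ i, (h i).IsHomogeneous D) (N : ℕ) (f : MvPolynomial (Fin n) ℂ)
    (hf : f.IsHomogeneous (N + D)) (hm : f ∈ p ⊔ Ideal.span (Set.range h)) :
    ∃ c : ι → MvPolynomial (Fin n) ℂ, (∀ i, (c i).IsHomogeneous N) ∧ f - ∑ i, c i * h i ∈ p := by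
  obtain ⟨g, hg, r, hr, hgr⟩ := Submodule.mem_sup.1 hm
  rw [Ideal.span, Submodule.mem_span_range_iff_exists_fun] at hr
  obtain ⟨c, hc⟩ := hr
  refine ⟨fun i => homogeneousComponent N (c i), fun i => homogeneousComponent_isHomogeneous N _, ?_⟩
  have h1 : f = homogeneousComponent (N + D) f := by
    rw [homogeneousComponent_of_mem (m := N + D) (n := N + D) hf, if_pos rfl]
  have h2 : homogeneousComponent (N + D) f = homogeneousComponent (N + D) g +
      ∑ i, homogeneousComponent N (c i) * h i := by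
    rw [← hgr, ← hc, map_add, map_sum]
    congr 1
    refine Finset.sum_congr rfl fun i _ => ?_
    rw [smul_eq_mul, comp_mul _ _ (hh i)]
  have h3 : f - ∑ i, homogeneousComponent N (c i) * h i = homogeneousComponent (N + D) g := by
    rw [← h1] at h2
    rw [h2]
    ring
  rw [h3]
  exact hp g hg _

/-- A function of degree zero without poles is constant: if `A_i h_j = A_j h_i` modulo the homogeneous prime `p`
and the `h_i` have no common zero on the cone of `p`, then `A_i = μ h_i` modulo `p`. -/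
theorem eig {ι : Type} [Fintype ι] (p : Ideal (MvPolynomial (Fin n) ℂ)) [hpp : p.IsPrime]
    (hp : ∀ f ∈ p, ∀ i, homogeneousComponent i f ∈ p) {D : ℕ} (A h : ι → MvPolynomial (Fin n) ℂ)
    (hA : ∀ i, (A i).IsHomogeneous D) (hh : ∀ i, (h i).IsHomogeneous D)
    (hrel : ∀ i j, A i * h j - A j * h i ∈ p)
    (hz : ∀ y : Fin n → ℂ, (∀ f ∈ p, eval y f = 0) → (∀ i, eval y (h i) = 0) → y = 0)
    (k : Fin n) (hk : (X k : MvPolynomial (Fin n) ℂ) ∉ p) :
    ∃ μ : ℂ, ∀ i, A i - C μ * h i ∈ p := by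
  classical
  obtain ⟨N₀, hN₀⟩ := big_mem (p ⊔ Ideal.span (Set.range h)) fun y hy => hz y
    (fun f hf => hy f (Ideal.mem_sup_left hf))
    (fun i => hy _ (Ideal.mem_sup_right (Ideal.subset_span ⟨i, rfl⟩)))
  let R := MvPolynomial (Fin n) ℂ ⧸ p
  let q : MvPolynomial (Fin n) ℂ →ₐ[ℂ] R := Ideal.Quotient.mkₐ ℂ p
  have hq : ∀ f, q f = 0 ↔ f ∈ p := fun f => Ideal.Quotient.eq_zero_iff_mem
  have : IsDomain R := Ideal.Quotient.isDomain p
  let V : Submodule ℂ R := (homogeneousSubmodule (Fin n) ℂ (N₀ + D)).map q.toLinearMap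
  have : FiniteDimensional ℂ V := Module.Finite.iff_fg.2 ((homogeneousSubmodule_fg (Fin n) ℂ _).map _)
  obtain ⟨j₀, hj₀⟩ : ∃ j, q (h j) ≠ 0 := by
    by_contra hcon
    push Not at hcon
    have h1 : ∀ y : Fin n → ℂ, (∀ f ∈ p, eval y f = 0) → y = 0 := fun y hy =>
      hz y hy fun i => hy _ ((hq _).1 (hcon i))
    obtain ⟨M, hM⟩ := big_mem p h1
    exact hk (hpp.mem_of_pow_mem _ (hM M le_rfl _ (isHomogeneous_X_pow k M)))
  have hrel' : ∀ i j, q (A i) * q (h j) = q (A j) * q (h i) := by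
    intro i j
    have h1 := (hq _).2 (hrel i j)
    rw [map_sub, map_mul, map_mul, sub_eq_zero] at h1
    exact h1
  have hex : ∀ w : V, ∃ w' : V, ∀ j, q (h j) * (w' : R) = q (A j) * (w : R) := by
    rintro ⟨w, hw⟩
    obtain ⟨f, hf, rfl⟩ := hw
    obtain ⟨c, hc, hfc⟩ := exists_coeffs p hp h hh N₀ f hf (hN₀ _ (by omega) f hf)
    refine ⟨⟨q (∑ i, c i * A i), ⟨∑ i, c i * A i, ?_, rfl⟩⟩, fun j => ?_⟩
    · exact IsHomogeneous.sum _ _ _ fun i _ => (hc i).mul (hA i)
    · have h1 : q f = ∑ i, q (c i) * q (h i) := by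
        have h2 := (hq _).2 hfc
        rw [map_sub, sub_eq_zero, map_sum] at h2
        simpa only [map_mul] using h2
      show q (h j) * q (∑ i, c i * A i) = q (A j) * q f
      rw [h1, map_sum, Finset.mul_sum, Finset.mul_sum]
      refine Finset.sum_congr rfl fun i _ => ?_
      rw [map_mul]
      linear_combination q (c i) * hrel' i j
  choose φ hφ using hex
  have huniq : ∀ x y : V, (∀ j, q (h j) * (x : R) = q (h j) * (y : R)) → x = y := by
    intro x y hxy
    exact Subtype.ext (mul_left_cancel₀ hj₀ (hxy j₀))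
  let Φ : V →ₗ[ℂ] V :=
    { toFun := φ
      map_add' := fun x y => huniq _ _ fun j => by
        rw [hφ, Submodule.coe_add, Submodule.coe_add, mul_add, mul_add, hφ, hφ]
      map_smul' := fun c x => huniq _ _ fun j => by
        rw [hφ, RingHom.id_apply, Submodule.coe_smul, Submodule.coe_smul, mul_smul_comm,
          mul_smul_comm, hφ] }
  have : Nontrivial V := by
    refine ⟨⟨⟨q (X k ^ (N₀ + D)), ⟨_, isHomogeneous_X_pow k _, rfl⟩⟩, 0, fun h0 => ?_⟩⟩
    have h1 : q (X k ^ (N₀ + D)) = 0 := congrArg Subtype.val h0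
    exact hk (hpp.mem_of_pow_mem _ ((hq _).1 h1))
  obtain ⟨μ, hμ⟩ := Module.End.exists_eigenvalue Φ
  obtain ⟨x, hx⟩ := hμ.exists_hasEigenvector
  refine ⟨μ, fun i => ?_⟩
  have hx0 : (x : R) ≠ 0 := fun h0 => hx.2 (Subtype.ext h0)
  have h1 : Φ x = μ • x := hx.apply_eq_smul
  have h2 := hφ x i
  have h3 : φ x = μ • x := h1
  rw [h3, Submodule.coe_smul, mul_smul_comm] at h2
  rw [← hq, map_sub, map_mul]
  have h4 : q (C μ) = algebraMap ℂ R μ := q.commutes μ
  rw [h4]
  have h5 : (q (A i) - algebraMap ℂ R μ * q (h i)) * (x : R) = 0 := by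
    have h6 : μ • (q (h i) * (x : R)) = algebraMap ℂ R μ * (q (h i) * (x : R)) := by
      obtain ⟨g, -, hg⟩ := x.2
      have h7 : q g = (x : R) := hg
      rw [← h7, ← h4, ← map_mul, ← map_mul, ← map_smul, smul_eq_C_mul]
    rw [sub_mul, ← h2, h6]
    ring
  exact (mul_eq_zero.1 h5).resolve_right hx0

end Pool.Agent.QX
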