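import Pool.Agent.Lib_MP_1209e6_qx.Defs
import Pool.Agent.Lib_MP_1209e6_qx.Eig
import Pool.Agent.Lib_MP_1209e6_ds.Coef

/-! PIECE GAUSS: the singular points of a plane section over `ℂ` are defined over `ℂ`. -/

set_option autoImplicit false

open MvPolynomial

noncomputable section

namespace Pool.Agent.QX

variable {k : Type} [Field k] [Algebra ℂ k]

/-- Roots of constants are constants. -/
theorem gauss_pow_range (y : k) (c : ℂ) (m : ℕ) (hm : m ≠ 0) (h : y ^ m = algebraMap ℂ k c) :
    ∃ r : ℂ, algebraMap ℂ k r = y := by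
  have hint : IsIntegral ℂ y :=
    ⟨Polynomial.X ^ m - Polynomial.C c, Polynomial.monic_X_pow_sub_C c hm, by simp [h]⟩
  have h1 := IsAlgClosed.degree_eq_one_of_irreducible ℂ (minpoly.irreducible hint)
  exact minpoly.mem_range_of_degree_eq_one ℂ y h1

/-- A vector outside three independent ones. -/
theorem gauss_vec (e : Fin 3 → Fin 4 → ℂ) (he : LinearIndependent ℂ e) :
    ∃ n : Fin 4 → ℂ, ∀ u : Fin 4 → ℂ, (∀ i, ∑ j, e i j * u j = 0) → ∑ j, n j * u j = 0 → u = 0 := by
  obtain ⟨n, hn⟩ : ∃ n : Fin 4 → ℂ, n ∉ Submodule.span ℂ (Set.range e) := by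
    by_contra hcon
    push Not at hcon
    have h1 : Submodule.span ℂ (Set.range e) = ⊤ := eq_top_iff.2 fun x _ => hcon x
    have h2 := finrank_span_eq_card he
    rw [h1, finrank_top, Module.finrank_fin_fun, Fintype.card_fin] at h2
    omega
  refine ⟨n, fun u hu hnu => ?_⟩
  have hE : LinearIndependent ℂ (Fin.cons n e : Fin 4 → Fin 4 → ℂ) :=
    linearIndependent_finCons.2 ⟨he, hn⟩
  have hU : IsUnit (Matrix.of (Fin.cons n e : Fin 4 → Fin 4 → ℂ)) :=
    Matrix.linearIndependent_rows_iff_isUnit.1 hE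
  have hinj := Matrix.mulVec_injective_iff_isUnit.2 hU
  apply hinj
  rw [Matrix.mulVec_zero]
  funext i
  refine Fin.cases ?_ (fun i => ?_) i
  · exact hnu
  · exact hu i

/-- `N` is a singular point of the section `G = sec F e` over a field `k ⊇ ℂ`; it is proportional to a complex point.
With `p` the homogeneous ideal of `N` and `H` the derivative of `F` in a direction outside the plane, `p` and `H`
have no common zero (smoothness), so `X_i³ / H` is constant on the variety of `p` (`eig`). -/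
theorem sing_const {F : MvPolynomial (Fin 4) ℂ} (hF : F.IsHomogeneous 4) (hs : Pool.Agent.DS.Smooth F)
    (e : Fin 3 → Fin 4 → ℂ) (he : LinearIndependent ℂ e) (N : Fin 3 → k) (hN : N ≠ 0)
    (h : ∀ i, aeval N (pderiv i (sec F e)) = 0) :
    ∃ (c : k) (x : Fin 3 → ℂ), c ≠ 0 ∧ ∀ i, N i = c * algebraMap ℂ k (x i) := by
  classical
  let _ := MvPolynomial.gradedAlgebra (σ := Fin 3) (R := ℂ)
  obtain ⟨n, hn⟩ := gauss_vec e he
  set q : Fin 4 → MvPolynomial (Fin 3) ℂ := fun j => ∑ i, C (e i j) * X i with hq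
  have hq1 : ∀ j, (q j).IsHomogeneous 1 := fun j => IsHomogeneous.sum _ _ _ fun i _ => by
    simpa using (isHomogeneous_C (Fin 3) (e i j)).mul (isHomogeneous_X ℂ i)
  have hFj : ∀ j, (aeval q (pderiv j F)).IsHomogeneous 3 := fun j => by
    have h1 := (hF.pderiv (i := j)).aeval q hq1
    simpa using h1
  have hdq : ∀ i j, pderiv i (q j) = C (e i j) := by
    intro i j
    rw [hq]
    simp only [map_sum, pderiv_mul, pderiv_C, zero_mul, zero_add, pderiv_X, Pi.single_apply]
    simp
  have hchain : ∀ i, pderiv i (sec F e) = ∑ j, C (e i j) * aeval q (pderiv j F) := by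
    intro i
    have h1 := Pool.Agent.DS.chain (pderiv (R := ℂ) i) q F
    simp only [hdq] at h1
    exact h1
  set H : MvPolynomial (Fin 3) ℂ := ∑ j, C (n j) * aeval q (pderiv j F) with hH
  have hHh : H.IsHomogeneous 3 := IsHomogeneous.sum _ _ _ fun j _ => by
    simpa using (isHomogeneous_C (Fin 3) (n j)).mul (hFj j)
  have hdh : ∀ i, (pderiv i (sec F e)).IsHomogeneous 3 := fun i => by
    rw [hchain]
    exact IsHomogeneous.sum _ _ _ fun j _ => by
      simpa using (isHomogeneous_C (Fin 3) (e i j)).mul (hFj j)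
  set K : Ideal (MvPolynomial (Fin 3) ℂ) := RingHom.ker (aeval N : MvPolynomial (Fin 3) ℂ →ₐ[ℂ] k)
    with hK
  have hKp : K.IsPrime := RingHom.ker_isPrime _
  set p : Ideal (MvPolynomial (Fin 3) ℂ) :=
    (Ideal.homogeneousCore (homogeneousSubmodule (Fin 3) ℂ) K).toIdeal with hp
  have hpp : p.IsPrime := Ideal.IsPrime.homogeneousCore (𝒜 := homogeneousSubmodule (Fin 3) ℂ) hKp
  have hpK : p ≤ K := Ideal.toIdeal_homogeneousCore_le _ _
  have hpz : ∀ f ∈ p, aeval N f = 0 := fun f hf => hpK hf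
  have hhom : ∀ f ∈ p, ∀ i, homogeneousComponent i f ∈ p := fun f hf i =>
    homogeneousComponent_mem_of_mem
      (Ideal.homogeneousCore (homogeneousSubmodule (Fin 3) ℂ) K).isHomogeneous hf i
  have hmem : ∀ (f : MvPolynomial (Fin 3) ℂ) (d : ℕ), f.IsHomogeneous d → aeval N f = 0 → f ∈ p := by
    intro f d hf hf0
    exact Ideal.mem_homogeneousCore_of_homogeneous_of_mem ⟨d, hf⟩ hf0
  obtain ⟨k₀, hk₀⟩ := Function.ne_iff.1 hN
  rw [Pi.zero_apply] at hk₀
  have hXk : (X k₀ : MvPolynomial (Fin 3) ℂ) ∉ p := by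
    intro h1
    have h2 := hpz _ h1
    rw [aeval_X] at h2
    exact hk₀ h2
  have hzero : ∀ y : Fin 3 → ℂ, (∀ f ∈ p, eval y f = 0) → (∀ _ : Unit, eval y H = 0) → y = 0 := by
    intro y hy hyH
    have h1 : ∀ i, ∑ j, e i j * eval y (aeval q (pderiv j F)) = 0 := by
      intro i
      have h2 := hy _ (hmem _ 3 (hdh i) (h i))
      rw [hchain] at h2
      simpa using h2
    have h2 : ∑ j, n j * eval y (aeval q (pderiv j F)) = 0 := by
      have h3 := hyH ()
      rw [hH] at h3
      simpa using h3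
    have h3 := hn _ h1 h2
    have h4 : ∀ j, aeval (fun j => eval y (q j)) (pderiv j F) = 0 := by
      intro j
      have h5 := congrFun h3 j
      have h6 : eval y (aeval q (pderiv j F)) = aeval (fun j => eval y (q j)) (pderiv j F) := by
        have h7 : ((aeval y : MvPolynomial (Fin 3) ℂ →ₐ[ℂ] ℂ).comp (aeval q))
            = aeval (fun j => eval y (q j)) := by
          apply MvPolynomial.algHom_ext
          intro l
          rw [AlgHom.comp_apply, aeval_X, aeval_X, MvPolynomial.aeval_eq_eval]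
        have h8 := DFunLike.congr_fun h7 (pderiv j F)
        rw [AlgHom.comp_apply, MvPolynomial.aeval_eq_eval] at h8
        exact h8
      rw [← h6]
      exact h5
    have h5 := hs _ h4
    have h6 : ∑ i, y i • e i = 0 := by
      funext j
      have h7 := congrFun h5 j
      rw [hq] at h7
      simp only [map_sum, map_mul, eval_C, eval_X, Pi.zero_apply] at h7
      rw [Finset.sum_apply, Pi.zero_apply, ← h7]
      refine Finset.sum_congr rfl fun i _ => ?_
      rw [Pi.smul_apply, smul_eq_mul, mul_comm]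
    funext i
    exact Fintype.linearIndependent_iff.1 he y h6 i
  have hmu : ∀ i, ∃ μ : ℂ, N i ^ 3 = algebraMap ℂ k μ * aeval N H := by
    intro i
    obtain ⟨μ, hμ⟩ := eig (ι := Unit) p hhom (fun _ => X i ^ 3) (fun _ => H)
      (fun _ => isHomogeneous_X_pow i 3) (fun _ => hHh) (fun _ _ => by
        rw [sub_self]; exact p.zero_mem) hzero k₀ hXk
    refine ⟨μ, ?_⟩
    have h1 := hpz _ (hμ ())
    rw [map_sub, map_mul, map_pow, aeval_X, aeval_C, sub_eq_zero] at h1
    exact h1
  choose μ hμ using hmu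
  have hμ0 : algebraMap ℂ k (μ k₀) ≠ 0 := by
    intro h1
    have h2 := hμ k₀
    rw [h1, zero_mul] at h2
    exact pow_ne_zero 3 hk₀ h2
  have hH0 : aeval N H ≠ 0 := by
    intro h1
    have h2 := hμ k₀
    rw [h1, mul_zero] at h2
    exact pow_ne_zero 3 hk₀ h2
  have hr : ∀ i, ∃ r : ℂ, algebraMap ℂ k r = N i / N k₀ := by
    intro i
    refine gauss_pow_range (N i / N k₀) (μ i / μ k₀) 3 (by norm_num) ?_
    rw [div_pow, hμ i, hμ k₀, map_div₀]
    field_simp
  choose r hr using hr
  refine ⟨N k₀, r, hk₀, fun i => ?_⟩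
  rw [hr i]
  field_simp

end Pool.Agent.QX
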