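import Mathlib

/-! helper77: heights and stable subspaces (tools for QX, MP_1209e6_ag) -/

set_option autoImplicit false

open MvPolynomial

noncomputable section

namespace Pool.Agent.QX

/-- an element of an extension field which maps a nonzero finite dimensional subspace into itself is a
constant -/
theorem mem_range_of_stable {k K : Type*} [Field k] [IsAlgClosed k] [Field K] [Algebra k K]
    (V : Submodule k K) [FiniteDimensional k V] (hV : V ≠ ⊥) (φ : K) (h : ∀ v ∈ V, φ * v ∈ V) :
    ∃ c : k, algebraMap k K c = φ := by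
  have : Nontrivial V := Submodule.nontrivial_iff_ne_bot.mpr hV
  let f : Module.End k V := (LinearMap.mulLeft k φ).restrict h
  obtain ⟨c, hc⟩ := Module.End.exists_eigenvalue f
  obtain ⟨v, hv⟩ := hc.exists_hasEigenvector
  refine ⟨c, ?_⟩
  have h1 : f v = c • v := hv.apply_eq_smul
  have h2 : φ * (v : K) = c • (v : K) := by
    have := congrArg (fun t : V => (t : K)) h1
    simpa [f, LinearMap.restrict_apply] using this
  have h3 : (v : K) ≠ 0 := fun h => hv.2 (Subtype.ext h)
  rw [Algebra.smul_def] at h2
  exact (mul_right_cancel₀ h3 h2).symm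

variable {σ k : Type*} [Field k] [DecidableEq σ]

/-- `X i ↦ c i X j₀` for `i ∈ s` -/
def colMap (j₀ : σ) (c : σ → k) (s : Finset σ) : MvPolynomial σ k →ₐ[k] MvPolynomial σ k :=
  aeval (fun i => if i ∈ s then C (c i) * X j₀ else X i)

theorem colMap_comp (j₀ : σ) (c : σ → k) (s t : Finset σ) (hst : s ⊆ t) (hj : j₀ ∉ t) :
    (colMap j₀ c t).comp (colMap j₀ c s) = colMap j₀ c t := by
  apply MvPolynomial.algHom_ext
  intro i
  simp only [AlgHom.comp_apply, colMap, aeval_X]
  split_ifs with h1 h2 h2
  · rw [map_mul, aeval_X, if_neg hj]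
    simp [algHom_C, MvPolynomial.algebraMap_eq]
  · exact absurd (hst h1) h2
  · rw [aeval_X, if_pos h2]
  · rw [aeval_X, if_neg h2]

theorem le_height_colMap (j₀ : σ) (c : σ → k) (s : Finset σ) (hj : j₀ ∉ s) :
    (s.card : ℕ∞) ≤ (RingHom.ker (colMap j₀ c s)).height := by
  induction s using Finset.induction_on with
  | empty => simp
  | insert i s his ih =>
    have hjs : j₀ ∉ s := fun h => hj (Finset.mem_insert_of_mem h)
    have h1 : (RingHom.ker (colMap j₀ c s)).IsPrime := RingHom.ker_isPrime _
    have h2 : (RingHom.ker (colMap j₀ c (insert i s))).IsPrime := RingHom.ker_isPrime _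
    have hij : i ≠ j₀ := fun h => hj (h ▸ Finset.mem_insert_self i s)
    have hlt : RingHom.ker (colMap j₀ c s) < RingHom.ker (colMap j₀ c (insert i s)) := by
      refine lt_of_le_of_ne ?_ ?_
      · intro f hf
        rw [RingHom.mem_ker] at hf ⊢
        rw [← colMap_comp j₀ c s (insert i s) (Finset.subset_insert i s) hj, AlgHom.comp_apply, hf,
          map_zero]
      · intro he
        have h3 : (X i - C (c i) * X j₀ : MvPolynomial σ k) ∈
            RingHom.ker (colMap j₀ c (insert i s)) := by
          rw [RingHom.mem_ker, map_sub, map_mul, colMap, aeval_X, aeval_X,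
            if_pos (Finset.mem_insert_self i s), if_neg hj]
          simp [algHom_C, MvPolynomial.algebraMap_eq]
        rw [← he, RingHom.mem_ker, map_sub, map_mul, colMap, aeval_X, aeval_X, if_neg his,
          if_neg hjs] at h3
        have h4 := congrArg (fun g => coeff (Finsupp.single i 1) g) h3
        simp [algHom_C, MvPolynomial.algebraMap_eq, coeff_C_mul, coeff_X', Finsupp.single_left_inj,
          hij.symm] at h4
    have h4 := Ideal.height_add_one_le_of_lt_of_isPrime hlt
    rw [Finset.card_insert_of_notMem his]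
    push_cast
    exact (add_le_add_left (ih hjs) 1).trans h4

/-- if modulo the prime `p` all variables are multiples of one variable, `p` has height at least
`card σ - 1` -/
theorem le_height_of_line [Fintype σ] (p : Ideal (MvPolynomial σ k)) (j₀ : σ) (c : σ → k)
    (hc : ∀ i, i ≠ j₀ → X i - C (c i) * X j₀ ∈ p) :
    ((Fintype.card σ - 1 : ℕ) : ℕ∞) ≤ p.height := by
  have h1 : ((Finset.univ.erase j₀).card : ℕ∞) ≤
      (RingHom.ker (colMap j₀ c (Finset.univ.erase j₀))).height :=
    le_height_colMap j₀ c _ (Finset.notMem_erase _ _)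
  rw [Finset.card_erase_of_mem (Finset.mem_univ _), Finset.card_univ] at h1
  refine h1.trans (Ideal.height_mono ?_)
  intro f hf
  rw [RingHom.mem_ker] at hf
  have h2 : ((Ideal.Quotient.mkₐ k p).comp (colMap j₀ c (Finset.univ.erase j₀))) =
      Ideal.Quotient.mkₐ k p := by
    apply MvPolynomial.algHom_ext
    intro i
    simp only [AlgHom.comp_apply, colMap, aeval_X]
    split_ifs with h
    · symm
      rw [← sub_eq_zero, ← map_sub]
      exact Ideal.Quotient.eq_zero_iff_mem.mpr (hc i (Finset.ne_of_mem_erase h))
    · rfl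
  have h3 := congrArg (fun g => g f) h2
  simp only [AlgHom.comp_apply, hf, map_zero] at h3
  exact Ideal.Quotient.eq_zero_iff_mem.mp h3.symm

end Pool.Agent.QX
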