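import Pool.Agent.Lib_MP_1209e6_qx.Defs
import Pool.Agent.Lib_MP_1209e6_ds.Krull20
import Pool.Agent.Lib_MP_1209e6_cy.VHom

/-! PIECE IRRED, first half (helper48): a smooth quartic form is irreducible. -/

set_option autoImplicit false

open MvPolynomial

noncomputable section

namespace Pool.Agent.QX

theorem x48_aeval_zero {F : MvPolynomial (Fin 4) ℂ} {d : ℕ} (hF : F.IsHomogeneous d) (hd : d ≠ 0) :
    aeval (0 : Fin 4 → ℂ) F = 0 := by
  rw [MvPolynomial.aeval_def, MvPolynomial.eval₂_eq]
  apply Finset.sum_eq_zero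
  intro m hm
  have h1 := hF (MvPolynomial.mem_support_iff.1 hm)
  have h2 : ∃ i, m i ≠ 0 := by
    by_contra h
    push Not at h
    apply hd
    rw [← h1]
    have : m = 0 := Finsupp.ext h
    rw [this]
    simp
  obtain ⟨i, hi⟩ := h2
  rw [Finset.prod_eq_zero (Finsupp.mem_support_iff.2 hi) (by simp [hi])]
  simp

theorem x48_irreducible {F : MvPolynomial (Fin 4) ℂ} (hF : F.IsHomogeneous 4) (hs : Pool.Agent.DS.Smooth F) :
    Irreducible F := by
  have hF0 : F ≠ 0 := by
    rintro rfl
    have := hs (fun _ => 1) (by intro j; simp)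
    simpa using congrFun this 0
  constructor
  · intro hu
    have h1 := x48_aeval_zero hF (by norm_num)
    have h2 : IsUnit (aeval (0 : Fin 4 → ℂ) F) := hu.map _
    rw [h1] at h2
    simp at h2
  · intro a b hab
    by_contra hcon
    push Not at hcon
    obtain ⟨ha, hb⟩ := hcon
    have ha0 : a ≠ 0 := by rintro rfl; exact hF0 (by rw [hab, zero_mul])
    have hb0 : b ≠ 0 := by rintro rfl; exact hF0 (by rw [hab, mul_zero])
    obtain ⟨da, hda⟩ := Pool.Agent.MP_1209e6_cy.isHomogeneous_of_dvd hF hF0 (Dvd.intro _ hab.symm)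
    obtain ⟨db, hdb⟩ := Pool.Agent.MP_1209e6_cy.isHomogeneous_of_dvd hF hF0 (Dvd.intro_left _ hab.symm)
    have key : ∀ (c : MvPolynomial (Fin 4) ℂ) (d : ℕ), c.IsHomogeneous d → c ≠ 0 → ¬ IsUnit c → d ≠ 0 := by
      rintro c d hc hc0 hcu rfl
      apply hcu
      have h1 := (totalDegree_eq_zero_iff_eq_C (p := c)).1 (Nat.le_zero.1 hc.totalDegree_le)
      rw [h1]
      have h2 : coeff 0 c ≠ 0 := by
        intro h
        apply hc0
        rw [h1, h, C_0]
      exact (isUnit_iff_ne_zero.2 h2).map C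
    have h1 := key a da hda ha0 ha
    have h2 := key b db hdb hb0 hb
    obtain ⟨y, hy0, hy⟩ := Pool.Agent.DS.exists_common_zero (J := Fin 4) (Ω := ℂ) (I := Fin 2) ![a, b]
      (by
        intro i
        fin_cases i
        · exact x48_aeval_zero hda h1
        · exact x48_aeval_zero hdb h2)
      (by simp)
    apply hy0
    apply hs
    intro j
    have e1 : aeval y a = 0 := hy 0
    have e2 : aeval y b = 0 := hy 1
    rw [hab, Derivation.leibniz, map_add, smul_eq_mul, smul_eq_mul, map_mul, map_mul, e1, e2]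
    ring

end Pool.Agent.QX
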