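import Pool.Agent.Lib_MP_1209e6_qx.Defs
import Pool.Agent.Lib_MP_1209e6_cn.Bez

/-! Dehomogenisation of an irreducible form (for PIECE IRRED, `eval_iff`). -/

set_option autoImplicit false

open MvPolynomial

noncomputable section

namespace Pool.Agent.QX

theorem hom67 {n d : ℕ} {F : MvPolynomial (Fin n) ℂ} (hF : F.IsHomogeneous d) {R : Type}
    [CommRing R] [Algebra ℂ R] (s : R) (p : Fin n → R) :
    aeval (fun j => s * p j) F = s ^ d * aeval p F := by
  rw [aeval_def, aeval_def, eval₂_eq', eval₂_eq', Finset.mul_sum]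
  refine Finset.sum_congr rfl fun e he => ?_
  have hd : ∑ i, e i = d := by
    have h1 := hF (mem_support_iff.1 he)
    rw [← h1, Finsupp.weight_apply, Finsupp.sum_fintype]
    · simp
    · simp
  simp only [mul_pow, Finset.prod_mul_distrib]
  rw [Finset.prod_pow_eq_pow_sum, hd]
  ring

/-- homogenisation -/
theorem exists_hom67 (G : MvPolynomial (Fin 3) ℂ) : ∃ (N : ℕ) (H : MvPolynomial (Fin 4) ℂ),
    ∀ (A : Type) [CommRing A] [Algebra ℂ A] (t : A) (x : Fin 3 → A),
      aeval (Fin.cons t (fun i => t * x i) : Fin 4 → A) H = t ^ N * aeval x G := by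
  induction G using MvPolynomial.induction_on with
  | C a => exact ⟨0, C a, fun A _ _ t x => by simp⟩
  | add p q hp hq =>
    obtain ⟨N, H, h⟩ := hp
    obtain ⟨N', H', h'⟩ := hq
    refine ⟨N + N', X 0 ^ N' * H + X 0 ^ N * H', fun A _ _ t x => ?_⟩
    rw [map_add, map_mul, map_mul, map_pow, map_pow, aeval_X, h, h', map_add]
    simp only [Fin.cons_zero]
    ring
  | mul_X p i hp =>
    obtain ⟨N, H, h⟩ := hp
    refine ⟨N + 1, H * X i.succ, fun A _ _ t x => ?_⟩
    rw [map_mul, h, aeval_X, map_mul, aeval_X, Fin.cons_succ]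
    ring

/-- `F (1, X)` -/
def deh67 (F : MvPolynomial (Fin 4) ℂ) : MvPolynomial (Fin 3) ℂ :=
  aeval (Fin.cons 1 X : Fin 4 → MvPolynomial (Fin 3) ℂ) F

theorem aeval_deh67 (F : MvPolynomial (Fin 4) ℂ) {A : Type} [CommRing A] [Algebra ℂ A]
    (x : Fin 3 → A) : aeval x (deh67 F) = aeval (Fin.cons 1 x : Fin 4 → A) F := by
  unfold deh67
  rw [MvPolynomial.comp_aeval_apply]
  congr 2
  funext j
  refine Fin.cases ?_ (fun j => ?_) j
  · simp
  · simp

theorem deh_irr67 {F : MvPolynomial (Fin 4) ℂ} (hF : F.IsHomogeneous 4) (hirr : Irreducible F) :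
    Irreducible (deh67 F) := by
  have hprime : Prime F := hirr.prime
  have hX : ∀ n, ¬ F ∣ X 0 ^ n := by
    intro n hn
    obtain ⟨u, hu⟩ := hprime.dvd_of_dvd_pow hn
    have hu0 : u ≠ 0 := by
      intro h0
      rw [h0, mul_zero] at hu
      exact X_ne_zero (R := ℂ) (0 : Fin 4) hu
    have h1 := congrArg totalDegree hu
    rw [totalDegree_X, totalDegree_mul_of_isDomain hprime.ne_zero hu0,
      hF.totalDegree hprime.ne_zero] at h1
    omega
  let P := MvPolynomial (Fin 4) ℂ
  let A := FractionRing P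
  let t : A := algebraMap P A (X 0)
  have hinj : Function.Injective (algebraMap P A) := IsFractionRing.injective P A
  have ht : t ≠ 0 := by
    intro h0
    exact X_ne_zero (R := ℂ) (0 : Fin 4) (hinj (h0.trans (map_zero _).symm))
  let x : Fin 3 → A := fun i => algebraMap P A (X i.succ) / t
  have hpt : (Fin.cons t (fun i => t * x i) : Fin 4 → A) = fun j => algebraMap P A (X j) := by
    funext j
    refine Fin.cases ?_ (fun j => ?_) j
    · rfl
    · simp only [Fin.cons_succ, x]
      rw [mul_comm, div_mul_cancel₀ _ ht]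
  have hev : ∀ H : P, aeval (Fin.cons t (fun i => t * x i) : Fin 4 → A) H = algebraMap P A H := by
    intro H
    rw [hpt]
    have h1 := MvPolynomial.comp_aeval_apply (f := (X : Fin 4 → P))
      (IsScalarTower.toAlgHom ℂ P A) H
    rw [aeval_X_left_apply] at h1
    exact h1.symm
  have hFt : algebraMap P A F = t ^ 4 * aeval x (deh67 F) := by
    rw [← hev F, aeval_deh67, ← hom67 hF]
    congr 2
    funext j
    refine Fin.cases ?_ (fun j => ?_) j
    · simp
    · simp
  refine irreducible_iff.2 ⟨?_, ?_⟩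
  · intro hu
    obtain ⟨b, hb⟩ := hu.exists_right_inv
    obtain ⟨N, H, h⟩ := exists_hom67 b
    refine hX (4 + N) ⟨H, ?_⟩
    apply hinj
    rw [map_mul, map_pow, hFt, ← hev H, h A t x]
    have h1 : aeval x (deh67 F) * aeval x b = 1 := by rw [← map_mul, hb, map_one]
    calc t ^ (4 + N) = t ^ 4 * t ^ N * 1 := by ring
      _ = t ^ 4 * aeval x (deh67 F) * (t ^ N * aeval x b) := by rw [← h1]; ring
  · intro a b hab
    have hf0 : deh67 F ≠ 0 := by
      intro h0
      rw [h0, map_zero, mul_zero] at hFt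
      exact hprime.ne_zero (hinj (hFt.trans (map_zero _).symm))
    obtain ⟨N, H, h⟩ := exists_hom67 a
    obtain ⟨N', H', h'⟩ := exists_hom67 b
    have hmul : X 0 ^ 4 * (H * H') = X 0 ^ (N + N') * F := by
      apply hinj
      rw [map_mul, map_mul, map_mul, map_pow, map_pow, hFt, ← hev H, ← hev H', h A t x, h' A t x,
        hab, map_mul]
      show t ^ 4 * (t ^ N * aeval x a * (t ^ N' * aeval x b)) =
        t ^ (N + N') * (t ^ 4 * (aeval x a * aeval x b))
      ring
    have hone : ∀ {c : MvPolynomial (Fin 3) ℂ} {n : ℕ} {H : MvPolynomial (Fin 4) ℂ},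
        (∀ (A : Type) [CommRing A] [Algebra ℂ A] (t : A) (x : Fin 3 → A),
          aeval (Fin.cons t (fun i => t * x i) : Fin 4 → A) H = t ^ n * aeval x c) → F ∣ H →
          deh67 F ∣ c := by
      intro c n H hH hd
      obtain ⟨u, hu⟩ := hd
      have h1 := hH (MvPolynomial (Fin 3) ℂ) 1 X
      rw [one_pow, one_mul, aeval_X_left_apply] at h1
      simp only [one_mul] at h1
      refine ⟨aeval (Fin.cons 1 X : Fin 4 → MvPolynomial (Fin 3) ℂ) u, ?_⟩
      rw [← h1, hu, map_mul]
      rfl
    have hd : F ∣ X 0 ^ 4 * (H * H') := ⟨X 0 ^ (N + N'), by rw [hmul, mul_comm]⟩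
    rcases hprime.dvd_or_dvd hd with h1 | h1
    · exact absurd h1 (hX 4)
    · rcases hprime.dvd_or_dvd h1 with h2 | h2
      · right
        obtain ⟨u, hu⟩ := hone h h2
        have h3 : deh67 F * 1 = deh67 F * (u * b) := by
          rw [mul_one, ← mul_assoc, ← hu]
          exact hab
        exact IsUnit.of_mul_eq_one_right u (mul_left_cancel₀ hf0 h3).symm
      · left
        obtain ⟨u, hu⟩ := hone h' h2
        have h3 : deh67 F * 1 = deh67 F * (u * a) := by
          rw [mul_one, ← mul_assoc, ← hu, mul_comm]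
          exact hab.trans (mul_comm _ _) |>.trans (mul_comm _ _)
        exact IsUnit.of_mul_eq_one_right u (mul_left_cancel₀ hf0 h3).symm

theorem eval_key67 {F : MvPolynomial (Fin 4) ℂ} (hF : F.IsHomogeneous 4) (hirr : Irreducible F)
    {K : Type} [Field K] [Algebra ℂ K] (z : Fin 3 → K)
    (hz : aeval (Fin.cons 1 z : Fin 4 → K) F = 0)
    (hz2 : ∃ i j, AlgebraicIndependent ℂ ![z i, z j]) (G : MvPolynomial (Fin 3) ℂ) :
    aeval z G = 0 ↔ deh67 F ∣ G := by
  constructor
  · intro hG
    by_contra hnd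
    obtain ⟨i, j, hij⟩ := hz2
    have hne : i ≠ j := by
      intro h
      have h1 := hij.injective (a₁ := (0 : Fin 2)) (a₂ := 1) (by simp [h])
      exact absurd h1 (by decide)
    have hthird : ∀ i j : Fin 3, i ≠ j → ∃ l : Fin 3, ∀ m, m ≠ l → m = i ∨ m = j := by decide
    obtain ⟨l, hl⟩ := hthird i j hne
    have hrel : IsRelPrime (deh67 F) G := (deh_irr67 hF hirr).isRelPrime_iff_not_dvd.2 hnd
    refine Pool.Agent.CYn.bezout_alg (deh67 F) G hrel z l ?_ (by rw [aeval_deh67]; exact hz) hG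
    let e : {m // m ≠ l} → Fin 2 := fun m => if m.1 = i then 0 else 1
    have he : Function.Injective e := by
      intro a b hab
      apply Subtype.ext
      simp only [e] at hab
      rcases hl a.1 a.2 with h1 | h1 <;> rcases hl b.1 b.2 with h2 | h2
      · rw [h1, h2]
      · rw [if_pos h1, if_neg (by rw [h2]; exact hne.symm)] at hab
        exact absurd hab (by decide)
      · rw [if_neg (by rw [h1]; exact hne.symm), if_pos h2] at hab
        exact absurd hab (by decide)
      · rw [h1, h2]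
    have h3 := hij.comp e he
    have h4 : (![z i, z j] ∘ e) = fun m : {m // m ≠ l} => z m := by
      funext m
      simp only [Function.comp_apply, e]
      rcases hl m.1 m.2 with h1 | h1
      · rw [if_pos h1, h1]; rfl
      · rw [if_neg (by rw [h1]; exact hne.symm), h1]; rfl
    rw [h4] at h3
    exact h3
  · rintro ⟨u, rfl⟩
    rw [map_mul, aeval_deh67, hz, zero_mul]

theorem eval_iff67 {F : MvPolynomial (Fin 4) ℂ} (hF : F.IsHomogeneous 4) (hirr : Irreducible F)
    {K M : Type} [Field K] [Algebra ℂ K] [Field M] [Algebra ℂ M] (z : Fin 3 → K) (w : Fin 3 → M)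
    (hz : aeval (Fin.cons 1 z : Fin 4 → K) F = 0) (hw : aeval (Fin.cons 1 w : Fin 4 → M) F = 0)
    (hz2 : ∃ i j, AlgebraicIndependent ℂ ![z i, z j]) (hw2 : ∃ i j, AlgebraicIndependent ℂ ![w i, w j])
    (G : MvPolynomial (Fin 3) ℂ) : aeval z G = 0 ↔ aeval w G = 0 :=
  (eval_key67 hF hirr z hz hz2 G).trans (eval_key67 hF hirr w hw hw2 G).symm

end Pool.Agent.QX
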