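import Pool.Agent.Lib_MP_1209e6_qx.Defs
import Pool.Agent.Lib_MP_1209e6_qx.X67
import Pool.Agent.Lib_MP_1209e6_qx.X48

/-! PIECE IRRED: a smooth quartic form is irreducible, also after `X₀ = 1`. -/

set_option autoImplicit false

open MvPolynomial

noncomputable section

namespace Pool.Agent.QX

/-- `F = F₁ F₂` with nonconstant (homogeneous) factors: they have a common zero `≠ 0` in `ℂ⁴` (two forms, four
variables), a singular point. -/
theorem irreducible {F : MvPolynomial (Fin 4) ℂ} (hF : F.IsHomogeneous 4) (hs : Pool.Agent.DS.Smooth F) :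
    Irreducible F :=
  x48_irreducible hF hs

/-- The kernel of `ℂ[X₁, X₂, X₃] → K`, `X ↦ z`, with `F (1, z) = 0` and transcendence degree `2`, is generated by
`F (1, X)` (`X₀` does not divide `F`, so `F (1, X)` is irreducible; a prime of height `≥ 2` gives transcendence degree
`≤ 1`). Stated as: a polynomial vanishes at one such point iff it vanishes at another one. -/
theorem eval_iff {F : MvPolynomial (Fin 4) ℂ} (hF : F.IsHomogeneous 4) (hs : Pool.Agent.DS.Smooth F)
    {K M : Type} [Field K] [Algebra ℂ K] [Field M] [Algebra ℂ M] (z : Fin 3 → K) (w : Fin 3 → M)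
    (hz : aeval (Fin.cons 1 z : Fin 4 → K) F = 0) (hw : aeval (Fin.cons 1 w : Fin 4 → M) F = 0)
    (hz2 : ∃ i j, AlgebraicIndependent ℂ ![z i, z j]) (hw2 : ∃ i j, AlgebraicIndependent ℂ ![w i, w j])
    (G : MvPolynomial (Fin 3) ℂ) : aeval z G = 0 ↔ aeval w G = 0 :=
  eval_iff67 hF (irreducible hF hs) z w hz hw hz2 hw2 G

end Pool.Agent.QX
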