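import Mathlib

/-! Singular quartic surfaces, part A: coordinates in which the singular point is `(1, 0, 0, 0)`. -/

set_option autoImplicit false

open MvPolynomial

noncomputable section

namespace Pool.Agent.QS

/-- the vector with the coordinates `y` in the basis `a`, `e_j` (`j ≠ m`) -/
def xc {A : Type} [CommRing A] [Algebra ℂ A] (a : Fin 4 → ℂ) (m : Fin 4) (y : Fin 4 → A) (j : Fin 4) : A :=
  algebraMap ℂ A (a j) * y 0 + (Fin.insertNth m (0 : A) (fun i : Fin 3 => y i.succ) : Fin 4 → A) j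

/-- the coordinates of `x` in the basis `a`, `e_j` (`j ≠ m`) -/
def yc {A : Type} [CommRing A] [Algebra ℂ A] (a : Fin 4 → ℂ) (m : Fin 4) (x : Fin 4 → A) : Fin 4 → A :=
  Fin.cons (algebraMap ℂ A (a m)⁻¹ * x m) fun i =>
    x (m.succAbove i) - algebraMap ℂ A (a (m.succAbove i)) * (algebraMap ℂ A (a m)⁻¹ * x m)

section

variable {A : Type} [CommRing A] [Algebra ℂ A] {a : Fin 4 → ℂ} {m : Fin 4}

theorem xc_yc (ha : a m ≠ 0) (x : Fin 4 → A) : xc a m (yc a m x) = x := by
  funext j
  rcases Fin.eq_self_or_eq_succAbove m j with rfl | ⟨i, rfl⟩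
  · have h : algebraMap ℂ A (a j) * algebraMap ℂ A (a j)⁻¹ = 1 := by
      rw [← map_mul, mul_inv_cancel₀ ha, map_one]
    simp only [xc, yc, Fin.cons_zero, Fin.insertNth_apply_same, add_zero]
    rw [← mul_assoc, h, one_mul]
  · simp only [xc, yc, Fin.cons_zero, Fin.cons_succ, Fin.insertNth_apply_succAbove]
    ring

theorem yc_xc (ha : a m ≠ 0) (y : Fin 4 → A) : yc a m (xc a m y) = y := by
  have h : algebraMap ℂ A (a m)⁻¹ * algebraMap ℂ A (a m) = 1 := by
    rw [← map_mul, inv_mul_cancel₀ ha, map_one]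
  have h0 : algebraMap ℂ A (a m)⁻¹ * xc a m y m = y 0 := by
    simp only [xc, Fin.insertNth_apply_same, add_zero]
    rw [← mul_assoc, h, one_mul]
  funext j
  refine Fin.cases ?_ (fun i => ?_) j
  · simp only [yc, Fin.cons_zero, h0]
  · simp only [yc, Fin.cons_succ, h0]
    simp only [xc, Fin.insertNth_apply_succAbove]
    ring

theorem map_xc {B : Type} [CommRing B] [Algebra ℂ B] (φ : A →ₐ[ℂ] B) (y : Fin 4 → A) (j : Fin 4) :
    φ (xc a m y j) = xc a m (fun i => φ (y i)) j := by
  rcases Fin.eq_self_or_eq_succAbove m j with rfl | ⟨i, rfl⟩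
  · simp [xc]
  · simp [xc]

theorem map_yc {B : Type} [CommRing B] [Algebra ℂ B] (φ : A →ₐ[ℂ] B) (x : Fin 4 → A) (j : Fin 4) :
    φ (yc a m x j) = yc a m (fun i => φ (x i)) j := by
  refine Fin.cases ?_ (fun i => ?_) j
  · simp [yc]
  · simp [yc]

end

/-- the form `F` in the new coordinates -/
def newF (a : Fin 4 → ℂ) (m : Fin 4) (F : MvPolynomial (Fin 4) ℂ) : MvPolynomial (Fin 4) ℂ :=
  aeval (xc a m (X : Fin 4 → MvPolynomial (Fin 4) ℂ)) F

theorem aeval_newF {A : Type} [CommRing A] [Algebra ℂ A] (a : Fin 4 → ℂ) (m : Fin 4)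
    (F : MvPolynomial (Fin 4) ℂ) (y : Fin 4 → A) : aeval y (newF a m F) = aeval (xc a m y) F := by
  have h : (aeval y : MvPolynomial (Fin 4) ℂ →ₐ[ℂ] A).comp
      (aeval (xc a m (X : Fin 4 → MvPolynomial (Fin 4) ℂ))) = aeval (xc a m y) := by
    apply MvPolynomial.algHom_ext
    intro j
    rw [AlgHom.comp_apply, aeval_X, aeval_X, map_xc]
    congr 1
    funext i
    exact aeval_X _ _
  exact DFunLike.congr_fun h F

theorem newF_hom {a : Fin 4 → ℂ} {m : Fin 4} {F : MvPolynomial (Fin 4) ℂ} (hF : F.IsHomogeneous 4) :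
    (newF a m F).IsHomogeneous 4 := by
  have h := hF.aeval (xc a m (X : Fin 4 → MvPolynomial (Fin 4) ℂ)) (n := 1) (fun j => by
    rcases Fin.eq_self_or_eq_succAbove m j with rfl | ⟨i, rfl⟩
    · simp only [xc, Fin.insertNth_apply_same, add_zero]
      simpa using (isHomogeneous_C (Fin 4) (a j)).mul (isHomogeneous_X ℂ (0 : Fin 4))
    · simp only [xc, Fin.insertNth_apply_succAbove]
      refine IsHomogeneous.add ?_ (isHomogeneous_X ℂ _)
      simpa using (isHomogeneous_C (Fin 4) (a (m.succAbove i))).mul (isHomogeneous_X ℂ (0 : Fin 4)))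
  simpa [newF] using h

/-- the value at a point of the first axis -/
theorem eval_axis {H : MvPolynomial (Fin 4) ℂ} {d : ℕ} (hH : H.IsHomogeneous d) :
    eval (Fin.cons 1 0 : Fin 4 → ℂ) H = coeff (Finsupp.single 0 d) H := by
  classical
  rw [eval_eq']
  rw [Finset.sum_eq_single (Finsupp.single (0 : Fin 4) d)]
  · simp [Fin.prod_univ_succ]
  · intro e he hne
    have h1 : ∃ i : Fin 3, e i.succ ≠ 0 := by
      by_contra hcon
      push Not at hcon
      apply hne
      have h2 := hH (mem_support_iff.1 he)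
      have h3 : e 0 = d := by
        rw [Finsupp.weight_apply, Finsupp.sum_fintype _ _ (fun i => by simp)] at h2
        rw [Fin.sum_univ_succ] at h2
        simpa [hcon] using h2
      ext j
      refine Fin.cases ?_ (fun i => ?_) j
      · simp [h3]
      · rw [hcon i, Finsupp.single_apply, if_neg (Fin.succ_ne_zero i).symm]
    obtain ⟨i, hi⟩ := h1
    rw [Finset.prod_eq_zero (Finset.mem_univ i.succ), mul_zero]
    simp [hi]
  · intro h
    rw [notMem_support_iff.1 h, zero_mul]

end Pool.Agent.QS
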