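import Pool.Agent.Lib_MP_1209e6_qx.SingA

/-! Singular quartic surfaces, part B: `F = g₂ x₀² + g₃ x₀ + g₄` at a singular point. -/

set_option autoImplicit false

open MvPolynomial

noncomputable section

namespace Pool.Agent.QS

theorem chain {R : Type} [CommRing R] [Algebra ℂ R] (Δ : Derivation ℂ R R) {n : ℕ} (p : Fin n → R)
    (G : MvPolynomial (Fin n) ℂ) : Δ (aeval p G) = ∑ j, Δ (p j) * aeval p (pderiv j G) := by
  classical
  induction G using MvPolynomial.induction_on with
  | C a => simp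
  | add p q hp hq => simp only [map_add, hp, hq, mul_add, Finset.sum_add_distrib]
  | mul_X g i ih =>
    have h : ∀ l, Δ (p l) * aeval p (pderiv l (g * X i)) =
        Δ (p l) * aeval p (pderiv l g) * p i +
          aeval p g * (if i = l then Δ (p l) else 0) := by
      intro l
      rw [pderiv_mul, pderiv_X, map_add, map_mul, map_mul, aeval_X, Pi.single_apply]
      by_cases hl : i = l
      · rw [if_pos hl, if_pos hl, map_one]; ring
      · rw [if_neg hl, if_neg hl, map_zero]; ring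
    simp only [h, Finset.sum_add_distrib, ← Finset.sum_mul, ← Finset.mul_sum,
      Finset.sum_ite_eq, Finset.mem_univ, if_true]
    rw [map_mul, aeval_X, Derivation.leibniz, smul_eq_mul, smul_eq_mul, ih]
    ring

variable {a : Fin 4 → ℂ} {m : Fin 4} {F : MvPolynomial (Fin 4) ℂ}

theorem xc_axis (a : Fin 4 → ℂ) (m : Fin 4) : xc a m (Fin.cons 1 0 : Fin 4 → ℂ) = a := by
  funext j
  rcases Fin.eq_self_or_eq_succAbove m j with rfl | ⟨i, rfl⟩
  · simp [xc]
  · simp [xc]

theorem eval_axis_pderiv (hs : ∀ j, eval a (pderiv j F) = 0) (i : Fin 4) :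
    eval (Fin.cons 1 0 : Fin 4 → ℂ) (pderiv i (newF a m F)) = 0 := by
  rw [newF, chain, map_sum]
  refine Finset.sum_eq_zero fun j _ => ?_
  have h := aeval_newF a m (pderiv j F) (Fin.cons 1 0 : Fin 4 → ℂ)
  rw [xc_axis, newF] at h
  have h2 : eval (Fin.cons 1 0 : Fin 4 → ℂ) (aeval (xc a m (X : Fin 4 → MvPolynomial (Fin 4) ℂ)) (pderiv j F)) =
      eval a (pderiv j F) := by
    rw [← coe_aeval_eq_eval, ← coe_aeval_eq_eval]
    exact h
  rw [map_mul, h2, hs j, mul_zero]

theorem eval_axis_newF (hF : F.IsHomogeneous 4) (hs : ∀ j, eval a (pderiv j F) = 0) :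
    eval (Fin.cons 1 0 : Fin 4 → ℂ) (newF a m F) = 0 := by
  have h := aeval_newF a m F (Fin.cons 1 0 : Fin 4 → ℂ)
  rw [xc_axis] at h
  have h2 : eval (Fin.cons 1 0 : Fin 4 → ℂ) (newF a m F) = eval a F := by
    rw [← coe_aeval_eq_eval, ← coe_aeval_eq_eval]
    exact h
  rw [h2]
  have h3 := congrArg (eval a) hF.sum_X_mul_pderiv
  rw [map_sum] at h3
  have h4 : ∑ i, eval a (X i * pderiv i F) = 0 := by
    refine Finset.sum_eq_zero fun j _ => ?_
    rw [map_mul, hs j, mul_zero]
  rw [h4] at h3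
  simpa using h3.symm

/-- the coefficients of `F` in the new coordinates -/
def gc (a : Fin 4 → ℂ) (m : Fin 4) (F : MvPolynomial (Fin 4) ℂ) (i : ℕ) : MvPolynomial (Fin 3) ℂ :=
  (finSuccEquiv ℂ 3 (newF a m F)).coeff i

theorem gc_hom (hF : F.IsHomogeneous 4) (i j : ℕ) (h : i + j = 4) : (gc a m F i).IsHomogeneous j :=
  (newF_hom hF).finSuccEquiv_coeff_isHomogeneous i j h

theorem gc_four (hF : F.IsHomogeneous 4) (hs : ∀ j, eval a (pderiv j F) = 0) : gc a m F 4 = 0 := by
  ext e
  rw [coeff_zero]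
  by_contra hne
  have h1 := gc_hom hF 4 0 rfl hne
  have he : e = 0 := by
    rw [Finsupp.weight_apply, Finsupp.sum_fintype _ _ (fun i => by simp)] at h1
    ext j
    have h2 := (Finset.sum_eq_zero_iff.1 h1) j (Finset.mem_univ j)
    simpa using h2
  apply hne
  rw [gc, finSuccEquiv_coeff_coeff, he]
  have h3 := eval_axis (newF_hom (a := a) (m := m) hF)
  rw [eval_axis_newF hF hs] at h3
  have h4 : Finsupp.cons 4 (0 : Fin 3 →₀ ℕ) = Finsupp.single 0 4 := by
    ext j
    refine Fin.cases ?_ (fun i => ?_) j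
    · simp
    · rw [Finsupp.cons_succ, Finsupp.single_apply, if_neg (Fin.succ_ne_zero i).symm]
      rfl
  rw [h4]
  exact h3.symm

theorem gc_three (hF : F.IsHomogeneous 4) (hs : ∀ j, eval a (pderiv j F) = 0) : gc a m F 3 = 0 := by
  ext e
  rw [coeff_zero]
  by_contra hne
  have h1 := gc_hom hF 3 1 rfl hne
  have he : ∃ j, e = Finsupp.single j 1 := by
    rw [Finsupp.weight_apply, Finsupp.sum_fintype _ _ (fun i => by simp)] at h1
    simp only [Pi.one_apply, smul_eq_mul, mul_one] at h1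
    have h2 : ∃ j, e j ≠ 0 := by
      by_contra hcon
      push Not at hcon
      simp [hcon] at h1
    obtain ⟨j, hj⟩ := h2
    refine ⟨j, ?_⟩
    have h3 : e j + ∑ i ∈ Finset.univ.erase j, e i = 1 := by
      rw [← h1]
      exact Finset.add_sum_erase _ _ (Finset.mem_univ j)
    have h4 : ∑ i ∈ Finset.univ.erase j, e i = 0 := by omega
    have h5 : e j = 1 := by omega
    ext i
    by_cases hij : i = j
    · subst hij
      simp [h5]
    · have h6 := (Finset.sum_eq_zero_iff.1 h4) i (Finset.mem_erase.2 ⟨hij, Finset.mem_univ i⟩)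
      rw [h6, Finsupp.single_apply, if_neg (Ne.symm hij)]
  obtain ⟨j, rfl⟩ := he
  apply hne
  rw [gc, finSuccEquiv_coeff_coeff]
  have h3 := eval_axis ((newF_hom (a := a) (m := m) hF).pderiv (i := j.succ))
  rw [eval_axis_pderiv hs, coeff_pderiv] at h3
  have h4 : Finsupp.single (0 : Fin 4) (4 - 1) + Finsupp.single j.succ 1 =
      Finsupp.cons 3 (Finsupp.single j 1) := by
    ext i
    refine Fin.cases ?_ (fun i => ?_) i
    · simp [Finsupp.single_apply, Fin.succ_ne_zero]
    · rw [Finsupp.cons_succ]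
      simp [Finsupp.single_apply, Fin.succ_inj, (Fin.succ_ne_zero i).symm]
  rw [h4] at h3
  have h5 : (((Finsupp.single (0 : Fin 4) (4 - 1)) j.succ : ℕ) : ℂ) + 1 = 1 := by
    simp [Finsupp.single_apply, (Fin.succ_ne_zero j).symm]
  rw [h5, mul_one] at h3
  exact h3.symm

theorem gc_big (hF : F.IsHomogeneous 4) (i : ℕ) (hi : 4 < i) : gc a m F i = 0 := by
  apply Polynomial.coeff_eq_zero_of_natDegree_lt
  rw [natDegree_finSuccEquiv]
  refine lt_of_le_of_lt (degreeOf_le_totalDegree _ _) (lt_of_le_of_lt ?_ hi)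
  exact (newF_hom hF).totalDegree_le

theorem aeval_fin {A : Type} [CommRing A] [Algebra ℂ A] (G : MvPolynomial (Fin 4) ℂ) (y : Fin 4 → A) :
    aeval y G = (finSuccEquiv ℂ 3 G).eval₂
      ((aeval fun i : Fin 3 => y i.succ : MvPolynomial (Fin 3) ℂ →ₐ[ℂ] A) : MvPolynomial (Fin 3) ℂ →+* A) (y 0) := by
  have h : ((aeval y : MvPolynomial (Fin 4) ℂ →ₐ[ℂ] A) : MvPolynomial (Fin 4) ℂ →+* A) =
      (Polynomial.eval₂RingHom
        ((aeval fun i : Fin 3 => y i.succ : MvPolynomial (Fin 3) ℂ →ₐ[ℂ] A) : MvPolynomial (Fin 3) ℂ →+* A)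
          (y 0)).comp (finSuccEquiv ℂ 3 : MvPolynomial (Fin 4) ℂ →+* Polynomial (MvPolynomial (Fin 3) ℂ)) := by
    apply MvPolynomial.ringHom_ext
    · intro c
      have h1 : finSuccEquiv ℂ 3 (C c) = Polynomial.C (C c) := by
        rw [finSuccEquiv_apply]
        simp
      simp only [RingHom.coe_coe, RingHom.comp_apply, h1]
      simp
    · intro j
      refine Fin.cases ?_ (fun i => ?_) j
      · simp only [RingHom.coe_coe, RingHom.comp_apply, finSuccEquiv_X_zero]
        simp
      · simp only [RingHom.coe_coe, RingHom.comp_apply, finSuccEquiv_X_succ]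
        simp
  exact DFunLike.congr_fun h G

/-- the equation of the surface in the new coordinates -/
theorem expand (hF : F.IsHomogeneous 4) (hs : ∀ j, eval a (pderiv j F) = 0) {A : Type} [CommRing A]
    [Algebra ℂ A] (y : Fin 4 → A) : aeval y (newF a m F) =
      aeval (fun i : Fin 3 => y i.succ) (gc a m F 0) + aeval (fun i : Fin 3 => y i.succ) (gc a m F 1) * y 0 +
        aeval (fun i : Fin 3 => y i.succ) (gc a m F 2) * y 0 ^ 2 := by
  have hd : (finSuccEquiv ℂ 3 (newF a m F)).natDegree < 5 := by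
    rw [natDegree_finSuccEquiv]
    refine lt_of_le_of_lt (degreeOf_le_totalDegree _ _) (lt_of_le_of_lt ?_ (by norm_num : 4 < 5))
    exact (newF_hom hF).totalDegree_le
  rw [aeval_fin, Polynomial.eval₂_eq_sum_range' _ hd]
  have h3 := gc_three (m := m) hF hs
  have h4 := gc_four (m := m) hF hs
  rw [gc] at h3 h4
  simp [Finset.sum_range_succ, h3, h4, gc]

end Pool.Agent.QS
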