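import Pool.Agent.Lib_MP_1209e6_qx.SingC

/-! Singular quartic surfaces, part D: no form in the three coordinates of the projection from the singular
point vanishes at the generic point. -/

set_option autoImplicit false

open MvPolynomial

noncomputable section

namespace Pool.Agent.QS

/-- `F = 0` is not a cone: no translation along a vector leaves `F` unchanged -/
def NotCone (F : MvPolynomial (Fin 4) ℂ) : Prop :=
  ∀ b : Fin 4 → ℂ, b ≠ 0 → ∃ x : Fin 4 → ℂ, eval (x + b) F ≠ eval x F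

variable {a : Fin 4 → ℂ} {m : Fin 4} {F : MvPolynomial (Fin 4) ℂ}

theorem gc_ne (hF : F.IsHomogeneous 4) (hs : ∀ j, eval a (pderiv j F) = 0) (ha : a m ≠ 0) (hc : NotCone F) :
    gc a m F 1 ≠ 0 ∨ gc a m F 2 ≠ 0 := by
  by_contra hcon
  push Not at hcon
  obtain ⟨h1, h2⟩ := hcon
  have ha0 : a ≠ 0 := by
    rintro rfl
    exact ha rfl
  obtain ⟨x, hx⟩ := hc a ha0
  apply hx
  have key : ∀ x : Fin 4 → ℂ, eval x F = aeval (fun i : Fin 3 => yc a m x i.succ) (gc a m F 0) := by
    intro x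
    have h := aeval_newF a m F (yc a m x)
    rw [xc_yc ha, expand hF hs, h1, h2] at h
    rw [← coe_aeval_eq_eval]
    simpa using h.symm
  rw [key, key]
  have h3 : (fun i : Fin 3 => yc a m (x + a) i.succ) = fun i : Fin 3 => yc a m x i.succ := by
    funext i
    simp only [yc, Fin.cons_succ, Pi.add_apply, Algebra.algebraMap_self, RingHom.id_apply]
    field_simp
    ring
  rw [h3]

theorem finSucc_rename (A : MvPolynomial (Fin 3) ℂ) :
    finSuccEquiv ℂ 3 (rename Fin.succ A) = Polynomial.C A := by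
  have h : ((finSuccEquiv ℂ 3 : MvPolynomial (Fin 4) ℂ →+* Polynomial (MvPolynomial (Fin 3) ℂ))).comp
      ((rename Fin.succ : MvPolynomial (Fin 3) ℂ →ₐ[ℂ] MvPolynomial (Fin 4) ℂ) :
        MvPolynomial (Fin 3) ℂ →+* MvPolynomial (Fin 4) ℂ) = Polynomial.C := by
    apply MvPolynomial.ringHom_ext
    · intro c
      simp [finSuccEquiv_apply]
    · intro i
      simp [finSuccEquiv_X_succ]
  exact DFunLike.congr_fun h A

variable {K : Type} [Field K] [Algebra ℂ K]

theorem vanish (hF : F.IsHomogeneous 4) (hi : Irreducible F) (ha : a m ≠ 0)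
    (hg : gc a m F 1 ≠ 0 ∨ gc a m F 2 ≠ 0) (z : Fin 3 → K) (hz : aeval (Fin.cons 1 z : Fin 4 → K) F = 0)
    (hij : ∃ i j, AlgebraicIndependent ℂ ![z i, z j]) (d : ℕ) (A : MvPolynomial (Fin 3) ℂ)
    (hA : A.IsHomogeneous d)
    (h0 : aeval (fun i : Fin 3 => yc a m (Fin.cons 1 z : Fin 4 → K) i.succ) A = 0) : A = 0 := by
  let B : MvPolynomial (Fin 4) ℂ :=
    aeval (fun i : Fin 3 => yc a m (X : Fin 4 → MvPolynomial (Fin 4) ℂ) i.succ) A
  have hB : B.IsHomogeneous d := by
    have h := hA.aeval (fun i : Fin 3 => yc a m (X : Fin 4 → MvPolynomial (Fin 4) ℂ) i.succ) (n := 1) (fun i => by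
      simp only [yc, Fin.cons_succ]
      refine (isHomogeneous_X ℂ (m.succAbove i)).sub ?_
      have h1 := (isHomogeneous_C (Fin 4) (a (m.succAbove i))).mul
        ((isHomogeneous_C (Fin 4) (a m)⁻¹).mul (isHomogeneous_X ℂ m))
      simpa using h1)
    simpa [B] using h
  have hB0 : aeval (Fin.cons 1 z : Fin 4 → K) B = 0 := by
    rw [← h0]
    have h := DFunLike.congr_fun (comp_aeval (R := ℂ)
      (fun i : Fin 3 => yc a m (X : Fin 4 → MvPolynomial (Fin 4) ℂ) i.succ)
      (aeval (Fin.cons 1 z : Fin 4 → K) : MvPolynomial (Fin 4) ℂ →ₐ[ℂ] K)) A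
    refine Eq.trans h ?_
    congr 2
    funext i
    rw [map_yc]
    congr 1
    funext j
    exact aeval_X _ _
  obtain ⟨q, hq⟩ := dvd_of_zero hF hi z hz hij hB hB0
  have h1 : aeval (xc a m (X : Fin 4 → MvPolynomial (Fin 4) ℂ)) B = rename Fin.succ A := by
    have h := DFunLike.congr_fun (comp_aeval (R := ℂ)
      (fun i : Fin 3 => yc a m (X : Fin 4 → MvPolynomial (Fin 4) ℂ) i.succ)
      (aeval (xc a m (X : Fin 4 → MvPolynomial (Fin 4) ℂ)) :
        MvPolynomial (Fin 4) ℂ →ₐ[ℂ] MvPolynomial (Fin 4) ℂ)) A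
    refine Eq.trans h ?_
    rw [rename_eq_aeval]
    congr 2
    funext i
    rw [map_yc]
    have h2 : (fun j => aeval (xc a m (X : Fin 4 → MvPolynomial (Fin 4) ℂ)) (X j : MvPolynomial (Fin 4) ℂ)) =
        xc a m (X : Fin 4 → MvPolynomial (Fin 4) ℂ) := by
      funext j
      exact aeval_X _ _
    rw [h2, yc_xc ha]
    rfl
  rw [hq, map_mul] at h1
  have h2 := congrArg (finSuccEquiv ℂ 3) h1
  rw [map_mul, finSucc_rename] at h2
  by_contra hA0
  have h3 := congrArg Polynomial.natDegree h2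
  have h4 : finSuccEquiv ℂ 3 (aeval (xc a m (X : Fin 4 → MvPolynomial (Fin 4) ℂ)) F) *
      finSuccEquiv ℂ 3 (aeval (xc a m (X : Fin 4 → MvPolynomial (Fin 4) ℂ)) q) ≠ 0 := by
    rw [h2]
    exact Polynomial.C_ne_zero.2 hA0
  rw [Polynomial.natDegree_mul (left_ne_zero_of_mul h4) (right_ne_zero_of_mul h4),
    Polynomial.natDegree_C] at h3
  have h5 : (finSuccEquiv ℂ 3 (newF a m F)).natDegree = 0 := by
    have h6 : (finSuccEquiv ℂ 3 (aeval (xc a m (X : Fin 4 → MvPolynomial (Fin 4) ℂ)) F)).natDegree = 0 := by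
      omega
    exact h6
  rcases hg with hg | hg
  · exact hg (Polynomial.coeff_eq_zero_of_natDegree_lt (by omega))
  · exact hg (Polynomial.coeff_eq_zero_of_natDegree_lt (by omega))

/-- dehomogenisation -/
def flat (G : MvPolynomial (Fin 3) ℂ) : MvPolynomial (Fin 2) ℂ :=
  aeval (Fin.cons 1 X : Fin 3 → MvPolynomial (Fin 2) ℂ) G

theorem aeval_flat (u : Fin 2 → K) (G : MvPolynomial (Fin 3) ℂ) :
    aeval u (flat G) = aeval (Fin.cons 1 u : Fin 3 → K) G := by
  have h := DFunLike.congr_fun (comp_aeval (R := ℂ) (Fin.cons 1 X : Fin 3 → MvPolynomial (Fin 2) ℂ)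
    (aeval u : MvPolynomial (Fin 2) ℂ →ₐ[ℂ] K)) G
  refine Eq.trans h ?_
  congr 2
  funext i
  refine Fin.cases ?_ (fun j => ?_) i
  · simp
  · simp

theorem deg_flat {G : MvPolynomial (Fin 3) ℂ} {d : ℕ} (hG : G.IsHomogeneous d) : (flat G).totalDegree ≤ d := by
  rw [flat, aeval_def, eval₂_eq']
  refine (totalDegree_finsetSum _ _).trans (Finset.sup_le fun e he => ?_)
  refine (totalDegree_mul _ _).trans ?_
  rw [algebraMap_eq, totalDegree_C, zero_add]
  refine (totalDegree_finsetProd _ _).trans ?_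
  have h2 : ∑ i, e i = d := by
    have h3 := hG (mem_support_iff.1 he)
    rw [Finsupp.weight_apply, Finsupp.sum_fintype _ _ (by simp)] at h3
    simpa using h3
  rw [← h2]
  refine Finset.sum_le_sum fun i _ => ?_
  refine (totalDegree_pow _ _).trans ?_
  have h4 : ((Fin.cons 1 X : Fin 3 → MvPolynomial (Fin 2) ℂ) i).totalDegree ≤ 1 := by
    refine Fin.cases ?_ (fun j => ?_) i
    · simp
    · simp [totalDegree_X]
  simpa using Nat.mul_le_mul_left (e i) h4

theorem flat_scale {G : MvPolynomial (Fin 3) ℂ} {d : ℕ} (hG : G.IsHomogeneous d) {t : Fin 3 → K}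
    (ht : t 0 ≠ 0) : aeval t G = t 0 ^ d * aeval (fun i : Fin 2 => t i.succ / t 0) (flat G) := by
  rw [aeval_flat, ← scale hG]
  congr 2
  funext i
  refine Fin.cases ?_ (fun j => ?_) i
  · simp
  · simp only [Fin.cons_succ]
    field_simp

theorem indep_u {t : Fin 3 → K} (ht : t 0 ≠ 0)
    (V : ∀ (d : ℕ) (A : MvPolynomial (Fin 3) ℂ), A.IsHomogeneous d → aeval t A = 0 → A = 0) :
    AlgebraicIndependent ℂ (fun i : Fin 2 => t i.succ / t 0) := by
  rw [algebraicIndependent_iff]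
  intro q hq
  let Q : MvPolynomial (Fin 3) ℂ := ∑ i ∈ Finset.range (q.totalDegree + 1),
    X 0 ^ (q.totalDegree - i) * rename Fin.succ (homogeneousComponent i q)
  have hQ : Q.IsHomogeneous q.totalDegree := by
    refine IsHomogeneous.sum _ _ _ fun i hi => ?_
    have h1 := (isHomogeneous_X ℂ (0 : Fin 3)).pow (q.totalDegree - i)
    have h2 := (homogeneousComponent_isHomogeneous i q).rename_isHomogeneous (f := (Fin.succ : Fin 2 → Fin 3))
    have h3 := h1.mul h2
    have h4 : 1 * (q.totalDegree - i) + i = q.totalDegree := by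
      have := Finset.mem_range.1 hi
      omega
    rwa [h4] at h3
  have hQf : flat Q = q := by
    rw [flat, map_sum]
    conv_rhs => rw [← sum_homogeneousComponent q]
    refine Finset.sum_congr rfl fun i _ => ?_
    rw [map_mul, map_pow, aeval_X, Fin.cons_zero, one_pow, one_mul, aeval_rename]
    have h5 : ((Fin.cons 1 X : Fin 3 → MvPolynomial (Fin 2) ℂ) ∘ Fin.succ) = X := by
      funext j
      simp
    rw [h5, aeval_X_left, AlgHom.id_apply]
  have h6 : aeval t Q = 0 := by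
    rw [flat_scale hQ ht, hQf, hq, mul_zero]
  have h7 := V _ Q hQ h6
  rw [← hQf, h7, flat, map_zero]

theorem flat_ne {t : Fin 3 → K} (ht : t 0 ≠ 0)
    (V : ∀ (d : ℕ) (A : MvPolynomial (Fin 3) ℂ), A.IsHomogeneous d → aeval t A = 0 → A = 0)
    {G : MvPolynomial (Fin 3) ℂ} {d : ℕ} (hG : G.IsHomogeneous d) (h0 : G ≠ 0) :
    aeval (fun i : Fin 2 => t i.succ / t 0) (flat G) ≠ 0 := by
  intro h
  apply h0
  apply V d G hG
  rw [flat_scale hG ht, h, mul_zero]

end Pool.Agent.QS
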