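import Pool.Agent.Lib_MP_1209e6_dp.Homog
import Pool.Agent.Lib_MP_1209e6_ag.Der

/-! The genus one model of a plane quartic with two double points on the line `ℓ = 0`, which may be
infinitely near. -/

set_option autoImplicit false

open Pool.Agent.CampanaFlow

namespace Pool.Agent.QX

/-- the plane quartic in the coordinates `s`, `ℓ` -/
def tacG {R : Type} [CommRing R] (γ s1 s2 b0 b1 a0 a1 a2 c0 c1 ε S Λ : R) : R :=
  γ * ((S - s1) * (S - s2)) ^ 2 + Λ * ((S - s1) * (S - s2)) * (b0 + b1 * S) +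
    Λ ^ 2 * (a0 + a1 * S + a2 * S ^ 2) + Λ ^ 3 * (c0 + c1 * S) + ε * Λ ^ 4

/-- its radial derivative at the first double point, divided by `(S - s1) ^ 3`, on the curve:
`W = 2 g4 r + g3` where `r = S - s1`, `Λ = T r` and `G = r² (g2 + g3 r + g4 r²)` -/
def tacW {R : Type} [CommRing R] (γ s1 s2 b0 b1 a1 a2 c0 c1 ε T r : R) : R :=
  2 * (γ + T * b1 + T ^ 2 * a2 + T ^ 3 * c1 + T ^ 4 * ε) * r +
    (-2 * γ * (s2 - s1) + T * ((b0 + b1 * s1) - (s2 - s1) * b1) + T ^ 2 * (a1 + 2 * a2 * s1) +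
      T ^ 3 * (c0 + c1 * s1))

/-- **The model.** -/
theorem tac_model {L : Type} [Field L] [Algebra ℂ L] (k : IntermediateField ℂ L)
    (γ s1 s2 b0 b1 a0 a1 a2 c0 c1 ε : k) (r T : L) (hr : r ≠ 0) (hT : ¬ IsAlgebraic k T)
    (hG : tacG (γ : L) s1 s2 b0 b1 a0 a1 a2 c0 c1 ε (s1 + r) (T * r) = 0)
    (hW : tacW (γ : L) s1 s2 b0 b1 a1 a2 c0 c1 ε T r ≠ 0)
    (hgen : IntermediateField.adjoin ℂ ((k : Set L) ∪ {T, r}) = ⊤) :
    ∃ w : L, AlmostHomogeneous k (![1, T, T ^ 2, w] : Fin (3 + 1) → L) := by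
  have hL : CharZero L := charZero_of_injective_algebraMap (algebraMap ℂ L).injective
  have hkC : CharZero k := charZero_of_injective_algebraMap (algebraMap ℂ k).injective
  have hT0 : T ≠ 0 := fun h => hT (h ▸ isAlgebraic_zero)
  have c2 : ((2 : k) : L) = 2 := map_ofNat (algebraMap k L) 2
  have c4 : ((4 : k) : L) = 4 := map_ofNat (algebraMap k L) 4
  -- coefficients
  let e : k := s2 - s1
  let B0 : k := b0 + b1 * s1
  let A0 : k := a0 + a1 * s1 + a2 * s1 ^ 2
  let A1 : k := a1 + 2 * a2 * s1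
  let E0 : k := c0 + c1 * s1
  let q0 : k := (B0 - e * b1) ^ 2 - 4 * γ * e * A1 - 4 * (γ * e ^ 2 * a2 - e * B0 * b1 + A0 * γ)
  let q1 : k := 2 * (B0 - e * b1) * A1 - 4 * γ * e * E0 - 4 * (γ * e ^ 2 * c1 - e * B0 * a2 + A0 * b1)
  let q2 : k := A1 ^ 2 + 2 * (B0 - e * b1) * E0 - 4 * (γ * e ^ 2 * ε - e * B0 * c1 + A0 * a2)
  let q3 : k := 2 * A1 * E0 - 4 * (-(e * B0 * ε) + A0 * c1)
  let q4 : k := E0 ^ 2 - 4 * A0 * ε
  let g2 : L := γ * e ^ 2 - T * e * B0 + T ^ 2 * A0
  let g3 : L := -2 * γ * e + T * (B0 - e * b1) + T ^ 2 * A1 + T ^ 3 * E0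
  let g4 : L := γ + T * b1 + T ^ 2 * a2 + T ^ 3 * c1 + T ^ 4 * ε
  have hquad : g2 + g3 * r + g4 * r ^ 2 = 0 := by
    have h1 : r ^ 2 * (g2 + g3 * r + g4 * r ^ 2) = 0 := by
      rw [← hG]
      simp only [tacG, g2, g3, g4, e, B0, A0, A1, E0]
      push_cast
      simp only [c2, c4]
      ring
    exact (mul_eq_zero.1 h1).resolve_left (pow_ne_zero 2 hr)
  let W : L := 2 * g4 * r + g3
  have hWe : W = tacW (γ : L) s1 s2 b0 b1 a1 a2 c0 c1 ε T r := by
    simp only [tacW, W, g3, g4, e, B0, A1, E0]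
    push_cast
    simp only [c2, c4]
  have hW0 : W ≠ 0 := by
    rw [hWe]
    exact hW
  have hWsq : W ^ 2 = T ^ 2 * (q0 + q1 * T + q2 * T ^ 2 + q3 * T ^ 3 + q4 * T ^ 4) := by
    have h1 : W ^ 2 = g3 ^ 2 - 4 * g2 * g4 + 4 * g4 * (g2 + g3 * r + g4 * r ^ 2) := by
      simp only [W]
      ring
    rw [h1, hquad, mul_zero, add_zero]
    simp only [g2, g3, g4, q0, q1, q2, q3, q4, e, B0, A0, A1, E0]
    push_cast
    simp only [c2, c4]
    ring
  let w : L := W / T
  have hw0 : w ≠ 0 := div_ne_zero hW0 hT0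
  have hwT : W = w * T := (div_mul_cancel₀ _ hT0).symm
  let qc : Fin 5 → k := ![q0, q1, q2, q3, q4]
  let q : Polynomial L := Polynomial.C (q0 : L) + Polynomial.C (q1 : L) * Polynomial.X +
    Polynomial.C (q2 : L) * Polynomial.X ^ 2 + Polynomial.C (q3 : L) * Polynomial.X ^ 3 +
    Polynomial.C (q4 : L) * Polynomial.X ^ 4
  have hw2 : w ^ 2 = q.eval T := by
    have h1 : q.eval T = q0 + q1 * T + q2 * T ^ 2 + q3 * T ^ 3 + q4 * T ^ 4 := by
      simp only [q, Polynomial.eval_add, Polynomial.eval_mul, Polynomial.eval_C, Polynomial.eval_pow,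
        Polynomial.eval_X]
    rw [h1, div_pow, hWsq, mul_div_cancel_left₀ _ (pow_ne_zero 2 hT0)]
  have hq4 : q.natDegree ≤ 4 := by
    simp only [q]
    compute_degree
  have hqk : ∀ n, q.coeff n ∈ k := by
    let q' : Polynomial k := Polynomial.C q0 + Polynomial.C q1 * Polynomial.X +
      Polynomial.C q2 * Polynomial.X ^ 2 + Polynomial.C q3 * Polynomial.X ^ 3 +
      Polynomial.C q4 * Polynomial.X ^ 4
    have h1 : q = q'.map (algebraMap k L) := by
      simp only [q, q', Polynomial.map_add, Polynomial.map_mul, Polynomial.map_C, Polynomial.map_pow,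
        Polynomial.map_X]
      rfl
    intro n
    rw [h1, Polynomial.coeff_map]
    exact (q'.coeff n).2
  have hind : AlgebraicIndependent k (fun _ : Unit => T) := by
    rw [algebraicIndependent_unique_type_iff]
    exact hT
  obtain ⟨D, hD⟩ := Pool.Agent.Campana.exists_derivation (k := k) (K := L) _ hind (fun _ => w)
  have hDk : ∀ a ∈ k, (D.restrictScalars ℂ) a = 0 := fun a ha => D.map_algebraMap ⟨a, ha⟩
  have hgen' : IntermediateField.adjoin ℂ ((k : Set L) ∪ {T, w}) = ⊤ := by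
    rw [eq_top_iff, ← hgen, IntermediateField.adjoin_le_iff]
    have hk : ∀ a : k, (a : L) ∈ IntermediateField.adjoin ℂ ((k : Set L) ∪ {T, w}) := fun a =>
      IntermediateField.subset_adjoin _ _ (Or.inl a.2)
    have hTF : T ∈ IntermediateField.adjoin ℂ ((k : Set L) ∪ {T, w}) :=
      IntermediateField.subset_adjoin _ _ (Or.inr (Or.inl rfl))
    have hwF : w ∈ IntermediateField.adjoin ℂ ((k : Set L) ∪ {T, w}) :=
      IntermediateField.subset_adjoin _ _ (Or.inr (Or.inr rfl))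
    have h2F : (2 : L) ∈ IntermediateField.adjoin ℂ ((k : Set L) ∪ {T, w}) := by
      exact natCast_mem (IntermediateField.adjoin ℂ ((k : Set L) ∪ {T, w})) 2
    have hTn : ∀ n : ℕ, T ^ n ∈ IntermediateField.adjoin ℂ ((k : Set L) ∪ {T, w}) := fun n =>
      pow_mem hTF n
    have hg2 : g2 ∈ IntermediateField.adjoin ℂ ((k : Set L) ∪ {T, w}) :=
      add_mem (sub_mem (mul_mem (hk γ) (pow_mem (hk e) 2)) (mul_mem (mul_mem hTF (hk e)) (hk B0)))
        (mul_mem (hTn 2) (hk A0))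
    have hg3 : g3 ∈ IntermediateField.adjoin ℂ ((k : Set L) ∪ {T, w}) :=
      add_mem (add_mem (add_mem (mul_mem (mul_mem (neg_mem h2F) (hk γ)) (hk e))
        (mul_mem hTF (sub_mem (hk B0) (mul_mem (hk e) (hk b1))))) (mul_mem (hTn 2) (hk A1)))
        (mul_mem (hTn 3) (hk E0))
    have hg4 : g4 ∈ IntermediateField.adjoin ℂ ((k : Set L) ∪ {T, w}) :=
      add_mem (add_mem (add_mem (add_mem (hk γ) (mul_mem hTF (hk b1))) (mul_mem (hTn 2) (hk a2)))
        (mul_mem (hTn 3) (hk c1))) (mul_mem (hTn 4) (hk ε))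
    have hrF : r ∈ IntermediateField.adjoin ℂ ((k : Set L) ∪ {T, w}) := by
      by_cases h4 : g4 = 0
      · have h3 : g3 ≠ 0 := by
          intro h3
          apply hW0
          simp only [W, h4, h3]
          ring
        have h5 : r = -g2 / g3 := by
          rw [eq_div_iff h3]
          rw [h4] at hquad
          linear_combination hquad
        rw [h5]
        exact div_mem (neg_mem hg2) hg3
      · have h5 : r = (w * T - g3) / (2 * g4) := by
          rw [eq_div_iff (mul_ne_zero two_ne_zero h4), ← hwT]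
          simp only [W]
          ring
        rw [h5]
        exact div_mem (sub_mem (mul_mem hwF hTF) hg3) (mul_mem h2F hg4)
    rintro a (ha | ha | ha)
    · exact hk ⟨a, ha⟩
    · rw [ha]
      exact hTF
    · rw [Set.mem_singleton_iff.1 ha]
      exact hrF
  exact ⟨w, (Pool.Agent.DP.homogeneous k T w q hqk hq4 hT hw2 hw0 hgen' (D.restrictScalars ℂ) hDk
    (hD ())).1⟩

end Pool.Agent.QX
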