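import Pool.Agent.Lib_MP_1209e6_qx.TacModel

/-! The Taylor expansion of a plane quartic along the line `t = a + b s`. -/

set_option autoImplicit false

open Polynomial

namespace Pool.Agent.QX

section wt

variable {k : Type} [Field k]

/-- total degree at most `n` -/
def Wt (n : ℕ) (P : k[X][X]) : Prop := ∀ i, P.coeff i ≠ 0 → (P.coeff i).natDegree + i ≤ n

theorem Wt.mono {n m : ℕ} {P : k[X][X]} (h : Wt n P) (hnm : n ≤ m) : Wt m P := fun i hi =>
  (h i hi).trans hnm

theorem Wt.add {n : ℕ} {P Q : k[X][X]} (hP : Wt n P) (hQ : Wt n Q) : Wt n (P + Q) := by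
  intro i hi
  rw [coeff_add] at hi ⊢
  by_cases h1 : P.coeff i = 0
  · rw [h1, zero_add] at hi ⊢
    exact hQ i hi
  · by_cases h2 : Q.coeff i = 0
    · rw [h2, add_zero] at hi ⊢
      exact hP i hi
    · have h3 := natDegree_add_le (P.coeff i) (Q.coeff i)
      have h4 := hP i h1
      have h5 := hQ i h2
      omega

theorem Wt.sum {n : ℕ} {α : Type} (s : Finset α) (P : α → k[X][X]) (h : ∀ a ∈ s, Wt n (P a)) :
    Wt n (∑ a ∈ s, P a) := by
  classical
  induction s using Finset.induction_on with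
  | empty =>
    intro i hi
    simp at hi
  | insert a s ha ih =>
    rw [Finset.sum_insert ha]
    exact (h a (Finset.mem_insert_self a s)).add (ih fun b hb => h b (Finset.mem_insert_of_mem hb))

theorem Wt.mul {n m : ℕ} {P Q : k[X][X]} (hP : Wt n P) (hQ : Wt m Q) : Wt (n + m) (P * Q) := by
  intro i hi
  rw [coeff_mul] at hi ⊢
  have hle : (∑ x ∈ Finset.HasAntidiagonal.antidiagonal i, P.coeff x.1 * Q.coeff x.2).natDegree ≤ n + m - i := by
    refine natDegree_sum_le_of_forall_le _ _ fun x hx => ?_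
    have hx' := Finset.HasAntidiagonal.mem_antidiagonal.1 hx
    by_cases h1 : P.coeff x.1 = 0
    · rw [h1, zero_mul, natDegree_zero]
      exact Nat.zero_le _
    by_cases h2 : Q.coeff x.2 = 0
    · rw [h2, mul_zero, natDegree_zero]
      exact Nat.zero_le _
    have h3 := hP x.1 h1
    have h4 := hQ x.2 h2
    have h5 := natDegree_mul_le (p := P.coeff x.1) (q := Q.coeff x.2)
    omega
  obtain ⟨x, hx, hx0⟩ := Finset.exists_ne_zero_of_sum_ne_zero hi
  have hx' := Finset.HasAntidiagonal.mem_antidiagonal.1 hx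
  have h1 : P.coeff x.1 ≠ 0 := fun h => hx0 (by rw [h, zero_mul])
  have h2 : Q.coeff x.2 ≠ 0 := fun h => hx0 (by rw [h, mul_zero])
  have h3 := hP x.1 h1
  have h4 := hQ x.2 h2
  omega

theorem Wt.one : Wt 0 (1 : k[X][X]) := by
  intro i hi
  rw [coeff_one] at hi ⊢
  split_ifs at hi ⊢ with h
  · rw [natDegree_one, h]
  · exact absurd rfl hi

theorem Wt.const (c : k) : Wt 0 (C (C c) : k[X][X]) := by
  intro i hi
  rw [coeff_C] at hi ⊢
  split_ifs at hi ⊢ with h
  · rw [natDegree_C, h]
  · exact absurd rfl hi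

theorem Wt.pow {n : ℕ} {P : k[X][X]} (hP : Wt n P) (j : ℕ) : Wt (j * n) (P ^ j) := by
  induction j with
  | zero =>
    rw [zero_mul, pow_zero]
    exact Wt.one
  | succ j ih =>
    rw [pow_succ, Nat.succ_mul]
    exact ih.mul hP

theorem Wt.prod {α : Type} (s : Finset α) (n : α → ℕ) (P : α → k[X][X])
    (h : ∀ a ∈ s, Wt (n a) (P a)) : Wt (∑ a ∈ s, n a) (∏ a ∈ s, P a) := by
  classical
  induction s using Finset.induction_on with
  | empty =>
    rw [Finset.prod_empty, Finset.sum_empty]
    exact Wt.one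
  | insert a s ha ih =>
    rw [Finset.prod_insert ha, Finset.sum_insert ha]
    exact (h a (Finset.mem_insert_self a s)).mul (ih fun b hb => h b (Finset.mem_insert_of_mem hb))

theorem Wt.aeval {σ : Type} (φ : σ → k[X][X]) (hφ : ∀ i, Wt 1 (φ i)) (G : MvPolynomial σ k) :
    Wt G.totalDegree (MvPolynomial.aeval φ G) := by
  classical
  rw [MvPolynomial.aeval_def, MvPolynomial.eval₂_eq]
  refine Wt.sum _ _ fun m hm => ?_
  have h1 : Wt (∑ i ∈ m.support, m i) (∏ i ∈ m.support, φ i ^ m i) := by
    refine Wt.prod _ _ _ fun i _ => ?_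
    have := (hφ i).pow (m i)
    rwa [mul_one] at this
  have h2 : Wt 0 (algebraMap k k[X][X] (MvPolynomial.coeff m G)) := Wt.const _
  refine (h2.mul h1).mono ?_
  rw [zero_add]
  exact MvPolynomial.le_totalDegree hm

end wt

/-- the coordinates along the line `t = a + b s` -/
noncomputable def linePt {k : Type} [Field k] (a b : k) : Fin 2 → k[X] := ![X, C a + C b * X]

/-- the coordinates `s`, `ℓ = t - a - b s` -/
noncomputable def shearPt {k : Type} [Field k] (a b : k) : Fin 2 → k[X][X] :=
  ![C X, C (C a + C b * X) + X]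

theorem shear_coeff {k : Type} [Field k] (a b : k) (G : MvPolynomial (Fin 2) k) :
    (MvPolynomial.aeval (shearPt a b) G).coeff 0 = MvPolynomial.aeval (linePt a b) G ∧
      (MvPolynomial.aeval (shearPt a b) G).coeff 1 =
        MvPolynomial.aeval (linePt a b) (MvPolynomial.pderiv 1 G) := by
  induction G using MvPolynomial.induction_on with
  | C c =>
    constructor
    · rw [MvPolynomial.aeval_C, MvPolynomial.aeval_C]
      simp
    · rw [MvPolynomial.aeval_C, MvPolynomial.pderiv_C]
      simp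
  | add p q hp hq =>
    constructor
    · rw [map_add, map_add, coeff_add, hp.1, hq.1]
    · rw [map_add, coeff_add, hp.2, hq.2]
      simp only [map_add]
  | mul_X p n hp =>
    have h0 : (shearPt a b n).coeff 0 = linePt a b n := by
      fin_cases n
      · simp [shearPt, linePt]
      · simp [shearPt, linePt]
    constructor
    · rw [map_mul, mul_coeff_zero, hp.1, MvPolynomial.aeval_X, h0, map_mul, MvPolynomial.aeval_X]
    · rw [map_mul, mul_coeff_one, hp.1, hp.2, MvPolynomial.aeval_X, h0, Derivation.leibniz, map_add,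
        smul_eq_mul, smul_eq_mul, map_mul, map_mul, MvPolynomial.aeval_X]
      fin_cases n
      · simp [shearPt, MvPolynomial.pderiv_X]
        ring
      · simp [shearPt, MvPolynomial.pderiv_X]
        ring

/-- evaluation of the sheared polynomial -/
theorem shear_eval {k A : Type} [Field k] [CommRing A] [Algebra k A] (a b : k)
    (G : MvPolynomial (Fin 2) k) (S Λ : A) :
    MvPolynomial.aeval (![S, algebraMap k A a + algebraMap k A b * S + Λ] : Fin 2 → A) G =
      (MvPolynomial.aeval (shearPt a b) G).eval₂ (aeval S : k[X] →ₐ[k] A).toRingHom Λ := by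
  induction G using MvPolynomial.induction_on with
  | C c =>
    rw [MvPolynomial.aeval_C, MvPolynomial.aeval_C]
    simp [Polynomial.algebraMap_apply]
  | add p q hp hq => rw [map_add, map_add, eval₂_add, hp, hq]
  | mul_X p n hp =>
    rw [map_mul, map_mul, eval₂_mul, hp, MvPolynomial.aeval_X, MvPolynomial.aeval_X]
    congr 1
    fin_cases n
    · simp [shearPt]
    · simp [shearPt]

/-- **Taylor expansion along the line.** -/
theorem tac_taylor {k : Type} [Field k] (G : MvPolynomial (Fin 2) k) (hG : G.totalDegree ≤ 4)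
    (a b γ s1 s2 b0 b1 : k)
    (h0 : MvPolynomial.aeval (linePt a b) G = C γ * ((X - C s1) * (X - C s2)) ^ 2)
    (h1 : MvPolynomial.aeval (linePt a b) (MvPolynomial.pderiv 1 G) =
      (X - C s1) * (X - C s2) * (C b0 + C b1 * X)) :
    ∃ a0 a1 a2 c0 c1 ε : k, ∀ (A : Type) [CommRing A] [Algebra k A] (S Λ : A),
      MvPolynomial.aeval (![S, algebraMap k A a + algebraMap k A b * S + Λ] : Fin 2 → A) G =
        tacG (algebraMap k A γ) (algebraMap k A s1) (algebraMap k A s2) (algebraMap k A b0)
          (algebraMap k A b1) (algebraMap k A a0) (algebraMap k A a1) (algebraMap k A a2)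
          (algebraMap k A c0) (algebraMap k A c1) (algebraMap k A ε) S Λ := by
  set Ψ := MvPolynomial.aeval (shearPt a b) G with hΨ
  have hW : Wt 4 Ψ := by
    refine (Wt.aeval (shearPt a b) ?_ G).mono hG
    intro i j hj
    fin_cases i
    · change ((C X : k[X][X]).coeff j) ≠ 0 at hj
      change ((C X : k[X][X]).coeff j).natDegree + j ≤ 1
      rw [coeff_C] at hj ⊢
      split_ifs at hj ⊢ with h
      · rw [natDegree_X, h]
      · exact absurd rfl hj
    · change ((C (C a + C b * X) + X : k[X][X]).coeff j) ≠ 0 at hj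
      change ((C (C a + C b * X) + X : k[X][X]).coeff j).natDegree + j ≤ 1
      rcases j with _ | _ | j
      · rw [coeff_add, coeff_C_zero, coeff_X_zero, add_zero, add_zero]
        compute_degree
      · rw [coeff_add, coeff_C, coeff_X_one, if_neg (by norm_num), zero_add, natDegree_one]
      · rw [coeff_add, coeff_C, if_neg (by omega), coeff_X, if_neg (by omega), add_zero] at hj
        exact absurd rfl hj
  have hd : ∀ i, (Ψ.coeff i).natDegree ≤ 4 - i := by
    intro i
    by_cases h : Ψ.coeff i = 0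
    · rw [h, natDegree_zero]
      exact Nat.zero_le _
    · have := hW i h
      omega
  have hz : ∀ i, 4 < i → Ψ.coeff i = 0 := by
    intro i hi
    by_contra h
    have := hW i h
    omega
  have hnat : Ψ.natDegree < 5 := by
    rw [Nat.lt_succ_iff, natDegree_le_iff_coeff_eq_zero]
    intro i hi
    exact hz i hi
  obtain ⟨hc0, hc1⟩ := shear_coeff a b G
  rw [← hΨ, h0] at hc0
  rw [← hΨ, h1] at hc1
  refine ⟨(Ψ.coeff 2).coeff 0, (Ψ.coeff 2).coeff 1, (Ψ.coeff 2).coeff 2, (Ψ.coeff 3).coeff 0,
    (Ψ.coeff 3).coeff 1, (Ψ.coeff 4).coeff 0, ?_⟩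
  intro A _ _ S Λ
  have e2 : aeval S (Ψ.coeff 2) = algebraMap k A ((Ψ.coeff 2).coeff 0) +
      algebraMap k A ((Ψ.coeff 2).coeff 1) * S + algebraMap k A ((Ψ.coeff 2).coeff 2) * S ^ 2 := by
    rw [aeval_eq_sum_range' (Nat.lt_succ_of_le (hd 2))]
    simp [Finset.sum_range_succ, Algebra.smul_def]
  have e3 : aeval S (Ψ.coeff 3) = algebraMap k A ((Ψ.coeff 3).coeff 0) +
      algebraMap k A ((Ψ.coeff 3).coeff 1) * S := by
    rw [aeval_eq_sum_range' (Nat.lt_succ_of_le (hd 3))]
    simp [Finset.sum_range_succ, Algebra.smul_def]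
  have e4 : aeval S (Ψ.coeff 4) = algebraMap k A ((Ψ.coeff 4).coeff 0) := by
    rw [aeval_eq_sum_range' (Nat.lt_succ_of_le (hd 4))]
    simp [Finset.sum_range_succ, Algebra.smul_def]
  rw [shear_eval, ← hΨ, eval₂_eq_sum_range' _ hnat]
  simp only [Finset.sum_range_succ, Finset.sum_range_zero, zero_add, pow_zero, mul_one, pow_one]
  change aeval S (Ψ.coeff 0) + aeval S (Ψ.coeff 1) * Λ + aeval S (Ψ.coeff 2) * Λ ^ 2 +
    aeval S (Ψ.coeff 3) * Λ ^ 3 + aeval S (Ψ.coeff 4) * Λ ^ 4 = _
  rw [hc0, hc1, e2, e3, e4]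
  simp only [map_mul, map_pow, map_sub, map_add, aeval_C, aeval_X, tacG]
  ring

end Pool.Agent.QX
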