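import Pool.Agent.Lib_MP_1209e6_ds.KrullZero

/-!
Existence of a point of a quartic surface with an asymptotic direction of order four which is in
the kernel of the Hessian (tacnodal plane section).
-/

open MvPolynomial Matrix

namespace Pool.Agent.QX.Tac

/-! ### finitely many values -/

theorem finite_values {V : Type*} [AddCommGroup V] [Module ℂ V] [FiniteDimensional ℂ V]
    {Y : Type*} (ev : Y → Module.Dual ℂ V) (φ : Y → ℂ) (hne : ∀ y, ev y ≠ 0)
    (h : ∀ v : V, ∃ v' : V, ∀ y, ev y v' = φ y * ev y v) : (Set.range φ).Finite := by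
  classical
  choose g hg using h
  let b := Module.finBasis ℂ V
  let f : V →ₗ[ℂ] V := b.constr ℂ (fun i => g (b i))
  have hf : ∀ y, (ev y) ∘ₗ f = φ y • ev y := by
    intro y
    refine b.ext fun i => ?_
    simp only [LinearMap.comp_apply, LinearMap.smul_apply, smul_eq_mul]
    rw [show f (b i) = g (b i) from by simp [f]]
    exact hg _ y
  have hfin : Set.Finite (Module.End.HasEigenvalue (LinearMap.dualMap f)) :=
    Module.End.finite_hasEigenvalue _
  refine hfin.subset ?_
  rintro _ ⟨y, rfl⟩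
  refine Module.End.hasEigenvalue_of_hasEigenvector (x := ev y) ⟨?_, hne y⟩
  rw [Module.End.mem_eigenspace_iff]
  exact hf y

/-! ### linear algebra -/

/-- cubic form -/
def cub (T : Fin 4 → Fin 4 → Fin 4 → ℂ) (v : Fin 4 → ℂ) : ℂ :=
  ∑ i, ∑ j, ∑ k, T i j k * v i * v j * v k

theorem cub_smul (T : Fin 4 → Fin 4 → Fin 4 → ℂ) (c : ℂ) (v : Fin 4 → ℂ) :
    cub T (c • v) = c ^ 3 * cub T v := by
  simp only [cub, Finset.mul_sum, Pi.smul_apply, smul_eq_mul]
  refine Finset.sum_congr rfl fun i _ => Finset.sum_congr rfl fun j _ =>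
    Finset.sum_congr rfl fun k _ => ?_
  ring

theorem cub_line (T : Fin 4 → Fin 4 → Fin 4 → ℂ) (c v : Fin 4 → ℂ) :
    ∃ A1 A2 : ℂ, ∀ t : ℂ, cub T (c + t • v) = cub T v * t ^ 3 + A2 * t ^ 2 + A1 * t + cub T c := by
  refine ⟨∑ i, ∑ j, ∑ k, T i j k * (v i * c j * c k + c i * v j * c k + c i * c j * v k),
    ∑ i, ∑ j, ∑ k, T i j k * (c i * v j * v k + v i * c j * v k + v i * v j * c k), fun t => ?_⟩
  simp only [cub, Finset.sum_mul, ← Finset.sum_add_distrib, Pi.add_apply, Pi.smul_apply,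
    smul_eq_mul]
  refine Finset.sum_congr rfl fun i _ => Finset.sum_congr rfl fun j _ =>
    Finset.sum_congr rfl fun k _ => ?_
  ring

/-- two independent vectors: one combination on the cubic cone -/
theorem exists_cub_zero (T : Fin 4 → Fin 4 → Fin 4 → ℂ) (c v : Fin 4 → ℂ) (hv : cub T v ≠ 0) :
    ∃ t : ℂ, cub T (c + t • v) = 0 := by
  obtain ⟨A1, A2, h⟩ := cub_line T c v
  have hdeg : (Polynomial.C (cub T v) * Polynomial.X ^ 3 + Polynomial.C A2 * Polynomial.X ^ 2 +
      Polynomial.C A1 * Polynomial.X + Polynomial.C (cub T c)).degree = 3 :=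
    Polynomial.degree_cubic hv
  obtain ⟨t, ht⟩ := IsAlgClosed.exists_root (Polynomial.C (cub T v) * Polynomial.X ^ 3 +
    Polynomial.C A2 * Polynomial.X ^ 2 +
      Polynomial.C A1 * Polynomial.X + Polynomial.C (cub T c)) (by rw [hdeg]; decide)
  refine ⟨t, ?_⟩
  rw [h]
  simpa [Polynomial.IsRoot] using ht

theorem adj_entry_of_kernel {m : Matrix (Fin 4) (Fin 4) ℂ} {u : Fin 4 → ℂ} (hu : m *ᵥ u = 0)
    (hu0 : u ≠ 0) {j : Fin 4} (huj : u j = 0) (i : Fin 4) : m.adjugate j i = 0 := by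
  rw [Matrix.adjugate_apply]
  have : (m.updateRow i (Pi.single j 1)) *ᵥ u = 0 := by
    funext r
    by_cases hr : r = i
    · subst hr
      simp [Matrix.mulVec, huj]
    · have := congrFun hu r
      simpa [Matrix.mulVec, Matrix.updateRow_ne hr] using this
  by_contra hdet
  exact hu0 (Matrix.eq_zero_of_mulVec_eq_zero hdet this)

/-- if the adjugate has a nonzero entry in row `j`, kernel vectors are proportional -/
theorem kernel_prop {m : Matrix (Fin 4) (Fin 4) ℂ} {j i : Fin 4} (h : m.adjugate j i ≠ 0)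
    {v w : Fin 4 → ℂ} (hv : m *ᵥ v = 0) (hw : m *ᵥ w = 0) : w j • v = v j • w := by
  by_contra hne
  have hu0 : w j • v - v j • w ≠ 0 := sub_ne_zero.mpr hne
  refine h (adj_entry_of_kernel (u := w j • v - v j • w) ?_ hu0 ?_ i)
  · rw [Matrix.mulVec_sub, Matrix.mulVec_smul, Matrix.mulVec_smul, hv, hw]; simp
  · simp [mul_comm]

theorem col_kernel {m : Matrix (Fin 4) (Fin 4) ℂ} (hd : m.det = 0) (i : Fin 4) :
    m *ᵥ (fun k => m.adjugate k i) = 0 := by
  have h := m.mul_adjugate
  rw [hd, zero_smul] at h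
  funext r
  have := congrFun (congrFun h r) i
  simpa [Matrix.mul_apply, Matrix.mulVec, dotProduct] using this

/-- `A_jj a_i = A_ji a_j` for the columns `a_i` of the adjugate of a singular matrix -/
theorem col_prop {m : Matrix (Fin 4) (Fin 4) ℂ} (hd : m.det = 0) (i j : Fin 4) :
    m.adjugate j j • (fun k => m.adjugate k i) = m.adjugate j i • (fun k => m.adjugate k j) := by
  by_cases h : ∃ s, m.adjugate j s ≠ 0
  · obtain ⟨s, hs⟩ := h
    exact kernel_prop hs (col_kernel hd i) (col_kernel hd j)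
  · push Not at h
    rw [h j, h i, zero_smul, zero_smul]

theorem diag_ne {m : Matrix (Fin 4) (Fin 4) ℂ} (hs : mᵀ = m) (hd : m.det = 0) {j : Fin 4}
    (h : (fun k => m.adjugate k j) ≠ 0) : m.adjugate j j ≠ 0 := by
  intro h0
  apply h
  funext k
  have hk := congrFun (col_prop hd j k) j
  have hsym : m.adjugate j k = m.adjugate k j := by
    conv_lhs => rw [← hs]
    rw [← Matrix.adjugate_transpose, Matrix.transpose_apply]
  simp only [Pi.smul_apply, smul_eq_mul, h0, mul_zero, hsym] at hk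
  simpa using (mul_self_eq_zero.mp hk.symm)

theorem rel {m : Matrix (Fin 4) (Fin 4) ℂ} (hs : mᵀ = m) (hd : m.det = 0)
    (T : Fin 4 → Fin 4 → Fin 4 → ℂ) (i j : Fin 4) :
    cub T (fun k => m.adjugate k i) ^ 2 * m.adjugate j j ^ 3 =
      cub T (fun k => m.adjugate k j) ^ 2 * m.adjugate i i ^ 3 := by
  have hsym : m.adjugate i j = m.adjugate j i := by
    conv_lhs => rw [← hs]
    rw [← Matrix.adjugate_transpose, Matrix.transpose_apply]
  have h1 := congrArg (cub T) (col_prop hd i j)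
  have h2 := congrArg (cub T) (col_prop hd j i)
  rw [cub_smul, cub_smul] at h1 h2
  rw [hsym] at h2
  set gi := cub T (fun k => m.adjugate k i)
  set gj := cub T (fun k => m.adjugate k j)
  linear_combination gi * h1 - gj * h2

/-- if the adjugate of a singular matrix vanishes, the kernel has a second vector -/
theorem second_kernel {m : Matrix (Fin 4) (Fin 4) ℂ} (hd : m.det = 0)
    (hA : m.adjugate = 0) (j : Fin 4) :
    ∃ c : Fin 4 → ℂ, c ≠ 0 ∧ m *ᵥ c = 0 ∧ c j = 0 := by
  -- a vector outside the range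
  obtain ⟨w, hw0, hw⟩ := (Matrix.exists_vecMul_eq_zero_iff (M := m)).mpr hd
  obtain ⟨r, hr⟩ : ∃ r, w r ≠ 0 := by
    by_contra hcon
    push Not at hcon
    exact hw0 (funext hcon)
  set b : Fin 4 → ℂ := Pi.single r 1 with hb
  have hdet : (m.updateCol j b).det = 0 := by
    rw [← Matrix.det_transpose, ← Matrix.updateRow_transpose]
    have h' : (m.adjugateᵀ) r j = 0 := by rw [Matrix.transpose_apply, hA]; rfl
    rw [Matrix.adjugate_transpose, Matrix.adjugate_apply] at h'
    exact h'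
  obtain ⟨c, hc0, hc⟩ := (Matrix.exists_mulVec_eq_zero_iff (M := m.updateCol j b)).mpr hdet
  have key : ∀ i, (m.updateCol j b *ᵥ c) i = (m *ᵥ (c - c j • Pi.single j 1)) i + c j * b i := by
    intro i
    simp only [Matrix.mulVec, dotProduct, Fin.sum_univ_four, Matrix.updateCol_apply]
    fin_cases j <;> simp <;> ring
  have hcj : c j = 0 := by
    have h1 : w ⬝ᵥ (m.updateCol j b *ᵥ c) = 0 := by rw [hc]; simp
    have h2 : w ⬝ᵥ (m *ᵥ (c - c j • Pi.single j 1)) = 0 := by
      rw [Matrix.dotProduct_mulVec, hw]; simp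
    have h3 : w ⬝ᵥ (m.updateCol j b *ᵥ c) =
        w ⬝ᵥ (m *ᵥ (c - c j • Pi.single j 1)) + c j * w r := by
      simp only [dotProduct]
      rw [Finset.sum_congr rfl fun i _ => by rw [key i], ]
      simp only [mul_add, Finset.sum_add_distrib, hb, Pi.single_apply]
      simp [mul_comm]
    rw [h1, h2, zero_add] at h3
    rcases mul_eq_zero.mp h3.symm with h | h
    · exact h
    · exact absurd h hr
  refine ⟨c, hc0, ?_, hcj⟩
  funext i
  have := key i
  rw [hc, hcj] at this
  simpa using this.symm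

/-- a symmetric singular matrix and a cubic form without common kernel zero: some column of the
adjugate is not on the cubic cone -/
theorem exists_col {m : Matrix (Fin 4) (Fin 4) ℂ} (hd : m.det = 0)
    (T : Fin 4 → Fin 4 → Fin 4 → ℂ) (hno : ∀ v : Fin 4 → ℂ, v ≠ 0 → m *ᵥ v = 0 → cub T v ≠ 0) :
    ∃ j, cub T (fun k => m.adjugate k j) ≠ 0 := by
  by_cases hA : m.adjugate = 0
  · exfalso
    obtain ⟨v, hv0, hv⟩ := (Matrix.exists_mulVec_eq_zero_iff (M := m)).mpr hd
    obtain ⟨j, hj⟩ : ∃ j, v j ≠ 0 := by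
      by_contra hcon
      push Not at hcon
      exact hv0 (funext hcon)
    obtain ⟨c, hc0, hc, hcj⟩ := second_kernel hd hA j
    obtain ⟨t, ht⟩ := exists_cub_zero T c v (hno v hv0 hv)
    refine hno (c + t • v) ?_ ?_ ht
    · intro h0
      have h1 := congrFun h0 j
      simp only [Pi.add_apply, Pi.smul_apply, smul_eq_mul, hcj, zero_add, Pi.zero_apply] at h1
      rcases mul_eq_zero.mp h1 with h | h
      · rw [h, zero_smul, add_zero] at h0
        exact hc0 h0
      · exact hj h
    · rw [Matrix.mulVec_add, Matrix.mulVec_smul, hc, hv]; simp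
  · obtain ⟨j, hj⟩ : ∃ j, (fun k => m.adjugate k j) ≠ 0 := by
      by_contra hcon
      push Not at hcon
      apply hA
      ext k j
      exact congrFun (hcon j) k
    exact ⟨j, hno _ hj (col_kernel hd j)⟩

/-! ### forms -/

theorem comp_mul (c G : MvPolynomial (Fin 4) ℂ) {e N : ℕ} (hG : G.IsHomogeneous e) (h : e ≤ N) :
    homogeneousComponent N (c * G) = homogeneousComponent (N - e) c * G := by
  conv_lhs => rw [← sum_homogeneousComponent c]
  rw [Finset.sum_mul, map_sum]
  have h1 : ∀ i, homogeneousComponent N (homogeneousComponent i c * G) =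
      if i = N - e then homogeneousComponent i c * G else 0 := by
    intro i
    have hmem : homogeneousComponent i c * G ∈ homogeneousSubmodule (Fin 4) ℂ (i + e) :=
      (homogeneousComponent_isHomogeneous i c).mul hG
    rw [homogeneousComponent_of_mem hmem]
    by_cases hi : i = N - e
    · rw [if_pos hi, if_pos (by omega)]
    · rw [if_neg hi, if_neg (by omega)]
  rw [Finset.sum_congr rfl fun i _ => h1 i, Finset.sum_ite_eq']
  split_ifs with hmem
  · rfl
  · rw [homogeneousComponent_eq_zero, zero_mul]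
    rw [Finset.mem_range] at hmem
    omega

theorem exists_forms {ι : Type} [Fintype ι] (G : ι → MvPolynomial (Fin 4) ℂ) (e : ι → ℕ)
    (hG : ∀ r, (G r).IsHomogeneous (e r))
    (hz : ∀ y : Fin 4 → ℂ, (∀ r, eval y (G r) = 0) → y = 0) (E : ℕ) (hE : ∀ r, e r ≤ E) :
    ∃ N, E ≤ N ∧ ∀ h : MvPolynomial (Fin 4) ℂ, h.IsHomogeneous N →
      ∃ c : ι → MvPolynomial (Fin 4) ℂ, (∀ r, (c r).IsHomogeneous (N - e r)) ∧
        h = ∑ r, c r * G r := by
  classical
  set I : Ideal (MvPolynomial (Fin 4) ℂ) := Ideal.span (Set.range G) with hI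
  have hX : ∀ a : Fin 4, ∃ m : ℕ, (X a : MvPolynomial (Fin 4) ℂ) ^ m ∈ I := by
    intro a
    have hmem : (X a : MvPolynomial (Fin 4) ℂ) ∈ I.radical := by
      rw [← vanishingIdeal_zeroLocus_eq_radical (k := ℂ) (K := ℂ)]
      rw [mem_vanishingIdeal_iff]
      intro y hy
      have hy0 : y = 0 := by
        refine hz y fun r => ?_
        have := hy (G r) (Ideal.subset_span ⟨r, rfl⟩)
        simpa [MvPolynomial.aeval_eq_eval] using this
      rw [hy0]
      simp
    exact hmem
  choose m hm using hX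
  set k := ∑ a, m a with hk
  have hk' : ∀ a, (X a : MvPolynomial (Fin 4) ℂ) ^ k ∈ I := fun a =>
    Ideal.pow_mem_of_pow_mem I (hm a) (Finset.single_le_sum (f := m) (fun _ _ => Nat.zero_le _)
      (Finset.mem_univ a))
  refine ⟨4 * k + E, by omega, fun h hh => ?_⟩
  have hmem : h ∈ I := by
    rw [h.as_sum]
    refine Ideal.sum_mem _ fun d hd => ?_
    have hdeg : d.degree = 4 * k + E := by
      by_contra hne
      exact (mem_support_iff.mp hd) (hh.coeff_eq_zero hne)
    obtain ⟨a, ha⟩ : ∃ a, k ≤ d a := by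
      by_contra hcon
      push Not at hcon
      rw [Finsupp.degree_eq_sum, Fin.sum_univ_four] at hdeg
      have h0 := hcon 0
      have h1 := hcon 1
      have h2 := hcon 2
      have h3 := hcon 3
      omega
    have hdvd : (X a : MvPolynomial (Fin 4) ℂ) ^ k ∣ monomial d (coeff d h) := by
      rw [X_pow_eq_monomial, monomial_dvd_monomial]
      refine ⟨Or.inr ?_, one_dvd _⟩
      rw [Finsupp.single_le_iff]
      exact ha
    obtain ⟨q, hq⟩ := hdvd
    rw [hq]
    exact Ideal.mul_mem_right _ _ (hk' a)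
  rw [hI] at hmem
  obtain ⟨c, hc⟩ := Ideal.mem_span_range_iff_exists_fun.mp hmem
  refine ⟨fun r => homogeneousComponent (4 * k + E - e r) (c r),
    fun r => homogeneousComponent_isHomogeneous _ _, ?_⟩
  have h1 := congrArg (homogeneousComponent (4 * k + E)) hc
  rw [map_sum, homogeneousComponent_eq_self (mem_homogeneousSubmodule _ _ |>.mpr hh)] at h1
  rw [← h1]
  refine Finset.sum_congr rfl fun r _ => ?_
  exact comp_mul _ _ (hG r) ((hE r).trans (by omega))

theorem det_homog {n : ℕ} (M : Matrix (Fin n) (Fin n) (MvPolynomial (Fin 4) ℂ))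
    (hM : ∀ i j, (M i j).IsHomogeneous 2) : M.det.IsHomogeneous (2 * n) := by
  rw [Matrix.det_apply']
  refine IsHomogeneous.sum _ _ _ fun σ _ => ?_
  have hp : (∏ i, M (σ i) i).IsHomogeneous (∑ i : Fin n, 2) :=
    IsHomogeneous.prod _ _ _ fun i _ => hM _ _
  have hsum : (∑ i : Fin n, 2) = 2 * n := by simp [mul_comm]
  rw [hsum] at hp
  rcases Int.units_eq_one_or (Equiv.Perm.sign σ) with h | h
  · rw [h]; simpa using hp
  · rw [h]
    have := hp.neg
    simpa using this

theorem adj_homog (M : Matrix (Fin 4) (Fin 4) (MvPolynomial (Fin 4) ℂ))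
    (hM : ∀ i j, (M i j).IsHomogeneous 2) (i j : Fin 4) : (M.adjugate i j).IsHomogeneous 6 := by
  rw [Matrix.adjugate_fin_succ_eq_det_submatrix]
  have h1 : ((-1 : MvPolynomial (Fin 4) ℂ) ^ (j + i : ℕ)).IsHomogeneous 0 := by
    have := (isHomogeneous_one (Fin 4) ℂ).neg.pow (j + i : ℕ)
    simpa using this
  have h2 := det_homog (M.submatrix j.succAbove i.succAbove) (fun a b => hM _ _)
  have := h1.mul h2
  simpa using this

theorem finite_pow (B : Set ℂ) (hB : B.Finite) : {z : ℂ | z ^ 20 ∈ B}.Finite := by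
  have : {z : ℂ | z ^ 20 ∈ B} = ⋃ b ∈ B, {z : ℂ | z ^ 20 = b} := by
    ext z; simp
  rw [this]
  refine hB.biUnion fun b _ => ?_
  refine (Polynomial.nthRoots 20 b).toFinset.finite_toSet.subset fun z hz => ?_
  simp only [Finset.mem_coe, Multiset.mem_toFinset]
  rw [Polynomial.mem_nthRoots (by norm_num)]
  exact hz

theorem finite_bad (u : Fin 4 → ℂ) (hu : u ≠ 0) :
    {t : ℂ | u 0 + u 1 * t + u 2 * t ^ 2 + u 3 * t ^ 3 = 0}.Finite := by
  set p : Polynomial ℂ := Polynomial.C (u 0) + Polynomial.C (u 1) * Polynomial.X +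
    Polynomial.C (u 2) * Polynomial.X ^ 2 + Polynomial.C (u 3) * Polynomial.X ^ 3 with hp
  have hp0 : p ≠ 0 := by
    intro h
    apply hu
    have hc : ∀ n, p.coeff n = 0 := fun n => by rw [h]; simp
    funext a
    have h0 := hc 0
    have h1 := hc 1
    have h2 := hc 2
    have h3 := hc 3
    simp [hp, Polynomial.coeff_X, Polynomial.coeff_C, Polynomial.coeff_X_pow] at h0 h1 h2 h3
    fin_cases a
    · exact h0
    · exact h1
    · exact h2
    · exact h3
  refine p.roots.toFinset.finite_toSet.subset fun t ht => ?_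
  simp only [Finset.mem_coe, Multiset.mem_toFinset]
  rw [Polynomial.mem_roots hp0, Polynomial.IsRoot.def]
  simpa [hp] using ht

theorem zero_at_zero {p : MvPolynomial (Fin 4) ℂ} {n : ℕ} (hp : p.IsHomogeneous n) (hn : 0 < n) :
    eval (0 : Fin 4 → ℂ) p = 0 := by
  have h1 : eval (0 : Fin 4 → ℂ) p = constantCoeff p := by
    rw [← MvPolynomial.eval_zero]
  rw [h1, constantCoeff_eq]
  exact hp.coeff_eq_zero (by simp <;> omega)

theorem key (F : MvPolynomial (Fin 4) ℂ) {dF : ℕ} (hF : F.IsHomogeneous dF) (hdF : 0 < dF)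
    (M : Matrix (Fin 4) (Fin 4) (MvPolynomial (Fin 4) ℂ)) (hs : Mᵀ = M)
    (hM : ∀ i j, (M i j).IsHomogeneous 2)
    (T : Fin 4 → Fin 4 → Fin 4 → MvPolynomial (Fin 4) ℂ)
    (hT : ∀ i j k, (T i j k).IsHomogeneous 1) :
    ∃ Q v : Fin 4 → ℂ, Q ≠ 0 ∧ v ≠ 0 ∧ eval Q F = 0 ∧ (M.map (eval Q)) *ᵥ v = 0 ∧
      cub (fun i j k => eval Q (T i j k)) v = 0 := by
  classical
  by_contra hcon
  push Not at hcon
  set D := M.det with hD
  have hDh : D.IsHomogeneous 8 := det_homog M hM
  have hAh := adj_homog M hM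
  have hevD : ∀ Q : Fin 4 → ℂ, eval Q D = (M.map (eval Q)).det := fun Q => by
    rw [hD, RingHom.map_det]; rfl
  have hevA : ∀ (Q : Fin 4 → ℂ) (i j : Fin 4),
      eval Q (M.adjugate i j) = (M.map (eval Q)).adjugate i j := fun Q i j => by
    have := (eval Q).map_adjugate M
    exact congrFun (congrFun this i) j
  let g : Fin 4 → MvPolynomial (Fin 4) ℂ := fun r =>
    ∑ i, ∑ j, ∑ k, T i j k * M.adjugate i r * M.adjugate j r * M.adjugate k r
  have hg : ∀ r, (g r).IsHomogeneous 19 := fun r =>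
    IsHomogeneous.sum _ _ _ fun i _ => IsHomogeneous.sum _ _ _ fun j _ =>
      IsHomogeneous.sum _ _ _ fun k _ =>
        (((hT i j k).mul (hAh i r)).mul (hAh j r)).mul (hAh k r)
  have hevg : ∀ (Q : Fin 4 → ℂ) (r : Fin 4), eval Q (g r) =
      cub (fun i j k => eval Q (T i j k)) (fun k => (M.map (eval Q)).adjugate k r) := by
    intro Q r
    simp only [g, cub, map_sum, map_mul, hevA]
  have hsQ : ∀ Q : Fin 4 → ℂ, (M.map (eval Q))ᵀ = M.map (eval Q) := fun Q => by
    ext i j
    exact congrArg (eval Q) (congrFun (congrFun hs i) j)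
  have hcol : ∀ Q : Fin 4 → ℂ, Q ≠ 0 → eval Q F = 0 → eval Q D = 0 → ∃ j, eval Q (g j) ≠ 0 := by
    intro Q hQ hFQ hDQ
    rw [hevD] at hDQ
    obtain ⟨j, hj⟩ := exists_col hDQ (fun i j k => eval Q (T i j k))
      (fun v hv hMv => hcon Q v hQ hv hFQ hMv)
    exact ⟨j, by rw [hevg]; exact hj⟩
  -- forms
  obtain ⟨N, hN, hform⟩ := exists_forms (ι := Fin 4 ⊕ Bool)
    (Sum.elim (fun j => g j ^ 2) (fun b => if b then F else D))
    (Sum.elim (fun _ => 38) (fun b => if b then dF else 8))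
    (by
      rintro (j | b)
      · exact (hg j).pow 2
      · cases b
        · simpa using hDh
        · simpa using hF)
    (by
      intro y hy
      by_contra hy0
      have hFy : eval y F = 0 := by simpa using hy (Sum.inr true)
      have hDy : eval y D = 0 := by simpa using hy (Sum.inr false)
      obtain ⟨j, hj⟩ := hcol y hy0 hFy hDy
      have := hy (Sum.inl j)
      simp only [Sum.elim_inl, map_pow] at this
      exact hj (pow_eq_zero_iff (by norm_num) |>.mp this))
    (38 + dF + 8)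
    (by
      rintro (j | b)
      · simp; omega
      · cases b <;> simp <;> omega)
  let Y := {y : Fin 4 → ℂ // y ≠ 0 ∧ eval y F = 0 ∧ eval y D = 0}
  have : FiniteDimensional ℂ (homogeneousSubmodule (Fin 4) ℂ N) :=
    Module.Finite.iff_fg.mpr (homogeneousSubmodule_fg (σ := Fin 4) (R := ℂ) N)
  have hψ : ∀ y : Y, ∃ c : ℂ, c ≠ 0 ∧ ∀ j, eval y.1 (M.adjugate j j) ^ 3 =
      c * eval y.1 (g j) ^ 2 := by
    rintro ⟨y, hy0, hFy, hDy⟩
    obtain ⟨j, hj⟩ := hcol y hy0 hFy hDy
    have hd : (M.map (eval y)).det = 0 := by rw [← hevD]; exact hDy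
    refine ⟨eval y (M.adjugate j j) ^ 3 / eval y (g j) ^ 2, ?_, fun i => ?_⟩
    · refine div_ne_zero (pow_ne_zero _ ?_) (pow_ne_zero _ hj)
      rw [hevA]
      refine diag_ne (hsQ y) hd ?_
      intro h0
      apply hj
      rw [hevg, h0]
      simp [cub]
    · have hrel := rel (hsQ y) hd (fun i j k => eval y (T i j k)) i j
      rw [← hevg, ← hevg, ← hevA, ← hevA] at hrel
      field_simp
      linear_combination -hrel
  choose ψ hψ0 hψ1 using hψ
  have hfin : ∀ a : Fin 4, (Set.range fun y : Y => y.1 a ^ 20 * ψ y).Finite := by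
    intro a
    refine finite_values (V := homogeneousSubmodule (Fin 4) ℂ N)
      (fun y : Y => (aeval y.1 : MvPolynomial (Fin 4) ℂ →ₐ[ℂ] ℂ).toLinearMap ∘ₗ
        (homogeneousSubmodule (Fin 4) ℂ N).subtype) _ ?_ ?_
    · rintro ⟨y, hy0, hy1⟩ h0
      obtain ⟨k, hk⟩ : ∃ k, y k ≠ 0 := by
        by_contra hc
        push Not at hc
        exact hy0 (funext hc)
      have := LinearMap.congr_fun h0 ⟨X k ^ N, by
        rw [mem_homogeneousSubmodule]
        exact isHomogeneous_X_pow k N⟩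
      simp at this
      exact hk this.1
    · rintro ⟨h, hh⟩
      obtain ⟨c, hc, hsum⟩ := hform h ((mem_homogeneousSubmodule _ _).mp hh)
      refine ⟨⟨∑ j, c (Sum.inl j) * (X a ^ 20 * M.adjugate j j ^ 3), ?_⟩, fun y => ?_⟩
      · rw [mem_homogeneousSubmodule]
        refine IsHomogeneous.sum _ _ _ fun j _ => ?_
        have h1 := (hc (Sum.inl j)).mul ((isHomogeneous_X_pow a 20).mul ((hAh j j).pow 3))
        have h2 : N - Sum.elim (fun _ : Fin 4 => 38) (fun b : Bool => if b then dF else 8)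
            (Sum.inl j) + (20 + 6 * 3) = N := by simp; omega
        rwa [h2] at h1
      · simp only [LinearMap.comp_apply, Submodule.subtype_apply, AlgHom.toLinearMap_apply,
          aeval_eq_eval, map_sum, map_mul, map_pow, eval_X, hψ1 y]
        have hev := congrArg (eval y.1) hsum
        rw [Fintype.sum_sum_type] at hev
        simp only [Sum.elim_inl, Sum.elim_inr, Fintype.sum_bool, if_true, map_add, map_mul, map_sum,
          map_pow] at hev
        simp only [y.2.2.1, y.2.2.2, Bool.false_eq_true, if_false, mul_zero, add_zero] at hev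
        rw [hev, Finset.mul_sum]
        refine Finset.sum_congr rfl fun j _ => ?_
        ring
  -- finitely many ratios
  have hR : (⋃ k : Fin 4, ⋃ j : Fin 4, {z : ℂ | z ^ 20 ∈ Set.image2 (· / ·)
      (Set.range fun y : Y => y.1 j ^ 20 * ψ y) (Set.range fun y : Y => y.1 k ^ 20 * ψ y)}).Finite :=
    Set.finite_iUnion fun k => Set.finite_iUnion fun j =>
      finite_pow _ ((hfin j).image2 _ (hfin k))
  set R := (⋃ k : Fin 4, ⋃ j : Fin 4, {z : ℂ | z ^ 20 ∈ Set.image2 (· / ·)
      (Set.range fun y : Y => y.1 j ^ 20 * ψ y) (Set.range fun y : Y => y.1 k ^ 20 * ψ y)}) with hRdef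
  have hS : {u : Fin 4 → ℂ | ∀ j, u j ∈ R}.Finite := Set.Finite.pi' fun _ => hR
  have hbad : (⋃ u ∈ {u : Fin 4 → ℂ | ∀ j, u j ∈ R}, {t : ℂ | u ≠ 0 ∧
      u 0 + u 1 * t + u 2 * t ^ 2 + u 3 * t ^ 3 = 0}).Finite := by
    refine hS.biUnion fun u _ => ?_
    by_cases hu : u = 0
    · convert Set.finite_empty
      ext t
      simp [hu]
    · exact (finite_bad u hu).subset fun t ht => ht.2
  obtain ⟨t, ht⟩ := hbad.infinite_compl.nonempty
  obtain ⟨y, hy0, hy⟩ := MP_1209e6.KrullZero.exists_common_zero (Ω := ℂ) (J := Fin 4) (I := Fin 3)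
    ![F, D, X 0 + C t * X 1 + C (t ^ 2) * X 2 + C (t ^ 3) * X 3]
    (by
      intro i
      fin_cases i
      · simpa [aeval_eq_eval] using zero_at_zero hF hdF
      · simpa [aeval_eq_eval] using zero_at_zero hDh (by norm_num)
      · simp)
    (by simp)
  have hFy : eval y F = 0 := by simpa [aeval_eq_eval] using hy 0
  have hDy : eval y D = 0 := by simpa [aeval_eq_eval] using hy 1
  have hly : y 0 + t * y 1 + t ^ 2 * y 2 + t ^ 3 * y 3 = 0 := by
    simpa [aeval_eq_eval] using hy 2
  let yy : Y := ⟨y, hy0, hFy, hDy⟩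
  obtain ⟨k, hk⟩ : ∃ k, y k ≠ 0 := by
    by_contra hc
    push Not at hc
    exact hy0 (funext hc)
  apply ht
  rw [Set.mem_iUnion₂]
  refine ⟨fun j => y j / y k, ?_, ?_, ?_⟩
  · intro j
    rw [hRdef]
    refine Set.mem_iUnion.mpr ⟨k, Set.mem_iUnion.mpr ⟨j, ?_⟩⟩
    refine ⟨y j ^ 20 * ψ yy, ⟨yy, rfl⟩, y k ^ 20 * ψ yy, ⟨yy, rfl⟩, ?_⟩
    have := hψ0 yy
    show y j ^ 20 * ψ yy / (y k ^ 20 * ψ yy) = (y j / y k) ^ 20
    field_simp
  · intro h0
    have := congrFun h0 k
    simp [hk] at this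
  · have : y 0 / y k + y 1 / y k * t + y 2 / y k * t ^ 2 + y 3 / y k * t ^ 3 =
        (y 0 + t * y 1 + t ^ 2 * y 2 + t ^ 3 * y 3) / y k := by ring
    show y 0 / y k + y 1 / y k * t + y 2 / y k * t ^ 2 + y 3 / y k * t ^ 3 = 0
    rw [this, hly, zero_div]

theorem pderiv_comm' (i j : Fin 4) (p : MvPolynomial (Fin 4) ℂ) :
    pderiv i (pderiv j p) = pderiv j (pderiv i p) := by
  classical
  by_cases hij : i = j
  · rw [hij]
  · ext m
    rw [coeff_pderiv, coeff_pderiv, coeff_pderiv, coeff_pderiv]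
    have h1 : (m + Finsupp.single i 1 : Fin 4 →₀ ℕ) j = m j := by
      simp [hij]
    have h2 : (m + Finsupp.single j 1 : Fin 4 →₀ ℕ) i = m i := by
      simp [Ne.symm hij]
    rw [h1, h2, add_right_comm]
    ring

/-- on a quartic surface there is a point `Q` and a vector `v` in the kernel of the Hessian at `Q`
with vanishing third derivative along `v`. -/
theorem exists_tacnode (F : MvPolynomial (Fin 4) ℂ) (hF : F.IsHomogeneous 4) :
    ∃ Q v : Fin 4 → ℂ, Q ≠ 0 ∧ v ≠ 0 ∧ eval Q F = 0 ∧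
      (∀ i, ∑ j, eval Q (pderiv i (pderiv j F)) * v j = 0) ∧
      ∑ i, ∑ j, ∑ k, eval Q (pderiv i (pderiv j (pderiv k F))) * v i * v j * v k = 0 := by
  obtain ⟨Q, v, hQ, hv, hFQ, hM, hT⟩ := key F hF (by norm_num)
    (Matrix.of fun i j => pderiv i (pderiv j F))
    (by
      ext1 i j
      exact pderiv_comm' j i F)
    (fun i j => (hF.pderiv (i := j)).pderiv (i := i))
    (fun i j k => pderiv i (pderiv j (pderiv k F)))
    (fun i j k => ((hF.pderiv (i := k)).pderiv (i := j)).pderiv (i := i))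
  refine ⟨Q, v, hQ, hv, hFQ, fun i => ?_, hT⟩
  have := congrFun hM i
  simpa [Matrix.mulVec, dotProduct] using this

end Pool.Agent.QX.Tac
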