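import Pool.Agent.Lib_MP_1209e6_qx.Defs
import Pool.Agent.Lib_MP_1209e6_ag.Der

/-! Linear disjointness by a derivation (for `Rat.lean`). -/

set_option autoImplicit false

open MvPolynomial

noncomputable section

namespace Pool.Agent.QX.S19

variable {k M : Type} [Field k] [Algebra ℂ k] [Field M] [Algebra ℂ M]

theorem der_ext {T : k} (hT : Base T) (τ : k →ₐ[ℂ] M) (D : Derivation ℂ M M) (D0 : Derivation ℂ k k)
    (h : D (τ T) = τ (D0 T)) (a : k) : D (τ a) = τ (D0 a) := by
  have hF : ∀ b ∈ IntermediateField.adjoin ℂ {T}, D (τ b) = τ (D0 b) := by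
    intro b hb
    induction hb using IntermediateField.adjoin_induction with
    | mem x hx => rw [Set.mem_singleton_iff.1 hx]; exact h
    | algebraMap x => rw [AlgHom.commutes, Derivation.map_algebraMap, Derivation.map_algebraMap, map_zero]
    | add x y _ _ hx hy => rw [map_add, map_add, map_add, map_add, hx, hy]
    | inv x _ hx =>
      rw [map_inv₀, Derivation.leibniz_inv, Derivation.leibniz_inv, hx]
      simp only [smul_eq_mul, map_mul, map_neg, map_pow, map_inv₀]
    | mul x y _ _ hx hy =>
      rw [map_mul, Derivation.leibniz, Derivation.leibniz, hx, hy]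
      simp only [smul_eq_mul, map_mul, map_add]
  have hpol : ∀ q : Polynomial (IntermediateField.adjoin ℂ {T}),
      D (τ (Polynomial.aeval a q)) - τ (D0 (Polynomial.aeval a q)) =
        τ (Polynomial.aeval a (Polynomial.derivative q)) * (D (τ a) - τ (D0 a)) := by
    intro q
    induction q using Polynomial.induction_on with
    | C c =>
      rw [Polynomial.aeval_C, Polynomial.derivative_C, map_zero, map_zero, zero_mul, sub_eq_zero]
      exact hF _ c.2
    | add p q hp hq =>
      simp only [map_add, add_mul] at hp hq ⊢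
      rw [← hp, ← hq]; ring
    | monomial n c _ =>
      have hc := hF _ c.2
      have hc' : D (τ (algebraMap (IntermediateField.adjoin ℂ {T}) k c)) =
        τ (D0 (algebraMap (IntermediateField.adjoin ℂ {T}) k c)) := hc
      simp only [map_mul, Polynomial.aeval_C, Polynomial.aeval_X, map_pow, Derivation.leibniz,
        Derivation.leibniz_pow, smul_eq_mul, map_add, hc', Polynomial.derivative_mul,
        Polynomial.derivative_C, Polynomial.derivative_X_pow, zero_mul, zero_add, nsmul_eq_mul,
        map_natCast, Nat.add_sub_cancel, Nat.cast_add, Nat.cast_one, map_one]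
      ring
  have halg := hT.alg a
  have hint : IsIntegral (IntermediateField.adjoin ℂ {T}) a := halg.isIntegral
  have : CharZero (IntermediateField.adjoin ℂ {T}) :=
    charZero_of_injective_algebraMap (algebraMap ℂ (IntermediateField.adjoin ℂ {T})).injective
  have h1 := hpol (minpoly (IntermediateField.adjoin ℂ {T}) a)
  rw [minpoly.aeval, map_zero, map_zero, map_zero, map_zero, sub_zero] at h1
  have h2 : Polynomial.aeval a (Polynomial.derivative (minpoly (IntermediateField.adjoin ℂ {T}) a)) ≠ 0 :=
    (minpoly.irreducible hint).separable.aeval_derivative_ne_zero (minpoly.aeval _ a)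
  rcases mul_eq_zero.1 h1.symm with h3 | h3
  · exact absurd ((map_eq_zero τ).1 h3) h2
  · exact sub_eq_zero.1 h3

/-- constants of a derivation with `D0 T ≠ 0` are complex -/
theorem const {T : k} (hT : Base T) (D0 : Derivation ℂ k k) (hD : D0 T ≠ 0) (a : k) (ha : D0 a = 0) :
    ∃ c : ℂ, a = algebraMap ℂ k c := by
  by_cases hal : IsAlgebraic ℂ a
  · have hint := hal.isIntegral
    have := IsAlgClosed.degree_eq_one_of_irreducible ℂ (minpoly.irreducible hint)
    obtain ⟨c, hc⟩ := minpoly.mem_range_of_degree_eq_one ℂ a this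
    exact ⟨c, hc.symm⟩
  · exfalso
    obtain ⟨D', hD'⟩ := Pool.Agent.Campana.exists_derivation (k := ℂ) (fun _ : Unit => a)
      ((algebraicIndependent_unique_type_iff (R := ℂ)).2 hal) (fun _ => 1)
    have hD1 : D' a = 1 := hD' ()
    have h1 := der_ext hT (AlgHom.id ℂ k) (D' - (D' T / D0 T) • D0) 0 (by
      simp only [AlgHom.coe_id, id, Derivation.sub_apply, Derivation.smul_apply, smul_eq_mul,
        Derivation.coe_zero, Pi.zero_apply]
      rw [div_mul_cancel₀ _ hD, sub_self]) a
    simp only [AlgHom.coe_id, id, Derivation.sub_apply, Derivation.smul_apply, smul_eq_mul,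
      Derivation.coe_zero, Pi.zero_apply, ha, mul_zero, sub_zero, hD1] at h1
    exact one_ne_zero h1

/-- linear disjointness -/
theorem ld (τ : k →ₐ[ℂ] M) (D : Derivation ℂ M M) (D0 : Derivation ℂ k k)
    (hτ : ∀ a, D (τ a) = τ (D0 a)) (hc : ∀ a, D0 a = 0 → ∃ c : ℂ, a = algebraMap ℂ k c) (n : ℕ) :
    ∀ (v : Fin n → k) (_ : LinearIndependent ℂ v) (p : Fin n → M) (_ : ∀ a, D (p a) = 0)
      (_ : ∑ a, τ (v a) * p a = 0), ∀ a, p a = 0 := by
  induction n with
  | zero => intro v _ p _ _ a; exact a.elim0
  | succ n ih =>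
    intro v hv p hp h
    have h0 : v 0 ≠ 0 := hv.ne_zero 0
    have h0' : τ (v 0) ≠ 0 := (map_ne_zero τ).2 h0
    have h1 : p 0 + ∑ a : Fin n, τ (v a.succ / v 0) * p a.succ = 0 := by
      rw [Fin.sum_univ_succ] at h
      have h2 : p 0 + ∑ a : Fin n, τ (v a.succ / v 0) * p a.succ =
          (τ (v 0))⁻¹ * (τ (v 0) * p 0 + ∑ a : Fin n, τ (v a.succ) * p a.succ) := by
        rw [mul_add, inv_mul_cancel_left₀ h0', Finset.mul_sum]
        congr 1
        refine Finset.sum_congr rfl fun a _ => ?_
        rw [map_div₀, div_eq_mul_inv]; ring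
      rw [h2, h, mul_zero]
    have h2 : ∑ a : Fin n, τ (D0 (v a.succ / v 0)) * p a.succ = 0 := by
      have h3 := congrArg D h1
      rw [map_add, map_zero, hp, zero_add, map_sum] at h3
      rw [← h3]
      refine Finset.sum_congr rfl fun a _ => ?_
      rw [Derivation.leibniz, hp, smul_zero, zero_add, hτ, smul_eq_mul, mul_comm]
    have hind : LinearIndependent ℂ (fun a : Fin n => D0 (v a.succ / v 0)) := by
      rw [Fintype.linearIndependent_iff]
      intro g hg
      have h3 : D0 (∑ a : Fin n, g a • (v a.succ / v 0)) = 0 := by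
        rw [map_sum, ← hg]
        refine Finset.sum_congr rfl fun a _ => ?_
        rw [Derivation.map_smul]
      obtain ⟨c, hc⟩ := hc _ h3
      rw [Fintype.linearIndependent_iff] at hv
      have h4 := hv (Fin.cons (-c) g) (by
        rw [Fin.sum_univ_succ]
        simp only [Fin.cons_zero, Fin.cons_succ]
        have h5 : (∑ a : Fin n, g a • (v a.succ / v 0)) * v 0 = ∑ a : Fin n, g a • v a.succ := by
          rw [Finset.sum_mul]
          refine Finset.sum_congr rfl fun a _ => ?_
          rw [smul_mul_assoc, div_mul_cancel₀ _ h0]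
        rw [← h5, hc, Algebra.smul_def, map_neg]; ring)
      intro a
      have h5 := h4 a.succ
      simpa using h5
    have h3 := ih _ hind (fun a => p a.succ) (fun a => hp _) h2
    intro a
    refine Fin.cases ?_ (fun a => h3 a) a
    have h4 : ∑ a : Fin n, τ (v a.succ / v 0) * p a.succ = 0 :=
      Finset.sum_eq_zero fun a _ => by rw [show p a.succ = 0 from h3 a, mul_zero]
    rw [h4, add_zero] at h1
    exact h1

end Pool.Agent.QX.S19
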