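import Pool.Agent.Lib_MP_1209e6_qx.Model
import Pool.Agent.Lib_MP_1209e6_ag.Der

/-! PIECE COVER: the covering family, without the two geometric inputs. -/

set_option autoImplicit false

open MvPolynomial Pool.Agent.CampanaFlow

noncomputable section

namespace Pool.Agent.QX

/-- an element of `M` algebraic over `τ k`, `k` algebraically closed, lies in `τ k` -/
theorem cov_mem {k M : Type} [Field k] [IsAlgClosed k] [Field M] (τ : k →+* M) (P : Polynomial k)
    (hP : P ≠ 0) (m : M) (h : P.eval₂ τ m = 0) : ∃ a, τ a = m := by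
  let _ := τ.toAlgebra
  have h1 : IsAlgebraic k m := ⟨P, hP, h⟩
  have h2 : Algebra.IsAlgebraic k (IntermediateField.adjoin k {m}) :=
    IntermediateField.isAlgebraic_adjoin (by simpa using h1.isIntegral)
  have h3 := IntermediateField.eq_bot_of_isAlgClosed_of_isAlgebraic (IntermediateField.adjoin k {m})
  have h4 : m ∈ (⊥ : IntermediateField k M) := h3 ▸ IntermediateField.mem_adjoin_simple_self k m
  exact IntermediateField.mem_bot.1 h4

/-- a right inverse with coefficients in the same field -/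
theorem cov_inv {k : Type} [Field k] [Algebra ℂ k] (k₀ : IntermediateField ℂ k)
    (e : Fin 3 → Fin 4 → k) (he : LinearIndependent k e) (h : ∀ i j, e i j ∈ k₀) :
    ∃ f : Fin 4 → Fin 3 → k, (∀ j i, f j i ∈ k₀) ∧
      ∀ i i', ∑ j, e i j * f j i' = if i = i' then 1 else 0 := by
  let e' : Fin 3 → Fin 4 → k₀ := fun i j => ⟨e i j, h i j⟩
  have he' : LinearIndependent k₀ e' := by
    rw [Fintype.linearIndependent_iff] at he ⊢
    intro a ha i
    have h1 := he (fun i => (a i : k)) (by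
      ext j
      have h2 := congrArg (algebraMap k₀ k) (congrFun ha j)
      simpa [Finset.sum_apply, e'] using h2) i
    exact Subtype.ext h1
  obtain ⟨G, hG⟩ := LinearMap.exists_leftInverse_of_injective (Fintype.linearCombination k₀ e')
    (LinearMap.ker_eq_bot.2 (linearIndependent_iff_injective_fintypeLinearCombination.1 he'))
  refine ⟨fun j i => (G (Pi.single j 1) i : k), fun j i => (G (Pi.single j 1) i).2, fun i i' => ?_⟩
  have h1 : G (e' i) = Pi.single i 1 := by
    have h2 := LinearMap.congr_fun hG (Pi.single i 1)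
    simpa [Fintype.linearCombination_apply_single] using h2
  have h3 : e' i = ∑ j, e' i j • (Pi.single j 1 : Fin 4 → k₀) := by
    ext j
    simp [Finset.sum_apply, Pi.single_apply]
  rw [h3, map_sum] at h1
  have h4 := congrArg (algebraMap k₀ k) (congrFun h1 i')
  simp only [Finset.sum_apply, map_smul, Pi.smul_apply, smul_eq_mul, map_sum, map_mul] at h4
  calc _ = _ := h4
    _ = _ := by
      rw [Pi.single_apply]
      by_cases h5 : i = i'
      · simp [h5]
      · simp [h5, Ne.symm h5]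

/-- the `k`-forms of the section in `M` -/
theorem cov_eq {F : MvPolynomial (Fin 4) ℂ} {k M : Type} [Field k] [Algebra ℂ k] [Field M] [Algebra ℂ M]
    (τ : k →ₐ[ℂ] M) (e : Fin 3 → Fin 4 → k) (p : Fin 3 → M) (q : Fin 4 → M)
    (hp : ∀ j, q j = ∑ i, p i * τ (e i j)) :
    eval₂ (τ : k →+* M) p (sec F e) = aeval q F := by
  rw [sec, ← coe_eval₂Hom, MvPolynomial.map_aeval, coe_eval₂Hom, aeval_def]
  have h1 : ((eval₂Hom (τ : k →+* M) p).comp (algebraMap ℂ (MvPolynomial (Fin 3) k))) =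
      algebraMap ℂ M := by
    ext a
    rw [RingHom.comp_apply, IsScalarTower.algebraMap_apply ℂ k (MvPolynomial (Fin 3) k),
      MvPolynomial.algebraMap_eq, coe_eval₂Hom, eval₂_C]
    exact τ.commutes a
  rw [h1]
  congr 1
  ext j
  rw [hp, map_sum]
  exact Finset.sum_congr rfl fun i _ => by
    rw [map_mul, coe_eval₂Hom, eval₂_C, eval₂_X, mul_comm]
    rfl

theorem cover_core {F : MvPolynomial (Fin 4) ℂ}
    {k M K : Type} [Field k] [Algebra ℂ k] [IsAlgClosed k] [Field M] [Algebra ℂ M] [Field K] [Algebra ℂ K]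
    [Algebra K M] [IsScalarTower ℂ K M] [Algebra.IsAlgebraic K M] (z : Fin 3 → K)
    (hz : IntermediateField.adjoin ℂ (Set.range z) = ⊤) (hFz : aeval (Fin.cons 1 z : Fin 4 → K) F = 0)
    (τ : k →ₐ[ℂ] M)
    (e : Fin 3 → Fin 4 → k) (c : Fin 3 → k) (g : k) (b : Fin 2 → k) (A : MvPolynomial (Fin 3) k)
    (hS : Sect F e c g b A) (p : Fin 3 → M)
    (hp : ∀ j, (Fin.cons 1 (fun l => algebraMap K M (z l)) : Fin 4 → M) j = ∑ i, p i * τ (e i j))
    (hg : g ≠ 0) (hnl : ∀ l : Fin 3 → k, l ≠ 0 → ∑ i, τ (l i) * p i ≠ 0) :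
    ∃ (L : IntermediateField K M) (k' : IntermediateField ℂ L) (N : ℕ) (x : Fin (N + 1) → L),
      FiniteDimensional K L ∧ AlmostHomogeneous k' x ∧ ∀ u ∈ k', (u : M) ∈ Set.range τ := by
  classical
  obtain ⟨s₁, hs₁⟩ : ∃ s : k, c 0 + c 1 * s + s ^ 2 = 0 := by
    have hd : (Polynomial.X ^ 2 + (Polynomial.C (c 1) * Polynomial.X + Polynomial.C (c 0)) :
        Polynomial k).degree = 2 := by compute_degree!
    obtain ⟨s, hs⟩ := IsAlgClosed.exists_root _ (by rw [hd]; decide)
    refine ⟨s, ?_⟩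
    simp only [Polynomial.IsRoot.def, Polynomial.eval_add, Polynomial.eval_mul, Polynomial.eval_C,
      Polynomial.eval_X, Polynomial.eval_pow] at hs
    linear_combination hs
  obtain ⟨s₂, hs₂⟩ : ∃ s₂, s₂ = - c 1 - s₁ := ⟨_, rfl⟩
  set q : Fin 4 → M := Fin.cons 1 (fun l => algebraMap K M (z l)) with hq
  have hFq : aeval q F = 0 := by
    have h1 := congrArg (algebraMap K M) hFz
    rw [map_zero, ← MvPolynomial.aeval_algebraMap_apply] at h1
    rw [← h1]
    congr 2
    funext j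
    refine Fin.cases ?_ (fun l => ?_) j
    · simp [hq]
    · simp [hq]
  -- the finite set
  let Y : Set k := (Set.range fun ij : Fin 3 × Fin 4 => e ij.1 ij.2) ∪ (A.coeffs : Set k) ∪
    {s₁, s₂, g, b 0, b 1}
  have hYf : Y.Finite := ((Set.finite_range _).union (Finset.finite_toSet _)).union
    (Set.toFinite _)
  let k₀ : IntermediateField ℂ k := IntermediateField.adjoin ℂ Y
  have hYk : ∀ a ∈ Y, a ∈ k₀ := fun a ha => IntermediateField.subset_adjoin ℂ Y ha
  have hek : ∀ i j, e i j ∈ k₀ := fun i j => hYk _ (Or.inl (Or.inl ⟨(i, j), rfl⟩))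
  have hAk : ∀ m, A.coeff m ∈ k₀ := fun m => by
    by_cases h : A.coeff m = 0
    · rw [h]; exact zero_mem _
    · exact hYk _ (Or.inl (Or.inr (MvPolynomial.coeff_mem_coeffs m h)))
  have hs1k : s₁ ∈ k₀ := hYk _ (Or.inr (by simp))
  have hs2k : s₂ ∈ k₀ := hYk _ (Or.inr (by simp))
  have hgk : g ∈ k₀ := hYk _ (Or.inr (by simp))
  have hb0k : b 0 ∈ k₀ := hYk _ (Or.inr (by simp))
  have hb1k : b 1 ∈ k₀ := hYk _ (Or.inr (by simp))
  let L : IntermediateField K M := IntermediateField.adjoin K (τ '' Y)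
  have hfin : FiniteDimensional K L := by
    have := (hYf.image τ).to_subtype
    exact IntermediateField.finiteDimensional_adjoin
      (fun x _ => (Algebra.IsAlgebraic.isAlgebraic x).isIntegral)
  have hkL : ∀ a ∈ k₀, τ a ∈ L := by
    have h1 : k₀ ≤ (L.restrictScalars ℂ).comap τ := by
      refine IntermediateField.adjoin_le_iff.2 fun a ha => ?_
      exact IntermediateField.subset_adjoin K _ ⟨a, ha, rfl⟩
    exact fun a ha => h1 ha
  have hqL : ∀ j, q j ∈ L := by
    intro j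
    refine Fin.cases ?_ (fun l => ?_) j
    · simp only [hq, Fin.cons_zero]; exact one_mem _
    · simp only [hq, Fin.cons_succ]; exact L.algebraMap_mem _
  have hpL : ∀ i, p i ∈ L := by
    obtain ⟨f, hf1, hf2⟩ := cov_inv k₀ e hS.ind hek
    intro i
    have h1 : p i = ∑ j, q j * τ (f j i) := by
      simp only [hp, Finset.sum_mul, mul_assoc, ← map_mul]
      rw [Finset.sum_comm]
      simp only [← Finset.mul_sum, ← map_sum, hf2]
      simp
    rw [h1]
    exact sum_mem fun j _ => mul_mem (hqL j) (hkL _ (hf1 j i))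
  let ψ : k₀ →+* L := ((τ : k →+* M).comp (algebraMap k₀ k)).codRestrict L fun a => hkL a a.2
  have hψ : ∀ a, ((ψ a : L) : M) = τ a := fun a => rfl
  let k' : IntermediateField ℂ L := τ.fieldRange.comap (L.val.restrictScalars ℂ)
  have hk' : ∀ u : L, u ∈ k' ↔ ∃ a, τ a = u := fun u => AlgHom.mem_fieldRange
  have hψk : ∀ a, ψ a ∈ k' := fun a => (hk' _).2 ⟨a, rfl⟩
  obtain ⟨A₀, hA₀⟩ : ∃ A₀ : MvPolynomial (Fin 3) k₀, A₀.map (algebraMap k₀ k) = A := by
    have h1 : A ∈ Set.range (MvPolynomial.map (algebraMap k₀ k)) := by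
      rw [MvPolynomial.mem_range_map_iff_coeffs_subset]
      intro a ha
      exact ⟨⟨a, hYk _ (Or.inl (Or.inr ha))⟩, rfl⟩
    exact h1
  let A' : MvPolynomial (Fin 3) L := A₀.map ψ
  have hA'c : ∀ m, ((A'.coeff m : L) : M) = τ (A.coeff m) := fun m => by
    rw [← hA₀, MvPolynomial.coeff_map, MvPolynomial.coeff_map]
    rfl
  have hA'hom : A'.IsHomogeneous 2 := by
    intro m hm
    apply hS.hom
    intro h0
    apply hm
    apply Subtype.ext
    rw [hA'c, h0, map_zero]
    rfl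
  have hA'k : ∀ m, A'.coeff m ∈ k' := fun m => (hk' _).2 ⟨_, (hA'c m).symm⟩
  let p' : Fin 3 → L := fun i => ⟨p i, hpL i⟩
  have hA'e : ((eval p' A' : L) : M) = eval₂ (τ : k →+* M) p A := by
    have h1 : ((eval p' A' : L) : M) = (algebraMap L M) (eval p' (A₀.map ψ)) := rfl
    rw [h1, MvPolynomial.eval_map, ← hA₀, MvPolynomial.eval₂_map, ← coe_eval₂Hom, ← coe_eval₂Hom,
      ← RingHom.comp_apply]
    congr 1
    refine MvPolynomial.ringHom_ext (fun a => ?_) (fun i => ?_)
    · simp only [RingHom.comp_apply, coe_eval₂Hom, eval₂_C]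
      rfl
    · simp only [RingHom.comp_apply, coe_eval₂Hom, eval₂_X]
      rfl
  have hp0 : p' 0 ≠ 0 := by
    intro h0
    have h1 : p 0 = 0 := congrArg Subtype.val h0
    apply hnl (Pi.single 0 1) (by simp)
    simp [Fin.sum_univ_three, h1]
  have hr : p' 1 - ψ ⟨s₁, hs1k⟩ * p' 0 ≠ 0 := by
    intro h0
    have h1 : p 1 - τ s₁ * p 0 = 0 := congrArg Subtype.val h0
    apply hnl ![-s₁, 1, 0] (by intro h; simpa using congrFun h 1)
    rw [Fin.sum_univ_three]
    change τ (-s₁) * p 0 + τ 1 * p 1 + τ 0 * p 2 = 0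
    rw [map_neg, map_one, map_zero]
    linear_combination h1
  -- transcendence of `m`
  set m : L := p' 2 / (p' 1 - ψ ⟨s₁, hs1k⟩ * p' 0) with hm
  have htm : Transcendental k' m := by
    rintro ⟨P, hP0, hP⟩
    let φ : k' →+* M := (algebraMap L M).comp (algebraMap k' L)
    obtain ⟨Q, hQ⟩ : ∃ Q : Polynomial k, Q.map (τ : k →+* M) = P.map φ := by
      have h1 : P.map φ ∈ Polynomial.lifts (τ : k →+* M) := by
        rw [Polynomial.lifts_iff_coeff_lifts]
        intro n
        rw [Polynomial.coeff_map]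
        exact (hk' _).1 (P.coeff n).2
      exact (Polynomial.mem_lifts _).1 h1
    have hQ0 : Q ≠ 0 := by
      rintro rfl
      rw [Polynomial.map_zero] at hQ
      exact hP0 ((Polynomial.map_eq_zero φ).1 hQ.symm)
    obtain ⟨a, ha⟩ := cov_mem (τ : k →+* M) Q hQ0 (m : M) (by
      rw [Polynomial.eval₂_eq_eval_map, hQ, ← Polynomial.eval₂_eq_eval_map]
      have h2 : Polynomial.eval₂ (algebraMap k' L) m P = 0 := hP
      rw [show Polynomial.eval₂ φ (m : M) P = (algebraMap L M) (Polynomial.eval₂ (algebraMap k' L) m P)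
        from (Polynomial.hom_eval₂ P (algebraMap k' L) (algebraMap L M) m).symm, h2, map_zero])
    have h3 : (p 2 : M) - τ a * (p 1 - τ s₁ * p 0) = 0 := by
      have h4 : p' 2 = m * (p' 1 - ψ ⟨s₁, hs1k⟩ * p' 0) := by
        rw [hm, div_mul_cancel₀ _ hr]
      have h5 : p 2 = (m : M) * (p 1 - τ s₁ * p 0) := congrArg Subtype.val h4
      have ha' : τ a = (m : M) := ha
      rw [h5, ha', sub_self]
    apply hnl ![a * s₁, -a, 1] (by intro h; simpa using congrFun h 2)
    rw [Fin.sum_univ_three]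
    change τ (a * s₁) * p 0 + τ (-a) * p 1 + τ 1 * p 2 = 0
    rw [map_neg, map_one, map_mul]
    linear_combination h3
  have hcz : CharZero L := charZero_of_injective_algebraMap (algebraMap ℂ L).injective
  have hcz' : CharZero k' := charZero_of_injective_algebraMap (algebraMap ℂ k').injective
  obtain ⟨D₀, hD₀⟩ := Pool.Agent.Campana.exists_derivation (k := k') (K := L) (fun _ : Unit => m)
    ((algebraicIndependent_unique_type_iff).2 htm) (fun _ => 1)
  let D : Derivation ℂ L L := D₀.restrictScalars ℂ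
  have hD : ∀ a ∈ k', D a = 0 := fun a ha => D₀.map_algebraMap ⟨a, ha⟩
  have hDm : D m ≠ 0 := by
    have h1 : D m = 1 := hD₀ ()
    rw [h1]
    exact one_ne_zero
  -- the equation
  have heq : (ψ ⟨g, hgk⟩) * ((p' 1 - ψ ⟨s₁, hs1k⟩ * p' 0) * (p' 1 - ψ ⟨s₂, hs2k⟩ * p' 0)) ^ 2 +
      p' 2 * (ψ ⟨b 0, hb0k⟩ * p' 0 + ψ ⟨b 1, hb1k⟩ * p' 1) *
        ((p' 1 - ψ ⟨s₁, hs1k⟩ * p' 0) * (p' 1 - ψ ⟨s₂, hs2k⟩ * p' 0)) +
      p' 2 ^ 2 * eval p' A' = 0 := by
    apply Subtype.ext
    change τ g * ((p 1 - τ s₁ * p 0) * (p 1 - τ s₂ * p 0)) ^ 2 +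
      p 2 * (τ (b 0) * p 0 + τ (b 1) * p 1) * ((p 1 - τ s₁ * p 0) * (p 1 - τ s₂ * p 0)) +
      p 2 ^ 2 * ((eval p' A' : L) : M) = 0
    have h1 := cov_eq τ e p q hp (F := F)
    rw [hFq, hS.eq] at h1
    rw [hA'e, ← h1]
    have h2 : τ (c 0) = τ s₁ * τ s₂ := by
      rw [← map_mul]
      congr 1
      rw [hs₂]
      linear_combination hs₁
    have h3 : τ (c 1) = - τ s₁ - τ s₂ := by
      rw [hs₂, map_sub, map_neg]
      ring
    have h4 : (τ : k →+* M) = (τ : k →+* M) := rfl
    simp only [quad, lin, ← coe_eval₂Hom, map_add, map_mul, map_pow, eval₂Hom_C, eval₂Hom_X',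
      hS.c_two, map_one, one_mul, RingHom.coe_coe, h2, h3]
    ring
  -- generation
  have hgen : IntermediateField.adjoin ℂ ((k' : Set L) ∪ {p' 1 / p' 0, p' 2 / p' 0}) = ⊤ := by
    rw [eq_top_iff]
    rintro u -
    set S : IntermediateField ℂ L :=
      IntermediateField.adjoin ℂ ((k' : Set L) ∪ {p' 1 / p' 0, p' 2 / p' 0}) with hS'
    let SM : IntermediateField ℂ M := S.map (L.val.restrictScalars ℂ)
    have hSM : ∀ v ∈ S, (v : M) ∈ SM := fun v hv => ⟨v, hv, rfl⟩
    have hkS : ∀ a ∈ k₀, τ a ∈ SM := fun a ha =>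
      hSM ⟨τ a, hkL a ha⟩ (IntermediateField.subset_adjoin _ _ (Or.inl (hψk ⟨a, ha⟩)))
    have hM0 : p 0 ≠ 0 := fun h => hp0 (Subtype.ext h)
    have hpS : ∀ i, p i / p 0 ∈ SM := by
      intro i
      have h1 : p' i / p' 0 ∈ S := by
        fin_cases i
        · change p' 0 / p' 0 ∈ S
          rw [div_self hp0]; exact one_mem _
        · exact IntermediateField.subset_adjoin _ _ (Or.inr (Or.inl rfl))
        · exact IntermediateField.subset_adjoin _ _ (Or.inr (Or.inr rfl))
      exact hSM _ h1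
    have hqS : ∀ j, q j / p 0 ∈ SM := by
      intro j
      have h1 : q j / p 0 = ∑ i, p i / p 0 * τ (e i j) := by
        rw [hp, Finset.sum_div]
        exact Finset.sum_congr rfl fun i _ => by ring
      rw [h1]
      exact sum_mem fun i _ => mul_mem (hpS i) (hkS _ (hek i j))
    have hp0S : p 0 ∈ SM := by
      have h1 := inv_mem (hqS 0)
      rwa [hq, Fin.cons_zero, one_div, inv_inv] at h1
    have hqS' : ∀ j, q j ∈ SM := by
      intro j
      have h1 := mul_mem (hqS j) hp0S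
      rwa [div_mul_cancel₀ _ hM0] at h1
    have hKS : ∀ a : K, algebraMap K M a ∈ SM := by
      have h1 : (⊤ : IntermediateField ℂ K) ≤ SM.comap (IsScalarTower.toAlgHom ℂ K M) := by
        rw [← hz, IntermediateField.adjoin_le_iff]
        rintro _ ⟨l, rfl⟩
        have h2 := hqS' l.succ
        rw [hq, Fin.cons_succ] at h2
        exact h2
      exact fun a => h1 (IntermediateField.mem_top (x := a))
    have hLS : ∀ a ∈ L, a ∈ SM := by
      intro a ha
      induction ha using IntermediateField.adjoin_induction with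
      | mem x hx =>
        obtain ⟨y, hy, rfl⟩ := hx
        exact hkS y (hYk y hy)
      | algebraMap x => exact hKS x
      | add x y _ _ hx hy => exact add_mem hx hy
      | inv x _ hx => exact inv_mem hx
      | mul x y _ _ hx hy => exact mul_mem hx hy
    obtain ⟨v, hv, hvu⟩ := hLS u u.2
    have h5 : v = u := Subtype.ext hvu
    rw [← h5]
    exact hv
  obtain ⟨N, x, hx⟩ := model k' (ψ ⟨s₁, hs1k⟩) (ψ ⟨s₂, hs2k⟩) (ψ ⟨g, hgk⟩) (ψ ⟨b 0, hb0k⟩)
    (ψ ⟨b 1, hb1k⟩) (hψk _) (hψk _) (hψk _) (hψk _) (hψk _)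
    (fun h => hg (by
      have h1 : τ g = 0 := congrArg Subtype.val h
      exact (map_eq_zero τ).1 h1)) A' hA'hom hA'k p' hp0 hr heq D hD hDm hgen
  exact ⟨L, k', N, x, hfin, hx, fun u hu => (hk' u).1 hu⟩

end Pool.Agent.QX
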