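import Pool.Agent.Lib_MP_1209e6_qx.Defs
import Pool.Agent.Lib_MP_1209e6_ds.Coef
import Pool.Agent.Lib_MP_1209e6_ds.SmoothUp
import Pool.Agent.Lib_MP_1209e6_ag.Der
import Pool.Agent.Lib_MP_1209e6_dp.DerAlg

/-! Another proof of PENCIL with its reusable lemmas (`Pencil.lean` is by helper90). -/

set_option autoImplicit false

open MvPolynomial

noncomputable section

namespace Pool.Agent.QX.X92

variable {k : Type} [Field k] [Algebra ℂ k] [IsAlgClosed k]

omit [IsAlgClosed k] in
theorem pen_hom {m n : ℕ} {G : MvPolynomial (Fin m) ℂ} (hG : G.IsHomogeneous n) (c : k) (p : Fin m → k) :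
    aeval (fun j => c * p j) G = c ^ n * aeval p G := by
  rw [aeval_eq_eval₂Hom, aeval_eq_eval₂Hom, coe_eval₂Hom, coe_eval₂Hom, eval₂_eq, eval₂_eq, Finset.mul_sum]
  refine Finset.sum_congr rfl fun d hd => ?_
  have h1 : ∑ i, d i = n := by
    have h2 := hG (mem_support_iff.1 hd)
    rw [← h2, Finsupp.weight_apply, Finsupp.sum_fintype]
    · simp
    · simp
  simp only [mul_pow, Finset.prod_mul_distrib]
  have h3 : ∏ i ∈ d.support, c ^ d i = c ^ n := by
    rw [Finset.prod_pow_eq_pow_sum]
    congr 1
    rw [← h1]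
    exact Finset.sum_subset (Finset.subset_univ _) fun i _ hi => Finsupp.notMem_support_iff.1 hi
  rw [h3]
  ring

omit [IsAlgClosed k] in
theorem pen_sec (F : MvPolynomial (Fin 4) ℂ) (e : Fin 3 → Fin 4 → k) (W : Fin 3 → k) :
    aeval W (sec F e) = aeval (fun j => ∑ i, e i j * W i) F := by
  have h : ((aeval W : MvPolynomial (Fin 3) k →ₐ[k] k).restrictScalars ℂ).comp
      (aeval (fun j => ∑ i, C (e i j) * X i)) = aeval (fun j => ∑ i, e i j * W i) := by
    apply MvPolynomial.algHom_ext
    intro j
    simp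
  exact DFunLike.congr_fun h F

omit [IsAlgClosed k] in
theorem pen_pderiv (F : MvPolynomial (Fin 4) ℂ) (e : Fin 3 → Fin 4 → k) (W : Fin 3 → k) (i : Fin 3) :
    aeval W (pderiv i (sec F e)) = ∑ j, e i j * aeval (fun j => ∑ i, e i j * W i) (pderiv j F) := by
  have h := Pool.Agent.DS.chain ((pderiv (R := k) i).restrictScalars ℂ)
    (fun j => ∑ i, C (e i j) * X i) F
  have h1 : pderiv i (sec F e) = ∑ j, C (e i j) *
      aeval (fun j => ∑ i, C (e i j) * X i) (pderiv j F) := by
    refine h.trans (Finset.sum_congr rfl fun j _ => ?_)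
    congr 1
    show pderiv i (∑ i, C (e i j) * X i) = C (e i j)
    rw [map_sum, Finset.sum_eq_single i]
    · rw [pderiv_C_mul, pderiv_X_self]
      simp
    · intro l _ hl
      rw [pderiv_C_mul, pderiv_X_of_ne hl]
      simp
    · simp
  rw [h1, map_sum]
  refine Finset.sum_congr rfl fun j _ => ?_
  rw [map_mul, aeval_C]
  congr 1
  exact pen_sec (pderiv j F) e W

/-- the singular point of the section -/
theorem pen_point {F : MvPolynomial (Fin 4) ℂ} (e : Fin 3 → Fin 4 → k) (c : Fin 3 → k) (g : k)
    (b : Fin 2 → k) (A : MvPolynomial (Fin 3) k) (hS : Sect F e c g b A) :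
    ∃ N : Fin 4 → k, N ≠ 0 ∧ aeval N F = 0 ∧ ∀ i, ∑ j, e i j * aeval N (pderiv j F) = 0 := by
  obtain ⟨t, ht⟩ := IsAlgClosed.exists_root (Polynomial.X ^ 2 +
      (Polynomial.C (c 1) * Polynomial.X + Polynomial.C (c 0))) (by
        rw [Polynomial.degree_add_eq_left_of_degree_lt]
        · rw [Polynomial.degree_X_pow]; decide
        · rw [Polynomial.degree_X_pow]
          exact lt_of_le_of_lt Polynomial.degree_linear_le (by decide))
  rw [Polynomial.IsRoot.def] at ht
  simp only [Polynomial.eval_add, Polynomial.eval_mul, Polynomial.eval_C, Polynomial.eval_pow,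
    Polynomial.eval_X] at ht
  have hq : aeval ![1, t, 0] (quad c) = 0 := by
    simp [quad, hS.c_two]
    linear_combination ht
  refine ⟨fun j => ∑ i, e i j * (![1, t, 0] : Fin 3 → k) i, ?_, ?_, fun i => ?_⟩
  · intro h0
    have h1 := Fintype.linearIndependent_iff.1 hS.ind ![1, t, 0] (by
      funext j
      have h2 := congrFun h0 j
      simp only [Finset.sum_apply, Pi.smul_apply, smul_eq_mul, Pi.zero_apply] at h2 ⊢
      exact (Finset.sum_congr rfl fun i _ => mul_comm _ _).trans h2) 0
    exact one_ne_zero h1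
  · rw [← pen_sec, hS.eq]
    simp only [map_add, map_mul, map_pow, hq, aeval_X]
    simp
  · rw [← pen_pderiv, hS.eq]
    simp only [map_add, pderiv_mul, pderiv_pow, map_mul, map_pow, hq, aeval_X, pderiv_C]
    simp

omit [IsAlgClosed k] in
/-- a complex number -/
theorem pen_alg {a : k} (h : IsAlgebraic ℂ a) : ∃ r : ℂ, a = algebraMap ℂ k r := by
  have h4 := IsAlgClosed.degree_eq_one_of_irreducible ℂ (minpoly.irreducible h.isIntegral)
  obtain ⟨r, hr⟩ := minpoly.mem_range_of_degree_eq_one ℂ a h4
  exact ⟨r, hr.symm⟩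

open scoped IntermediateField.algebraAdjoinAdjoin in
omit [IsAlgClosed k] in
/-- an element of `k` killed by the derivation is complex -/
theorem pen_const (T : k) (hT : Base T) (D : Derivation ℂ k k) (hD : D T = 1) (a : k) (ha : D a = 0) :
    ∃ r : ℂ, a = algebraMap ℂ k r := by
  by_contra hcon
  have htr : Transcendental ℂ a := fun h => hcon (pen_alg h)
  have h1 : AlgebraicIndependent ℂ (fun _ : Fin 1 => a) := by
    rw [algebraicIndependent_unique_type_iff]
    exact htr
  have halg : Algebra.IsAlgebraic (IntermediateField.adjoin ℂ ({T} : Set k)) k := ⟨hT.alg⟩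
  have h2 : Algebra.IsAlgebraic (Algebra.adjoin ℂ ({T} : Set k)) k :=
    (IsFractionRing.comap_isAlgebraic_iff (K := IntermediateField.adjoin ℂ ({T} : Set k))).2 halg
  have h3 : Algebra.trdeg ℂ k ≤ 1 := by
    refine (Algebra.IsAlgebraic.trdeg_le_cardinalMk ℂ ({T} : Set k)).trans ?_
    rw [Cardinal.mk_singleton]
  have h4 : IsTranscendenceBasis ℂ (fun _ : Fin 1 => a) :=
    h1.isTranscendenceBasis_of_trdeg_le_of_finite (by
      rw [Cardinal.mk_fin]
      exact_mod_cast h3)
  have h5 := h4.isAlgebraic_field.isAlgebraic T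
  have h6 : D T = 0 := by
    refine Pool.Agent.DP.der_alg _ D ?_ h5
    intro z hz
    have hle : IntermediateField.adjoin ℂ (Set.range fun _ : Fin 1 => a) ≤
        (IntermediateField.adjoin ℂ ({a} : Set k)) := by
      rw [IntermediateField.adjoin_le_iff]
      rintro _ ⟨_, rfl⟩
      exact IntermediateField.subset_adjoin _ _ rfl
    have hz' := hle hz
    clear hz
    induction hz' using IntermediateField.adjoin_induction with
    | mem x hx =>
      rw [Set.mem_singleton_iff] at hx
      rw [hx, ha]
    | algebraMap r => exact D.map_algebraMap r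
    | add x y _ _ hx hy => rw [map_add, hx, hy, add_zero]
    | inv x _ hx =>
      rw [Derivation.leibniz_inv, hx, smul_zero]
    | mul x y _ _ hx hy => rw [Derivation.leibniz, hx, hy, smul_zero, smul_zero, add_zero]
  rw [hD] at h6
  exact one_ne_zero h6

/-- three vectors are independent, and a fourth functional -/
theorem pen_lin (N X Y u v : Fin 4 → k) (j₀ : Fin 4) (hu0 : u j₀ ≠ 0)
    (hN : ∀ s t : k, ∃ j, N j ≠ s * X j + t * Y j) (hXY : ∀ s t : k, (∀ j, s * X j + t * Y j = 0) → s = 0 ∧ t = 0)
    (uN : ∑ j, u j * N j = 0) (uX : ∑ j, u j * X j = 0) (uY : ∑ j, u j * Y j = 0)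
    (vN : ∑ j, v j * N j = 0) (vX : ∑ j, v j * X j = 0) (vY : ∑ j, v j * Y j = 0) :
    ∀ j, v j * u j₀ = v j₀ * u j := by
  have h0 : (fun j => v j * u j₀ - v j₀ * u j) = 0 := by
    by_contra hc
    have h1 : (Matrix.of ![N, X, Y, Pi.single j₀ 1]).det = 0 := by
      rw [← Matrix.exists_mulVec_eq_zero_iff]
      refine ⟨_, hc, ?_⟩
      funext i
      fin_cases i
      · show ∑ j, N j * (v j * u j₀ - v j₀ * u j) = 0
        have : ∑ j, N j * (v j * u j₀ - v j₀ * u j) = u j₀ * (∑ j, v j * N j) - v j₀ * ∑ j, u j * N j := by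
          rw [Finset.mul_sum, Finset.mul_sum, ← Finset.sum_sub_distrib]
          exact Finset.sum_congr rfl fun j _ => by ring
        rw [this, vN, uN]; ring
      · show ∑ j, X j * (v j * u j₀ - v j₀ * u j) = 0
        have : ∑ j, X j * (v j * u j₀ - v j₀ * u j) = u j₀ * (∑ j, v j * X j) - v j₀ * ∑ j, u j * X j := by
          rw [Finset.mul_sum, Finset.mul_sum, ← Finset.sum_sub_distrib]
          exact Finset.sum_congr rfl fun j _ => by ring
        rw [this, vX, uX]; ring
      · show ∑ j, Y j * (v j * u j₀ - v j₀ * u j) = 0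
        have : ∑ j, Y j * (v j * u j₀ - v j₀ * u j) = u j₀ * (∑ j, v j * Y j) - v j₀ * ∑ j, u j * Y j := by
          rw [Finset.mul_sum, Finset.mul_sum, ← Finset.sum_sub_distrib]
          exact Finset.sum_congr rfl fun j _ => by ring
        rw [this, vY, uY]; ring
      · show ∑ j, (Pi.single j₀ 1 : Fin 4 → k) j * (v j * u j₀ - v j₀ * u j) = 0
        rw [Finset.sum_eq_single j₀]
        · rw [Pi.single_eq_same]; ring
        · intro j _ hj
          rw [Pi.single_eq_of_ne hj]; ring
        · simp
    rw [← Matrix.exists_vecMul_eq_zero_iff] at h1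
    obtain ⟨w, hw, h2⟩ := h1
    have h3 : ∀ j, w 0 * N j + w 1 * X j + w 2 * Y j + w 3 * (Pi.single j₀ 1 : Fin 4 → k) j = 0 := by
      intro j
      have h4 := congrFun h2 j
      simpa [Matrix.vecMul, dotProduct, Fin.sum_univ_four] using h4
    have h5 : w 3 * u j₀ = 0 := by
      have h6 : ∑ j, u j * (w 0 * N j + w 1 * X j + w 2 * Y j + w 3 * (Pi.single j₀ 1 : Fin 4 → k) j) = 0 :=
        Finset.sum_eq_zero fun j _ => by rw [h3 j, mul_zero]
      have h7 : ∑ j, u j * (w 0 * N j + w 1 * X j + w 2 * Y j + w 3 * (Pi.single j₀ 1 : Fin 4 → k) j) =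
          w 0 * (∑ j, u j * N j) + w 1 * (∑ j, u j * X j) + w 2 * (∑ j, u j * Y j) +
            w 3 * ∑ j, u j * (Pi.single j₀ 1 : Fin 4 → k) j := by
        rw [Finset.mul_sum, Finset.mul_sum, Finset.mul_sum, Finset.mul_sum, ← Finset.sum_add_distrib,
          ← Finset.sum_add_distrib, ← Finset.sum_add_distrib]
        exact Finset.sum_congr rfl fun j _ => by ring
      have h8 : ∑ j, u j * (Pi.single j₀ 1 : Fin 4 → k) j = u j₀ := by
        rw [Finset.sum_eq_single j₀]
        · rw [Pi.single_eq_same, mul_one]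
        · intro j _ hj
          rw [Pi.single_eq_of_ne hj, mul_zero]
        · simp
      rw [h7, uN, uX, uY, h8] at h6
      linear_combination h6
    have h9 : w 3 = 0 := (mul_eq_zero.1 h5).resolve_right hu0
    have h10 : w 0 = 0 := by
      by_contra h
      obtain ⟨j, hj⟩ := hN (-(w 1) / w 0) (-(w 2) / w 0)
      apply hj
      have h11 := h3 j
      rw [h9] at h11
      field_simp
      linear_combination h11
    obtain ⟨h12, h13⟩ := hXY (w 1) (w 2) fun j => by
      have h11 := h3 j
      rw [h9, h10] at h11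
      linear_combination h11
    apply hw
    funext j
    fin_cases j
    · exact h10
    · exact h12
    · exact h13
    · exact h9
  intro j
  exact sub_eq_zero.1 (congrFun h0 j)

omit [IsAlgClosed k] in
/-- independent complex vectors are independent over `k` -/
theorem pen_ind (x y : Fin 4 → ℂ) (hxy : LinearIndependent ℂ ![x, y]) (s t : k)
    (h : ∀ j, s * algebraMap ℂ k (x j) + t * algebraMap ℂ k (y j) = 0) : s = 0 ∧ t = 0 := by
  obtain ⟨i, j, hij⟩ : ∃ i j, x i * y j - x j * y i ≠ 0 := by
    by_contra hc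
    push Not at hc
    rw [LinearIndependent.pair_iff] at hxy
    by_cases hx : x = 0
    · have := hxy 1 0 (by rw [hx]; simp)
      exact one_ne_zero this.1
    · obtain ⟨i, hi⟩ := Function.ne_iff.1 hx
      have := hxy (- y i) (x i) (by
        funext j
        have h1 := hc i j
        simp only [Pi.add_apply, Pi.smul_apply, smul_eq_mul, Pi.zero_apply]
        linear_combination h1)
      exact hi this.2
  have hij' : algebraMap ℂ k (x i * y j - x j * y i) ≠ 0 := by
    rwa [Ne, map_eq_zero]
  rw [map_sub, map_mul, map_mul] at hij'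
  have h1 := h i
  have h2 := h j
  constructor
  · have h3 : s * (algebraMap ℂ k (x i) * algebraMap ℂ k (y j) -
        algebraMap ℂ k (x j) * algebraMap ℂ k (y i)) = 0 := by
      linear_combination (algebraMap ℂ k (y j)) * h1 - (algebraMap ℂ k (y i)) * h2
    exact (mul_eq_zero.1 h3).resolve_right hij'
  · have h3 : t * (algebraMap ℂ k (x i) * algebraMap ℂ k (y j) -
        algebraMap ℂ k (x j) * algebraMap ℂ k (y i)) = 0 := by
      linear_combination (algebraMap ℂ k (x i)) * h2 - (algebraMap ℂ k (x j)) * h1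
    exact (mul_eq_zero.1 h3).resolve_right hij'

omit [IsAlgClosed k] in
/-- a zero of `F` on a complex line is complex -/
theorem pen_zero {F : MvPolynomial (Fin 4) ℂ} (hF : F.IsHomogeneous 4) (hl : NoLine F)
    (x y : Fin 4 → ℂ) (hxy : LinearIndependent ℂ ![x, y]) (s t : k) (hst : s ≠ 0 ∨ t ≠ 0)
    (h : aeval (fun j => s * algebraMap ℂ k (x j) + t * algebraMap ℂ k (y j)) F = 0) :
    ∃ (c : k) (z : Fin 4 → ℂ), c ≠ 0 ∧
      ∀ j, s * algebraMap ℂ k (x j) + t * algebraMap ℂ k (y j) = c * algebraMap ℂ k (z j) := by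
  by_cases ht : t = 0
  · refine ⟨s, x, by tauto, fun j => by rw [ht]; ring⟩
  · -- the polynomial
    let P : Polynomial ℂ := aeval (fun j => Polynomial.X * Polynomial.C (x j) + Polynomial.C (y j)) F
    have key : ∀ {R : Type} [Field R] [Algebra ℂ R] (r : R), Polynomial.aeval r P =
        aeval (fun j => r * algebraMap ℂ R (x j) + algebraMap ℂ R (y j)) F := by
      intro R _ _ r
      have h1 : (Polynomial.aeval r : Polynomial ℂ →ₐ[ℂ] R).comp
          (aeval (fun j => Polynomial.X * Polynomial.C (x j) + Polynomial.C (y j))) =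
          aeval (fun j => r * algebraMap ℂ R (x j) + algebraMap ℂ R (y j)) := by
        apply MvPolynomial.algHom_ext
        intro j
        simp
        ring
      exact DFunLike.congr_fun h1 F
    have hP : P ≠ 0 := by
      intro h0
      obtain ⟨s₁, t₁, h1⟩ := hl x y hxy
      -- F (s₁ x + t y) as a polynomial in t
      let Q : Polynomial ℂ := aeval (fun j => Polynomial.C (s₁ * x j) + Polynomial.X * Polynomial.C (y j)) F
      have keyQ : ∀ r : ℂ, Polynomial.eval r Q = aeval (fun j => s₁ * x j + r * y j) F := by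
        intro r
        have h1 : (Polynomial.aeval r : Polynomial ℂ →ₐ[ℂ] ℂ).comp
            (aeval (fun j => Polynomial.C (s₁ * x j) + Polynomial.X * Polynomial.C (y j))) =
            aeval (fun j => s₁ * x j + r * y j) := by
          apply MvPolynomial.algHom_ext
          intro j
          simp
          ring
        have h2 := DFunLike.congr_fun h1 F
        rw [← h2]
        simp [Q, Polynomial.coe_aeval_eq_eval]
      have hQ : Q = 0 := by
        apply Polynomial.eq_zero_of_infinite_isRoot
        refine Set.Infinite.mono (s := {0}ᶜ) ?_ (Set.finite_singleton (0 : ℂ)).infinite_compl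
        intro r hr
        have hr0 : r ≠ 0 := hr
        show Q.IsRoot r
        rw [Polynomial.IsRoot.def, keyQ]
        have h2 := key (R := ℂ) (s₁ / r)
        rw [h0, map_zero] at h2
        have h3 : (fun j => s₁ * x j + r * y j) = fun j => r * (s₁ / r * x j + y j) := by
          funext j
          field_simp
        have h4 := pen_hom (k := ℂ) hF r (fun j => s₁ / r * x j + y j)
        rw [h3, h4]
        have h5 : aeval (fun j => s₁ / r * x j + y j) F = 0 := h2.symm
        rw [h5, mul_zero]
      apply h1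
      have h6 := keyQ t₁
      rw [hQ, Polynomial.eval_zero] at h6
      exact h6.symm
    have h1 : IsAlgebraic ℂ (s / t) := by
      refine ⟨P, hP, ?_⟩
      rw [key]
      have h3 : (fun j => s * algebraMap ℂ k (x j) + t * algebraMap ℂ k (y j)) =
          fun j => t * (s / t * algebraMap ℂ k (x j) + algebraMap ℂ k (y j)) := by
        funext j
        field_simp
      rw [h3, pen_hom hF] at h
      exact (mul_eq_zero.1 h).resolve_left (pow_ne_zero _ ht)
    obtain ⟨r, hr⟩ := pen_alg h1
    refine ⟨t, fun j => r * x j + y j, ht, fun j => ?_⟩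
    rw [map_add, map_mul, ← hr]
    field_simp

/-- `N = x₀ e 0 + x₁ e 1`, `(x₀, x₁) ≠ 0` a root of `quad c`: `F (N) = 0` and `∇F (N) · e i = 0` for all `i` (derivatives of
`Sect.eq`), so `u = ∇F (N) ≠ 0` (smoothness) is the form of the plane. If `N ∈ ⟨x, y⟩`: the
binary quartic form `F (s x + t y)` over `ℂ` is nonzero (`NoLine`), so `N` is proportional to a complex vector, and
`u` too: against `Moving`. Otherwise let `D` be the derivation of `k` with `D T = 1`: `0 = D (F (N)) = u · D N`,
so `D u · N = 0`, and `D u · x = D u · y = 0`; so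
`D u` is proportional to `u`; normalise a coordinate of `u` to `1`: `D u = 0`, `u` complex, against `Moving`. -/
theorem no_pencil {F : MvPolynomial (Fin 4) ℂ} (hF : F.IsHomogeneous 4) (hs : Pool.Agent.DS.Smooth F)
    (hl : NoLine F) (T : k) (hT : Base T) (e : Fin 3 → Fin 4 → k) (c : Fin 3 → k) (g : k) (b : Fin 2 → k)
    (A : MvPolynomial (Fin 3) k) (hS : Sect F e c g b A) (hm : Moving e) (x y : Fin 4 → ℂ)
    (hxy : LinearIndependent ℂ ![x, y]) (p q : Fin 3 → k)
    (hx : ∀ j, algebraMap ℂ k (x j) = ∑ i, p i * e i j)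
    (hy : ∀ j, algebraMap ℂ k (y j) = ∑ i, q i * e i j) : False := by
  obtain ⟨N, hN0, hFN, hN⟩ := pen_point e c g b A hS
  obtain ⟨u, hu⟩ : ∃ u : Fin 4 → k, ∀ j, u j = aeval N (pderiv j F) := ⟨_, fun _ => rfl⟩
  have hue : ∀ i, ∑ j, u j * e i j = 0 := by
    intro i
    rw [← hN i]
    exact Finset.sum_congr rfl fun j _ => by rw [hu]; ring
  have hu0 : u ≠ 0 := by
    intro h0
    apply hN0
    apply hs.up
    intro j
    rw [← hu, h0, Pi.zero_apply]
  have hspan : ∀ (p : Fin 3 → k) (z : Fin 4 → k), (∀ j, z j = ∑ i, p i * e i j) → ∑ j, u j * z j = 0 := by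
    intro p z hz
    have h1 : ∑ j, u j * z j = ∑ i, p i * ∑ j, u j * e i j := by
      simp only [hz, Finset.mul_sum]
      rw [Finset.sum_comm]
      exact Finset.sum_congr rfl fun i _ => Finset.sum_congr rfl fun j _ => by ring
    rw [h1]
    exact Finset.sum_eq_zero fun i _ => by rw [hue i, mul_zero]
  have hux := hspan p _ hx
  have huy := hspan q _ hy
  -- Euler
  have huN : ∑ j, u j * N j = 0 := by
    have h1 := hF.sum_X_mul_pderiv
    have h2 := congrArg (fun G => aeval N G) h1
    simp only [map_sum, map_mul, aeval_X, map_nsmul, hFN, smul_zero] at h2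
    rw [← h2]
    exact Finset.sum_congr rfl fun j _ => by rw [hu]; ring
  by_cases hcase : ∃ s t : k, ∀ j, N j = s * algebraMap ℂ k (x j) + t * algebraMap ℂ k (y j)
  · obtain ⟨s, t, hst⟩ := hcase
    have hne : s ≠ 0 ∨ t ≠ 0 := by
      by_contra hc
      push Not at hc
      apply hN0
      funext j
      rw [hst, hc.1, hc.2]
      simp
    have hF' : aeval (fun j => s * algebraMap ℂ k (x j) + t * algebraMap ℂ k (y j)) F = 0 := by
      have h1 : (fun j => s * algebraMap ℂ k (x j) + t * algebraMap ℂ k (y j)) = N := by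
        funext j
        exact (hst j).symm
      rw [h1, hFN]
    obtain ⟨a, z, ha, hz⟩ := pen_zero hF hl x y hxy s t hne hF'
    have hNz : N = fun j => a * algebraMap ℂ k (z j) := by
      funext j
      rw [hst, hz]
    have huz : ∀ j, u j = a ^ 3 * algebraMap ℂ k (aeval z (pderiv j F)) := by
      intro j
      rw [hu, hNz, pen_hom (hF.pderiv (i := j))]
      congr 1
      exact MvPolynomial.aeval_algebraMap_apply k z (pderiv j F)
    have h1 : (fun j => aeval z (pderiv j F)) = 0 := by
      apply hm
      intro i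
      have h2 := hue i
      have h3 : ∑ j, u j * e i j = a ^ 3 * ∑ j, algebraMap ℂ k (aeval z (pderiv j F)) * e i j := by
        rw [Finset.mul_sum]
        exact Finset.sum_congr rfl fun j _ => by rw [huz]; ring
      rw [h3] at h2
      exact (mul_eq_zero.1 h2).resolve_left (pow_ne_zero _ ha)
    have h4 : z = 0 := hs z fun j => congrFun h1 j
    apply hN0
    rw [hNz, h4]
    funext j
    simp
  · push Not at hcase
    obtain ⟨D, hD⟩ := Pool.Agent.Campana.exists_derivation (k := ℂ) (fun _ : Fin 1 => T)
      (by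
        rw [algebraicIndependent_unique_type_iff]
        exact hT.tr) (fun _ => 1)
    have hDT : D T = 1 := hD 0
    -- derivative of `F (N)`
    have h1 : ∑ j, D (N j) * u j = 0 := by
      have h2 := Pool.Agent.DS.chain D N F
      rw [hFN, map_zero] at h2
      rw [h2]
      exact Finset.sum_congr rfl fun j _ => by rw [hu]
    have hDN : ∑ j, D (u j) * N j = 0 := by
      have h2 := congrArg D huN
      rw [map_sum, map_zero] at h2
      have h3 : ∑ j, D (u j * N j) = ∑ j, D (u j) * N j + ∑ j, D (N j) * u j := by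
        rw [← Finset.sum_add_distrib]
        exact Finset.sum_congr rfl fun j _ => by
          rw [Derivation.leibniz, smul_eq_mul, smul_eq_mul]; ring
      rw [h3, h1, add_zero] at h2
      exact h2
    have hDc : ∀ z : Fin 4 → ℂ, ∑ j, u j * algebraMap ℂ k (z j) = 0 →
        ∑ j, D (u j) * algebraMap ℂ k (z j) = 0 := by
      intro z hz
      have h2 := congrArg D hz
      rw [map_sum, map_zero] at h2
      rw [← h2]
      exact Finset.sum_congr rfl fun j _ => by
        rw [Derivation.leibniz, D.map_algebraMap, smul_eq_mul, smul_eq_mul]; ring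
    obtain ⟨j₀, hj₀⟩ := Function.ne_iff.1 hu0
    have h5 := pen_lin N (fun j => algebraMap ℂ k (x j)) (fun j => algebraMap ℂ k (y j)) u
      (fun j => D (u j)) j₀ hj₀ hcase (fun s t h => pen_ind x y hxy s t h) huN hux huy hDN
      (hDc x hux) (hDc y huy)
    have h6 : ∀ j, ∃ r : ℂ, u j / u j₀ = algebraMap ℂ k r := by
      intro j
      apply pen_const T hT D hDT
      rw [Derivation.leibniz_div]
      have h7 := h5 j
      have h8 : u j₀ • D (u j) - u j • D (u j₀) = 0 := by
        rw [smul_eq_mul, smul_eq_mul]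
        linear_combination h7
      rw [h8, smul_zero]
    choose v hv using h6
    have h9 : v = 0 := by
      apply hm
      intro i
      have h10 : ∑ j, algebraMap ℂ k (v j) * e i j = (u j₀)⁻¹ * ∑ j, u j * e i j := by
        rw [Finset.mul_sum]
        exact Finset.sum_congr rfl fun j _ => by rw [← hv]; field_simp
      rw [h10, hue i, mul_zero]
    have h11 := hv j₀
    rw [h9, div_self hj₀] at h11
    simp at h11

end Pool.Agent.QX.X92
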